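import Pool.Agent.Lib.MP_e6ed9e_al.EX.Defs67

/-!
# Row DEC: decomposable alternating matrices
-/

namespace SpreadPerm.EX.Dec77

open Matrix SpreadPerm.EX

variable {F : Type} [Field F]

lemma wedge_apply (y z : Fin 6 → F) (k l : Fin 6) : wedge y z k l = y k * z l - z k * y l := by
  simp [wedge, vecMulVec_apply]

/-- The four parameters of a decomposition. -/
noncomputable def eqv (b : Matrix (Fin 6) (Fin 6) F) (hb : Alt b) (h0 : ∀ i j k l, pf b i j k l = 0)
    (i j : Fin 6) (hij : b i j ≠ 0) :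
    {p : (Fin 6 → F) × (Fin 6 → F) // wedge p.1 p.2 = b} ≃
      {x : (F × F) × (F × F) // x.1.1 * x.2.2 - x.1.2 * x.2.1 = b i j} where
  toFun p := ⟨((p.1.1 i, p.1.1 j), (p.1.2 i, p.1.2 j)), by
    have := congrFun (congrFun p.2 i) j
    rw [wedge_apply] at this
    rw [← this]
    ring⟩
  invFun x := ⟨(fun k => (b i j)⁻¹ * (x.1.1.2 * b i k - x.1.1.1 * b j k),
      fun k => (b i j)⁻¹ * (x.1.2.2 * b i k - x.1.2.1 * b j k)), by
    funext k l
    rw [wedge_apply]
    have h1 := h0 i j k l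
    rw [pf] at h1
    have h2 := x.2
    have h3 : b k l = (b i j)⁻¹ * (b i k * b j l - b i l * b j k) := by
      rw [eq_inv_mul_iff_mul_eq₀ hij]
      linear_combination h1
    rw [h3]
    have h4 : (b i j)⁻¹ * (x.1.1.2 * b i k - x.1.1.1 * b j k) *
        ((b i j)⁻¹ * (x.1.2.2 * b i l - x.1.2.1 * b j l)) -
        (b i j)⁻¹ * (x.1.2.2 * b i k - x.1.2.1 * b j k) *
        ((b i j)⁻¹ * (x.1.1.2 * b i l - x.1.1.1 * b j l)) =
        (b i j)⁻¹ * ((b i j)⁻¹ * (x.1.1.1 * x.1.2.2 - x.1.1.2 * x.1.2.1)) *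
          (b i k * b j l - b i l * b j k) := by ring
    rw [h4, h2, inv_mul_cancel₀ hij, mul_one]⟩
  left_inv p := by
    obtain ⟨⟨y, z⟩, hp⟩ := p
    have hw : ∀ k l, y k * z l - z k * y l = b k l := fun k l => by
      rw [← wedge_apply]
      exact congrFun (congrFun hp k) l
    apply Subtype.ext
    refine Prod.ext (funext fun k => ?_) (funext fun k => ?_)
    · show (b i j)⁻¹ * (y j * b i k - y i * b j k) = y k
      rw [inv_mul_eq_iff_eq_mul₀ hij, ← hw i k, ← hw j k, ← hw i j]
      ring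
    · show (b i j)⁻¹ * (z j * b i k - z i * b j k) = z k
      rw [inv_mul_eq_iff_eq_mul₀ hij, ← hw i k, ← hw j k, ← hw i j]
      ring
  right_inv x := by
    obtain ⟨⟨⟨s, t⟩, ⟨s', t'⟩⟩, hx⟩ := x
    have hii : b i i = 0 := hb.1 i
    have hjj : b j j = 0 := hb.1 j
    have hji : b j i = -b i j := hb.2 j i
    apply Subtype.ext
    refine Prod.ext (Prod.ext ?_ ?_) (Prod.ext ?_ ?_)
    · show (b i j)⁻¹ * (t * b i i - s * b j i) = s
      rw [inv_mul_eq_iff_eq_mul₀ hij, hii, hji]
      ring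
    · show (b i j)⁻¹ * (t * b i j - s * b j j) = t
      rw [inv_mul_eq_iff_eq_mul₀ hij, hjj]
      ring
    · show (b i j)⁻¹ * (t' * b i i - s' * b j i) = s'
      rw [inv_mul_eq_iff_eq_mul₀ hij, hii, hji]
      ring
    · show (b i j)⁻¹ * (t' * b i j - s' * b j j) = t'
      rw [inv_mul_eq_iff_eq_mul₀ hij, hjj]
      ring

open Classical in
/-- Pairs of vectors of the plane with given determinant. -/
noncomputable def eqv2 (β : F) (hβ : β ≠ 0) :
    {x : (F × F) × (F × F) // x.1.1 * x.2.2 - x.1.2 * x.2.1 = β} ≃ {v : F × F // v ≠ 0} × F where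
  toFun x := (⟨x.1.1, by
    intro h
    have h2 := x.2
    rw [h] at h2
    simp at h2
    exact hβ h2.symm⟩, if x.1.1.1 = 0 then x.1.2.2 else x.1.2.1)
  invFun w := ⟨(w.1.1, if w.1.1.1 = 0 then (-(β / w.1.1.2), w.2) else
      (w.2, (β + w.1.1.2 * w.2) / w.1.1.1)), by
    obtain ⟨⟨⟨s, t⟩, hv⟩, c⟩ := w
    show s * (if s = 0 then (-(β / t), c) else (c, (β + t * c) / s)).2 -
      t * (if s = 0 then (-(β / t), c) else (c, (β + t * c) / s)).1 = β
    by_cases hs : s = 0
    · have ht : t ≠ 0 := by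
        intro ht
        exact hv (Prod.ext hs ht)
      rw [if_pos hs]
      simp only [hs]
      field_simp
      ring
    · rw [if_neg hs]
      field_simp
      ring⟩
  left_inv x := by
    obtain ⟨⟨⟨s, t⟩, ⟨s', t'⟩⟩, hx⟩ := x
    simp only at hx
    apply Subtype.ext
    refine Prod.ext rfl ?_
    show (if s = 0 then (-(β / t), (if s = 0 then t' else s')) else
      ((if s = 0 then t' else s'), (β + t * (if s = 0 then t' else s')) / s)) = (s', t')
    by_cases hs : s = 0
    · rw [if_pos hs, if_pos hs]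
      have ht : t ≠ 0 := by
        intro ht
        apply hβ
        rw [← hx, hs, ht]
        ring
      refine Prod.ext ?_ rfl
      show -(β / t) = s'
      rw [← hx, hs]
      field_simp
      ring
    · rw [if_neg hs, if_neg hs]
      refine Prod.ext rfl ?_
      show (β + t * s') / s = t'
      rw [← hx]
      field_simp
      ring
  right_inv w := by
    obtain ⟨⟨⟨s, t⟩, hv⟩, c⟩ := w
    refine Prod.ext (Subtype.ext rfl) ?_
    show (if s = 0 then (if s = 0 then (-(β / t), c) else (c, (β + t * c) / s)).2 else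
      (if s = 0 then (-(β / t), c) else (c, (β + t * c) / s)).1) = c
    by_cases hs : s = 0
    · rw [if_pos hs, if_pos hs]
    · rw [if_neg hs, if_neg hs]

theorem dec77 : StDec := by
  intro F _ _ b hb hb0 h0
  have hex : ∃ i j, b i j ≠ 0 := by
    by_contra hne
    push Not at hne
    exact hb0 (by funext i j; exact hne i j)
  obtain ⟨i, j, hij⟩ := hex
  classical
  haveI : Fintype F := Fintype.ofFinite F
  rw [Nat.card_congr ((eqv b hb h0 i j hij).trans (eqv2 (b i j) hij)), Nat.card_prod]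
  have hc : Nat.card {v : F × F // v ≠ 0} = Nat.card F ^ 2 - 1 := by
    rw [Nat.card_eq_fintype_card, Fintype.card_subtype_compl, Nat.card_eq_fintype_card,
      Fintype.card_prod]
    simp [sq]
  rw [hc, Nat.sub_mul, one_mul]
  congr 1

end SpreadPerm.EX.Dec77
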