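import Mathlib
import Pool.Agent.Lib.MP_e6ed9e_al.Polar.Glue88

/-!
# The points of the exceptional group `E_6` (the variety of the cubic form in 27 variables)

`V = F^6 × Λ^2 × F^6`, cubic form `N (w, b, u) = Pf b - w^T b u`; a vector is white if the
differential of `N` vanishes there. Definitions and rows.
-/

namespace SpreadPerm.EX

open Matrix

noncomputable section

variable {F : Type} [Field F]

/-- The Pfaffian of a four by four submatrix. -/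
def pf (b : Matrix (Fin 6) (Fin 6) F) (i j k l : Fin 6) : F :=
  b i j * b k l - b i k * b j l + b i l * b j k

/-- The Pfaffian of an alternating six by six matrix. -/
def Pf (b : Matrix (Fin 6) (Fin 6) F) : F :=
  b 0 1 * pf b 2 3 4 5 - b 0 2 * pf b 1 3 4 5 + b 0 3 * pf b 1 2 4 5 - b 0 4 * pf b 1 2 3 5 +
    b 0 5 * pf b 1 2 3 4

/-- The alternating matrix `x ∧ y`. -/
def wedge (x y : Fin 6 → F) : Matrix (Fin 6) (Fin 6) F := vecMulVec x y - vecMulVec y x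

/-- Alternating matrices. -/
def Alt (b : Matrix (Fin 6) (Fin 6) F) : Prop := (∀ i, b i i = 0) ∧ ∀ i j, b i j = -b j i

/-- The space of dimension 27 (together with all matrices in the middle). -/
abbrev V (F : Type) : Type := (Fin 6 → F) × Matrix (Fin 6) (Fin 6) F × (Fin 6 → F)

/-- White vectors: the differential of the cubic form `Pf b - w^T b u` vanishes at `(w, b, u)`. -/
def White (x : V F) : Prop :=
  Alt x.2.1 ∧ x.2.1 *ᵥ x.1 = 0 ∧ x.2.1 *ᵥ x.2.2 = 0 ∧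
    ∀ y z : Fin 6 → F, Pf (x.2.1 + wedge y z) =
      Pf x.2.1 + ((y ⬝ᵥ x.1) * (z ⬝ᵥ x.2.2) - (y ⬝ᵥ x.2.2) * (z ⬝ᵥ x.1))

/-- The pairing of alternating matrices. -/
def pair (c b : Matrix (Fin 6) (Fin 6) F) : F := ∑ i, ∑ j, if i < j then c i j * b i j else 0

/-- The value of the linear form `l = (a, c, d)` at `x = (w, b, u)`. -/
def ev (l x : V F) : F := l.1 ⬝ᵥ x.1 + pair l.2.1 x.2.1 + l.2.2 ⬝ᵥ x.2.2

/-- The dual cubic form. -/
def Nd (l : V F) : F := Pf l.2.1 - l.1 ⬝ᵥ (l.2.1 *ᵥ l.2.2)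

/-! ## Rows -/

/-- PF0: vanishing of all four-Pfaffians. -/
def StPf0 : Prop := ∀ (F : Type) [Field F] (b : Matrix (Fin 6) (Fin 6) F), Alt b →
  ((∀ y z : Fin 6 → F, Pf (b + wedge y z) = Pf b) ↔ ∀ i j k l, pf b i j k l = 0)

/-- DEC: decomposable matrices. -/
def StDec : Prop := ∀ (F : Type) [Field F] [Finite F] (b : Matrix (Fin 6) (Fin 6) F), Alt b →
  b ≠ 0 → (∀ i j k l, pf b i j k l = 0) →
  Nat.card {p : (Fin 6 → F) × (Fin 6 → F) // wedge p.1 p.2 = b} = Nat.card F ^ 3 - Nat.card F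

/-- UU: the white vectors with given `u`. -/
def StU : Prop := ∀ (F : Type) [Field F] [Finite F] (u : Fin 6 → F), u ≠ 0 →
  Nat.card {x : (Fin 6 → F) × Matrix (Fin 6) (Fin 6) F // White (x.1, x.2, u)} = Nat.card F ^ 11

/-- UC: the same with one linear condition. -/
def StUc : Prop := ∀ (F : Type) [Field F] [Finite F] (c : Matrix (Fin 6) (Fin 6) F), Alt c →
  (∀ y, c *ᵥ y = 0 → y = 0) → ∀ (u : Fin 6 → F), u ≠ 0 →
  Nat.card {x : (Fin 6 → F) × Matrix (Fin 6) (Fin 6) F // White (x.1, x.2, u) ∧ pair c x.2 = 0} =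
    Nat.card F ^ 10

/-- SEC: hyperplane sections of the hyperbolic quadric. -/
def StSec : Prop := ∀ (F : Type) [Field F] [Finite F] (y a f : Fin 6 → F), y ≠ 0 → f ⬝ᵥ y = 0 →
  (f ≠ 0 ∨ ∀ t : F, a ≠ t • y) →
  Nat.card {p : (Fin 6 → F) × (Fin 6 → F) // p.1 ⬝ᵥ y = 0 ∧ p.1 ⬝ᵥ p.2 = 0 ∧
    a ⬝ᵥ p.1 + f ⬝ᵥ p.2 = 0} =
  Nat.card F ^ 9 + Set.indicator {f : Fin 6 → F | a ⬝ᵥ f = 0}
    (fun _ => Nat.card F ^ 6 - Nat.card F ^ 5) f

/-- TOT: the hyperbolic quadric. -/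
def StTot : Prop := ∀ (F : Type) [Field F] [Finite F] (y : Fin 6 → F), y ≠ 0 →
  Nat.card {p : (Fin 6 → F) × (Fin 6 → F) // p.1 ⬝ᵥ y = 0 ∧ p.1 ⬝ᵥ p.2 = 0} =
  Nat.card F ^ 10 + Nat.card F ^ 6 - Nat.card F ^ 5

/-- REG: what nonzero value of the dual cubic form means. -/
def StReg : Prop := ∀ (F : Type) [Field F] (l : V F), Alt l.2.1 → Nd l ≠ 0 →
  (l.1 ≠ 0 → l.2.1 *ᵥ l.1 ≠ 0) ∧ (l.1 = 0 → ∀ y, l.2.1 *ᵥ y = 0 → y = 0)

end

end SpreadPerm.EX
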