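import Mathlib
import Pool.Agent.Lib.MP_e6ed9e_al.EX.Defs67

/-!
# Row PF0: the differential of the Pfaffian vanishes iff all four-Pfaffians vanish
-/

namespace SpreadPerm.EX.Pf016

open Matrix

variable {F : Type} [Field F]

theorem expand (b : Matrix (Fin 6) (Fin 6) F) (y z : Fin 6 → F) :
    Pf (b + wedge y z) = Pf b
      + pf b 2 3 4 5 * (y 0 * z 1 - z 0 * y 1) - pf b 1 3 4 5 * (y 0 * z 2 - z 0 * y 2)
      + pf b 1 2 4 5 * (y 0 * z 3 - z 0 * y 3) - pf b 1 2 3 5 * (y 0 * z 4 - z 0 * y 4)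
      + pf b 1 2 3 4 * (y 0 * z 5 - z 0 * y 5)
      + pf b 0 3 4 5 * (y 1 * z 2 - z 1 * y 2) - pf b 0 2 4 5 * (y 1 * z 3 - z 1 * y 3)
      + pf b 0 2 3 5 * (y 1 * z 4 - z 1 * y 4) - pf b 0 2 3 4 * (y 1 * z 5 - z 1 * y 5)
      + pf b 0 1 4 5 * (y 2 * z 3 - z 2 * y 3) - pf b 0 1 3 5 * (y 2 * z 4 - z 2 * y 4)
      + pf b 0 1 3 4 * (y 2 * z 5 - z 2 * y 5)
      + pf b 0 1 2 5 * (y 3 * z 4 - z 3 * y 4) - pf b 0 1 2 4 * (y 3 * z 5 - z 3 * y 5)
      + pf b 0 1 2 3 * (y 4 * z 5 - z 4 * y 5) := by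
  simp only [Pf, pf, wedge, Matrix.add_apply, Matrix.sub_apply, vecMulVec_apply]
  ring

section
variable {b : Matrix (Fin 6) (Fin 6) F} (hb : Alt b)
include hb

theorem swap12 (i j k l : Fin 6) : pf b j i k l = - pf b i j k l := by
  unfold pf; rw [hb.2 j i]; ring

theorem swap34 (i j k l : Fin 6) : pf b i j l k = - pf b i j k l := by
  unfold pf; rw [hb.2 l k]; ring

theorem swap23 (i j k l : Fin 6) : pf b i k j l = - pf b i j k l := by
  unfold pf; rw [hb.2 k j]; ring

theorem z12 (i k l : Fin 6) : pf b i i k l = 0 := by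
  unfold pf; rw [hb.1 i]; ring

theorem z23 (i j l : Fin 6) : pf b i j j l = 0 := by
  unfold pf; rw [hb.1 j]; ring

theorem z34 (i j k : Fin 6) : pf b i j k k = 0 := by
  unfold pf; rw [hb.1 k]; ring

theorem all_of_sorted (h : ∀ i j k l : Fin 6, i < j → j < k → k < l → pf b i j k l = 0) :
    ∀ i j k l : Fin 6, pf b i j k l = 0 := by
  have h3 : ∀ i j k : Fin 6, i < j → j < k → ∀ l, pf b i j k l = 0 := by
    intro i j k hij hjk l
    rcases lt_trichotomy k l with h1 | rfl | h1
    · exact h i j k l hij hjk h1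
    · exact z34 hb _ _ _
    · rw [swap34 hb i j l k, neg_eq_zero]
      rcases lt_trichotomy j l with h2 | rfl | h2
      · exact h i j l k hij h2 h1
      · exact z23 hb _ _ _
      · rw [swap23 hb i l j k, neg_eq_zero]
        rcases lt_trichotomy i l with h3 | rfl | h3
        · exact h i l j k h3 h2 hjk
        · exact z12 hb _ _ _
        · rw [swap12 hb l i j k, neg_eq_zero]
          exact h l i j k h3 hij hjk
  have h2 : ∀ i j : Fin 6, i < j → ∀ k l, pf b i j k l = 0 := by
    intro i j hij k l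
    rcases lt_trichotomy j k with h1 | rfl | h1
    · exact h3 i j k hij h1 l
    · exact z23 hb _ _ _
    · rw [swap23 hb i k j l, neg_eq_zero]
      rcases lt_trichotomy i k with h2 | rfl | h2
      · exact h3 i k j h2 h1 l
      · exact z12 hb _ _ _
      · rw [swap12 hb k i j l, neg_eq_zero]
        exact h3 k i j h2 hij l
  intro i j k l
  rcases lt_trichotomy i j with h1 | rfl | h1
  · exact h2 i j h1 k l
  · exact z12 hb _ _ _
  · rw [swap12 hb j i k l, neg_eq_zero]
    exact h2 j i h1 k l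

end

end SpreadPerm.EX.Pf016

namespace SpreadPerm.EX

open Matrix Pf016

/-- row PF0 -/
theorem pf0_16 : StPf0 := by
  intro F _ b hb
  constructor
  · intro h
    have h1 : ∀ i j : Fin 6, Pf (b + wedge (Pi.single i (1 : F)) (Pi.single j (1 : F))) - Pf b = 0 :=
      fun i j => by rw [h, sub_self]
    apply all_of_sorted hb
    intro i j k l hij hjk hkl
    have h01 := h1 0 1
    have h02 := h1 0 2
    have h03 := h1 0 3
    have h04 := h1 0 4
    have h05 := h1 0 5
    have h12 := h1 1 2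
    have h13 := h1 1 3
    have h14 := h1 1 4
    have h15 := h1 1 5
    have h23 := h1 2 3
    have h24 := h1 2 4
    have h25 := h1 2 5
    have h34 := h1 3 4
    have h35 := h1 3 5
    have h45 := h1 4 5
    rw [expand] at h01 h02 h03 h04 h05 h12 h13 h14 h15 h23 h24 h25 h34 h35 h45
    simp at h01 h02 h03 h04 h05 h12 h13 h14 h15 h23 h24 h25 h34 h35 h45
    fin_cases i <;> fin_cases j <;> first | exact absurd hij (by decide) | skip
    all_goals (fin_cases k <;> first | exact absurd hjk (by decide) | skip)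
    all_goals (fin_cases l <;> first | exact absurd hkl (by decide) | assumption)
  · intro h y z
    rw [expand]
    simp only [h, zero_mul, add_zero, sub_zero]

end SpreadPerm.EX
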