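import Pool.Agent.Lib.MP_e6ed9e_al.EX.Defs67

/-!
# Row REG: what a nonzero value of the dual cubic form means
-/

namespace SpreadPerm.EX.Reg77

open Matrix SpreadPerm.EX

variable {F : Type} [Field F]

lemma coord0 (c : Matrix (Fin 6) (Fin 6) F) (hc : Alt c) (y : Fin 6 → F) :
    pf c 2 3 4 5 * (c *ᵥ y) 1 - pf c 1 3 4 5 * (c *ᵥ y) 2 + pf c 1 2 4 5 * (c *ᵥ y) 3 - pf c 1 2 3 5 * (c *ᵥ y) 4 + pf c 1 2 3 4 * (c *ᵥ y) 5 = -(Pf c * y 0) := by
  have h10 := hc.2 1 0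
  have h20 := hc.2 2 0
  have h21 := hc.2 2 1
  have h30 := hc.2 3 0
  have h31 := hc.2 3 1
  have h32 := hc.2 3 2
  have h40 := hc.2 4 0
  have h41 := hc.2 4 1
  have h42 := hc.2 4 2
  have h43 := hc.2 4 3
  have h50 := hc.2 5 0
  have h51 := hc.2 5 1
  have h52 := hc.2 5 2
  have h53 := hc.2 5 3
  have h54 := hc.2 5 4
  have z0 := hc.1 0
  have z1 := hc.1 1
  have z2 := hc.1 2
  have z3 := hc.1 3
  have z4 := hc.1 4
  have z5 := hc.1 5
  simp only [mulVec, dotProduct, Fin.sum_univ_six, pf, Pf]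
  simp only [h10, h20, h21, h30, h31, h32, h40, h41, h42, h43, h50, h51, h52, h53, h54, z0, z1, z2, z3, z4, z5]
  ring

lemma coord1 (c : Matrix (Fin 6) (Fin 6) F) (hc : Alt c) (y : Fin 6 → F) :
    -(pf c 2 3 4 5 * (c *ᵥ y) 0) + pf c 0 3 4 5 * (c *ᵥ y) 2 - pf c 0 2 4 5 * (c *ᵥ y) 3 + pf c 0 2 3 5 * (c *ᵥ y) 4 - pf c 0 2 3 4 * (c *ᵥ y) 5 = -(Pf c * y 1) := by
  have h10 := hc.2 1 0
  have h20 := hc.2 2 0
  have h21 := hc.2 2 1
  have h30 := hc.2 3 0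
  have h31 := hc.2 3 1
  have h32 := hc.2 3 2
  have h40 := hc.2 4 0
  have h41 := hc.2 4 1
  have h42 := hc.2 4 2
  have h43 := hc.2 4 3
  have h50 := hc.2 5 0
  have h51 := hc.2 5 1
  have h52 := hc.2 5 2
  have h53 := hc.2 5 3
  have h54 := hc.2 5 4
  have z0 := hc.1 0
  have z1 := hc.1 1
  have z2 := hc.1 2
  have z3 := hc.1 3
  have z4 := hc.1 4
  have z5 := hc.1 5
  simp only [mulVec, dotProduct, Fin.sum_univ_six, pf, Pf]
  simp only [h10, h20, h21, h30, h31, h32, h40, h41, h42, h43, h50, h51, h52, h53, h54, z0, z1, z2, z3, z4, z5]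
  ring

lemma coord2 (c : Matrix (Fin 6) (Fin 6) F) (hc : Alt c) (y : Fin 6 → F) :
    pf c 1 3 4 5 * (c *ᵥ y) 0 - pf c 0 3 4 5 * (c *ᵥ y) 1 + pf c 0 1 4 5 * (c *ᵥ y) 3 - pf c 0 1 3 5 * (c *ᵥ y) 4 + pf c 0 1 3 4 * (c *ᵥ y) 5 = -(Pf c * y 2) := by
  have h10 := hc.2 1 0
  have h20 := hc.2 2 0
  have h21 := hc.2 2 1
  have h30 := hc.2 3 0
  have h31 := hc.2 3 1
  have h32 := hc.2 3 2
  have h40 := hc.2 4 0
  have h41 := hc.2 4 1
  have h42 := hc.2 4 2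
  have h43 := hc.2 4 3
  have h50 := hc.2 5 0
  have h51 := hc.2 5 1
  have h52 := hc.2 5 2
  have h53 := hc.2 5 3
  have h54 := hc.2 5 4
  have z0 := hc.1 0
  have z1 := hc.1 1
  have z2 := hc.1 2
  have z3 := hc.1 3
  have z4 := hc.1 4
  have z5 := hc.1 5
  simp only [mulVec, dotProduct, Fin.sum_univ_six, pf, Pf]
  simp only [h10, h20, h21, h30, h31, h32, h40, h41, h42, h43, h50, h51, h52, h53, h54, z0, z1, z2, z3, z4, z5]
  ring

lemma coord3 (c : Matrix (Fin 6) (Fin 6) F) (hc : Alt c) (y : Fin 6 → F) :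
    -(pf c 1 2 4 5 * (c *ᵥ y) 0) + pf c 0 2 4 5 * (c *ᵥ y) 1 - pf c 0 1 4 5 * (c *ᵥ y) 2 + pf c 0 1 2 5 * (c *ᵥ y) 4 - pf c 0 1 2 4 * (c *ᵥ y) 5 = -(Pf c * y 3) := by
  have h10 := hc.2 1 0
  have h20 := hc.2 2 0
  have h21 := hc.2 2 1
  have h30 := hc.2 3 0
  have h31 := hc.2 3 1
  have h32 := hc.2 3 2
  have h40 := hc.2 4 0
  have h41 := hc.2 4 1
  have h42 := hc.2 4 2
  have h43 := hc.2 4 3
  have h50 := hc.2 5 0
  have h51 := hc.2 5 1
  have h52 := hc.2 5 2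
  have h53 := hc.2 5 3
  have h54 := hc.2 5 4
  have z0 := hc.1 0
  have z1 := hc.1 1
  have z2 := hc.1 2
  have z3 := hc.1 3
  have z4 := hc.1 4
  have z5 := hc.1 5
  simp only [mulVec, dotProduct, Fin.sum_univ_six, pf, Pf]
  simp only [h10, h20, h21, h30, h31, h32, h40, h41, h42, h43, h50, h51, h52, h53, h54, z0, z1, z2, z3, z4, z5]
  ring

lemma coord4 (c : Matrix (Fin 6) (Fin 6) F) (hc : Alt c) (y : Fin 6 → F) :
    pf c 1 2 3 5 * (c *ᵥ y) 0 - pf c 0 2 3 5 * (c *ᵥ y) 1 + pf c 0 1 3 5 * (c *ᵥ y) 2 - pf c 0 1 2 5 * (c *ᵥ y) 3 + pf c 0 1 2 3 * (c *ᵥ y) 5 = -(Pf c * y 4) := by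
  have h10 := hc.2 1 0
  have h20 := hc.2 2 0
  have h21 := hc.2 2 1
  have h30 := hc.2 3 0
  have h31 := hc.2 3 1
  have h32 := hc.2 3 2
  have h40 := hc.2 4 0
  have h41 := hc.2 4 1
  have h42 := hc.2 4 2
  have h43 := hc.2 4 3
  have h50 := hc.2 5 0
  have h51 := hc.2 5 1
  have h52 := hc.2 5 2
  have h53 := hc.2 5 3
  have h54 := hc.2 5 4
  have z0 := hc.1 0
  have z1 := hc.1 1
  have z2 := hc.1 2
  have z3 := hc.1 3
  have z4 := hc.1 4
  have z5 := hc.1 5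
  simp only [mulVec, dotProduct, Fin.sum_univ_six, pf, Pf]
  simp only [h10, h20, h21, h30, h31, h32, h40, h41, h42, h43, h50, h51, h52, h53, h54, z0, z1, z2, z3, z4, z5]
  ring

lemma coord5 (c : Matrix (Fin 6) (Fin 6) F) (hc : Alt c) (y : Fin 6 → F) :
    -(pf c 1 2 3 4 * (c *ᵥ y) 0) + pf c 0 2 3 4 * (c *ᵥ y) 1 - pf c 0 1 3 4 * (c *ᵥ y) 2 + pf c 0 1 2 4 * (c *ᵥ y) 3 - pf c 0 1 2 3 * (c *ᵥ y) 4 = -(Pf c * y 5) := by
  have h10 := hc.2 1 0
  have h20 := hc.2 2 0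
  have h21 := hc.2 2 1
  have h30 := hc.2 3 0
  have h31 := hc.2 3 1
  have h32 := hc.2 3 2
  have h40 := hc.2 4 0
  have h41 := hc.2 4 1
  have h42 := hc.2 4 2
  have h43 := hc.2 4 3
  have h50 := hc.2 5 0
  have h51 := hc.2 5 1
  have h52 := hc.2 5 2
  have h53 := hc.2 5 3
  have h54 := hc.2 5 4
  have z0 := hc.1 0
  have z1 := hc.1 1
  have z2 := hc.1 2
  have z3 := hc.1 3
  have z4 := hc.1 4
  have z5 := hc.1 5
  simp only [mulVec, dotProduct, Fin.sum_univ_six, pf, Pf]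
  simp only [h10, h20, h21, h30, h31, h32, h40, h41, h42, h43, h50, h51, h52, h53, h54, z0, z1, z2, z3, z4, z5]
  ring

/-- A vector in the kernel is killed by the Pfaffian. -/
theorem pf_ker (c : Matrix (Fin 6) (Fin 6) F) (hc : Alt c) (y : Fin 6 → F) (hy : c *ᵥ y = 0)
    (i : Fin 6) : Pf c * y i = 0 := by
  have h : ∀ j, (c *ᵥ y) j = 0 := fun j => congrFun hy j
  have e0 := coord0 c hc y
  have e1 := coord1 c hc y
  have e2 := coord2 c hc y
  have e3 := coord3 c hc y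
  have e4 := coord4 c hc y
  have e5 := coord5 c hc y
  simp only [h, mul_zero, add_zero, sub_zero, neg_zero] at e0 e1 e2 e3 e4 e5
  have f0 : Pf c * y 0 = 0 := by linear_combination e0
  have f1 : Pf c * y 1 = 0 := by linear_combination e1
  have f2 : Pf c * y 2 = 0 := by linear_combination e2
  have f3 : Pf c * y 3 = 0 := by linear_combination e3
  have f4 : Pf c * y 4 = 0 := by linear_combination e4
  have f5 : Pf c * y 5 = 0 := by linear_combination e5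
  fin_cases i
  · exact f0
  · exact f1
  · exact f2
  · exact f3
  · exact f4
  · exact f5

theorem ker_zero (c : Matrix (Fin 6) (Fin 6) F) (hc : Alt c) (h : Pf c ≠ 0) (y : Fin 6 → F)
    (hy : c *ᵥ y = 0) : y = 0 := by
  funext i
  exact (mul_eq_zero.1 (pf_ker c hc y hy i)).resolve_left h

/-- The form is alternating: the two sided product changes sign. -/
theorem dot_swap (c : Matrix (Fin 6) (Fin 6) F) (hc : Alt c) (a d : Fin 6 → F) :
    a ⬝ᵥ (c *ᵥ d) = -((c *ᵥ a) ⬝ᵥ d) := by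
  have ht : cᵀ = -c := by
    ext i j
    exact hc.2 j i
  rw [dotProduct_mulVec, ← mulVec_transpose, ht, neg_mulVec, neg_dotProduct]

theorem reg77 : StReg := by
  intro F _ l hl hN
  refine ⟨fun ha hca => ?_, fun ha y hy => ?_⟩
  · apply hN
    have hP : Pf l.2.1 = 0 := by
      by_contra hP
      exact ha (ker_zero l.2.1 hl hP l.1 hca)
    rw [Nd, hP, dot_swap l.2.1 hl, hca, zero_dotProduct]
    ring
  · apply ker_zero l.2.1 hl _ y hy
    intro hP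
    apply hN
    rw [Nd, hP, ha, zero_dotProduct]
    ring

end SpreadPerm.EX.Reg77
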