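import Mathlib
import Pool.Agent.Lib.MP_e6ed9e_al.EX.Defs67

/-! # Rows SEC and TOT -/

namespace SpreadPerm.EX

open Matrix

noncomputable section

/-- The fibres of a surjective homomorphism. -/
theorem fib97 {A B : Type} [AddCommGroup A] [AddCommGroup B] [Finite A] (f : A →+ B)
    (hf : Function.Surjective f) (b : B) :
    Nat.card {a : A // f a = b} * Nat.card B = Nat.card A := by
  obtain ⟨a0, ha0⟩ := hf b
  have e : {a : A // f a = b} ≃ f.ker :=
    { toFun := fun a => ⟨a.1 - a0, by rw [AddMonoidHom.mem_ker, map_sub, a.2, ha0, sub_self]⟩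
      invFun := fun k => ⟨k.1 + a0, by
        rw [map_add, ha0, (AddMonoidHom.mem_ker).1 k.2, zero_add]⟩
      left_inv := fun a => Subtype.ext (sub_add_cancel _ _)
      right_inv := fun k => Subtype.ext (add_sub_cancel_right _ _) }
  have h1 : f.ker.index = Nat.card B := by
    rw [AddSubgroup.index_ker, AddMonoidHom.range_eq_top.2 hf]
    exact Nat.card_congr AddSubgroup.topEquiv.toEquiv
  rw [Nat.card_congr e, ← h1]
  exact AddSubgroup.card_mul_index _

section
variable {F : Type} [Field F] [Finite F]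

omit [Field F] [Finite F] in
theorem card6_97 : Nat.card (Fin 6 → F) = Nat.card F ^ 6 := by
  rw [Nat.card_fun, Nat.card_eq_fintype_card (α := Fin 6), Fintype.card_fin]

theorem one97 (w : Fin 6 → F) (hw : w ≠ 0) (c : F) :
    Nat.card {z : Fin 6 → F // w ⬝ᵥ z = c} = Nat.card F ^ 5 := by
  obtain ⟨i, hi⟩ : ∃ i, w i ≠ 0 := by
    by_contra h
    push Not at h
    exact hw (funext h)
  have h := fib97 (A := Fin 6 → F) (B := F)
    { toFun := fun z => w ⬝ᵥ z
      map_zero' := dotProduct_zero _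
      map_add' := fun x y => dotProduct_add _ _ _ }
    (fun d => ⟨Pi.single i (d / w i), by
      show w ⬝ᵥ Pi.single i (d / w i) = d
      rw [dotProduct_single]
      field_simp⟩) c
  rw [card6_97] at h
  have hq : 0 < Nat.card F := Nat.card_pos
  have h2 : Nat.card {z : Fin 6 → F // w ⬝ᵥ z = c} * Nat.card F = Nat.card F ^ 5 * Nat.card F := by
    rw [← pow_succ]
    exact h
  exact Nat.eq_of_mul_eq_mul_right hq h2

theorem two97 (w f : Fin 6 → F) (hf : f ≠ 0) (hw : ∀ t : F, w ≠ t • f) (c d : F) :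
    Nat.card {z : Fin 6 → F // w ⬝ᵥ z = c ∧ f ⬝ᵥ z = d} = Nat.card F ^ 4 := by
  obtain ⟨j, hj⟩ : ∃ i, f i ≠ 0 := by
    by_contra h
    push Not at h
    exact hf (funext h)
  obtain ⟨i, hi⟩ : ∃ i, w i * f j - w j * f i ≠ 0 := by
    by_contra h
    push Not at h
    apply hw (w j / f j)
    funext i
    have h1 := h i
    rw [Pi.smul_apply, smul_eq_mul]
    field_simp
    linear_combination h1
  have h := fib97 (A := Fin 6 → F) (B := F × F)
    { toFun := fun z => (w ⬝ᵥ z, f ⬝ᵥ z)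
      map_zero' := by rw [dotProduct_zero, dotProduct_zero]; rfl
      map_add' := fun x y => by rw [dotProduct_add, dotProduct_add]; rfl }
    (fun p => ⟨Pi.single i ((p.1 * f j - p.2 * w j) / (w i * f j - w j * f i)) +
        Pi.single j ((w i * p.2 - f i * p.1) / (w i * f j - w j * f i)), by
      show (w ⬝ᵥ (_ + _), f ⬝ᵥ (_ + _)) = p
      rw [dotProduct_add, dotProduct_add, dotProduct_single, dotProduct_single,
        dotProduct_single, dotProduct_single]
      refine Prod.ext ?_ ?_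
      · dsimp only
        rw [mul_div_assoc', mul_div_assoc', ← add_div, div_eq_iff hi]
        ring
      · dsimp only
        rw [mul_div_assoc', mul_div_assoc', ← add_div, div_eq_iff hi]
        ring⟩) (c, d)
  rw [card6_97, Nat.card_prod] at h
  have hq : 0 < Nat.card F * Nat.card F := Nat.mul_pos Nat.card_pos Nat.card_pos
  have h2 : Nat.card {z : Fin 6 → F // w ⬝ᵥ z = c ∧ f ⬝ᵥ z = d} * (Nat.card F * Nat.card F) =
      Nat.card F ^ 4 * (Nat.card F * Nat.card F) := by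
    rw [show Nat.card F ^ 4 * (Nat.card F * Nat.card F) = Nat.card F ^ 6 by ring, ← h]
    congr 1
    refine Nat.card_congr (Equiv.subtypeEquivRight fun z => ?_)
    show _ ↔ (w ⬝ᵥ z, f ⬝ᵥ z) = (c, d)
    rw [Prod.mk.injEq]
  exact Nat.eq_of_mul_eq_mul_right hq h2

open Classical in
/-- Counting pairs. -/
theorem pairs97 [Fintype F] (P : (Fin 6 → F) → Prop) (Q : (Fin 6 → F) → (Fin 6 → F) → Prop) :
    Nat.card {p : (Fin 6 → F) × (Fin 6 → F) // P p.1 ∧ Q p.1 p.2} =
      ∑ w ∈ Finset.univ.filter P, Nat.card {z : Fin 6 → F // Q w z} := by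
  have e : {p : (Fin 6 → F) × (Fin 6 → F) // P p.1 ∧ Q p.1 p.2} ≃
      Σ w : {w : Fin 6 → F // P w}, {z : Fin 6 → F // Q w.1 z} :=
    { toFun := fun p => ⟨⟨p.1.1, p.2.1⟩, ⟨p.1.2, p.2.2⟩⟩
      invFun := fun s => ⟨(s.1.1, s.2.1), s.1.2, s.2.2⟩
      left_inv := fun _ => rfl
      right_inv := fun _ => rfl }
  rw [Nat.card_congr e, Nat.card_sigma]
  exact Finset.sum_subtype _ (fun w => by rw [Finset.mem_filter]; simp)
    (fun w => Nat.card {z : Fin 6 → F // Q w z}) |>.symm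

open Classical in
theorem zero_sum97 [Fintype F] (S : Finset (Fin 6 → F)) (h0 : (0 : Fin 6 → F) ∈ S) :
    ∑ w ∈ S, Nat.card {z : Fin 6 → F // w ⬝ᵥ z = 0} =
      Nat.card F ^ 6 + (S.card - 1) * Nat.card F ^ 5 := by
  rw [← Finset.add_sum_erase S _ h0]
  congr 1
  · rw [← card6_97]
    refine Nat.card_congr ⟨fun z => z.1, fun z => ⟨z, zero_dotProduct z⟩, fun _ => rfl,
      fun _ => rfl⟩
  · rw [Finset.sum_congr rfl fun w hw => one97 w (Finset.ne_of_mem_erase hw) 0,
      Finset.sum_const, smul_eq_mul, Finset.card_erase_of_mem h0]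

open Classical in
theorem card_perp97 [Fintype F] (y : Fin 6 → F) (hy : y ≠ 0) :
    (Finset.univ.filter fun w : Fin 6 → F => w ⬝ᵥ y = 0).card = Nat.card F ^ 5 := by
  rw [← one97 y hy 0, Nat.card_eq_fintype_card, Fintype.card_subtype]
  congr 1
  ext w
  simp [dotProduct_comm]

end

theorem tot97 : StTot := by
  intro F _ _ y hy
  classical
  have : Fintype F := Fintype.ofFinite F
  rw [pairs97 (fun w => w ⬝ᵥ y = 0) (fun w z => w ⬝ᵥ z = 0), zero_sum97 _ (by simp),
    card_perp97 y hy]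
  set q := Nat.card F
  have hq : 0 < q := Nat.card_pos
  have h1 : 0 < q ^ 5 := by positivity
  have h2 : (q ^ 5 - 1) * q ^ 5 + q ^ 5 = q ^ 10 := by
    obtain ⟨t, ht⟩ : ∃ t, q ^ 5 = t + 1 := ⟨q ^ 5 - 1, by omega⟩
    have h3 : q ^ 10 = q ^ 5 * q ^ 5 := by ring
    rw [h3, ht, Nat.add_sub_cancel]
    ring
  have h3 : q ^ 5 ≤ q ^ 6 := Nat.pow_le_pow_right hq (by norm_num)
  omega

theorem sec97 : StSec := by
  intro F _ _ y a f hy hfy hh
  classical
  have : Fintype F := Fintype.ofFinite F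
  set q := Nat.card F with hqdef
  have hq : 0 < q := Nat.card_pos
  by_cases hf : f = 0
  · -- one functional
    have ha : ∀ t : F, a ≠ t • y := hh.resolve_left (fun h => h hf)
    have e1 : Nat.card {p : (Fin 6 → F) × (Fin 6 → F) // p.1 ⬝ᵥ y = 0 ∧ p.1 ⬝ᵥ p.2 = 0 ∧
        a ⬝ᵥ p.1 + f ⬝ᵥ p.2 = 0} =
        Nat.card {p : (Fin 6 → F) × (Fin 6 → F) // (p.1 ⬝ᵥ y = 0 ∧ a ⬝ᵥ p.1 = 0) ∧
          p.1 ⬝ᵥ p.2 = 0} := by
      refine Nat.card_congr (Equiv.subtypeEquivRight fun p => ?_)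
      rw [hf, zero_dotProduct, add_zero]
      tauto
    rw [e1, pairs97 (fun w => w ⬝ᵥ y = 0 ∧ a ⬝ᵥ w = 0) (fun w z => w ⬝ᵥ z = 0),
      zero_sum97 _ (by simp)]
    have hc : (Finset.univ.filter fun w : Fin 6 → F => w ⬝ᵥ y = 0 ∧ a ⬝ᵥ w = 0).card =
        q ^ 4 := by
      rw [hqdef, ← two97 a y hy ha 0 0, Nat.card_eq_fintype_card, Fintype.card_subtype]
      congr 1
      ext w
      simp only [Finset.mem_filter, Finset.mem_univ, true_and]
      rw [dotProduct_comm w y]
      tauto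
    have hc' : (@Finset.filter (Fin 6 → F) (fun w => w ⬝ᵥ y = 0 ∧ a ⬝ᵥ w = 0)
        (fun w => Classical.propDecidable _) Finset.univ).card = q ^ 4 := by
      rw [← hc]
      congr
    rw [hc', hf, Set.indicator_of_mem (show (0 : Fin 6 → F) ∈ {f : Fin 6 → F | a ⬝ᵥ f = 0} from
      dotProduct_zero a)]
    show q ^ 6 + (q ^ 4 - 1) * q ^ 5 = q ^ 9 + (q ^ 6 - q ^ 5)
    have h1 : 0 < q ^ 4 := by positivity
    have h2 : (q ^ 4 - 1) * q ^ 5 + q ^ 5 = q ^ 9 := by
      obtain ⟨t, ht⟩ : ∃ t, q ^ 4 = t + 1 := ⟨q ^ 4 - 1, by omega⟩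
      have h3 : q ^ 9 = q ^ 4 * q ^ 5 := by ring
      rw [h3, ht, Nat.add_sub_cancel]
      ring
    have h3 : q ^ 5 ≤ q ^ 6 := Nat.pow_le_pow_right hq (by norm_num)
    omega
  · -- two functionals
    rw [pairs97 (fun w => w ⬝ᵥ y = 0) (fun w z => w ⬝ᵥ z = 0 ∧ a ⬝ᵥ w + f ⬝ᵥ z = 0)]
    set S := Finset.univ.filter fun w : Fin 6 → F => w ⬝ᵥ y = 0 with hS
    set T : Finset (Fin 6 → F) := Finset.univ.image fun t : F => t • f with hT
    have hinj : Function.Injective fun t : F => t • f := by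
      intro s t hst
      obtain ⟨i, hi⟩ : ∃ i, f i ≠ 0 := by
        by_contra h
        push Not at h
        exact hf (funext h)
      have h1 : s * f i = t * f i := congrFun hst i
      exact mul_right_cancel₀ hi h1
    have hTS : T ⊆ S := by
      intro w hw
      obtain ⟨t, -, rfl⟩ := Finset.mem_image.1 hw
      rw [hS, Finset.mem_filter]
      exact ⟨Finset.mem_univ _, by rw [smul_dotProduct, hfy, smul_zero]⟩
    have hcT : T.card = q := by
      rw [hT, Finset.card_image_of_injective _ hinj, Finset.card_univ, hqdef,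
        Nat.card_eq_fintype_card]
    rw [← Finset.sum_sdiff hTS]
    have h1 : ∑ w ∈ S \ T, Nat.card {z : Fin 6 → F // w ⬝ᵥ z = 0 ∧ a ⬝ᵥ w + f ⬝ᵥ z = 0} =
        (q ^ 5 - q) * q ^ 4 := by
      rw [Finset.sum_congr rfl (g := fun _ => q ^ 4) ?_, Finset.sum_const, smul_eq_mul,
        Finset.card_sdiff_of_subset hTS, hcT, hS, card_perp97 y hy]
      intro w hw
      rw [hqdef, ← two97 w f hf (fun t ht => (Finset.mem_sdiff.1 hw).2
        (Finset.mem_image.2 ⟨t, Finset.mem_univ _, ht.symm⟩)) 0 (-(a ⬝ᵥ w))]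
      refine Nat.card_congr (Equiv.subtypeEquivRight fun z => ?_)
      rw [eq_neg_iff_add_eq_zero, add_comm (f ⬝ᵥ z)]
    have h2 : ∑ w ∈ T, Nat.card {z : Fin 6 → F // w ⬝ᵥ z = 0 ∧ a ⬝ᵥ w + f ⬝ᵥ z = 0} =
        q ^ 5 + (q - 1) * (if a ⬝ᵥ f = 0 then q ^ 5 else 0) := by
      rw [hT, Finset.sum_image (fun s _ t _ h => hinj h),
        ← Finset.add_sum_erase Finset.univ _ (Finset.mem_univ (0 : F))]
      congr 1
      · rw [hqdef, ← one97 f hf 0]
        refine Nat.card_congr (Equiv.subtypeEquivRight fun z => ?_)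
        rw [zero_smul, zero_dotProduct, dotProduct_zero, zero_add]
        tauto
      · rw [Finset.sum_congr rfl (g := fun _ => if a ⬝ᵥ f = 0 then q ^ 5 else 0) ?_,
          Finset.sum_const, smul_eq_mul, Finset.card_erase_of_mem (Finset.mem_univ _),
          Finset.card_univ, hqdef, Nat.card_eq_fintype_card]
        intro t ht
        have ht0 : t ≠ 0 := Finset.ne_of_mem_erase ht
        have e1 : ∀ z : Fin 6 → F, ((t • f) ⬝ᵥ z = 0 ∧ a ⬝ᵥ (t • f) + f ⬝ᵥ z = 0) ↔
            (f ⬝ᵥ z = 0 ∧ a ⬝ᵥ f = 0) := by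
          intro z
          rw [smul_dotProduct, dotProduct_smul, smul_eq_mul, smul_eq_mul]
          constructor
          · rintro ⟨h1, h2⟩
            have h3 := (mul_eq_zero.1 h1).resolve_left ht0
            rw [h3, add_zero] at h2
            exact ⟨h3, (mul_eq_zero.1 h2).resolve_left ht0⟩
          · rintro ⟨h1, h2⟩
            rw [h1, h2, mul_zero, add_zero]
            exact ⟨rfl, rfl⟩
        rw [Nat.card_congr (Equiv.subtypeEquivRight e1)]
        split_ifs with haf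
        · rw [hqdef, ← one97 f hf 0]
          refine Nat.card_congr (Equiv.subtypeEquivRight fun z => ?_)
          tauto
        · rw [Nat.card_eq_zero]
          left
          exact ⟨fun z => haf z.2.2⟩
    rw [h1, h2]
    have h3 : (q ^ 5 - q) * q ^ 4 + q ^ 5 = q ^ 9 := by
      have h4 : q ≤ q ^ 5 := by
        calc q = q ^ 1 := (pow_one q).symm
          _ ≤ q ^ 5 := Nat.pow_le_pow_right hq (by norm_num)
      obtain ⟨t, ht⟩ : ∃ t, q ^ 5 = t + q := ⟨q ^ 5 - q, by omega⟩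
      have h3 : q ^ 9 = q ^ 5 * q ^ 4 := by ring
      rw [h3, ht, Nat.add_sub_cancel]
      have h5 : t + q = q ^ 5 := ht.symm
      calc t * q ^ 4 + (t + q) = t * q ^ 4 + q ^ 5 := by rw [h5]
        _ = (t + q) * q ^ 4 := by ring
    have h5 : (q - 1) * q ^ 5 = q ^ 6 - q ^ 5 := by
      rw [Nat.sub_mul, one_mul]
      congr 1
      ring
    by_cases haf : a ⬝ᵥ f = 0
    · rw [if_pos haf, Set.indicator_of_mem (show f ∈ {f : Fin 6 → F | a ⬝ᵥ f = 0} from haf), h5]
      omega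
    · rw [if_neg haf, Set.indicator_of_notMem (show f ∉ {f : Fin 6 → F | a ⬝ᵥ f = 0} from haf)]
      omega

end

end SpreadPerm.EX
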