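import Pool.Agent.Lib.MP_e6ed9e_al.EX.Uu77

/-!
# Rows UU and UC: the counts
-/

namespace SpreadPerm.EX.Uu77

open Matrix SpreadPerm.EX

noncomputable section

variable {F : Type} [Field F]

/-- The space of alternating matrices. -/
def AltM (F : Type) [Field F] : Submodule F (Matrix (Fin 6) (Fin 6) F) where
  carrier := {b | Alt b}
  add_mem' := fun ha hb => alt_add ha hb
  zero_mem' := ⟨fun _ => rfl, fun i j => by simp⟩
  smul_mem' := fun t b hb => ⟨fun i => by rw [Matrix.smul_apply, hb.1 i, smul_zero],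
    fun i j => by rw [Matrix.smul_apply, Matrix.smul_apply, hb.2 i j, smul_neg]⟩

/-- The pairs above the diagonal. -/
abbrev Ix : Type := {p : Fin 6 × Fin 6 // p.1 < p.2}

/-- The alternating matrix with given entries above the diagonal. -/
def mk (g : Ix → F) : Matrix (Fin 6) (Fin 6) F := fun i j =>
  if h : i < j then g ⟨(i, j), h⟩ else if h' : j < i then -g ⟨(j, i), h'⟩ else 0

theorem mk_lt (g : Ix → F) {i j : Fin 6} (h : i < j) : mk g i j = g ⟨(i, j), h⟩ := by
  unfold mk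
  rw [dif_pos h]

theorem mk_gt (g : Ix → F) {i j : Fin 6} (h : j < i) : mk g i j = -g ⟨(j, i), h⟩ := by
  unfold mk
  rw [dif_neg (not_lt.2 h.le), dif_pos h]

theorem mk_alt (g : Ix → F) : Alt (mk g) := by
  have h0 : ∀ i, mk g i i = 0 := fun i => by
    unfold mk
    rw [dif_neg (lt_irrefl i), dif_neg (lt_irrefl i)]
  refine ⟨h0, fun i j => ?_⟩
  rcases lt_trichotomy i j with h | h | h
  · rw [mk_lt g h, mk_gt g h, neg_neg]
  · rw [h, h0]
    simp
  · rw [mk_lt g h, mk_gt g h]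

/-- Alternating matrices are their entries above the diagonal. -/
def altEquiv (F : Type) [Field F] : AltM F ≃ₗ[F] (Ix → F) where
  toFun b := fun p => b.1 p.1.1 p.1.2
  map_add' _ _ := rfl
  map_smul' _ _ := rfl
  invFun g := ⟨mk g, mk_alt g⟩
  left_inv b := by
    apply Subtype.ext
    funext i j
    show mk (fun p : Ix => b.1 p.1.1 p.1.2) i j = b.1 i j
    rcases lt_trichotomy i j with h | h | h
    · rw [mk_lt _ h]
    · rw [h, (mk_alt _).1 j, b.2.1 j]
    · rw [mk_gt _ h, b.2.2 i j]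
  right_inv g := by
    funext p
    exact mk_lt g p.2

theorem finrank_altM : Module.finrank F (AltM F) = 15 := by
  rw [(altEquiv F).finrank_eq, Module.finrank_fintype_fun_eq_card]
  decide

/-- Multiplication with a vector. -/
def psi (u : Fin 6 → F) : AltM F →ₗ[F] (Fin 6 → F) where
  toFun b := b.1 *ᵥ u
  map_add' _ _ := add_mulVec _ _ _
  map_smul' t b := smul_mulVec t b.1 u

/-- The scalar product with a vector. -/
def dl (u : Fin 6 → F) : Module.Dual F (Fin 6 → F) where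
  toFun z := z ⬝ᵥ u
  map_add' _ _ := add_dotProduct _ _ _
  map_smul' _ _ := smul_dotProduct _ _ _

theorem exists_one (u : Fin 6 → F) (hu : u ≠ 0) : ∃ y : Fin 6 → F, y ⬝ᵥ u = 1 := by
  obtain ⟨k, hk⟩ : ∃ k, u k ≠ 0 := by
    by_contra h
    push Not at h
    exact hu (funext h)
  exact ⟨Pi.single k (u k)⁻¹, by rw [single_dotProduct, inv_mul_cancel₀ hk]⟩

theorem range_psi (u : Fin 6 → F) (hu : u ≠ 0) :
    LinearMap.range (psi u) = LinearMap.ker (dl u) := by
  obtain ⟨y, hy⟩ := exists_one u hu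
  ext f
  constructor
  · rintro ⟨b, rfl⟩
    show (b.1 *ᵥ u) ⬝ᵥ u = 0
    have h1 := vecMul_dot_self b.1 b.2 u
    rw [vecMul_eq_neg b.1 b.2 u, neg_dotProduct, neg_eq_zero] at h1
    exact h1
  · intro hf
    have hf' : f ⬝ᵥ u = 0 := hf
    refine ⟨⟨wedge f y, wedge_alt f y⟩, ?_⟩
    show wedge f y *ᵥ u = f
    funext i
    rw [wedge_mulVec, hy, hf']
    ring

theorem dl_ne (u : Fin 6 → F) (hu : u ≠ 0) : dl u ≠ 0 := by
  obtain ⟨y, hy⟩ := exists_one u hu
  intro h
  have h1 : dl u y = 1 := hy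
  rw [h] at h1
  exact zero_ne_one h1

theorem finrank_ker_psi (u : Fin 6 → F) (hu : u ≠ 0) :
    Module.finrank F (LinearMap.ker (psi u)) = 10 := by
  have h1 := LinearMap.finrank_range_add_finrank_ker (psi u)
  have h2 := Module.Dual.finrank_ker_add_one_of_ne_zero (dl_ne u hu)
  rw [Module.finrank_fin_fun] at h2
  rw [range_psi u hu, finrank_altM] at h1
  omega

theorem pair_add (c a b : Matrix (Fin 6) (Fin 6) F) : pair c (a + b) = pair c a + pair c b := by
  unfold pair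
  simp only [← Finset.sum_add_distrib]
  refine Finset.sum_congr rfl fun i _ => Finset.sum_congr rfl fun j _ => ?_
  by_cases h : i < j
  · rw [if_pos h, if_pos h, if_pos h, Matrix.add_apply]
    ring
  · rw [if_neg h, if_neg h, if_neg h, add_zero]

theorem pair_smul (c b : Matrix (Fin 6) (Fin 6) F) (t : F) : pair c (t • b) = t * pair c b := by
  unfold pair
  simp only [Finset.mul_sum]
  refine Finset.sum_congr rfl fun i _ => Finset.sum_congr rfl fun j _ => ?_
  by_cases h : i < j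
  · rw [if_pos h, if_pos h, Matrix.smul_apply, smul_eq_mul]
    ring
  · rw [if_neg h, if_neg h, mul_zero]

/-- Both conditions at once. -/
def phi (c : Matrix (Fin 6) (Fin 6) F) (u : Fin 6 → F) : AltM F →ₗ[F] (Fin 6 → F) × F where
  toFun b := (b.1 *ᵥ u, pair c b.1)
  map_add' a b := by
    refine Prod.ext ?_ ?_
    · show (a.1 + b.1) *ᵥ u = a.1 *ᵥ u + b.1 *ᵥ u
      exact add_mulVec a.1 b.1 u
    · exact pair_add c a.1 b.1
  map_smul' t b := by
    refine Prod.ext ?_ ?_
    · show (t • b.1) *ᵥ u = t • (b.1 *ᵥ u)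
      exact smul_mulVec t b.1 u
    · exact pair_smul c b.1 t

/-- The scalar product of the first component with a vector. -/
def dl2 (u : Fin 6 → F) : Module.Dual F ((Fin 6 → F) × F) where
  toFun z := z.1 ⬝ᵥ u
  map_add' _ _ := add_dotProduct _ _ _
  map_smul' _ _ := smul_dotProduct _ _ _

theorem dl2_ne (u : Fin 6 → F) (hu : u ≠ 0) : dl2 u ≠ 0 := by
  obtain ⟨y, hy⟩ := exists_one u hu
  intro h
  have h1 : dl2 u (y, 0) = 1 := hy
  rw [h] at h1
  exact zero_ne_one h1

theorem exists_pair (c : Matrix (Fin 6) (Fin 6) F) (hc : Alt c) (hk : ∀ y, c *ᵥ y = 0 → y = 0)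
    (u : Fin 6 → F) (hu : u ≠ 0) : ∃ b : AltM F, b.1 *ᵥ u = 0 ∧ pair c b.1 ≠ 0 := by
  obtain ⟨k, huk⟩ : ∃ k, u k ≠ 0 := by
    by_contra h
    push Not at h
    exact hu (funext h)
  by_contra h0
  push Not at h0
  have h1 : ∀ y z : Fin 6 → F, y ⬝ᵥ u = 0 → z ⬝ᵥ u = 0 → (y ᵥ* c) ⬝ᵥ z = 0 := by
    intro y z hy hz
    rw [← pair_wedge c hc]
    refine h0 ⟨wedge y z, wedge_alt y z⟩ ?_
    show wedge y z *ᵥ u = 0
    funext i
    rw [wedge_mulVec, hy, hz]
    simp
  -- the vectors `z_j`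
  let zz : Fin 6 → Fin 6 → F := fun j => u k • Pi.single j 1 - u j • Pi.single k 1
  have hz : ∀ j, zz j ⬝ᵥ u = 0 := by
    intro j
    show (u k • (Pi.single j 1 : Fin 6 → F) - u j • Pi.single k 1) ⬝ᵥ u = 0
    rw [sub_dotProduct, smul_dotProduct, smul_dotProduct, single_dotProduct, single_dotProduct]
    simp only [smul_eq_mul]
    ring
  have h3 : ∀ y : Fin 6 → F, y ⬝ᵥ u = 0 → ∃ t : F, c *ᵥ y = t • u := by
    intro y hy
    refine ⟨(c *ᵥ y) k / u k, funext fun j => ?_⟩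
    have h4 := h1 y (zz j) hy (hz j)
    rw [vecMul_eq_neg c hc y, neg_dotProduct, neg_eq_zero] at h4
    have h5 : (c *ᵥ y) ⬝ᵥ (u k • (Pi.single j 1 : Fin 6 → F) - u j • Pi.single k 1) = 0 := h4
    rw [dotProduct_sub, dotProduct_smul, dotProduct_smul, dotProduct_single,
      dotProduct_single] at h5
    simp only [smul_eq_mul, mul_one] at h5
    rw [Pi.smul_apply, smul_eq_mul, div_mul_eq_mul_div, eq_div_iff huk]
    linear_combination h5
  have hex : ∀ k : Fin 6, ∃ a b : Fin 6, a ≠ k ∧ b ≠ k ∧ a ≠ b := by decide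
  obtain ⟨a, b, hak, hbk, hab⟩ := hex k
  obtain ⟨s, hs⟩ := h3 (zz a) (hz a)
  obtain ⟨t, ht⟩ := h3 (zz b) (hz b)
  have h6 : t • zz a - s • zz b = 0 := by
    apply hk
    rw [mulVec_sub, mulVec_smul, mulVec_smul, hs, ht]
    funext i
    simp only [Pi.sub_apply, Pi.smul_apply, smul_eq_mul, Pi.zero_apply]
    ring
  have hzz : ∀ j i, zz j i = u k * (if i = j then 1 else 0) - u j * (if i = k then 1 else 0) := by
    intro j i
    show (u k • (Pi.single j 1 : Fin 6 → F)) i - (u j • (Pi.single k 1 : Fin 6 → F)) i = _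
    rw [Pi.smul_apply, Pi.smul_apply, Pi.single_apply, Pi.single_apply, smul_eq_mul, smul_eq_mul]
  have haa : zz a a = u k := by
    rw [hzz, if_pos rfl, if_neg hak]
    ring
  have hba : zz b a = 0 := by
    rw [hzz, if_neg hab, if_neg hak]
    ring
  have hbb : zz b b = u k := by
    rw [hzz, if_pos rfl, if_neg hbk]
    ring
  have ht0 : t = 0 := by
    have h7 := congrFun h6 a
    simp only [Pi.sub_apply, Pi.smul_apply, smul_eq_mul, Pi.zero_apply, haa, hba, mul_zero,
      sub_zero] at h7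
    exact (mul_eq_zero.1 h7).resolve_right huk
  have hzb : zz b = 0 := by
    apply hk
    rw [ht, ht0, zero_smul]
  rw [hzb] at hbb
  exact huk hbb.symm

theorem range_phi (c : Matrix (Fin 6) (Fin 6) F) (hc : Alt c) (hk : ∀ y, c *ᵥ y = 0 → y = 0)
    (u : Fin 6 → F) (hu : u ≠ 0) : LinearMap.range (phi c u) = LinearMap.ker (dl2 u) := by
  obtain ⟨y, hy⟩ := exists_one u hu
  obtain ⟨b0, hb0, hb1⟩ := exists_pair c hc hk u hu
  ext f
  constructor
  · rintro ⟨b, rfl⟩
    show (b.1 *ᵥ u) ⬝ᵥ u = 0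
    have h1 := vecMul_dot_self b.1 b.2 u
    rw [vecMul_eq_neg b.1 b.2 u, neg_dotProduct, neg_eq_zero] at h1
    exact h1
  · intro hf
    obtain ⟨f, t⟩ := f
    have hf' : f ⬝ᵥ u = 0 := hf
    refine ⟨⟨wedge f y, wedge_alt f y⟩ +
      ((t - pair c (wedge f y)) * (pair c b0.1)⁻¹) • b0, ?_⟩
    have h1 : (phi c u ⟨wedge f y, wedge_alt f y⟩) = (f, pair c (wedge f y)) := by
      refine Prod.ext ?_ rfl
      show wedge f y *ᵥ u = f
      funext i
      rw [wedge_mulVec, hy, hf']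
      ring
    have h2 : phi c u b0 = (0, pair c b0.1) := Prod.ext hb0 rfl
    rw [map_add, map_smul, h1, h2]
    refine Prod.ext ?_ ?_
    · show f + ((t - pair c (wedge f y)) * (pair c b0.1)⁻¹) • (0 : Fin 6 → F) = f
      rw [smul_zero, add_zero]
    · show pair c (wedge f y) + ((t - pair c (wedge f y)) * (pair c b0.1)⁻¹) * pair c b0.1 = t
      rw [inv_mul_cancel_right₀ hb1]
      ring

theorem finrank_ker_phi (c : Matrix (Fin 6) (Fin 6) F) (hc : Alt c)
    (hk : ∀ y, c *ᵥ y = 0 → y = 0) (u : Fin 6 → F) (hu : u ≠ 0) :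
    Module.finrank F (LinearMap.ker (phi c u)) = 9 := by
  have h1 := LinearMap.finrank_range_add_finrank_ker (phi c u)
  have h2 := Module.Dual.finrank_ker_add_one_of_ne_zero (dl2_ne u hu)
  rw [Module.finrank_prod, Module.finrank_fin_fun, Module.finrank_self] at h2
  rw [range_phi c hc hk u hu, finrank_altM] at h1
  omega

theorem card_ker_psi (u : Fin 6 → F) (hu : u ≠ 0) :
    Nat.card {b : Matrix (Fin 6) (Fin 6) F // (Alt b ∧ b *ᵥ u = 0) ∧ True} = Nat.card F ^ 10 := by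
  have e : {b : Matrix (Fin 6) (Fin 6) F // (Alt b ∧ b *ᵥ u = 0) ∧ True} ≃
      LinearMap.ker (psi u) :=
    { toFun := fun b => ⟨⟨b.1, b.2.1.1⟩, b.2.1.2⟩
      invFun := fun b => ⟨b.1.1, ⟨b.1.2, b.2⟩, trivial⟩
      left_inv := fun _ => rfl
      right_inv := fun _ => rfl }
  rw [Nat.card_congr e, Module.natCard_eq_pow_finrank (K := F), finrank_ker_psi u hu]

theorem card_ker_phi (c : Matrix (Fin 6) (Fin 6) F) (hc : Alt c)
    (hk : ∀ y, c *ᵥ y = 0 → y = 0) (u : Fin 6 → F) (hu : u ≠ 0) :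
    Nat.card {b : Matrix (Fin 6) (Fin 6) F // (Alt b ∧ b *ᵥ u = 0) ∧ pair c b = 0} =
      Nat.card F ^ 9 := by
  have e : {b : Matrix (Fin 6) (Fin 6) F // (Alt b ∧ b *ᵥ u = 0) ∧ pair c b = 0} ≃
      LinearMap.ker (phi c u) :=
    { toFun := fun b => ⟨⟨b.1, b.2.1.1⟩, Prod.ext b.2.1.2 b.2.2⟩
      invFun := fun b => ⟨b.1.1, ⟨b.1.2, congrArg Prod.fst b.2⟩, congrArg Prod.snd b.2⟩
      left_inv := fun _ => rfl
      right_inv := fun _ => rfl }
  rw [Nat.card_congr e, Module.natCard_eq_pow_finrank (K := F), finrank_ker_phi c hc hk u hu]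

end

theorem uu77 : StU := by
  intro F _ _ u hu
  have h := card_fibre u hu (fun _ => True)
  rw [card_ker_psi u hu] at h
  rw [pow_succ, ← h]
  exact Nat.card_congr (Equiv.subtypeEquivRight fun x => by rw [and_true])

theorem uc77 : StUc := by
  intro F _ _ c hc hk u hu
  have h := card_fibre u hu (fun b => pair c b = 0)
  rw [card_ker_phi c hc hk u hu] at h
  rw [pow_succ, ← h]

end SpreadPerm.EX.Uu77
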