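import Pool.Agent.Lib.MP_e6ed9e_al.EX.Thm67
import Pool.Agent.Lib.MP_e6ed9e_al.EX.Pf0_16
import Pool.Agent.Lib.MP_e6ed9e_al.EX.Dec77
import Pool.Agent.Lib.MP_e6ed9e_al.EX.SecTot97
import Pool.Agent.Lib.MP_e6ed9e_al.EX.Reg77
import Pool.Agent.Lib.MP_e6ed9e_al.EX.UuUc77

/-! # The points of `E_6` and `F_4`: all rows together -/

namespace SpreadPerm.EX

/-- The points of `E_6(q)` (`l₀ = 0`) and `F_4(q)` (`l₀ = (0, J, 0)`). -/
theorem exceptional67 {F : Type} [Field F] [Finite F] {G Ω : Type} [Group G] [Fintype Ω]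
    [MulAction G Ω] (l₀ : V F) (hl₀ : l₀ = 0 ∨ l₀ = (0, J, 0))
    (e : Ω ≃ {p : Projectivization F (V F) // p.rep ∈ {x : V F | White x ∧ ev l₀ x = 0}})
    (hG : ∀ (g : G) (l : V F), Aniso l₀ l → ∃ l', Aniso l₀ l' ∧ ∀ ω : Ω,
      ev l (e ω).1.rep = 0 ↔ ev l' (e (g • ω)).1.rep = 0) : NonSpreading G Ω := by
  have : Fintype F := Fintype.ofFinite F
  exact exceptional pf0_16 Dec77.dec77 sec97 tot97 Reg77.reg77 Uu77.uu77 Uu77.uc77 l₀ hl₀ e hG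

end SpreadPerm.EX
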