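import Pool.Agent.Lib.MP_e6ed9e_al.EX.Defs67

/-! # The points of `E_6`: the double count -/

namespace SpreadPerm.EX

open Matrix Finset
open scoped Classical

noncomputable section

variable {F : Type} [Field F]

theorem wedge_apply (y z : Fin 6 → F) (i j : Fin 6) : wedge y z i j = y i * z j - z i * y j := rfl

theorem wedge_alt (y z : Fin 6 → F) : Alt (wedge y z) :=
  ⟨fun i => by rw [wedge_apply]; ring, fun i j => by rw [wedge_apply, wedge_apply]; ring⟩

theorem wedge_mulVec (y z w : Fin 6 → F) (i : Fin 6) :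
    (wedge y z *ᵥ w) i = (z ⬝ᵥ w) * y i - (y ⬝ᵥ w) * z i := by
  show ∑ j, wedge y z i j * w j = (∑ j, z j * w j) * y i - (∑ j, y j * w j) * z i
  rw [Finset.sum_mul, Finset.sum_mul, ← Finset.sum_sub_distrib]
  refine Finset.sum_congr rfl fun j _ => ?_
  rw [wedge_apply]
  ring

theorem wedge_pf (y z : Fin 6 → F) (i j k l : Fin 6) : pf (wedge y z) i j k l = 0 := by
  unfold pf
  simp only [wedge_apply]
  ring

theorem wedge_zero_iff {y : Fin 6 → F} (hy : y ≠ 0) (z : Fin 6 → F) :
    wedge y z = 0 ↔ ∃ t : F, z = t • y := by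
  constructor
  · intro h
    obtain ⟨k, hk⟩ : ∃ k, y k ≠ 0 := by
      by_contra h'
      push Not at h'
      exact hy (funext h')
    refine ⟨z k / y k, funext fun i => ?_⟩
    have h1 : wedge y z k i = 0 := by rw [h]; rfl
    rw [wedge_apply] at h1
    rw [Pi.smul_apply, smul_eq_mul, div_mul_eq_mul_div, eq_div_iff hk]
    linear_combination h1
  · rintro ⟨t, rfl⟩
    ext i j
    rw [wedge_apply]
    simp only [Pi.smul_apply, smul_eq_mul, Matrix.zero_apply]
    ring

theorem pair_wedge (c : Matrix (Fin 6) (Fin 6) F) (hc : Alt c) (y z : Fin 6 → F) :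
    pair c (wedge y z) = (y ᵥ* c) ⬝ᵥ z := by
  have h1 : (y ᵥ* c) ⬝ᵥ z = ∑ i, ∑ j, y i * c i j * z j := by
    show ∑ j, (∑ i, y i * c i j) * z j = _
    rw [Finset.sum_comm]
    refine Finset.sum_congr rfl fun j _ => ?_
    rw [Finset.sum_mul]
  have h2 : ∑ i, ∑ j, y i * c i j * z j =
      ∑ i, ∑ j, ((if i < j then y i * c i j * z j else 0) +
        (if j < i then y i * c i j * z j else 0)) := by
    refine Finset.sum_congr rfl fun i _ => Finset.sum_congr rfl fun j _ => ?_
    rcases lt_trichotomy i j with h | h | h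
    · rw [if_pos h, if_neg (not_lt.2 h.le), add_zero]
    · subst h
      rw [if_neg (lt_irrefl _), hc.1 i]
      ring
    · rw [if_pos h, if_neg (not_lt.2 h.le), zero_add]
  rw [h1, h2]
  simp only [Finset.sum_add_distrib]
  rw [Finset.sum_comm (f := fun i j => if j < i then y i * c i j * z j else 0),
    ← Finset.sum_add_distrib]
  unfold pair
  refine Finset.sum_congr rfl fun i _ => ?_
  rw [← Finset.sum_add_distrib]
  refine Finset.sum_congr rfl fun j _ => ?_
  by_cases h : i < j
  · rw [if_pos h, if_pos h, if_pos h, wedge_apply, hc.2 j i]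
    ring
  · rw [if_neg h, if_neg h, if_neg h, add_zero]

theorem vecMul_dot_self (c : Matrix (Fin 6) (Fin 6) F) (hc : Alt c) (y : Fin 6 → F) :
    (y ᵥ* c) ⬝ᵥ y = 0 := by
  rw [← pair_wedge c hc]
  have : wedge y y = 0 := by
    ext i j
    rw [wedge_apply]
    show _ = (0 : F)
    ring
  rw [this]
  unfold pair
  simp

theorem vecMul_eq_neg (c : Matrix (Fin 6) (Fin 6) F) (hc : Alt c) (y : Fin 6 → F) :
    y ᵥ* c = - (c *ᵥ y) := by
  ext j
  show ∑ i, y i * c i j = - ∑ i, c j i * y i
  rw [← Finset.sum_neg_distrib]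
  refine Finset.sum_congr rfl fun i _ => ?_
  rw [hc.2 i j]
  ring

variable [Fintype F]

theorem card_dot (f : Fin 6 → F) (hf : f ≠ 0) :
    (univ.filter fun z : Fin 6 → F => f ⬝ᵥ z = 0).card = Fintype.card F ^ 5 := by
  let L : Module.Dual F (Fin 6 → F) :=
    { toFun := fun z => f ⬝ᵥ z
      map_add' := fun x y => dotProduct_add _ _ _
      map_smul' := fun t x => dotProduct_smul _ _ _ }
  have hL : L ≠ 0 := by
    intro h
    apply hf
    ext i
    have h1 : L (Pi.single i 1) = 0 := by rw [h]; rfl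
    have h2 : f ⬝ᵥ (Pi.single i 1) = f i := by simp
    exact h2.symm.trans h1
  have h1 := Module.Dual.finrank_ker_add_one_of_ne_zero hL
  rw [Module.finrank_fin_fun] at h1
  have h2 : Module.finrank F (LinearMap.ker L) = 5 := by omega
  have h3 := Module.card_eq_pow_finrank (K := F) (V := LinearMap.ker L)
  rw [h2] at h3
  rw [← h3, Fintype.card_subtype]
  rfl

theorem card_dot' (f : Fin 6 → F) (hf : f ≠ 0) :
    (univ.filter fun z : Fin 6 → F => z ⬝ᵥ f = 0).card = Fintype.card F ^ 5 := by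
  rw [← card_dot f hf]
  congr 1
  ext z
  simp only [mem_filter, mem_univ, true_and]
  rw [dotProduct_comm]

theorem card_line {y : Fin 6 → F} (hy : y ≠ 0) :
    (univ.filter fun z : Fin 6 → F => wedge y z = 0).card = Fintype.card F := by
  have h1 : (univ.filter fun z : Fin 6 → F => wedge y z = 0) =
      (univ : Finset F).image (fun t => t • y) := by
    ext z
    simp only [mem_filter, mem_univ, true_and, mem_image]
    rw [wedge_zero_iff hy]
    constructor
    · rintro ⟨t, rfl⟩
      exact ⟨t, rfl⟩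
    · rintro ⟨t, rfl⟩
      exact ⟨t, rfl⟩
  rw [h1, Finset.card_image_of_injective, Finset.card_univ]
  intro s t h
  have h2 : (s - t) • y = 0 := by
    rw [sub_smul]
    exact sub_eq_zero.2 h
  rcases smul_eq_zero.1 h2 with h3 | h3
  · exact sub_eq_zero.1 h3
  · exact absurd h3 hy

/-- The vectors `(w, b, 0)` with `b ≠ 0` in a hyperplane. -/
def DD (a : Fin 6 → F) (c : Matrix (Fin 6) (Fin 6) F) :
    Finset ((Fin 6 → F) × Matrix (Fin 6) (Fin 6) F) :=
  univ.filter fun x => Alt x.2 ∧ x.2 ≠ 0 ∧ (∀ i j k l, pf x.2 i j k l = 0) ∧ x.2 *ᵥ x.1 = 0 ∧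
    a ⬝ᵥ x.1 + pair c x.2 = 0

/-- The vectors `(w, 0, 0)` in a hyperplane. -/
def EE (a : Fin 6 → F) : Finset (Fin 6 → F) := univ.filter fun w => w ≠ 0 ∧ a ⬝ᵥ w = 0

/-- The triples of the double count. -/
def PP (a : Fin 6 → F) (c : Matrix (Fin 6) (Fin 6) F) :
    Finset ((Fin 6 → F) × (Fin 6 → F) × (Fin 6 → F)) :=
  univ.filter fun t => t.1 ≠ 0 ∧ t.2.1 ⬝ᵥ t.1 = 0 ∧ t.2.1 ⬝ᵥ t.2.2 = 0 ∧
    a ⬝ᵥ t.2.1 + (t.1 ᵥ* c) ⬝ᵥ t.2.2 = 0 ∧ (t.2.1 ≠ 0 ∨ wedge t.1 t.2.2 ≠ 0)

/-- The pairs for a given `y`. -/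
def NN (a : Fin 6 → F) (c : Matrix (Fin 6) (Fin 6) F) (y : Fin 6 → F) :
    Finset ((Fin 6 → F) × (Fin 6 → F)) :=
  univ.filter fun p => p.1 ⬝ᵥ y = 0 ∧ p.1 ⬝ᵥ p.2 = 0 ∧ a ⬝ᵥ p.1 + (y ᵥ* c) ⬝ᵥ p.2 = 0

theorem card_PP_left (a : Fin 6 → F) (c : Matrix (Fin 6) (Fin 6) F) (hc : Alt c) :
    (PP a c).card + Fintype.card F * (univ.filter fun y : Fin 6 → F => y ≠ 0).card =
      ∑ y ∈ univ.filter (fun y : Fin 6 → F => y ≠ 0), (NN a c y).card := by
  have h1 : (PP a c).card = ∑ y ∈ univ.filter (fun y : Fin 6 → F => y ≠ 0),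
      ((PP a c).filter fun t => t.1 = y).card := by
    refine Finset.card_eq_sum_card_fiberwise fun t ht => ?_
    rw [Finset.mem_coe] at ht ⊢
    simp only [PP, mem_filter, mem_univ, true_and] at ht ⊢
    exact ht.1
  rw [h1, mul_comm, ← smul_eq_mul, ← Finset.sum_const, ← Finset.sum_add_distrib]
  refine Finset.sum_congr rfl fun y hy => ?_
  rw [mem_filter] at hy
  have hy := hy.2
  have h2 : ((PP a c).filter fun t => t.1 = y).card =
      ((NN a c y).filter fun p => p.1 ≠ 0 ∨ wedge y p.2 ≠ 0).card := by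
    refine Finset.card_bij (fun t _ => t.2) ?_ ?_ ?_
    · rintro ⟨y', w, z⟩ ht
      simp only [PP, NN, mem_filter, mem_univ, true_and] at ht ⊢
      obtain ⟨⟨_, h3, h4, h5, h6⟩, rfl⟩ := ht
      exact ⟨⟨h3, h4, h5⟩, h6⟩
    · rintro ⟨y1, w1, z1⟩ h1 ⟨y2, w2, z2⟩ h2 h
      simp only [mem_filter] at h1 h2
      obtain ⟨_, rfl⟩ := h1
      obtain ⟨_, rfl⟩ := h2
      simp only at h
      rw [h]
    · rintro ⟨w, z⟩ ht
      simp only [NN, mem_filter, mem_univ, true_and] at ht
      refine ⟨(y, w, z), ?_, rfl⟩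
      simp only [PP, mem_filter, mem_univ, true_and]
      exact ⟨⟨hy, ht.1.1, ht.1.2.1, ht.1.2.2, ht.2⟩, trivial⟩
  have h3 : ((NN a c y).filter fun p => ¬ (p.1 ≠ 0 ∨ wedge y p.2 ≠ 0)).card =
      Fintype.card F := by
    rw [← card_line hy]
    symm
    refine Finset.card_bij (fun z _ => ((0 : Fin 6 → F), z)) ?_ ?_ ?_
    · intro z hz
      simp only [NN, mem_filter, mem_univ, true_and] at hz ⊢
      refine ⟨⟨zero_dotProduct _, zero_dotProduct _, ?_⟩, ?_⟩
      · rw [dotProduct_zero, zero_add]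
        obtain ⟨t, rfl⟩ := (wedge_zero_iff hy z).1 hz
        rw [dotProduct_smul, vecMul_dot_self c hc, smul_zero]
      · push Not
        exact ⟨rfl, hz⟩
    · intro z1 _ z2 _ h
      exact (Prod.ext_iff.1 h).2
    · rintro ⟨w, z⟩ h
      simp only [NN, mem_filter, mem_univ, true_and] at h
      obtain ⟨_, h5⟩ := h
      push Not at h5
      obtain ⟨h6, h7⟩ := h5
      refine ⟨z, ?_, ?_⟩
      · simp only [mem_filter, mem_univ, true_and]
        exact h7
      · have h8 : w = 0 := h6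
        rw [h8]
  rw [h2, ← h3]
  exact Finset.card_filter_add_card_filter_not _

theorem pair_zero (c : Matrix (Fin 6) (Fin 6) F) : pair c 0 = 0 := by
  unfold pair
  simp

theorem card_ne_zero : (univ.filter fun y : Fin 6 → F => y ≠ 0).card =
    Fintype.card F ^ 6 - 1 := by
  have h1 := Finset.card_filter_add_card_filter_not (s := (univ : Finset (Fin 6 → F)))
    (fun y : Fin 6 → F => y ≠ 0)
  have h2 : (univ.filter fun y : Fin 6 → F => ¬ y ≠ 0) = {0} := by
    ext y
    simp
  rw [h2, Finset.card_singleton, Finset.card_univ, Fintype.card_fun, Fintype.card_fin] at h1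
  omega

theorem mulVec_wedge_zero {y z w : Fin 6 → F} (hb : wedge y z ≠ 0) (h : wedge y z *ᵥ w = 0) :
    w ⬝ᵥ y = 0 ∧ w ⬝ᵥ z = 0 := by
  have hy : y ≠ 0 := by
    rintro rfl
    apply hb
    ext i j
    rw [wedge_apply]
    simp
  have h1 : ∀ i, (z ⬝ᵥ w) * y i = (y ⬝ᵥ w) * z i := by
    intro i
    have := wedge_mulVec y z w i
    rw [h] at this
    exact (sub_eq_zero.1 this.symm)
  by_cases h2 : y ⬝ᵥ w = 0
  · refine ⟨by rw [dotProduct_comm]; exact h2, ?_⟩
    rw [dotProduct_comm]
    by_contra h3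
    apply hy
    ext i
    have := h1 i
    rw [h2, zero_mul] at this
    exact (mul_eq_zero.1 this).resolve_left h3
  · exfalso
    apply hb
    rw [wedge_zero_iff hy]
    refine ⟨(z ⬝ᵥ w) / (y ⬝ᵥ w), funext fun i => ?_⟩
    rw [Pi.smul_apply, smul_eq_mul, div_mul_eq_mul_div, eq_div_iff h2, h1 i]
    ring

theorem card_PP_right (hDec : StDec) (a : Fin 6 → F) (c : Matrix (Fin 6) (Fin 6) F)
    (hc : Alt c) :
    (PP a c).card = (Fintype.card F ^ 3 - Fintype.card F) * (DD a c).card +
      (Fintype.card F ^ 5 - 1) * Fintype.card F * (EE a).card := by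
  have hNF : Nat.card F = Fintype.card F := Nat.card_eq_fintype_card
  let T : Finset ((Fin 6 → F) × Matrix (Fin 6) (Fin 6) F) :=
    DD a c ∪ (EE a).image fun w => (w, 0)
  have hdis : Disjoint (DD a c) ((EE a).image fun w => (w, (0 : Matrix (Fin 6) (Fin 6) F))) := by
    rw [Finset.disjoint_left]
    rintro x hx hx'
    simp only [DD, mem_filter, mem_univ, true_and] at hx
    rw [mem_image] at hx'
    obtain ⟨w, _, rfl⟩ := hx'
    exact hx.2.1 rfl
  have h1 : (PP a c).card = ∑ x ∈ T, ((PP a c).filter fun t => (t.2.1, wedge t.1 t.2.2) = x).card := by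
    refine Finset.card_eq_sum_card_fiberwise ?_
    rintro ⟨y, w, z⟩ ht
    rw [Finset.mem_coe] at ht ⊢
    simp only [PP, mem_filter, mem_univ, true_and] at ht
    obtain ⟨hy, h2, h3, h4, h5⟩ := ht
    rw [mem_union]
    by_cases hb : wedge y z = 0
    · right
      rw [mem_image]
      refine ⟨w, ?_, ?_⟩
      · simp only [EE, mem_filter, mem_univ, true_and]
        refine ⟨h5.resolve_right (fun h => h hb), ?_⟩
        have h6 : (y ᵥ* c) ⬝ᵥ z = 0 := by
          rw [← pair_wedge c hc, hb, pair_zero]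
        rw [h6, add_zero] at h4
        exact h4
      · show (w, (0 : Matrix (Fin 6) (Fin 6) F)) = (w, wedge y z)
        rw [hb]
    · left
      simp only [DD, mem_filter, mem_univ, true_and]
      refine ⟨wedge_alt _ _, hb, wedge_pf _ _, ?_, ?_⟩
      · ext i
        rw [wedge_mulVec, dotProduct_comm z w, dotProduct_comm y w, h2, h3]
        simp
      · rw [pair_wedge c hc]
        exact h4
  rw [h1, Finset.sum_union hdis]
  congr 1
  · have h2 : ∀ x ∈ DD a c, ((PP a c).filter fun t => (t.2.1, wedge t.1 t.2.2) = x).card =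
        Fintype.card F ^ 3 - Fintype.card F := by
      rintro ⟨w, b⟩ hx
      simp only [DD, mem_filter, mem_univ, true_and] at hx
      obtain ⟨hb1, hb2, hb3, hb4, hb5⟩ := hx
      have h3 := hDec F b hb1 hb2 hb3
      rw [hNF] at h3
      rw [← h3, Nat.card_eq_fintype_card, Fintype.card_subtype]
      refine Finset.card_bij (fun t _ => (t.1, t.2.2)) ?_ ?_ ?_
      · rintro ⟨y, w', z⟩ ht
        simp only [mem_filter, mem_univ, true_and] at ht ⊢
        exact (Prod.ext_iff.1 ht.2).2
      · rintro ⟨y1, w1, z1⟩ h1 ⟨y2, w2, z2⟩ h2 h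
        simp only [mem_filter, Prod.mk.injEq] at h1 h2 h
        obtain ⟨rfl, rfl⟩ := h
        rw [h1.2.1, h2.2.1]
      · rintro ⟨y, z⟩ h
        simp only [mem_filter, mem_univ, true_and] at h
        subst h
        have hy : y ≠ 0 := by
          rintro rfl
          apply hb2
          ext i j
          rw [wedge_apply]
          simp
        have h5 := mulVec_wedge_zero hb2 hb4
        refine ⟨(y, w, z), ?_, rfl⟩
        simp only [PP, mem_filter, mem_univ, true_and]
        refine ⟨⟨hy, h5.1, h5.2, ?_, Or.inr hb2⟩, trivial⟩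
        rw [← pair_wedge c hc]
        exact hb5
    rw [Finset.sum_congr rfl h2, Finset.sum_const, smul_eq_mul, mul_comm]
  · rw [Finset.sum_image (fun w1 _ w2 _ h => (Prod.ext_iff.1 h).1)]
    have h2 : ∀ w ∈ EE a, ((PP a c).filter fun t => (t.2.1, wedge t.1 t.2.2) = (w, 0)).card =
        (Fintype.card F ^ 5 - 1) * Fintype.card F := by
      intro w hw
      simp only [EE, mem_filter, mem_univ, true_and] at hw
      obtain ⟨hw0, hwa⟩ := hw
      have h3 : ((univ.filter fun y : Fin 6 → F => y ⬝ᵥ w = 0).filter fun y => y ≠ 0).card =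
          Fintype.card F ^ 5 - 1 := by
        have h4 := Finset.card_filter_add_card_filter_not
          (s := (univ.filter fun y : Fin 6 → F => y ⬝ᵥ w = 0)) (fun y : Fin 6 → F => y ≠ 0)
        have h5 : ((univ.filter fun y : Fin 6 → F => y ⬝ᵥ w = 0).filter fun y => ¬ y ≠ 0) =
            {0} := by
          ext y
          simp only [mem_filter, mem_univ, true_and, not_not, mem_singleton]
          constructor
          · exact fun h => h.2
          · rintro rfl
            exact ⟨zero_dotProduct _, rfl⟩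
        rw [h5, Finset.card_singleton, card_dot' w hw0] at h4
        omega
      rw [← h3, ← smul_eq_mul, ← Finset.sum_const]
      rw [Finset.card_eq_sum_card_fiberwise (f := fun t => t.1)
        (t := (univ.filter fun y : Fin 6 → F => y ⬝ᵥ w = 0).filter fun y => y ≠ 0)]
      · refine Finset.sum_congr rfl fun y hy => ?_
        simp only [mem_filter, mem_univ, true_and] at hy
        rw [← card_line hy.2]
        refine Finset.card_bij (fun t _ => t.2.2) ?_ ?_ ?_
        · rintro ⟨y', w', z⟩ ht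
          simp only [mem_filter, mem_univ, true_and, Prod.mk.injEq] at ht ⊢
          obtain ⟨⟨_, h4⟩, rfl⟩ := ht
          exact h4.2
        · rintro ⟨y1, w1, z1⟩ h1 ⟨y2, w2, z2⟩ h2 h
          simp only [mem_filter, Prod.mk.injEq] at h1 h2 h
          obtain ⟨⟨_, rfl, _⟩, rfl⟩ := h1
          obtain ⟨⟨_, rfl, _⟩, rfl⟩ := h2
          rw [h]
        · intro z hz
          simp only [mem_filter, mem_univ, true_and] at hz
          refine ⟨(y, w, z), ?_, rfl⟩
          simp only [PP, mem_filter, mem_univ, true_and, Prod.mk.injEq]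
          obtain ⟨t, rfl⟩ := (wedge_zero_iff hy.2 z).1 hz
          have hwy : w ⬝ᵥ y = 0 := by
            rw [dotProduct_comm]
            exact hy.1
          refine ⟨⟨⟨hy.2, hwy, ?_, ?_, Or.inl hw0⟩, hz⟩, trivial⟩
          · rw [dotProduct_smul, hwy, smul_zero]
          · rw [dotProduct_smul, vecMul_dot_self c hc, smul_zero, add_zero]
            exact hwa
      · rintro ⟨y, w', z⟩ ht
        rw [Finset.mem_coe] at ht ⊢
        simp only [PP, mem_filter, mem_univ, true_and, Prod.mk.injEq] at ht ⊢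
        obtain ⟨⟨h4, h5, _⟩, rfl, _⟩ := ht
        refine ⟨?_, h4⟩
        rw [dotProduct_comm]
        exact h5
    rw [Finset.sum_congr rfl h2, Finset.sum_const, smul_eq_mul, mul_comm]

end

end SpreadPerm.EX
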