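import Pool.Agent.Lib.MP_e6ed9e_al.EX.Count67

/-! # The points of `E_6` and `F_4`: the pair of multisets -/

namespace SpreadPerm.EX

open Matrix Finset
open scoped Classical

noncomputable section

variable {F : Type} [Field F] [Fintype F]

theorem single_ne (i : Fin 6) : (Pi.single i 1 : Fin 6 → F) ≠ 0 := by
  intro h
  have := congrFun h i
  simp at this

theorem sec_smul (l₀ : V F) (t : F) (x : V F) (ht : t ≠ 0)
    (h : x ∈ {x : V F | White x ∧ ev l₀ x = 0}) :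
    t • x ∈ {x : V F | White x ∧ ev l₀ x = 0} :=
  ⟨white_smul t x ht h.1, by rw [ev_smul, h.2, mul_zero]⟩

/-- The value at a representative does not depend on the representative. -/
theorem ev_rep (l x : V F) (hx : x ≠ 0) :
    ev l (Projectivization.mk F x hx).rep = 0 ↔ ev l x = 0 := by
  obtain ⟨a, ha⟩ := Projectivization.exists_smul_eq_mk_rep F x hx
  rw [← ha]
  show ev l ((a : F) • x) = 0 ↔ _
  rw [ev_smul, mul_eq_zero]
  exact or_iff_right a.ne_zero

theorem wt_rep (x : V F) (hx : x ≠ 0) : wt (Projectivization.mk F x hx).rep = wt x := by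
  obtain ⟨a, ha⟩ := Projectivization.exists_smul_eq_mk_rep F x hx
  rw [← ha]
  exact wt_smul (a : F) x a.ne_zero

theorem white_rep (x : V F) (hx : x ≠ 0) (h : White x) :
    White (Projectivization.mk F x hx).rep := by
  obtain ⟨a, ha⟩ := Projectivization.exists_smul_eq_mk_rep F x hx
  rw [← ha]
  exact white_smul (a : F) x a.ne_zero h

theorem white_u (hPf0 : StPf0) (u : Fin 6 → F) : White ((0, 0, u) : V F) := by
  refine ⟨⟨fun i => rfl, fun i j => by simp⟩, ?_, ?_, ?_⟩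
  · exact zero_mulVec _
  · exact zero_mulVec _
  · intro y z
    have := (hPf0 F 0 ⟨fun i => rfl, fun i j => by simp⟩).2 (by intros; simp [pf]) y z
    show Pf (0 + wedge y z) = Pf 0 + ((y ⬝ᵥ 0) * (z ⬝ᵥ u) - (y ⬝ᵥ u) * (z ⬝ᵥ 0))
    rw [this, dotProduct_zero, dotProduct_zero]
    ring

theorem ev_mid (c : Matrix (Fin 6) (Fin 6) F) (x : V F) : ev (0, c, 0) x = pair c x.2.1 := by
  show (0 : Fin 6 → F) ⬝ᵥ x.1 + pair c x.2.1 + (0 : Fin 6 → F) ⬝ᵥ x.2.2 = _
  rw [zero_dotProduct, zero_dotProduct]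
  ring

theorem core (hPf0 : StPf0) {G Ω : Type} [Group G] [Fintype Ω] [MulAction G Ω]
    (c₀ c₁ : Matrix (Fin 6) (Fin 6) F)
    (e : Ω ≃ {p : Projectivization F (V F) // p.rep ∈ {x : V F | White x ∧ ev (0, c₀, 0) x = 0}})
    (R : V F → Prop) (hR : R (0, c₁, 0)) (K : ℕ) (hK : 0 < K)
    (hsec : ∀ l, R l → (Fintype.card F ^ 2 - 1) *
      ∑ x : V F, (if x ≠ 0 ∧ White x ∧ ev (0, c₀, 0) x = 0 ∧ ev l x = 0 then wt x else 0) = K)
    (hdiv : (∑ x : V F, (if x ≠ 0 ∧ White x ∧ ev (0, c₀, 0) x = 0 then wt x else 0)) ∣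
      ∑ x : V F, (if x ≠ 0 ∧ White x ∧ ev (0, c₀, 0) x = 0 then 1 else 0))
    (y : V F) (hy : White y) (hy0 : ev (0, c₀, 0) y = 0) (hy1 : ev (0, c₁, 0) y ≠ 0)
    (hG : ∀ (g : G) (l : V F), R l → ∃ l', R l' ∧ ∀ ω : Ω,
      ev l (e ω).1.rep = 0 ↔ ev l' (e (g • ω)).1.rep = 0) : NonSpreading G Ω := by
  let P := {p : Projectivization F (V F) // p.rep ∈ {x : V F | White x ∧ ev (0, c₀, 0) x = 0}}
  let iP : Fintype P := Fintype.ofEquiv Ω e
  have hq : 2 ≤ Fintype.card F := Fintype.one_lt_card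
  -- points
  have hpt : ∀ (x : V F) (hx : x ≠ 0), White x → ev (0, c₀, 0) x = 0 → ∃ ω : Ω, ∀ l : V F,
      (ev l (e ω).1.rep = 0 ↔ ev l x = 0) ∧ wt (e ω).1.rep = wt x ∧
        (e ω).1 = Projectivization.mk F x hx := by
    intro x hx h1 h2
    refine ⟨e.symm ⟨Projectivization.mk F x hx, white_rep x hx h1, (ev_rep _ x hx).2 h2⟩,
      fun l => ?_⟩
    rw [e.apply_symm_apply]
    exact ⟨ev_rep l x hx, wt_rep x hx, rfl⟩
  have hvec : ∀ (f : V F → ℕ) (Q : V F → Prop), (∀ (t : F) (x : V F), t ≠ 0 → f (t • x) = f x) →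
      (∀ (t : F) (x : V F), t ≠ 0 → (Q (t • x) ↔ Q x)) →
      (Fintype.card F - 1) * ∑ ω : Ω, (if Q (e ω).1.rep then f (e ω).1.rep else 0) =
      ∑ x : V F, (if x ≠ 0 ∧ White x ∧ ev (0, c₀, 0) x = 0 ∧ Q x then f x else 0) := by
    intro f Q hf hQ
    rw [← sum_pts {x : V F | White x ∧ ev (0, c₀, 0) x = 0} (sec_smul _)
      (fun x => if x ≠ 0 ∧ White x ∧ ev (0, c₀, 0) x = 0 ∧ Q x then f x else 0)]
    · congr 1
      rw [← Equiv.sum_comp e]
      refine Finset.sum_congr rfl fun ω _ => ?_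
      have h1 := (e ω).1.rep_nonzero
      have h2 := (e ω).2
      by_cases h3 : Q (e ω).1.rep
      · rw [if_pos h3, if_pos ⟨h1, h2.1, h2.2, h3⟩]
      · rw [if_neg h3, if_neg fun h => h3 h.2.2.2]
    · intro t x ht
      have h1 : (t • x ≠ 0 ∧ White (t • x) ∧ ev (0, c₀, 0) (t • x) = 0 ∧ Q (t • x)) ↔
          (x ≠ 0 ∧ White x ∧ ev (0, c₀, 0) x = 0 ∧ Q x) := by
        have hw : White (t • x) ↔ White x := by
          refine ⟨fun h => ?_, white_smul t x ht⟩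
          have := white_smul t⁻¹ _ (inv_ne_zero ht) h
          rwa [smul_smul, inv_mul_cancel₀ ht, one_smul] at this
        have hz : t • x ≠ 0 ↔ x ≠ 0 := by
          rw [Ne, smul_eq_zero, not_or]
          exact and_iff_right ht
        have he : ev (0, c₀, 0) (t • x) = 0 ↔ ev (0, c₀, 0) x = 0 := by
          rw [ev_smul, mul_eq_zero]
          exact or_iff_right ht
        rw [hw, hz, he, hQ t x ht]
      by_cases h2 : x ≠ 0 ∧ White x ∧ ev (0, c₀, 0) x = 0 ∧ Q x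
      · rw [if_pos h2, if_pos (h1.2 h2), hf t x ht]
      · rw [if_neg h2, if_neg (fun h => h2 (h1.1 h))]
    · intro x hx
      by_contra h
      refine hx (if_neg fun h' => h ⟨h'.1, h'.2.1, h'.2.2.1⟩)
  have hS : ∀ l, R l → (Fintype.card F ^ 2 - 1) * ((Fintype.card F - 1) *
      ∑ ω : Ω, (if ev l (e ω).1.rep = 0 then wt (e ω).1.rep else 0)) = K := by
    intro l hl
    rw [hvec wt (fun x => ev l x = 0) wt_smul]
    · exact hsec l hl
    · intro t x ht
      rw [ev_smul, mul_eq_zero]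
      exact or_iff_right ht
  have hAB : ∀ g : G, ∃ l, R l ∧ ∀ ω : Ω,
      (wt (e ω).1.rep * (if ev (0, c₁, 0) (e (g⁻¹ • ω)).1.rep = 0 then 1 else 0)) =
        if ev l (e ω).1.rep = 0 then wt (e ω).1.rep else 0 := by
    intro g
    obtain ⟨l, hl, h⟩ := hG g _ hR
    refine ⟨l, hl, fun ω => ?_⟩
    have h1 := h (g⁻¹ • ω)
    rw [smul_inv_smul] at h1
    by_cases h2 : ev l (e ω).1.rep = 0
    · rw [if_pos h2, if_pos (h1.2 h2), mul_one]
    · rw [if_neg h2, if_neg (fun h => h2 (h1.1 h)), mul_zero]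
  obtain ⟨ω₀, hω₀⟩ := hpt ((Pi.single 0 1, 0, 0) : V F)
    (fun h => single_ne 0 (congrArg (fun y : V F => y.1) h)) (white_w _)
    (by rw [ev_mid]; exact pair_zero _)
  obtain ⟨ω₁, hω₁⟩ := hpt ((Pi.single 1 1, 0, 0) : V F)
    (fun h => single_ne 1 (congrArg (fun y : V F => y.1) h)) (white_w _)
    (by rw [ev_mid]; exact pair_zero _)
  obtain ⟨ω₂, hω₂⟩ := hpt ((0, 0, Pi.single 0 1) : V F)
    (fun h => single_ne 0 (congrArg (fun y : V F => y.2.2) h)) (white_u hPf0 _)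
    (by rw [ev_mid]; exact pair_zero _)
  obtain ⟨ω₃, hω₃⟩ := hpt y (by rintro rfl; exact hy1 (by rw [ev_mid]; exact pair_zero _)) hy hy0
  have hw0 : ∀ w : Fin 6 → F, wt ((w, 0, 0) : V F) = Fintype.card F ^ 2 + 1 := by
    intro w
    unfold wt
    rw [if_neg (by simp), if_neg (by simp)]
  have hu0 : wt ((0, 0, Pi.single 0 1) : V F) = 0 := by
    unfold wt
    rw [if_pos (single_ne 0)]
  have h01 : ω₀ ≠ ω₁ := by
    rintro rfl
    have h1 := (hω₀ 0).2.2
    have h2 := (hω₁ 0).2.2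
    have h3 := h1.symm.trans h2
    rw [Projectivization.mk_eq_mk_iff] at h3
    obtain ⟨a, ha⟩ := h3
    have h4 : (a : F) * (Pi.single 1 1 : Fin 6 → F) 1 = (Pi.single 0 1 : Fin 6 → F) 1 :=
      congrFun (congrArg (fun y : V F => y.1) ha) 1
    simp at h4
  have hmid : ∀ w : Fin 6 → F, ev ((0, c₁, 0) : V F) (w, 0, 0) = 0 := by
    intro w
    rw [ev_mid]
    exact pair_zero _
  refine ⟨fun ω => wt (e ω).1.rep, fun ω => if ev (0, c₁, 0) (e ω).1.rep = 0 then 1 else 0,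
    ∑ ω : Ω, wt (e ω).1.rep * (if ev (0, c₁, 0) (e ((1 : G)⁻¹ • ω)).1.rep = 0 then 1 else 0),
    ?_, ?_, ?_, ?_, ?_, ?_⟩
  · obtain ⟨l, hl, h⟩ := hAB 1
    rw [Finset.sum_congr rfl fun ω _ => h ω]
    have := hS l hl
    rcases Nat.eq_zero_or_pos (∑ ω : Ω, (if ev l (e ω).1.rep = 0 then wt (e ω).1.rep else 0))
      with h0 | h0
    · rw [h0, mul_zero, mul_zero] at this
      omega
    · exact h0
  · rintro (⟨c, hc⟩ | ⟨i, hi⟩)
    · have h1 : wt (e ω₀).1.rep = c := hc ω₀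
      have h2 : wt (e ω₂).1.rep = c := hc ω₂
      rw [(hω₀ 0).2.1, hw0] at h1
      rw [(hω₂ 0).2.1, hu0] at h2
      omega
    · have h3 : wt (e ω₀).1.rep ≠ 0 := by
        rw [(hω₀ 0).2.1, hw0]
        exact Nat.succ_ne_zero _
      have h4 : wt (e ω₁).1.rep ≠ 0 := by
        rw [(hω₁ 0).2.1, hw0]
        exact Nat.succ_ne_zero _
      have h1 := (hi ω₀).1 h3
      have h2 := (hi ω₁).1 h4
      exact h01 (h1.trans h2.symm)
  · have h1 : ev (0, c₁, 0) (e ω₀).1.rep = 0 := (hω₀ _).1.2 (hmid _)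
    have h2 : ev (0, c₁, 0) (e ω₁).1.rep = 0 := (hω₁ _).1.2 (hmid _)
    have h3 : ev (0, c₁, 0) (e ω₃).1.rep ≠ 0 := fun h => hy1 ((hω₃ _).1.1 h)
    rintro (⟨c, hc⟩ | ⟨i, hi⟩)
    · have h4 := hc ω₀
      have h5 := hc ω₃
      simp only [if_pos h1] at h4
      simp only [if_neg h3] at h5
      omega
    · have h4 := (hi ω₀).1 (by simp only [if_pos h1]; omega)
      have h5 := (hi ω₁).1 (by simp only [if_pos h2]; omega)
      exact h01 (h4.trans h5.symm)
  · intro g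
    obtain ⟨l, hl, h⟩ := hAB g
    obtain ⟨l', hl', h'⟩ := hAB 1
    rw [Finset.sum_congr rfl fun ω _ => h ω, Finset.sum_congr rfl fun ω _ => h' ω]
    have h1 := (hS l hl).trans (hS l' hl').symm
    have h2 : 0 < Fintype.card F ^ 2 - 1 := by
      have : 2 ^ 2 ≤ Fintype.card F ^ 2 := Nat.pow_le_pow_left hq 2
      omega
    exact Nat.eq_of_mul_eq_mul_left (by omega) (Nat.eq_of_mul_eq_mul_left h2 h1)
  · intro ω
    simp only
    split_ifs
    · exact Or.inr rfl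
    · exact Or.inl rfl
  · have h1 := hvec wt (fun _ => True) wt_smul (fun _ _ _ => Iff.rfl)
    have h2 := hvec (fun _ => 1) (fun _ => True) (fun _ _ _ => rfl) (fun _ _ _ => Iff.rfl)
    simp only [if_true, and_true] at h1 h2
    rw [Finset.sum_const, Finset.card_univ, smul_eq_mul, mul_one] at h2
    refine Nat.dvd_of_mul_dvd_mul_left (k := Fintype.card F - 1) (by omega) ?_
    rw [h1, h2]
    exact hdiv

end

end SpreadPerm.EX
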