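import Pool.Agent.Lib.MP_e6ed9e_al.EX.Pts67

/-! # The points of `E_6`: the number of white vectors -/

namespace SpreadPerm.EX

open Matrix Finset
open scoped Classical

noncomputable section

variable {F : Type} [Field F] [Fintype F]

theorem zero_part (hPf0 : StPf0) (a : Fin 6 → F) (c : Matrix (Fin 6) (Fin 6) F)
    (d : Fin 6 → F) :
    ((univ.filter fun x : V F => x ≠ 0 ∧ White x ∧ ev (a, c, d) x = 0).filter
      fun x => x.2.2 = 0) = (DD a c).image (fun p => ((p.1, p.2, 0) : V F)) ∪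
        (EE a).image (fun w => ((w, 0, 0) : V F)) := by
  ext ⟨w, b, u⟩
  rw [mem_union, mem_image, mem_image, mem_filter, mem_filter]
  constructor
  · rintro ⟨⟨_, h0, h1, h2⟩, hu⟩
    simp only at hu
    subst hu
    have h2' : a ⬝ᵥ w + pair c b + d ⬝ᵥ 0 = 0 := h2
    rw [dotProduct_zero, add_zero] at h2'
    by_cases hb : b = 0
    · subst hb
      right
      refine ⟨w, ?_, rfl⟩
      simp only [EE, mem_filter, mem_univ, true_and]
      rw [pair_zero, add_zero] at h2'
      exact ⟨fun h => h0 (by rw [h]; rfl), h2'⟩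
    · left
      refine ⟨(w, b), ?_, rfl⟩
      simp only [DD, mem_filter, mem_univ, true_and]
      obtain ⟨h3, h4, h5⟩ := (white_b hPf0 w b).1 h1
      exact ⟨h3, hb, h4, h5, h2'⟩
  · rintro (⟨p, hp, h⟩ | ⟨w', hw, h⟩)
    · rw [← h]
      simp only [DD, mem_filter, mem_univ, true_and] at hp
      obtain ⟨h1, h2, h3, h4, h5⟩ := hp
      refine ⟨⟨mem_univ _, fun h => h2 (congrArg (fun y : V F => y.2.1) h), ?_, ?_⟩, rfl⟩
      · exact (white_b hPf0 _ _).2 ⟨h1, h3, h4⟩
      · show a ⬝ᵥ p.1 + pair c p.2 + d ⬝ᵥ 0 = 0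
        rw [dotProduct_zero, add_zero]
        exact h5
    · rw [← h]
      simp only [EE, mem_filter, mem_univ, true_and] at hw
      refine ⟨⟨mem_univ _, fun h => hw.1 (congrArg (fun y : V F => y.1) h), white_w w', ?_⟩,
        rfl⟩
      show a ⬝ᵥ w' + pair c 0 + d ⬝ᵥ 0 = 0
      rw [pair_zero, dotProduct_zero, add_zero, add_zero]
      exact hw.2

theorem card_white (hPf0 : StPf0) (c : Matrix (Fin 6) (Fin 6) F) (N : ℕ)
    (hU : ∀ u : Fin 6 → F, u ≠ 0 →
      (univ.filter fun x : (Fin 6 → F) × Matrix (Fin 6) (Fin 6) F =>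
        White (x.1, x.2, u) ∧ pair c x.2 = 0).card = N) :
    (univ.filter fun x : V F => x ≠ 0 ∧ White x ∧ ev (0, c, 0) x = 0).card =
      (Fintype.card F ^ 6 - 1) * N + ((DD 0 c).card + (Fintype.card F ^ 6 - 1)) := by
  rw [← Finset.card_filter_add_card_filter_not (fun x : V F => x.2.2 = 0), zero_part hPf0,
    Finset.card_union_of_disjoint, Finset.card_image_of_injOn, Finset.card_image_of_injOn,
    EE_zero, add_comm]
  · congr 1
    rw [Finset.card_eq_sum_card_fiberwise (f := fun x : V F => x.2.2)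
      (t := univ.filter fun u : Fin 6 → F => u ≠ 0)]
    · rw [Finset.sum_congr rfl (g := fun _ => N), Finset.sum_const, card_ne_zero, smul_eq_mul]
      intro u hu
      have hu0 : u ≠ 0 := (mem_filter.1 hu).2
      rw [← hU u hu0]
      refine Finset.card_bij (fun x _ => (x.1, x.2.1)) ?_ ?_ ?_
      · rintro ⟨w, b, u'⟩ hx
        rw [mem_filter, mem_filter, mem_filter] at hx
        obtain ⟨⟨⟨_, _, h1, h2⟩, _⟩, h3⟩ := hx
        simp only at h3
        subst h3
        rw [mem_filter]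
        refine ⟨mem_univ _, h1, ?_⟩
        have h2' : (0 : Fin 6 → F) ⬝ᵥ w + pair c b + (0 : Fin 6 → F) ⬝ᵥ u' = 0 := h2
        rw [zero_dotProduct, zero_dotProduct, add_zero, zero_add] at h2'
        exact h2'
      · rintro ⟨w, b, u1⟩ h1 ⟨w', b', u2⟩ h2 h
        rw [mem_filter] at h1 h2
        simp only [Prod.mk.injEq] at h
        obtain ⟨rfl, rfl⟩ := h
        have h3 : u1 = u := h1.2
        have h4 : u2 = u := h2.2
        rw [h3, h4]
      · rintro ⟨w, b⟩ hx
        rw [mem_filter] at hx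
        obtain ⟨_, h1, h2⟩ := hx
        refine ⟨(w, b, u), ?_, rfl⟩
        rw [mem_filter, mem_filter, mem_filter]
        refine ⟨⟨⟨mem_univ _, fun h => hu0 (congrArg (fun y : V F => y.2.2) h), h1, ?_⟩, hu0⟩,
          rfl⟩
        show (0 : Fin 6 → F) ⬝ᵥ w + pair c b + (0 : Fin 6 → F) ⬝ᵥ u = 0
        rw [zero_dotProduct, zero_dotProduct, add_zero, zero_add]
        exact h2
    · intro x hx
      rw [Finset.mem_coe, mem_filter] at hx
      rw [Finset.mem_coe, mem_filter]
      exact ⟨mem_univ _, hx.2⟩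
  · intro w _ w' _ h
    exact congrArg (fun y : V F => y.1) h
  · intro p _ p' _ h
    have h1 : p.1 = p'.1 := congrArg (fun y : V F => y.1) h
    have h2 : p.2 = p'.2 := congrArg (fun y : V F => y.2.1) h
    exact Prod.ext h1 h2
  · rw [Finset.disjoint_left]
    intro x hx hx'
    rw [mem_image] at hx hx'
    obtain ⟨p, hp, rfl⟩ := hx
    obtain ⟨w, _, h⟩ := hx'
    simp only [DD, mem_filter, mem_univ, true_and] at hp
    exact hp.2.1 (congrArg (fun y : V F => y.2.1) h).symm

theorem pair_zero_left (b : Matrix (Fin 6) (Fin 6) F) : pair 0 b = 0 := by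
  unfold pair
  simp

theorem ev_zero (x : V F) : ev (0, 0, 0) x = 0 := by
  show (0 : Fin 6 → F) ⬝ᵥ x.1 + pair 0 x.2.1 + (0 : Fin 6 → F) ⬝ᵥ x.2.2 = 0
  rw [zero_dotProduct, zero_dotProduct, pair_zero_left]
  simp

theorem card_white_all (hPf0 : StPf0) (hU : StU) :
    (univ.filter fun x : V F => x ≠ 0 ∧ White x).card =
      (Fintype.card F ^ 6 - 1) * Fintype.card F ^ 11 +
        ((DD (0 : Fin 6 → F) 0).card + (Fintype.card F ^ 6 - 1)) := by
  rw [← card_white hPf0 0 (Fintype.card F ^ 11)]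
  · congr 1
    ext x
    simp only [mem_filter, mem_univ, true_and, ev_zero, and_true]
  · intro u hu
    have h := hU F u hu
    rw [Nat.card_eq_fintype_card, Nat.card_eq_fintype_card, Fintype.card_subtype] at h
    rw [← h]
    congr 1
    ext x
    simp only [mem_filter, mem_univ, true_and, pair_zero_left, and_true]

theorem card_white_sec (hPf0 : StPf0) (hUc : StUc) (c : Matrix (Fin 6) (Fin 6) F) (hc : Alt c)
    (hc0 : ∀ y, c *ᵥ y = 0 → y = 0) :
    (univ.filter fun x : V F => x ≠ 0 ∧ White x ∧ ev (0, c, 0) x = 0).card =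
      (Fintype.card F ^ 6 - 1) * Fintype.card F ^ 10 +
        ((DD (0 : Fin 6 → F) c).card + (Fintype.card F ^ 6 - 1)) := by
  rw [← card_white hPf0 c (Fintype.card F ^ 10)]
  intro u hu
  have h := hUc F c hc hc0 u hu
  rw [Nat.card_eq_fintype_card, Nat.card_eq_fintype_card, Fintype.card_subtype] at h
  exact h

end

end SpreadPerm.EX
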