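import Mathlib
import Pool.Agent.Lib.MP_e6ed9e_al.Polar.Glue88

/-!
# The points of the exceptional group `E_7` (module of dimension 56): definitions and algebra
-/

namespace SpreadPerm.E7

open Matrix

noncomputable section

/-- The alternating eight by eight matrices. -/
def A8 (F : Type) [Field F] : Submodule F (Matrix (Fin 8) (Fin 8) F) where
  carrier := {X | (∀ i, X i i = 0) ∧ ∀ i j, X i j = -X j i}
  zero_mem' := ⟨fun _ => rfl, fun _ _ => by simp⟩
  add_mem' := fun {X Y} hX hY => ⟨fun i => by rw [Matrix.add_apply, hX.1, hY.1, add_zero],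
    fun i j => by rw [Matrix.add_apply, Matrix.add_apply, hX.2 i j, hY.2 i j, neg_add]⟩
  smul_mem' := fun t X hX => ⟨fun i => by rw [Matrix.smul_apply, hX.1, smul_zero],
    fun i j => by rw [Matrix.smul_apply, Matrix.smul_apply, hX.2 i j, smul_neg]⟩

/-- The module of dimension 56. -/
abbrev V56 (F : Type) [Field F] : Type := A8 F × A8 F

variable {F : Type} [Field F]

/-- The Pfaffian of a four by four submatrix. -/
def pf (X : Matrix (Fin 8) (Fin 8) F) (a b c d : Fin 8) : F :=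
  X a b * X c d - X a c * X b d + X a d * X b c

/-- The alternating form of the module of dimension 56. -/
def frm (x y : V56 F) : F :=
  ∑ i, ∑ j, if i < j then x.1.1 i j * y.2.1 i j - x.2.1 i j * y.1.1 i j else 0

/-- White vectors: `X * Y` is a scalar matrix and the four by four Pfaffians of `X` and `Y` for
complementary sets of indices agree up to the sign. -/
def White (x : V56 F) : Prop :=
  (∃ c : F, x.1.1 * x.2.1 = Matrix.scalar (Fin 8) c) ∧
  ∀ σ : Equiv.Perm (Fin 8), pf x.1.1 (σ 0) (σ 1) (σ 2) (σ 3) =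
    (((Equiv.Perm.sign σ : ℤˣ) : ℤ) : F) * pf x.2.1 (σ 4) (σ 5) (σ 6) (σ 7)

theorem dg (X : A8 F) (i : Fin 8) : X.1 i i = 0 := X.2.1 i
theorem sk (X : A8 F) (i j : Fin 8) : X.1 i j = -X.1 j i := X.2.2 i j

/-- polar form of `pf` -/
def pfb (X X' : Matrix (Fin 8) (Fin 8) F) (a b c d : Fin 8) : F :=
  X a b * X' c d + X' a b * X c d - X a c * X' b d - X' a c * X b d + X a d * X' b c
    + X' a d * X b c

theorem pf_add (X X' : Matrix (Fin 8) (Fin 8) F) (a b c d : Fin 8) :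
    pf (X + X') a b c d = pf X a b c d + pf X' a b c d + pfb X X' a b c d := by
  simp only [pf, pfb, Matrix.add_apply]; ring

theorem pf_smul (t : F) (X : Matrix (Fin 8) (Fin 8) F) (a b c d : Fin 8) :
    pf (t • X) a b c d = t ^ 2 * pf X a b c d := by
  simp only [pf, Matrix.smul_apply, smul_eq_mul]; ring

abbrev QT (F : Type) : Type := Matrix (Fin 8) (Fin 8) F × (Equiv.Perm (Fin 8) → F)

/-- `Z` minus the scalar matrix with the same first entry -/
def ns (Z : Matrix (Fin 8) (Fin 8) F) : Matrix (Fin 8) (Fin 8) F := Z - Matrix.scalar (Fin 8) (Z 0 0)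

theorem ns_add (Z Z' : Matrix (Fin 8) (Fin 8) F) : ns (Z + Z') = ns Z + ns Z' := by
  ext i j
  simp only [ns, Matrix.sub_apply, Matrix.add_apply, Matrix.scalar_apply, Matrix.diagonal_apply]
  split_ifs <;> ring

theorem ns_zero_iff (Z : Matrix (Fin 8) (Fin 8) F) :
    ns Z = 0 ↔ ∃ c : F, Z = Matrix.scalar (Fin 8) c := by
  constructor
  · intro h; exact ⟨Z 0 0, sub_eq_zero.1 h⟩
  · rintro ⟨c, rfl⟩
    simp [ns]

/-- the quadratic equations of the white vectors -/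
def q (x : V56 F) : QT F := (ns (x.1.1 * x.2.1), fun σ => pf x.1.1 (σ 0) (σ 1) (σ 2) (σ 3) -
    (((Equiv.Perm.sign σ : ℤˣ) : ℤ) : F) * pf x.2.1 (σ 4) (σ 5) (σ 6) (σ 7))

/-- the polar form -/
def B (x y : V56 F) : QT F := (ns (x.1.1 * y.2.1 + y.1.1 * x.2.1),
  fun σ => pfb x.1.1 y.1.1 (σ 0) (σ 1) (σ 2) (σ 3) -
    (((Equiv.Perm.sign σ : ℤˣ) : ℤ) : F) * pfb x.2.1 y.2.1 (σ 4) (σ 5) (σ 6) (σ 7))

theorem white_iff (x : V56 F) : White x ↔ q x = 0 := by
  unfold White q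
  rw [Prod.mk_eq_zero, ns_zero_iff]
  refine and_congr Iff.rfl ?_
  constructor
  · intro h; ext σ; rw [h σ, Pi.zero_apply, sub_self]
  · intro h σ
    have := congrFun h σ
    exact sub_eq_zero.1 this

theorem q_add (x y : V56 F) : q (x + y) = q x + q y + B x y := by
  apply Prod.ext
  · show ns ((x.1.1 + y.1.1) * (x.2.1 + y.2.1)) = ns (x.1.1 * x.2.1) + ns (y.1.1 * y.2.1) +
      ns (x.1.1 * y.2.1 + y.1.1 * x.2.1)
    rw [← ns_add, ← ns_add]
    congr 1
    rw [Matrix.add_mul, Matrix.mul_add, Matrix.mul_add]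
    abel
  · funext σ
    show pf (x.1.1 + y.1.1) (σ 0) (σ 1) (σ 2) (σ 3) -
      (((Equiv.Perm.sign σ : ℤˣ) : ℤ) : F) * pf (x.2.1 + y.2.1) (σ 4) (σ 5) (σ 6) (σ 7) = _
    rw [pf_add, pf_add]
    show _ = (pf x.1.1 (σ 0) (σ 1) (σ 2) (σ 3) -
      (((Equiv.Perm.sign σ : ℤˣ) : ℤ) : F) * pf x.2.1 (σ 4) (σ 5) (σ 6) (σ 7)) +
      (pf y.1.1 (σ 0) (σ 1) (σ 2) (σ 3) -
      (((Equiv.Perm.sign σ : ℤˣ) : ℤ) : F) * pf y.2.1 (σ 4) (σ 5) (σ 6) (σ 7)) +
      (pfb x.1.1 y.1.1 (σ 0) (σ 1) (σ 2) (σ 3) -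
    (((Equiv.Perm.sign σ : ℤˣ) : ℤ) : F) * pfb x.2.1 y.2.1 (σ 4) (σ 5) (σ 6) (σ 7))
    ring

theorem B_add_left (x x' y : V56 F) : B (x + x') y = B x y + B x' y := by
  apply Prod.ext
  · show ns ((x.1.1 + x'.1.1) * y.2.1 + y.1.1 * (x.2.1 + x'.2.1)) =
      ns (x.1.1 * y.2.1 + y.1.1 * x.2.1) + ns (x'.1.1 * y.2.1 + y.1.1 * x'.2.1)
    rw [← ns_add]
    congr 1
    rw [Matrix.add_mul, Matrix.mul_add]
    abel
  · funext σ
    simp only [B, pfb, Prod.fst_add, Prod.snd_add, Submodule.coe_add, Matrix.add_apply,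
      Pi.add_apply]
    ring

theorem B_add_right (x y y' : V56 F) : B x (y + y') = B x y + B x y' := by
  apply Prod.ext
  · show ns (x.1.1 * (y.2.1 + y'.2.1) + (y.1.1 + y'.1.1) * x.2.1) =
      ns (x.1.1 * y.2.1 + y.1.1 * x.2.1) + ns (x.1.1 * y'.2.1 + y'.1.1 * x.2.1)
    rw [← ns_add]
    congr 1
    rw [Matrix.add_mul, Matrix.mul_add]
    abel
  · funext σ
    simp only [B, pfb, Prod.fst_add, Prod.snd_add, Submodule.coe_add, Matrix.add_apply,
      Pi.add_apply]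
    ring

theorem B_smul_right (t : F) (x y : V56 F) : B x (t • y) = t • B x y := by
  apply Prod.ext
  · show ns (x.1.1 * (t • y.2.1) + (t • y.1.1) * x.2.1) =
      t • ns (x.1.1 * y.2.1 + y.1.1 * x.2.1)
    rw [Matrix.mul_smul, Matrix.smul_mul, ← smul_add]
    ext i j
    simp only [ns, Matrix.sub_apply, Matrix.add_apply, Matrix.scalar_apply, Matrix.diagonal_apply,
      Matrix.smul_apply, smul_eq_mul]
    split_ifs <;> ring
  · funext σ
    simp only [B, pfb, Prod.smul_fst, Prod.smul_snd, Submodule.coe_smul, Matrix.smul_apply,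
      Pi.smul_apply, smul_eq_mul]
    ring

theorem B_of_white {x y : V56 F} (hx : White x) (hy : White y) (hxy : White (x + y)) :
    B x y = 0 := by
  rw [white_iff] at hx hy hxy
  rw [q_add, hx, hy, zero_add, zero_add] at hxy
  exact hxy

theorem white_smul (t : F) {x : V56 F} (hx : White x) : White (t • x) := by
  obtain ⟨⟨c, hc⟩, h2⟩ := hx
  refine ⟨⟨t * t * c, ?_⟩, fun σ => ?_⟩
  · show (t • x.1.1) * (t • x.2.1) = _
    rw [Matrix.smul_mul, Matrix.mul_smul, hc]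
    ext i j
    simp only [Matrix.scalar_apply, Matrix.diagonal_apply, Matrix.smul_apply, smul_eq_mul]
    split_ifs <;> ring
  · show pf (t • x.1.1) _ _ _ _ = _ * pf (t • x.2.1) _ _ _ _
    rw [pf_smul, pf_smul, h2 σ]
    ring

/-- decomposable alternating matrices -/
def wdg (u v : Fin 8 → F) : A8 F := ⟨fun i j => u i * v j - u j * v i,
  fun i => by ring, fun i j => by ring⟩

theorem wdg_apply (u v : Fin 8 → F) (i j : Fin 8) : (wdg u v).1 i j = u i * v j - u j * v i := rfl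

theorem pf_wdg (u v : Fin 8 → F) (a b c d : Fin 8) : pf (wdg u v).1 a b c d = 0 := by
  simp only [pf, wdg_apply]; ring

theorem wdg_mul (u v w z : Fin 8 → F) : (wdg u v).1 * (wdg w z).1 =
    fun i j => (v ⬝ᵥ w) * (u i * z j) - (v ⬝ᵥ z) * (u i * w j) - (u ⬝ᵥ w) * (v i * z j) +
      (u ⬝ᵥ z) * (v i * w j) := by
  funext i j
  rw [Matrix.mul_apply]
  simp only [wdg_apply, dotProduct, Finset.sum_mul]
  rw [← Finset.sum_sub_distrib, ← Finset.sum_sub_distrib, ← Finset.sum_add_distrib]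
  refine Finset.sum_congr rfl fun k _ => ?_
  ring

/-- unit vector -/
abbrev un (i : Fin 8) : Fin 8 → F := Pi.single i 1

theorem white_wdg {u v w z : Fin 8 → F} (h1 : v ⬝ᵥ w = 0) (h2 : v ⬝ᵥ z = 0) (h3 : u ⬝ᵥ w = 0)
    (h4 : u ⬝ᵥ z = 0) : White ((wdg u v, wdg w z) : V56 F) := by
  refine ⟨⟨0, ?_⟩, fun σ => ?_⟩
  · show (wdg u v).1 * (wdg w z).1 = _
    rw [wdg_mul, h1, h2, h3, h4]
    ext i j
    simp
  · show pf (wdg u v).1 _ _ _ _ = _ * pf (wdg w z).1 _ _ _ _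
    rw [pf_wdg, pf_wdg, mul_zero]

/-- The transvection minus one. -/
def E (x : V56 F) : V56 F :=
  (wdg (un 0) (fun j => x.1.1 1 j), -wdg (un 1) (fun j => x.2.1 0 j))

theorem E_fst (x : V56 F) (i j : Fin 8) :
    (E x).1.1 i j = (un 0 : Fin 8 → F) i * x.1.1 1 j - (un 0 : Fin 8 → F) j * x.1.1 1 i := rfl

theorem E_snd (x : V56 F) (i j : Fin 8) :
    (E x).2.1 i j = -((un 1 : Fin 8 → F) i * x.2.1 0 j - (un 1 : Fin 8 → F) j * x.2.1 0 i) := rfl

theorem v_ext {x y : V56 F} (h1 : ∀ i j, x.1.1 i j = y.1.1 i j)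
    (h2 : ∀ i j, x.2.1 i j = y.2.1 i j) : x = y := by
  apply Prod.ext
  · exact Subtype.ext (Matrix.ext h1)
  · exact Subtype.ext (Matrix.ext h2)

theorem E_add (x y : V56 F) : E (x + y) = E x + E y := by
  apply v_ext
  · intro i j
    show (E (x + y)).1.1 i j = (E x).1.1 i j + (E y).1.1 i j
    rw [E_fst, E_fst, E_fst]
    show _ * (x.1.1 1 j + y.1.1 1 j) - _ * (x.1.1 1 i + y.1.1 1 i) = _
    ring
  · intro i j
    show (E (x + y)).2.1 i j = (E x).2.1 i j + (E y).2.1 i j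
    rw [E_snd, E_snd, E_snd]
    show -(_ * (x.2.1 0 j + y.2.1 0 j) - _ * (x.2.1 0 i + y.2.1 0 i)) = _
    ring

theorem E_smul (t : F) (x : V56 F) : E (t • x) = t • E x := by
  apply v_ext
  · intro i j
    show (E (t • x)).1.1 i j = t * (E x).1.1 i j
    rw [E_fst, E_fst]
    show _ * (t * x.1.1 1 j) - _ * (t * x.1.1 1 i) = _
    ring
  · intro i j
    show (E (t • x)).2.1 i j = t * (E x).2.1 i j
    rw [E_snd, E_snd]
    show -(_ * (t * x.2.1 0 j) - _ * (t * x.2.1 0 i)) = _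
    ring

theorem E_E (x : V56 F) : E (E x) = 0 := by
  apply v_ext
  · intro i j
    show (E (E x)).1.1 i j = 0
    rw [E_fst, E_fst, E_fst]
    simp [dg]
  · intro i j
    show (E (E x)).2.1 i j = 0
    rw [E_snd, E_snd, E_snd]
    simp [dg]

end

end SpreadPerm.E7
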