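import Pool.Agent.Lib.MP_e6ed9e_al.EX.E7Tan15
namespace SpreadPerm.E7
open Matrix
noncomputable section
variable {F : Type} [Field F]

section
variable (σ : F ≃+* F) (φ : V56 F ≃+ V56 F) (hs : ∀ (t : F) (x : V56 F), φ (t • x) = σ t • φ x)
  (hW : ∀ x, White (φ x) ↔ White x)

include hW in
theorem white_symm {v : V56 F} (hv : White v) : White (φ.symm v) := by
  rw [← hW, φ.apply_symm_apply]; exact hv

include hW in
/-- the conjugate of the transvection minus one -/
theorem conj_B {v : V56 F} (hv : White v) :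
    White (φ (E (φ.symm v))) ∧ White (v + φ (E (φ.symm v))) ∧ B v (φ (E (φ.symm v))) = 0 := by
  have h1 := white_symm φ hW hv
  have h2 : White (φ (E (φ.symm v))) := (hW _).2 (white_E h1)
  have h3 : White (v + φ (E (φ.symm v))) := by
    have := (hW _).2 (white_tr 1 h1)
    rw [one_smul, map_add, φ.apply_symm_apply] at this
    exact this
  exact ⟨h2, h3, B_of_white hv h2 h3⟩

include hW in
theorem part_B {C : V56 F} (hC : White C) (hC' : White (inf + C)) :
    B inf (φ (E (φ.symm C))) + B C (φ (E (φ.symm inf))) = 0 := by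
  obtain ⟨_, _, h1⟩ := conj_B φ hW white_inf
  obtain ⟨_, _, h2⟩ := conj_B φ hW hC
  obtain ⟨_, _, h3⟩ := conj_B φ hW hC'
  rw [map_add, E_add, map_add, B_add_left, B_add_right, B_add_right, h1, h2] at h3
  rw [zero_add, add_zero] at h3
  exact h3

include hs hW in
theorem key_mult (κ : F) (h : E (φ.symm pp) = κ • E (φ.symm inf)) : E (φ.symm inf) = 0 := by
  have w1 : White (C1 : V56 F) := white_left _ _
  have w2 : White (C2 : V56 F) := white_left _ _
  have w3 : White (C3 : V56 F) := white_left _ _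
  have b1 := part_B φ hW w1 (white_inf_add 2 3 (by decide) (by decide) (by decide) (by decide))
  have b2 := part_B φ hW w2 (white_inf_add 4 5 (by decide) (by decide) (by decide) (by decide))
  have b3 := part_B φ hW w3 (white_inf_add 6 7 (by decide) (by decide) (by decide) (by decide))
  obtain ⟨z1, z2, z3⟩ := conj_B φ hW (white_inf (F := F))
  set z := φ (E (φ.symm inf)) with hz
  have hsum : φ (E (φ.symm C1)) + φ (E (φ.symm C2)) + φ (E (φ.symm C3)) = σ κ • z := by
    rw [← map_add, ← map_add, ← E_add, ← E_add, ← map_add, ← map_add]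
    show φ (E (φ.symm pp)) = _
    rw [h, hs]
  have hB : B pp z = 0 := by
    have h1 : B inf (σ κ • z) = 0 := by rw [B_smul_right, z3, smul_zero]
    rw [← hsum, B_add_right, B_add_right] at h1
    show B (C1 + C2 + C3) z = 0
    rw [B_add_left, B_add_left]
    have h2 : (B inf (φ (E (φ.symm C1))) + B C1 z) + (B inf (φ (E (φ.symm C2))) + B C2 z) +
        (B inf (φ (E (φ.symm C3))) + B C3 z) = 0 := by rw [b1, b2, b3]; simp
    have h3 : (B inf (φ (E (φ.symm C1))) + B inf (φ (E (φ.symm C2))) +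
        B inf (φ (E (φ.symm C3)))) + (B C1 z + B C2 z + B C3 z) = 0 := by
      rw [← h2]; abel
    rw [h1, zero_add] at h3
    exact h3
  obtain ⟨s, hs'⟩ := only_inf z1 z2 hB
  have h4 : E (φ.symm inf) = σ.symm s • φ.symm inf := by
    apply φ.injective
    rw [hs, σ.apply_symm_apply, φ.apply_symm_apply, ← hs', hz]
  have h5 : σ.symm s • E (φ.symm inf) = 0 := by
    rw [← E_smul, ← h4, E_E]
  rcases smul_eq_zero.1 h5 with h6 | h6
  · rw [h4, h6, zero_smul]
  · exact h6

theorem frm_pp_zero {z : V56 F}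
    (hz : ∀ i j : Fin 8, i ≠ 0 → i ≠ 1 → j ≠ 0 → j ≠ 1 → z.2.1 i j = 0) : frm z pp = 0 := by
  unfold frm
  refine Finset.sum_eq_zero fun i _ => Finset.sum_eq_zero fun j _ => ?_
  split_ifs with hij
  · have hp2 : (pp : V56 F).2.1 i j = 0 := by
      show ((0 : Matrix (Fin 8) (Fin 8) F) + 0 + 0) i j = 0
      simp
    have hp1 : z.2.1 i j * (pp : V56 F).1.1 i j = 0 := by
      by_cases h : i ≠ 0 ∧ i ≠ 1 ∧ j ≠ 0 ∧ j ≠ 1
      · rw [hz i j h.1 h.2.1 h.2.2.1 h.2.2.2, zero_mul]
      · have : (pp : V56 F).1.1 i j = 0 := by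
          show ((un 2 : Fin 8 → F) i * (un 3 : Fin 8 → F) j -
            (un 2 : Fin 8 → F) j * (un 3 : Fin 8 → F) i) + ((un 4 : Fin 8 → F) i *
            (un 5 : Fin 8 → F) j - (un 4 : Fin 8 → F) j * (un 5 : Fin 8 → F) i) +
            ((un 6 : Fin 8 → F) i * (un 7 : Fin 8 → F) j -
            (un 6 : Fin 8 → F) j * (un 7 : Fin 8 → F) i) = 0
          by_cases i0 : i = 0
          · subst i0; simp
          by_cases i1 : i = 1
          · subst i1; simp
          by_cases j0 : j = 0
          · subst j0; simp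
          by_cases j1 : j = 1
          · subst j1; simp
          exact absurd ⟨i0, i1, j0, j1⟩ h
        rw [this, mul_zero]
    rw [hp2, hp1, mul_zero, sub_zero]
  · rfl

include hW in
theorem perp_key (c : F) (hc : c ≠ 0) (hf : ∀ x y, frm (φ x) (φ y) = c * σ (frm x y)) :
    frm (E (φ.symm inf)) (φ.symm pp) = 0 := by
  obtain ⟨z1, z2, z3⟩ := conj_B φ hW (white_inf (F := F))
  obtain ⟨_, t2⟩ := tang z1 z2
  have h := hf (E (φ.symm inf)) (φ.symm pp)
  rw [φ.apply_symm_apply, frm_pp_zero t2] at h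
  have h1 := (mul_eq_zero.1 h.symm).resolve_left hc
  exact (map_eq_zero σ).1 h1

end

/-! ## The quadric -/

abbrev W12 (F : Type) : Type := (Fin 6 → F) × (Fin 6 → F)

def bl (x y : W12 F) : F := x.1 ⬝ᵥ y.2 + x.2 ⬝ᵥ y.1

theorem bl_add (x x' y : W12 F) : bl (x + x') y = bl x y + bl x' y := by
  simp only [bl, Prod.fst_add, Prod.snd_add, add_dotProduct]; ring
theorem bl_smul (t : F) (x y : W12 F) : bl (t • x) y = t * bl x y := by
  simp only [bl, Prod.smul_fst, Prod.smul_snd, smul_dotProduct, smul_eq_mul]; ring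
theorem bl_symm (x y : W12 F) : bl x y = bl y x := by
  simp only [bl, dotProduct_comm y.1 x.2, dotProduct_comm y.2 x.1]; ring
def qd (x : W12 F) : F := x.1 ⬝ᵥ x.2
theorem qd_add (x y : W12 F) : qd (x + y) = qd x + qd y + bl x y := by
  simp only [bl, qd, Prod.fst_add, Prod.snd_add, add_dotProduct, dotProduct_add,
    dotProduct_comm y.1 x.2]; ring
theorem qd_smul (t : F) (x : W12 F) : qd (t • x) = t ^ 2 * qd x := by
  simp only [qd, Prod.smul_fst, Prod.smul_snd, smul_dotProduct, dotProduct_smul, smul_eq_mul]; ring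
theorem bl_self (x : W12 F) : bl x x = 2 * qd x := by
  simp only [bl, qd, dotProduct_comm x.2 x.1]; ring

theorem exists_n (z m : W12 F) (hz : z ≠ 0) (hm : ∀ κ : F, m ≠ κ • z) :
    ∃ n : W12 F, bl n z = 0 ∧ bl n m = 1 := by
  by_contra hcon
  have h0 : ∀ n : W12 F, bl n z = 0 → bl n m = 0 := by
    intro n hn
    by_contra h
    exact hcon ⟨(bl n m)⁻¹ • n, by rw [bl_smul, hn, mul_zero], by
      rw [bl_smul, inv_mul_cancel₀ h]⟩
  have hd : ∃ d : W12 F, bl d z ≠ 0 := by
    by_contra hcon2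
    push Not at hcon2
    apply hz
    apply Prod.ext
    · funext i
      have := hcon2 (0, Pi.single i 1)
      simpa [bl] using this
    · funext i
      have := hcon2 (Pi.single i 1, 0)
      simpa [bl] using this
  obtain ⟨d, hd⟩ := hd
  have h1 : ∀ n : W12 F, bl n m = bl n z * ((bl d z)⁻¹ * bl d m) := by
    intro n
    have h2 := h0 (n + (-(bl n z * (bl d z)⁻¹)) • d) (by
      rw [bl_add, bl_smul]; field_simp; ring)
    rw [bl_add, bl_smul] at h2
    linear_combination h2
  apply hm ((bl d z)⁻¹ * bl d m)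
  apply Prod.ext
  · funext i
    have := h1 (0, Pi.single i 1)
    simp [bl] at this
    rw [this]
    show _ = ((bl d z)⁻¹ * bl d m) * z.1 i
    simp only [bl]
    ring
  · funext i
    have := h1 (Pi.single i 1, 0)
    simp [bl] at this
    rw [this]
    show _ = ((bl d z)⁻¹ * bl d m) * z.2 i
    simp only [bl]
    ring

/-- Siegel transformation -/
def sg (z n : W12 F) (t : F) (x : W12 F) : W12 F :=
  x + (t * bl x z) • n + (-(t * bl x n) - t ^ 2 * qd n * bl x z) • z

theorem bl_sg (z n : W12 F) (t : F) (x y : W12 F) : bl (sg z n t x) y =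
    bl x y + t * bl x z * bl n y + (-(t * bl x n) - t ^ 2 * qd n * bl x z) * bl z y := by
  simp only [sg, bl_add, bl_smul]

theorem sg_z {z n : W12 F} (hz : qd z = 0) (hn : bl n z = 0) (t : F) (x : W12 F) :
    bl (sg z n t x) z = bl x z := by
  rw [bl_sg, hn, bl_self, hz]; ring

theorem sg_qd {z n : W12 F} (hz : qd z = 0) (hn : bl n z = 0) (t : F) (x : W12 F) :
    qd (sg z n t x) = qd x := by
  have e1 : ∀ (w y : W12 F) (s : F), bl w (s • y) = s * bl w y := fun w y s => by
    rw [bl_symm, bl_smul, bl_symm]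
  unfold sg
  rw [qd_add, qd_smul, hz, e1, bl_add, bl_smul, hn, qd_add, qd_smul, e1]
  ring

theorem sg_inv {z n : W12 F} (hz : qd z = 0) (hn : bl n z = 0) (t : F) (x : W12 F) :
    sg z n (-t) (sg z n t x) = x := by
  have h1 : bl z n = 0 := by rw [bl_symm]; exact hn
  have h2 : bl (sg z n t x) n = bl x n + 2 * t * bl x z * qd n := by
    rw [bl_sg, h1, bl_self]; ring
  have h3 := sg_z hz hn t x
  have : sg z n (-t) (sg z n t x) = sg z n t x + (-t * bl (sg z n t x) z) • n +
    (-(-t * bl (sg z n t x) n) - (-t) ^ 2 * qd n * bl (sg z n t x) z) • z := rfl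
  rw [this, h2, h3]
  simp only [sg]
  apply Prod.ext <;> funext i <;>
    simp only [Prod.fst_add, Prod.snd_add, Prod.smul_fst, Prod.smul_snd, Pi.add_apply,
      Pi.smul_apply, smul_eq_mul] <;> ring

open scoped Classical in
theorem quad_sum [Fintype F] (h : F → ℤ) (hh : ∑ t, h t = 0) (z m : W12 F) (hz0 : z ≠ 0)
    (hz : qd z = 0) (hzm : bl z m = 0) (hm : ∀ κ : F, m ≠ κ • z) :
    ∑ x : W12 F, (if qd x = 0 ∧ bl x z ≠ 0 then h (bl x m / bl x z) else 0) = 0 := by
  obtain ⟨n, hn1, hn2⟩ := exists_n z m hz0 hm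
  set f : W12 F → ℤ := fun x => if qd x = 0 ∧ bl x z ≠ 0 then h (bl x m / bl x z) else 0 with hf
  have hbij : ∀ t : F, ∑ x, f (sg z n t x) = ∑ x, f x := by
    intro t
    refine Fintype.sum_bijective (sg z n t) ?_ _ _ (fun x => rfl)
    constructor
    · intro x y hxy
      have := congrArg (sg z n (-t)) hxy
      rwa [sg_inv hz hn1, sg_inv hz hn1] at this
    · intro y
      refine ⟨sg z n (-t) y, ?_⟩
      have := sg_inv hz hn1 (-t) y
      rwa [neg_neg] at this
  have h1 : ∑ t : F, ∑ x, f (sg z n t x) = (Fintype.card F : ℤ) * ∑ x, f x := by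
    rw [Finset.sum_congr rfl fun t _ => hbij t, Finset.sum_const, Finset.card_univ, nsmul_eq_mul]
  rw [Finset.sum_comm] at h1
  have h2 : ∀ x : W12 F, ∑ t : F, f (sg z n t x) = 0 := by
    intro x
    by_cases hx : qd x = 0 ∧ bl x z ≠ 0
    · have h3 : ∀ t : F, f (sg z n t x) = h (bl x m / bl x z + t) := by
        intro t
        have h4 : qd (sg z n t x) = 0 ∧ bl (sg z n t x) z ≠ 0 := by
          rw [sg_qd hz hn1, sg_z hz hn1]; exact hx
        simp only [hf]
        rw [if_pos h4, sg_z hz hn1, bl_sg, hn2, hzm]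
        congr 1
        field_simp [hx.2]
        ring
      rw [Finset.sum_congr rfl fun t _ => h3 t]
      rw [← hh]
      exact Equiv.sum_comp (Equiv.addLeft (bl x m / bl x z)) h
    · refine Finset.sum_eq_zero fun t _ => ?_
      simp only [hf]
      rw [if_neg]
      rw [sg_qd hz hn1, sg_z hz hn1]; exact hx
  rw [Finset.sum_congr rfl fun x _ => h2 x, Finset.sum_const_zero] at h1
  have hc : (Fintype.card F : ℤ) ≠ 0 := by
    exact_mod_cast Fintype.card_ne_zero
  exact (mul_eq_zero.1 h1.symm).resolve_left hc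

end
end SpreadPerm.E7
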