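import Pool.Agent.Lib.MP_e6ed9e_al.EX.E7Key15
namespace SpreadPerm.E7
open Matrix
open scoped Classical
noncomputable section
variable {F : Type} [Field F]

/-- a function with sum zero -/
def F0 (s : F) : ℤ := if s = 0 then 1 else if s = 1 then -1 else 0

theorem F0_sum [Fintype F] : ∑ s : F, F0 s = 0 := by
  have h : ∀ s : F, F0 s = (if s = 0 then 1 else 0) + (if s = 1 then -1 else 0) := by
    intro s
    unfold F0
    by_cases h0 : s = 0
    · subst h0; simp
    · rw [if_neg h0, if_neg h0, zero_add]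
  rw [Finset.sum_congr rfl fun s _ => h s, Finset.sum_add_distrib]
  simp

theorem F0_ge (s : F) : -1 ≤ F0 s := by
  unfold F0
  split_ifs <;> norm_num

def fv (x : V56 F) : ℤ := if frm x inf = 0 then 0 else F0 (frm x pp / frm x inf)

theorem frm_smul (t : F) (x y : V56 F) : frm (t • x) y = t * frm x y := by
  unfold frm
  rw [Finset.mul_sum]
  refine Finset.sum_congr rfl fun i _ => ?_
  rw [Finset.mul_sum]
  refine Finset.sum_congr rfl fun j _ => ?_
  split_ifs
  · show t * x.1.1 i j * y.2.1 i j - t * x.2.1 i j * y.1.1 i j = _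
    ring
  · rw [mul_zero]

theorem fv_smul (t : F) (ht : t ≠ 0) (x : V56 F) : fv (t • x) = fv x := by
  unfold fv
  rw [frm_smul, frm_smul]
  by_cases h : frm x inf = 0
  · rw [if_pos h, if_pos (by rw [h, mul_zero])]
  · rw [if_neg h, if_neg (mul_ne_zero ht h), mul_div_mul_left _ _ ht]

theorem sum_ptsZ {W : Type} [Fintype F] [AddCommGroup W] [Module F W] [Fintype W] (S : Set W)
    (hS : ∀ (a : F) (x : W), a ≠ 0 → x ∈ S → a • x ∈ S) (f : W → ℤ)
    (hf : ∀ (a : F) (x : W), a ≠ 0 → f (a • x) = f x) (hf0 : ∀ x, f x ≠ 0 → x ≠ 0 ∧ x ∈ S)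
    [Fintype {p : Projectivization F W // p.rep ∈ S}] :
    ((Fintype.card F - 1 : ℕ) : ℤ) * ∑ p : {p : Projectivization F W // p.rep ∈ S}, f p.1.rep =
      ∑ x, f x := by
  have h1 : ∑ z : {p : Projectivization F W // p.rep ∈ S} × Fˣ, f (z.2 • z.1.1.rep) =
      ∑ y, f y := by
    refine Fintype.sum_of_injective
      (fun z : {p : Projectivization F W // p.rep ∈ S} × Fˣ => z.2 • z.1.1.rep) ?_ _ _ ?_ ?_
    · rintro ⟨p, a⟩ ⟨q, b⟩ h
      have h' : a • p.1.rep = b • q.1.rep := h
      have hpq : p.1 = q.1 := by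
        rw [← Projectivization.mk_rep p.1, ← Projectivization.mk_rep q.1,
          Projectivization.mk_eq_mk_iff]
        refine ⟨a⁻¹ * b, ?_⟩
        rw [mul_smul, ← h', inv_smul_smul]
      have hpq' : p = q := Subtype.ext hpq
      subst hpq'
      have h2 : ((a : F) - b) • p.1.rep = 0 := by
        rw [sub_smul]
        exact sub_eq_zero.2 h'
      rcases smul_eq_zero.1 h2 with h3 | h3
      · have : a = b := Units.ext (sub_eq_zero.1 h3)
        rw [this]
      · exact absurd h3 p.1.rep_nonzero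
    · intro y hy
      by_contra h
      obtain ⟨hy0, hyS⟩ := hf0 y h
      obtain ⟨a, ha⟩ := Projectivization.exists_smul_eq_mk_rep F y hy0
      refine hy ⟨(⟨Projectivization.mk F y hy0, ?_⟩, a⁻¹), ?_⟩
      · rw [← ha]
        exact hS _ _ a.ne_zero hyS
      · show a⁻¹ • (Projectivization.mk F y hy0).rep = y
        rw [← ha, inv_smul_smul]
    · intro z
      rfl
  rw [← h1, Fintype.sum_prod_type, Finset.mul_sum]
  refine Finset.sum_congr rfl fun p _ => ?_
  have h3 : ∀ a : Fˣ, f (a • p.1.rep) = f p.1.rep := fun a => hf (a : F) p.1.rep a.ne_zero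
  rw [Finset.sum_congr rfl (fun a _ => h3 a), Finset.sum_const, Finset.card_univ,
    nsmul_eq_mul, Fintype.card_units]

theorem mv_inj {a c a' c' : Fin 6 → F} (h : mv a c = mv a' c') : a = a' ∧ c = c' := by
  have h1 : ∀ i j, (mv a c).1.1 i j = (mv a' c').1.1 i j := fun i j => by rw [h]
  have h2 : ∀ i j, (mv a c).2.1 i j = (mv a' c').2.1 i j := fun i j => by rw [h]
  constructor
  · funext k
    have := h1 0 k.succ.succ
    fin_cases k <;> simpa [mv, wdg_apply, emb] using this
  · funext k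
    have := h2 1 k.succ.succ
    fin_cases k <;> simpa [mv, wdg_apply, emb] using this

theorem emb_smul (t : F) (a : Fin 6 → F) (i : Fin 8) : emb (t • a) i = t * emb a i := by
  fin_cases i <;> simp [emb]

theorem mv_smul (t : F) (a c : Fin 6 → F) : mv (t • a) (t • c) = t • mv a c := by
  apply v_ext
  · intro i j
    show (un 0 : Fin 8 → F) i * emb (t • a) j - (un 0 : Fin 8 → F) j * emb (t • a) i =
      t * ((un 0 : Fin 8 → F) i * emb a j - (un 0 : Fin 8 → F) j * emb a i)
    rw [emb_smul, emb_smul]; ring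
  · intro i j
    show (un 1 : Fin 8 → F) i * emb (t • c) j - (un 1 : Fin 8 → F) j * emb (t • c) i =
      t * ((un 1 : Fin 8 → F) i * emb c j - (un 1 : Fin 8 → F) j * emb c i)
    rw [emb_smul, emb_smul]; ring

theorem fv_zero_sum [Fintype F] (σ : F ≃+* F) (φ : V56 F ≃+ V56 F)
    (hs : ∀ (t : F) (x : V56 F), φ (t • x) = σ t • φ x)
    (hW : ∀ x, White (φ x) ↔ White x) (c : F) (hc : c ≠ 0)
    (hf : ∀ x y, frm (φ x) (φ y) = c * σ (frm x y)) :
    ∑ w : W12 F, (if mv w.1 w.2 ≠ 0 ∧ White (mv w.1 w.2) ∧ (∃ a d, mv w.1 w.2 = mv a d) then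
      fv (φ (mv w.1 w.2)) else 0) = 0 := by
  set z : W12 F := (-cX (φ.symm inf), cY (φ.symm inf)) with hz
  set m : W12 F := (-cX (φ.symm pp), cY (φ.symm pp)) with hm
  have hfz : ∀ w : W12 F, frm (mv w.1 w.2) (φ.symm inf) = bl w z := by
    intro w; rw [frm_mv, bl, hz, dotProduct_neg]; ring
  have hfm : ∀ w : W12 F, frm (mv w.1 w.2) (φ.symm pp) = bl w m := by
    intro w; rw [frm_mv, bl, hm, dotProduct_neg]; ring
  have hb : ∀ x, frm (φ x) inf = c * σ (frm x (φ.symm inf)) := by
    intro x; rw [← hf, φ.apply_symm_apply]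
  have hl : ∀ x, frm (φ x) pp = c * σ (frm x (φ.symm pp)) := by
    intro x; rw [← hf, φ.apply_symm_apply]
  have hterm : ∀ w : W12 F, (if mv w.1 w.2 ≠ 0 ∧ White (mv w.1 w.2) ∧
      (∃ a d, mv w.1 w.2 = mv a d) then fv (φ (mv w.1 w.2)) else 0) =
      (if qd w = 0 ∧ bl w z ≠ 0 then F0 (σ (bl w m / bl w z)) else 0) := by
    intro w
    by_cases hbz : bl w z = 0
    · have : fv (φ (mv w.1 w.2)) = 0 := by
        unfold fv
        rw [if_pos]
        rw [hb, hfz, hbz, map_zero, mul_zero]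
      rw [this, ite_self, if_neg (fun h => h.2 hbz)]
    · have h0 : mv w.1 w.2 ≠ 0 := by
        intro h
        apply hbz
        rw [← hfz, h, ← zero_smul F (0 : V56 F), frm_smul, zero_mul]
      have hw : White (mv w.1 w.2) ↔ qd w = 0 := white_mv _ _
      by_cases hq : qd w = 0
      · rw [if_pos ⟨h0, hw.2 hq, w.1, w.2, rfl⟩, if_pos ⟨hq, hbz⟩]
        unfold fv
        rw [hb, hl, hfz, hfm, if_neg, mul_div_mul_left _ _ hc, ← map_div₀]
        intro h
        rcases mul_eq_zero.1 h with h1 | h1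
        · exact hc h1
        · exact hbz ((map_eq_zero σ).1 h1)
      · rw [if_neg (fun h => hq (hw.1 h.2.1)), if_neg (fun h => hq h.1)]
  rw [Finset.sum_congr rfl fun w _ => hterm w]
  by_cases hz0 : z = 0
  · refine Finset.sum_eq_zero fun w _ => ?_
    rw [if_neg]
    intro h
    apply h.2
    rw [hz0]
    simp [bl]
  · have hinf := white_symm φ hW (white_inf (F := F))
    refine quad_sum (fun s => F0 (σ s)) ?_ z m hz0 ?_ ?_ ?_
    · rw [← F0_sum (F := F)]
      exact Equiv.sum_comp σ.toEquiv F0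
    · rw [qd, hz]
      show (-cX (φ.symm inf)) ⬝ᵥ cY (φ.symm inf) = 0
      rw [neg_dotProduct, dot_E hinf, neg_zero]
    · have := perp_key σ φ hW c hc hf
      rw [E_eq_mv, frm_mv, neg_dotProduct] at this
      rw [bl, hz, hm]
      show (-cX (φ.symm inf)) ⬝ᵥ cY (φ.symm pp) + cY (φ.symm inf) ⬝ᵥ (-cX (φ.symm pp)) = 0
      rw [neg_dotProduct, dotProduct_neg]
      linear_combination -this
    · intro κ hκ
      have h1 : cX (φ.symm pp) = κ • cX (φ.symm inf) := by
        have := congrArg Prod.fst hκ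
        rw [hz, hm] at this
        have h2 : -cX (φ.symm pp) = κ • (-cX (φ.symm inf)) := this
        rw [smul_neg] at h2
        exact neg_injective h2
      have h2 : cY (φ.symm pp) = κ • cY (φ.symm inf) := by
        have := congrArg Prod.snd hκ
        rw [hz, hm] at this
        exact this
      have h3 : E (φ.symm pp) = κ • E (φ.symm inf) := by
        rw [E_eq_mv, E_eq_mv, h1, h2, ← smul_neg, mv_smul]
      have h4 := key_mult σ φ hs hW κ h3
      rw [E_eq_mv] at h4
      have h5 : (0 : V56 F) = mv 0 0 := by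
        have := mv_smul (0 : F) 0 0
        rw [zero_smul, zero_smul] at this
        rw [this]
      rw [h5] at h4
      obtain ⟨h6, h7⟩ := mv_inj h4
      apply hz0
      rw [hz, h6, neg_eq_zero.1 h7, neg_zero]
      rfl

/-- The groups of semilinear similitudes of the module of dimension 56 which permute the white
vectors, on the white points. -/
theorem e7 {F G Ω : Type} [Field F] [Fintype F] [Group G] [Fintype Ω] [MulAction G Ω]
    [MulAction.IsPretransitive G Ω]
    (e : Ω ≃ {p : Projectivization F (V56 F) // p.rep ∈ {x : V56 F | White x}})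
    (hG : ∀ g : G, ∃ (σ : F ≃+* F) (φ : V56 F ≃+ V56 F) (c : F), c ≠ 0 ∧
      (∀ (t : F) (x : V56 F), φ (t • x) = σ t • φ x) ∧
      (∀ x y, frm (φ x) (φ y) = c * σ (frm x y)) ∧ (∀ x, White (φ x) ↔ White x) ∧
      ∀ ω : Ω, ∃ t : F, φ (e ω).1.rep = t • (e (g • ω)).1.rep) : NonSpreading G Ω := by
  let iP : Fintype {p : Projectivization F (V56 F) // p.rep ∈ {x : V56 F | White x}} :=
    Fintype.ofEquiv Ω e
  let iV : Fintype (V56 F) := Fintype.ofFinite _
  have hq : 2 ≤ Fintype.card F := Fintype.one_lt_card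
  have hSm : ∀ (a : F) (x : V56 F), a ≠ 0 → x ∈ {x : V56 F | White x} →
      a • x ∈ {x : V56 F | White x} := fun a x _ hx => white_smul a hx
  -- points
  have hpt : ∀ (x : V56 F), x ≠ 0 → White x → ∃ ω : Ω, ∃ t : F, t ≠ 0 ∧
      (e ω).1.rep = t • x := by
    intro x hx h1
    obtain ⟨a, ha⟩ := Projectivization.exists_smul_eq_mk_rep F x hx
    refine ⟨e.symm ⟨Projectivization.mk F x hx, ?_⟩, a, a.ne_zero, ?_⟩
    · rw [← ha]; exact hSm _ _ a.ne_zero h1
    · rw [e.apply_symm_apply, ← ha]; rfl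
  let v : Ω → ℤ := fun ω => fv (e ω).1.rep
  let Bs : Finset Ω := Finset.univ.filter fun ω => ∃ a c, (e ω).1.rep = mv a c
  -- the point outside
  have hx0 : White ((wdg (un 0) (un 1), 0) : V56 F) := white_left _ _
  have hf1 : frm ((wdg (un 0) (un 1), 0) : V56 F) inf = 1 := by
    simp only [frm, inf, wdg_apply, Fin.sum_univ_eight]
    simp
  have hf2 : frm ((wdg (un 0) (un 1), 0) : V56 F) pp = 0 := by
    apply frm_pp_zero
    intro i j _ _ _ _
    rfl
  have hx1 : ((wdg (un 0) (un 1), 0) : V56 F) ≠ 0 := by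
    intro h
    rw [h, ← zero_smul F (0 : V56 F), frm_smul, zero_mul] at hf1
    exact zero_ne_one hf1
  obtain ⟨ω0, t0, ht0, hω0⟩ := hpt _ hx1 hx0
  have hout : ω0 ∉ Bs := by
    intro h
    obtain ⟨a, c, hac⟩ := (Finset.mem_filter.1 h).2
    rw [hω0] at hac
    have h1 : (t0 • ((wdg (un 0) (un 1), 0) : V56 F)).1.1 0 1 = (mv a c).1.1 0 1 := by rw [hac]
    have h2 : (t0 • ((wdg (un 0) (un 1), 0) : V56 F)).1.1 0 1 = t0 := by
      show t0 * ((un 0 : Fin 8 → F) 0 * (un 1 : Fin 8 → F) 1 -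
        (un 0 : Fin 8 → F) 1 * (un 1 : Fin 8 → F) 0) = t0
      simp
    have h3 : (mv a c).1.1 0 1 = 0 := by
      show (un 0 : Fin 8 → F) 0 * emb a 1 - (un 0 : Fin 8 → F) 1 * emb a 0 = 0
      simp [emb]
    rw [h2, h3] at h1
    exact ht0 h1
  have hin : ∀ k : Fin 6, ∃ ω ∈ Bs, ∃ t : F, t ≠ 0 ∧ (e ω).1.rep = t • mv (Pi.single k 1) 0 := by
    intro k
    have h1 : mv (Pi.single k 1) (0 : Fin 6 → F) ≠ 0 := by
      intro h
      have h5 : (0 : V56 F) = mv 0 0 := by
        have := mv_smul (0 : F) 0 0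
        rw [zero_smul, zero_smul] at this
        rw [this]
      rw [h5] at h
      have := congrFun (mv_inj h).1 k
      simp at this
    obtain ⟨ω, t, ht, hω⟩ := hpt _ h1 ((white_mv _ _).2 (dotProduct_zero _))
    refine ⟨ω, Finset.mem_filter.2 ⟨Finset.mem_univ _, t • Pi.single k 1, t • 0, ?_⟩, t, ht, hω⟩
    rw [mv_smul, hω]
  refine nonSpreading_of_vector v (fun ω => ?_) ⟨ω0, ?_⟩ Bs ?_ ?_ ?_
  · show -1 ≤ fv _
    unfold fv
    split_ifs
    · norm_num
    · exact F0_ge _
  · show fv (e ω0).1.rep ≠ 0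
    rw [hω0, fv_smul t0 ht0, fv, hf1, if_neg one_ne_zero, hf2, zero_div, F0, if_pos rfl]
    exact one_ne_zero
  · obtain ⟨ω1, hm1, t1, ht1, h1⟩ := hin 0
    obtain ⟨ω2, hm2, t2, ht2, h2⟩ := hin 1
    rw [Finset.one_lt_card]
    refine ⟨ω1, hm1, ω2, hm2, fun h => ?_⟩
    rw [h, h2, ← mv_smul, ← mv_smul] at h1
    have := congrFun (mv_inj h1).1 0
    simp at this
    exact ht1 this.symm
  · rw [← Finset.card_univ]
    exact Finset.card_lt_card ⟨Finset.subset_univ _, fun h => hout (h (Finset.mem_univ _))⟩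
  · intro g
    obtain ⟨σ, φ, c, hc, hs, hf, hW, hact⟩ := hG g
    have hv : ∀ ω, v (g • ω) = fv (φ (e ω).1.rep) := by
      intro ω
      obtain ⟨t, ht⟩ := hact ω
      have ht0 : t ≠ 0 := by
        rintro rfl
        rw [zero_smul] at ht
        have h1 := (map_eq_zero_iff φ φ.injective).1 ht
        exact (e ω).1.rep_nonzero h1
      rw [ht, fv_smul t ht0]
    let k : V56 F → ℤ := fun x => if x ≠ 0 ∧ White x ∧ (∃ a d, x = mv a d) then fv (φ x) else 0
    have h1 : ∑ ω ∈ Bs, v (g • ω) = ∑ p : {p : Projectivization F (V56 F) //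
        p.rep ∈ {x : V56 F | White x}}, k p.1.rep := by
      rw [← Equiv.sum_comp e, Finset.sum_filter]
      refine Finset.sum_congr rfl fun ω _ => ?_
      have h2 : (e ω).1.rep ≠ 0 := (e ω).1.rep_nonzero
      have h3 : White (e ω).1.rep := (e ω).2
      by_cases h4 : ∃ a c, (e ω).1.rep = mv a c
      · rw [if_pos h4, hv]
        show _ = if _ then _ else _
        rw [if_pos ⟨h2, h3, h4⟩]
      · rw [if_neg h4]
        show _ = if _ then _ else _
        rw [if_neg fun h => h4 h.2.2]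
    have hk : ∀ (a : F) (x : V56 F), a ≠ 0 → k (a • x) = k x := by
      intro a x ha
      have h2 : (a • x ≠ 0 ∧ White (a • x) ∧ (∃ b d, a • x = mv b d)) ↔
          (x ≠ 0 ∧ White x ∧ (∃ b d, x = mv b d)) := by
        constructor
        · rintro ⟨h1, h2, b, d, h3⟩
          refine ⟨fun h => h1 (by rw [h, smul_zero]), ?_, a⁻¹ • b, a⁻¹ • d, ?_⟩
          · have := white_smul a⁻¹ h2
            rwa [smul_smul, inv_mul_cancel₀ ha, one_smul] at this
          · rw [mv_smul, ← h3, smul_smul, inv_mul_cancel₀ ha, one_smul]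
        · rintro ⟨h1, h2, b, d, h3⟩
          refine ⟨smul_ne_zero ha h1, white_smul a h2, a • b, a • d, ?_⟩
          rw [mv_smul, ← h3]
      show (if _ then _ else _) = (if _ then _ else _)
      by_cases h3 : x ≠ 0 ∧ White x ∧ (∃ b d, x = mv b d)
      · rw [if_pos h3, if_pos (h2.2 h3), hs, fv_smul _ ((map_ne_zero σ).2 ha)]
      · rw [if_neg h3, if_neg (fun h => h3 (h2.1 h))]
    have h2 := sum_ptsZ {x : V56 F | White x} hSm k hk (by
      intro x hx
      by_contra h
      apply hx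
      show (if _ then _ else _) = _
      exact if_neg fun h' => h ⟨h'.1, h'.2.1⟩)
    have h3 : ∑ x, k x = 0 := by
      rw [← fv_zero_sum σ φ hs hW c hc hf]
      symm
      refine Fintype.sum_of_injective (fun w : W12 F => mv w.1 w.2) ?_ _ _ ?_ ?_
      · intro w w' h
        obtain ⟨h1, h2⟩ := mv_inj h
        exact Prod.ext h1 h2
      · intro x hx
        show (if _ then _ else _) = _
        rw [if_neg]
        rintro ⟨_, _, a, d, h⟩
        exact hx ⟨(a, d), h.symm⟩
      · intro w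
        rfl
    rw [h3] at h2
    have h4 : ((Fintype.card F - 1 : ℕ) : ℤ) ≠ 0 := by
      have : Fintype.card F - 1 ≠ 0 := by omega
      exact_mod_cast this
    rw [h1]
    exact (mul_eq_zero.1 h2).resolve_left h4

end
end SpreadPerm.E7
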