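import Pool.Agent.Lib.MP_e6ed9e_al.EX.E7Tr15
namespace SpreadPerm.E7
open Matrix
noncomputable section
variable {F : Type} [Field F]

theorem perm4 (a b c d : Fin 8) (h1 : a ≠ b) (h2 : a ≠ c) (h3 : a ≠ d)
    (h4 : b ≠ c) (h5 : b ≠ d) (h6 : c ≠ d) :
    ∃ σ : Equiv.Perm (Fin 8), σ 0 = a ∧ σ 1 = b ∧ σ 2 = c ∧ σ 3 = d := by
  have := Equiv.Perm.isMultiplyPretransitive (Fin 8) 4
  let x : Fin 4 ↪ Fin 8 := ⟨![0, 1, 2, 3], by decide⟩
  let y : Fin 4 ↪ Fin 8 := ⟨![a, b, c, d], by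
    intro i j hij
    fin_cases i <;> fin_cases j <;> simp_all⟩
  obtain ⟨σ, hσ⟩ := MulAction.exists_smul_eq (Equiv.Perm (Fin 8)) x y
  have h : ∀ i, σ (x i) = y i := fun i => by rw [← hσ]; rfl
  exact ⟨σ, h 0, h 1, h 2, h 3⟩

theorem perm4' (a b c d : Fin 8) (h1 : a ≠ b) (h2 : a ≠ c) (h3 : a ≠ d)
    (h4 : b ≠ c) (h5 : b ≠ d) (h6 : c ≠ d) :
    ∃ σ : Equiv.Perm (Fin 8), σ 4 = a ∧ σ 5 = b ∧ σ 6 = c ∧ σ 7 = d := by
  have := Equiv.Perm.isMultiplyPretransitive (Fin 8) 4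
  let x : Fin 4 ↪ Fin 8 := ⟨![4, 5, 6, 7], by decide⟩
  let y : Fin 4 ↪ Fin 8 := ⟨![a, b, c, d], by
    intro i j hij
    fin_cases i <;> fin_cases j <;> simp_all⟩
  obtain ⟨σ, hσ⟩ := MulAction.exists_smul_eq (Equiv.Perm (Fin 8)) x y
  have h : ∀ i, σ (x i) = y i := fun i => by rw [← hσ]; rfl
  exact ⟨σ, h 0, h 1, h 2, h 3⟩

theorem sgn_ne (σ : Equiv.Perm (Fin 8)) : (((Equiv.Perm.sign σ : ℤˣ) : ℤ) : F) ≠ 0 := by
  rcases Int.units_eq_one_or (Equiv.Perm.sign σ) with h | h <;> rw [h] <;> simp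

/-- embedding of `F^6` -/
def emb (a : Fin 6 → F) : Fin 8 → F := ![0, 0, a 0, a 1, a 2, a 3, a 4, a 5]

/-- vectors of the twelve dimensional subspace -/
def mv (a c : Fin 6 → F) : V56 F := (wdg (un 0) (emb a), wdg (un 1) (emb c))

/-- coordinates -/
def cX (y : V56 F) : Fin 6 → F := fun k => y.1.1 1 k.succ.succ
def cY (y : V56 F) : Fin 6 → F := fun k => y.2.1 0 k.succ.succ

theorem white_mv (a c : Fin 6 → F) : White (mv a c) ↔ a ⬝ᵥ c = 0 := by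
  have h : (mv a c).1.1 * (mv a c).2.1 = fun i j => -(a ⬝ᵥ c) *
      ((un 0 : Fin 8 → F) i * (un 1 : Fin 8 → F) j) := by
    show (wdg (un 0) (emb a)).1 * (wdg (un 1) (emb c)).1 = _
    rw [wdg_mul]
    funext i j
    have h1 : emb a ⬝ᵥ (un 1 : Fin 8 → F) = 0 := by simp [emb]
    have h2 : (un 0 : Fin 8 → F) ⬝ᵥ (un 1 : Fin 8 → F) = 0 := by simp
    have h3 : (un 0 : Fin 8 → F) ⬝ᵥ emb c = 0 := by simp [emb]
    have h4 : emb a ⬝ᵥ emb c = a ⬝ᵥ c := by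
      simp [dotProduct, emb, Fin.sum_univ_six, Fin.sum_univ_eight]
    rw [h1, h2, h3, h4]
    ring
  constructor
  · rintro ⟨⟨t, ht⟩, _⟩
    rw [h] at ht
    have := congrFun (congrFun ht 0) 1
    simpa using this
  · intro h0
    refine ⟨⟨0, ?_⟩, fun σ => ?_⟩
    · rw [h, h0]
      ext i j
      simp
    · show pf (wdg _ _).1 _ _ _ _ = _ * pf (wdg _ _).1 _ _ _ _
      rw [pf_wdg, pf_wdg, mul_zero]

theorem E_eq_mv (y : V56 F) : E y = mv (cX y) (-cY y) := by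
  apply v_ext
  · intro i j
    show (un 0 : Fin 8 → F) i * y.1.1 1 j - (un 0 : Fin 8 → F) j * y.1.1 1 i =
      (un 0 : Fin 8 → F) i * emb (cX y) j - (un 0 : Fin 8 → F) j * emb (cX y) i
    have h : ∀ j, j ≠ 0 → emb (cX y) j = y.1.1 1 j := by
      intro j hj
      fin_cases j
      · exact absurd rfl hj
      · simp [emb, dg]
      all_goals rfl
    by_cases hi : i = 0
    · subst hi
      by_cases hj : j = 0
      · subst hj; ring
      · rw [h j hj]; simp [hj]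
    · rw [h i hi]
      by_cases hj : j = 0
      · subst hj; simp [hi]
      · simp [hi, hj]
  · intro i j
    show -((un 1 : Fin 8 → F) i * y.2.1 0 j - (un 1 : Fin 8 → F) j * y.2.1 0 i) =
      (un 1 : Fin 8 → F) i * emb (-cY y) j - (un 1 : Fin 8 → F) j * emb (-cY y) i
    have h : ∀ j, j ≠ 1 → emb (-cY y) j = -y.2.1 0 j := by
      intro j hj
      fin_cases j
      · simp [emb, dg]
      · exact absurd rfl hj
      all_goals rfl
    by_cases hi : i = 1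
    · subst hi
      by_cases hj : j = 1
      · subst hj; ring
      · rw [h j hj]; simp [hj]
    · rw [h i hi]
      by_cases hj : j = 1
      · subst hj; simp [hi]
      · simp [hi, hj]

theorem dot_E {y : V56 F} (hy : White y) : cX y ⬝ᵥ cY y = 0 := by
  obtain ⟨⟨t, ht⟩, _⟩ := hy
  have h := congrFun (congrFun ht 1) 0
  rw [Matrix.mul_apply] at h
  simp only [Fin.sum_univ_eight, dg, Matrix.scalar_apply, Matrix.diagonal_apply] at h
  simp only [dotProduct, cX, cY, Fin.sum_univ_six]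
  have e : ∀ k, y.2.1 k 0 = -y.2.1 0 k := fun k => sk y.2 k 0
  simp only [e] at h
  simp at h
  show y.1.1 1 2 * y.2.1 0 2 + y.1.1 1 3 * y.2.1 0 3 + y.1.1 1 4 * y.2.1 0 4 +
    y.1.1 1 5 * y.2.1 0 5 + y.1.1 1 6 * y.2.1 0 6 + y.1.1 1 7 * y.2.1 0 7 = 0
  linear_combination -h

theorem white_E {y : V56 F} (hy : White y) : White (E y) := by
  rw [E_eq_mv, white_mv, dotProduct_neg, dot_E hy, neg_zero]

theorem frm_mv (a c : Fin 6 → F) (y : V56 F) :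
    frm (mv a c) y = a ⬝ᵥ cY y - c ⬝ᵥ cX y := by
  simp only [frm, mv, wdg_apply, dotProduct, cX, cY, Fin.sum_univ_six, Fin.sum_univ_eight, emb]
  simp
  show _ = a 0 * y.2.1 0 2 + a 1 * y.2.1 0 3 + a 2 * y.2.1 0 4 + a 3 * y.2.1 0 5 +
    a 4 * y.2.1 0 6 + a 5 * y.2.1 0 7 - (c 0 * y.1.1 1 2 + c 1 * y.1.1 1 3 + c 2 * y.1.1 1 4 +
    c 3 * y.1.1 1 5 + c 4 * y.1.1 1 6 + c 5 * y.1.1 1 7)
  ring

end
end SpreadPerm.E7
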