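import Pool.Agent.Lib.MP_e6ed9e_al.EX.E7Mv15
namespace SpreadPerm.E7
open Matrix
noncomputable section
variable {F : Type} [Field F]

/-- the base point -/
def inf : V56 F := (0, wdg (un 0) (un 1))
/-- three orthogonal white vectors -/
def C1 : V56 F := (wdg (un 2) (un 3), 0)
def C2 : V56 F := (wdg (un 4) (un 5), 0)
def C3 : V56 F := (wdg (un 6) (un 7), 0)
def pp : V56 F := C1 + C2 + C3

theorem wdg_zero (u : Fin 8 → F) : wdg (0 : Fin 8 → F) u = 0 := by
  apply Subtype.ext; ext i j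
  show (0 : Fin 8 → F) i * u j - (0 : Fin 8 → F) j * u i = 0
  simp

theorem white_left (u v : Fin 8 → F) : White ((wdg u v, 0) : V56 F) := by
  have := white_wdg (u := u) (v := v) (w := (0 : Fin 8 → F)) (z := (0 : Fin 8 → F))
    (by simp) (by simp) (by simp) (by simp)
  rwa [wdg_zero] at this

theorem white_inf : White (inf : V56 F) := by
  have := white_wdg (u := (0 : Fin 8 → F)) (v := (0 : Fin 8 → F)) (w := un 0) (z := un 1)
    (by simp) (by simp) (by simp) (by simp)
  rwa [wdg_zero] at this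

theorem white_inf_add (i j : Fin 8) (hi0 : i ≠ 0) (hi1 : i ≠ 1) (hj0 : j ≠ 0) (hj1 : j ≠ 1) :
    White (inf + ((wdg (un i) (un j), 0) : V56 F)) := by
  have h : inf + ((wdg (un i) (un j), 0) : V56 F) = (wdg (un i) (un j), wdg (un 0) (un 1)) := by
    apply Prod.ext
    · exact zero_add _
    · exact add_zero _
  rw [h]
  apply white_wdg <;> simp [Ne.symm hi0, Ne.symm hi1, Ne.symm hj0, Ne.symm hj1]

/-- The tangent space at the base point. -/
theorem tang {y : V56 F} (hy : White y) (hy' : White (inf + y)) :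
    (∀ j, y.1.1 0 j = 0 ∧ y.1.1 1 j = 0) ∧
    ∀ i j : Fin 8, i ≠ 0 → i ≠ 1 → j ≠ 0 → j ≠ 1 → y.2.1 i j = 0 := by
  have hB := B_of_white white_inf hy hy'
  have hB1 : ns ((inf : V56 F).1.1 * y.2.1 + y.1.1 * (inf : V56 F).2.1) = 0 :=
    congrArg Prod.fst hB
  have hB2 := congrArg Prod.snd hB
  rw [ns_zero_iff] at hB1
  obtain ⟨c, hc⟩ := hB1
  have hent : ∀ i j, y.1.1 i 0 * (un 1 : Fin 8 → F) j - y.1.1 i 1 * (un 0 : Fin 8 → F) j =
      (Matrix.scalar (Fin 8) c) i j := by
    intro i j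
    rw [← hc]
    show _ = ((0 : Matrix (Fin 8) (Fin 8) F) * y.2.1 + y.1.1 * (wdg (un 0) (un 1)).1 :
      Matrix (Fin 8) (Fin 8) F) i j
    rw [Matrix.zero_mul, zero_add, Matrix.mul_apply]
    simp only [wdg_apply, Fin.sum_univ_eight]
    simp
    ring
  have hc0 : c = 0 := by
    have := hent 2 2
    simpa using this.symm
  subst hc0
  have e0 : ∀ i, y.1.1 i 0 = 0 := by
    intro i
    have := hent i 1
    simp at this
    exact this
  have e1 : ∀ i, y.1.1 i 1 = 0 := by
    intro i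
    have := hent i 0
    simp at this
    exact this
  refine ⟨fun j => ⟨by rw [sk, e0, neg_zero], by rw [sk, e1, neg_zero]⟩, ?_⟩
  intro i j hi0 hi1 hj0 hj1
  by_cases hij : i = j
  · subst hij; exact dg _ _
  obtain ⟨σ, s4, s5, s6, s7⟩ := perm4' 0 1 i j (by decide) hi0.symm hj0.symm hi1.symm hj1.symm hij
  have h := congrFun hB2 σ
  have h' : pfb (0 : Matrix (Fin 8) (Fin 8) F) y.1.1 (σ 0) (σ 1) (σ 2) (σ 3) -
    (((Equiv.Perm.sign σ : ℤˣ) : ℤ) : F) *
      pfb (wdg (un 0) (un 1)).1 y.2.1 (σ 4) (σ 5) (σ 6) (σ 7) = 0 := h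
  rw [s4, s5, s6, s7] at h'
  simp only [pfb, wdg_apply] at h'
  simp [hi0, hi1, hj0, hj1] at h'
  rcases h' with h' | h'
  · rcases Int.units_eq_one_or (Equiv.Perm.sign σ) with h1 | h1 <;> rw [h1] at h' <;> simp at h'
  · exact h'

theorem pfb_pp (X : A8 F) (a b c d : Fin 8) :
    pfb (pp : V56 F).1.1 X.1 a b c d =
      pfb (fun i j => ((un 2 : Fin 8 → F) i * (un 3 : Fin 8 → F) j -
        (un 2 : Fin 8 → F) j * (un 3 : Fin 8 → F) i) + ((un 4 : Fin 8 → F) i *
        (un 5 : Fin 8 → F) j - (un 4 : Fin 8 → F) j * (un 5 : Fin 8 → F) i) +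
        ((un 6 : Fin 8 → F) i * (un 7 : Fin 8 → F) j -
        (un 6 : Fin 8 → F) j * (un 7 : Fin 8 → F) i)) X.1 a b c d := rfl

theorem only_inf {z : V56 F} (hz : White z) (hz' : White (inf + z)) (hB : B pp z = 0) :
    ∃ s : F, z = s • inf := by
  obtain ⟨t1, t2⟩ := tang hz hz'
  have hB1 : ns ((pp : V56 F).1.1 * z.2.1 + z.1.1 * (pp : V56 F).2.1) = 0 :=
    congrArg Prod.fst hB
  have hB2 := congrArg Prod.snd hB
  rw [ns_zero_iff] at hB1
  obtain ⟨c, hc⟩ := hB1
  have hpp2 : (pp : V56 F).2.1 = 0 := by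
    show ((0 : Matrix (Fin 8) (Fin 8) F) + 0 + 0) = 0
    simp
  rw [hpp2, Matrix.mul_zero, add_zero] at hc
  have hpe : ∀ i j, (pp : V56 F).1.1 i j = ((un 2 : Fin 8 → F) i * (un 3 : Fin 8 → F) j -
        (un 2 : Fin 8 → F) j * (un 3 : Fin 8 → F) i) + ((un 4 : Fin 8 → F) i *
        (un 5 : Fin 8 → F) j - (un 4 : Fin 8 → F) j * (un 5 : Fin 8 → F) i) +
        ((un 6 : Fin 8 → F) i * (un 7 : Fin 8 → F) j -
        (un 6 : Fin 8 → F) j * (un 7 : Fin 8 → F) i) := fun i j => rfl
  have hent : ∀ i j, ((pp : V56 F).1.1 * z.2.1) i j = (Matrix.scalar (Fin 8) c) i j := by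
    intro i j; rw [hc]
  simp only [Matrix.mul_apply, Fin.sum_univ_eight, hpe] at hent
  have hc0 : c = 0 := by
    have := hent 0 0
    simpa using this.symm
  subst hc0
  have y2 : ∀ j, z.2.1 2 j = 0 := by
    intro j; have := hent 3 j; simpa using this
  have y3 : ∀ j, z.2.1 3 j = 0 := by
    intro j; have := hent 2 j; simpa using this
  have y4 : ∀ j, z.2.1 4 j = 0 := by
    intro j; have := hent 5 j; simpa using this
  have y5 : ∀ j, z.2.1 5 j = 0 := by
    intro j; have := hent 4 j; simpa using this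
  have y6 : ∀ j, z.2.1 6 j = 0 := by
    intro j; have := hent 7 j; simpa using this
  have y7 : ∀ j, z.2.1 7 j = 0 := by
    intro j; have := hent 6 j; simpa using this
  have hX : ∀ a b c d : Fin 8, a ≠ b → a ≠ c → a ≠ d → b ≠ c → b ≠ d → c ≠ d →
      pfb (pp : V56 F).1.1 z.1.1 a b c d = 0 := by
    intro a b c d h1 h2 h3 h4 h5 h6
    obtain ⟨σ, s0, s1, s2, s3⟩ := perm4 a b c d h1 h2 h3 h4 h5 h6
    have h := congrFun hB2 σ
    have h' : pfb (pp : V56 F).1.1 z.1.1 (σ 0) (σ 1) (σ 2) (σ 3) -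
      (((Equiv.Perm.sign σ : ℤˣ) : ℤ) : F) *
        pfb (pp : V56 F).2.1 z.2.1 (σ 4) (σ 5) (σ 6) (σ 7) = 0 := h
    rw [s0, s1, s2, s3, hpp2] at h'
    have h2 : pfb (0 : Matrix (Fin 8) (Fin 8) F) z.2.1 (σ 4) (σ 5) (σ 6) (σ 7) = 0 := by
      simp [pfb]
    rw [h2, mul_zero, sub_zero] at h'
    exact h'
  simp only [pfb, hpe] at hX
  have x46 : z.1.1 4 6 = 0 := by
    simpa using hX 2 3 4 6 (by decide) (by decide) (by decide) (by decide) (by decide) (by decide)
  have x47 : z.1.1 4 7 = 0 := by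
    simpa using hX 2 3 4 7 (by decide) (by decide) (by decide) (by decide) (by decide) (by decide)
  have x56 : z.1.1 5 6 = 0 := by
    simpa using hX 2 3 5 6 (by decide) (by decide) (by decide) (by decide) (by decide) (by decide)
  have x57 : z.1.1 5 7 = 0 := by
    simpa using hX 2 3 5 7 (by decide) (by decide) (by decide) (by decide) (by decide) (by decide)
  have x26 : z.1.1 2 6 = 0 := by
    simpa using hX 4 5 2 6 (by decide) (by decide) (by decide) (by decide) (by decide) (by decide)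
  have x27 : z.1.1 2 7 = 0 := by
    simpa using hX 4 5 2 7 (by decide) (by decide) (by decide) (by decide) (by decide) (by decide)
  have x36 : z.1.1 3 6 = 0 := by
    simpa using hX 4 5 3 6 (by decide) (by decide) (by decide) (by decide) (by decide) (by decide)
  have x37 : z.1.1 3 7 = 0 := by
    simpa using hX 4 5 3 7 (by decide) (by decide) (by decide) (by decide) (by decide) (by decide)
  have x24 : z.1.1 2 4 = 0 := by
    simpa using hX 6 7 2 4 (by decide) (by decide) (by decide) (by decide) (by decide) (by decide)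
  have x25 : z.1.1 2 5 = 0 := by
    simpa using hX 6 7 2 5 (by decide) (by decide) (by decide) (by decide) (by decide) (by decide)
  have x34 : z.1.1 3 4 = 0 := by
    simpa using hX 6 7 3 4 (by decide) (by decide) (by decide) (by decide) (by decide) (by decide)
  have x35 : z.1.1 3 5 = 0 := by
    simpa using hX 6 7 3 5 (by decide) (by decide) (by decide) (by decide) (by decide) (by decide)
  have s1 : z.1.1 4 5 + z.1.1 2 3 = 0 := by
    simpa using hX 2 3 4 5 (by decide) (by decide) (by decide) (by decide) (by decide) (by decide)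
  have s2 : z.1.1 6 7 + z.1.1 2 3 = 0 := by
    simpa using hX 2 3 6 7 (by decide) (by decide) (by decide) (by decide) (by decide) (by decide)
  have x23 : z.1.1 2 3 = 0 := by
    obtain ⟨σ, r0, r1, r2, r3⟩ := perm4 2 3 4 5 (by decide) (by decide) (by decide) (by decide)
      (by decide) (by decide)
    have h := hz.2 σ
    have hY : z.2 = z.2.1 0 1 • wdg (un 0) (un 1) := by
      apply Subtype.ext; ext i j
      show z.2.1 i j = z.2.1 0 1 * ((un 0 : Fin 8 → F) i * (un 1 : Fin 8 → F) j -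
        (un 0 : Fin 8 → F) j * (un 1 : Fin 8 → F) i)
      fin_cases i <;> fin_cases j <;>
        simp [dg, y2, y3, y4, y5, y6, y7, sk z.2 1 0, sk z.2 _ 2, sk z.2 _ 3, sk z.2 _ 4,
          sk z.2 _ 5, sk z.2 _ 6, sk z.2 _ 7]
    rw [hY] at h
    have h3 : pf (z.2.1 0 1 • wdg (un 0) (un 1) : A8 F).1 (σ 4) (σ 5) (σ 6) (σ 7) = 0 := by
      show pf (z.2.1 0 1 • (wdg (un 0) (un 1)).1) (σ 4) (σ 5) (σ 6) (σ 7) = 0
      rw [pf_smul, pf_wdg, mul_zero]
    rw [h3, mul_zero, r0, r1, r2, r3] at h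
    simp only [pf, x24, x25, x34, x35] at h
    have h4 : z.1.1 2 3 * z.1.1 2 3 = 0 := by linear_combination -h + z.1.1 2 3 * s1
    exact mul_self_eq_zero.1 h4
  have x45 : z.1.1 4 5 = 0 := by rw [x23, add_zero] at s1; exact s1
  have x67 : z.1.1 6 7 = 0 := by rw [x23, add_zero] at s2; exact s2
  have a0 := fun j => (t1 j).1
  have a1 := fun j => (t1 j).2
  refine ⟨z.2.1 0 1, v_ext ?_ ?_⟩
  · intro i j
    show z.1.1 i j = z.2.1 0 1 * 0
    rw [mul_zero]
    have key : ∀ i j : Fin 8, i < j → z.1.1 i j = 0 := by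
      intro i j hij
      fin_cases i <;> fin_cases j <;> first | (exfalso; revert hij; decide) | skip
      all_goals first
        | exact a0 _ | exact a1 _ | exact x23 | exact x24 | exact x25 | exact x26 | exact x27
        | exact x34 | exact x35 | exact x36 | exact x37 | exact x45 | exact x46 | exact x47
        | exact x56 | exact x57 | exact x67
    rcases lt_trichotomy i j with h | h | h
    · exact key i j h
    · subst h; exact dg _ _
    · rw [sk, key j i h, neg_zero]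
  · intro i j
    show z.2.1 i j = z.2.1 0 1 * ((un 0 : Fin 8 → F) i * (un 1 : Fin 8 → F) j -
        (un 0 : Fin 8 → F) j * (un 1 : Fin 8 → F) i)
    fin_cases i <;> fin_cases j <;>
        simp [dg, y2, y3, y4, y5, y6, y7, sk z.2 1 0, sk z.2 _ 2, sk z.2 _ 3, sk z.2 _ 4,
          sk z.2 _ 5, sk z.2 _ 6, sk z.2 _ 7]

end
end SpreadPerm.E7
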