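import Pool.Agent.Lib.MP_e6ed9e_al.EX.E7Defs15
namespace SpreadPerm.E7
open Matrix
noncomputable section
variable {F : Type} [Field F]

def S01 (F : Type) [Field F] : Matrix (Fin 8) (Fin 8) F := Matrix.single 0 1 1

theorem S01_sq : S01 F * S01 F = 0 := by
  unfold S01
  rw [Matrix.single_mul_single_of_ne]
  decide

theorem S01_mul (X : Matrix (Fin 8) (Fin 8) F) (i j : Fin 8) :
    ((S01 F) * X) i j = (un 0 : Fin 8 → F) i * X 1 j := by
  unfold S01
  by_cases h : i = 0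
  · subst h; simp
  · rw [Matrix.single_mul_apply_of_ne _ _ _ _ _ h]; simp [h]

theorem mul_S01T (X : Matrix (Fin 8) (Fin 8) F) (i j : Fin 8) :
    (X * (S01 F)ᵀ) i j = (un 0 : Fin 8 → F) j * X i 1 := by
  have : X * (S01 F)ᵀ = ((S01 F) * Xᵀ)ᵀ := by rw [Matrix.transpose_mul, Matrix.transpose_transpose]
  rw [this, Matrix.transpose_apply, S01_mul, Matrix.transpose_apply]

theorem S01T_mul (X : Matrix (Fin 8) (Fin 8) F) (i j : Fin 8) :
    ((S01 F)ᵀ * X) i j = (un 1 : Fin 8 → F) i * X 0 j := by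
  unfold S01
  rw [Matrix.transpose_single]
  by_cases h : i = 1
  · subst h; simp
  · rw [Matrix.single_mul_apply_of_ne _ _ _ _ _ h]; simp [h]

theorem mul_S01 (X : Matrix (Fin 8) (Fin 8) F) (i j : Fin 8) :
    (X * (S01 F)) i j = (un 1 : Fin 8 → F) j * X i 0 := by
  have : X * (S01 F) = ((S01 F)ᵀ * Xᵀ)ᵀ := by rw [Matrix.transpose_mul, Matrix.transpose_transpose,
    Matrix.transpose_transpose]
  rw [this, Matrix.transpose_apply, S01T_mul, Matrix.transpose_apply]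

theorem tr_fst (x : V56 F) (t : F) :
    (x + t • E x).1.1 = (1 + t • (S01 F)) * x.1.1 * (1 + t • (S01 F))ᵀ := by
  ext i j
  have h1 : (1 + t • (S01 F)) * x.1.1 * (1 + t • (S01 F) : Matrix (Fin 8) (Fin 8) F)ᵀ =
      x.1.1 + t • ((S01 F) * x.1.1) + t • (x.1.1 * (S01 F)ᵀ) + (t * t) • ((S01 F) * x.1.1 * (S01 F)ᵀ) := by
    rw [Matrix.transpose_add, Matrix.transpose_one, Matrix.transpose_smul, Matrix.add_mul,
      Matrix.mul_add, Matrix.one_mul, Matrix.mul_one, Matrix.mul_smul, Matrix.smul_mul,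
      Matrix.add_mul, Matrix.smul_mul, smul_add, smul_smul]
    abel
  rw [h1]
  show x.1.1 i j + t * (E x).1.1 i j = x.1.1 i j + t * ((S01 F) * x.1.1) i j +
    t * (x.1.1 * (S01 F)ᵀ) i j + (t * t) * ((S01 F) * x.1.1 * (S01 F)ᵀ) i j
  rw [E_fst, S01_mul, mul_S01T, mul_S01T, S01_mul, dg, sk x.1 1 i]
  ring

theorem tr_snd (x : V56 F) (t : F) :
    (x + t • E x).2.1 = (1 - t • (S01 F))ᵀ * x.2.1 * (1 - t • (S01 F)) := by
  ext i j
  have h1 : (1 - t • (S01 F) : Matrix (Fin 8) (Fin 8) F)ᵀ * x.2.1 * (1 - t • (S01 F)) =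
      x.2.1 - t • ((S01 F)ᵀ * x.2.1) - t • (x.2.1 * (S01 F)) + (t * t) • ((S01 F)ᵀ * x.2.1 * (S01 F)) := by
    rw [Matrix.transpose_sub, Matrix.transpose_one, Matrix.transpose_smul, Matrix.sub_mul,
      Matrix.mul_sub, Matrix.one_mul, Matrix.mul_one, Matrix.mul_smul, Matrix.smul_mul,
      Matrix.sub_mul, Matrix.smul_mul, smul_sub, smul_smul]
    abel
  rw [h1]
  show x.2.1 i j + t * (E x).2.1 i j = x.2.1 i j - t * ((S01 F)ᵀ * x.2.1) i j -
    t * (x.2.1 * (S01 F)) i j + (t * t) * ((S01 F)ᵀ * x.2.1 * (S01 F)) i j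
  rw [E_snd, S01T_mul, mul_S01, mul_S01, S01T_mul, dg, sk x.2 0 i]
  ring

theorem tr_mul (x : V56 F) (t : F) (h : ∃ c : F, x.1.1 * x.2.1 = Matrix.scalar (Fin 8) c) :
    ∃ c : F, (x + t • E x).1.1 * (x + t • E x).2.1 = Matrix.scalar (Fin 8) c := by
  obtain ⟨c, hc⟩ := h
  refine ⟨c, ?_⟩
  rw [tr_fst, tr_snd]
  have h1 : (1 + t • (S01 F) : Matrix (Fin 8) (Fin 8) F)ᵀ * (1 - t • (S01 F))ᵀ = 1 := by
    rw [← Matrix.transpose_mul]
    have : (1 - t • (S01 F) : Matrix (Fin 8) (Fin 8) F) * (1 + t • (S01 F)) = 1 := by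
      rw [Matrix.sub_mul, Matrix.one_mul, Matrix.mul_add, Matrix.mul_one, Matrix.smul_mul,
        Matrix.mul_smul, S01_sq]
      simp
    rw [this, Matrix.transpose_one]
  have h2 : (1 + t • (S01 F) : Matrix (Fin 8) (Fin 8) F) * (1 - t • (S01 F)) = 1 := by
    rw [Matrix.add_mul, Matrix.one_mul, Matrix.mul_sub, Matrix.mul_one, Matrix.smul_mul,
        Matrix.mul_smul, S01_sq]
    simp
  calc (1 + t • (S01 F)) * x.1.1 * (1 + t • (S01 F))ᵀ * ((1 - t • (S01 F))ᵀ * x.2.1 * (1 - t • (S01 F)))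
      = (1 + t • (S01 F)) * (x.1.1 * ((1 + t • (S01 F))ᵀ * (1 - t • (S01 F))ᵀ) * x.2.1) * (1 - t • (S01 F)) := by
        simp only [Matrix.mul_assoc]
    _ = (1 + t • (S01 F)) * Matrix.scalar (Fin 8) c * (1 - t • (S01 F)) := by
        rw [h1, Matrix.mul_one, hc]
    _ = Matrix.scalar (Fin 8) c := by
        have h3 : (1 + t • (S01 F) : Matrix (Fin 8) (Fin 8) F) * Matrix.scalar (Fin 8) c =
          Matrix.scalar (Fin 8) c * (1 + t • (S01 F)) := by
          exact ((Matrix.scalar_commute c (fun r => Commute.all _ _) _).eq).symm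
        rw [h3, Matrix.mul_assoc, h2, Matrix.mul_one]

theorem pfX (x : V56 F) (t : F) (a b c d : Fin 8) (h1 : a ≠ b) (h2 : a ≠ c) (h3 : a ≠ d)
    (h4 : b ≠ c) (h5 : b ≠ d) (h6 : c ≠ d) :
    pf (x + t • E x).1.1 a b c d = pf x.1.1 a b c d + t *
      ((if a = 0 then pf x.1.1 1 b c d else 0) + (if b = 0 then pf x.1.1 a 1 c d else 0) +
       (if c = 0 then pf x.1.1 a b 1 d else 0) + (if d = 0 then pf x.1.1 a b c 1 else 0)) := by
  have h : ∀ i j, (x + t • E x).1.1 i j = x.1.1 i j + t * (E x).1.1 i j := fun i j => rfl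
  simp only [pf, h, E_fst, Pi.single_apply]
  by_cases ha : a = 0
  · subst ha
    simp only [if_neg h1.symm, if_neg h2.symm, if_neg h3.symm, if_true]
    ring
  by_cases hb : b = 0
  · subst hb
    simp only [if_neg ha, if_true, if_neg h4.symm, if_neg h5.symm, sk x.1 1 a]
    ring
  by_cases hc : c = 0
  · subst hc
    simp only [if_neg ha, if_neg hb, if_true, if_neg h6.symm, sk x.1 1 a, sk x.1 1 b]
    ring
  by_cases hd : d = 0
  · subst hd
    simp only [if_neg ha, if_neg hb, if_neg hc, if_true, sk x.1 1 a, sk x.1 1 b, sk x.1 1 c]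
    ring
  simp only [if_neg ha, if_neg hb, if_neg hc, if_neg hd]
  ring

theorem pfY (x : V56 F) (t : F) (a b c d : Fin 8) (h1 : a ≠ b) (h2 : a ≠ c) (h3 : a ≠ d)
    (h4 : b ≠ c) (h5 : b ≠ d) (h6 : c ≠ d) :
    pf (x + t • E x).2.1 a b c d = pf x.2.1 a b c d - t *
      ((if a = 1 then pf x.2.1 0 b c d else 0) + (if b = 1 then pf x.2.1 a 0 c d else 0) +
       (if c = 1 then pf x.2.1 a b 0 d else 0) + (if d = 1 then pf x.2.1 a b c 0 else 0)) := by
  have h : ∀ i j, (x + t • E x).2.1 i j = x.2.1 i j + t * (E x).2.1 i j := fun i j => rfl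
  simp only [pf, h, E_snd, Pi.single_apply]
  by_cases ha : a = 1
  · subst ha
    simp only [if_neg h1.symm, if_neg h2.symm, if_neg h3.symm, if_true]
    ring
  by_cases hb : b = 1
  · subst hb
    simp only [if_neg ha, if_true, if_neg h4.symm, if_neg h5.symm, sk x.2 0 a]
    ring
  by_cases hc : c = 1
  · subst hc
    simp only [if_neg ha, if_neg hb, if_true, if_neg h6.symm, sk x.2 0 a, sk x.2 0 b]
    ring
  by_cases hd : d = 1
  · subst hd
    simp only [if_neg ha, if_neg hb, if_neg hc, if_true, sk x.2 0 a, sk x.2 0 b, sk x.2 0 c]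
    ring
  simp only [if_neg ha, if_neg hb, if_neg hc, if_neg hd]
  ring

theorem rp1 (X : A8 F) (a c d : Fin 8) : pf X.1 a a c d = 0 := by
  simp only [pf, dg]; ring
theorem rp2 (X : A8 F) (a b d : Fin 8) : pf X.1 a b a d = 0 := by
  simp only [pf, dg, sk X b a]; ring
theorem rp3 (X : A8 F) (a b c : Fin 8) : pf X.1 a b c a = 0 := by
  simp only [pf, dg, sk X c a, sk X b a]; ring
theorem rp4 (X : A8 F) (a b d : Fin 8) : pf X.1 a b b d = 0 := by
  simp only [pf, dg]; ring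
theorem rp5 (X : A8 F) (a b c : Fin 8) : pf X.1 a b c b = 0 := by
  simp only [pf, dg, sk X c b]; ring
theorem rp6 (X : A8 F) (a b c : Fin 8) : pf X.1 a b c c = 0 := by
  simp only [pf, dg]; ring

theorem pf_sum (X Y : A8 F) (s : F) (σ : Fin 8 → Fin 8) (i0 i1 : Fin 8) (hne : i0 ≠ i1)
    (h0 : σ i0 = 0) (h1 : σ i1 = 1)
    (hτ : pf X.1 (if 0 = i0 then 1 else if 0 = i1 then 0 else σ 0)
      (if 1 = i0 then 1 else if 1 = i1 then 0 else σ 1)
      (if 2 = i0 then 1 else if 2 = i1 then 0 else σ 2)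
      (if 3 = i0 then 1 else if 3 = i1 then 0 else σ 3) =
      -s * pf Y.1 (if 4 = i0 then 1 else if 4 = i1 then 0 else σ 4)
      (if 5 = i0 then 1 else if 5 = i1 then 0 else σ 5)
      (if 6 = i0 then 1 else if 6 = i1 then 0 else σ 6)
      (if 7 = i0 then 1 else if 7 = i1 then 0 else σ 7)) :
    (if 0 = i0 then pf X.1 1 (σ 1) (σ 2) (σ 3) else 0) +
    (if 1 = i0 then pf X.1 (σ 0) 1 (σ 2) (σ 3) else 0) +
    (if 2 = i0 then pf X.1 (σ 0) (σ 1) 1 (σ 3) else 0) +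
    (if 3 = i0 then pf X.1 (σ 0) (σ 1) (σ 2) 1 else 0) =
    -s * ((if 4 = i1 then pf Y.1 0 (σ 5) (σ 6) (σ 7) else 0) +
    (if 5 = i1 then pf Y.1 (σ 4) 0 (σ 6) (σ 7) else 0) +
    (if 6 = i1 then pf Y.1 (σ 4) (σ 5) 0 (σ 7) else 0) +
    (if 7 = i1 then pf Y.1 (σ 4) (σ 5) (σ 6) 0 else 0)) := by
  fin_cases i0 <;> fin_cases i1 <;>
    first
      | exact absurd rfl hne
      | (simp at h0 h1 hτ ⊢; linear_combination hτ)
      | (simp at h0 h1 ⊢; done)
      | (simp at h0 h1 ⊢; simp [h0, h1, rp1, rp2, rp3, rp4, rp5, rp6]; done)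

theorem white_tr {x : V56 F} (t : F) (hx : White x) : White (x + t • E x) := by
  refine ⟨tr_mul x t hx.1, fun σ => ?_⟩
  have hk : ∀ k l : Fin 8, k ≠ l → σ k ≠ σ l := fun k l h h' => h (σ.injective h')
  have h0 : ∀ k, σ k = 0 ↔ k = σ.symm 0 := fun k => by rw [Equiv.eq_symm_apply]
  have h1 : ∀ k, σ k = 1 ↔ k = σ.symm 1 := fun k => by rw [Equiv.eq_symm_apply]
  have hne : σ.symm 0 ≠ σ.symm 1 := fun h => by
    have := σ.symm.injective h
    revert this; decide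
  rw [pfX x t _ _ _ _ (hk 0 1 (by decide)) (hk 0 2 (by decide)) (hk 0 3 (by decide))
    (hk 1 2 (by decide)) (hk 1 3 (by decide)) (hk 2 3 (by decide)),
    pfY x t _ _ _ _ (hk 4 5 (by decide)) (hk 4 6 (by decide)) (hk 4 7 (by decide))
    (hk 5 6 (by decide)) (hk 5 7 (by decide)) (hk 6 7 (by decide)), hx.2 σ]
  have hτ := hx.2 (Equiv.swap 0 1 * σ)
  have hs : (((Equiv.Perm.sign (Equiv.swap 0 1 * σ) : ℤˣ) : ℤ) : F) =
      -(((Equiv.Perm.sign σ : ℤˣ) : ℤ) : F) := by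
    rw [Equiv.Perm.sign_mul, Equiv.Perm.sign_swap (by decide)]
    simp
  have hv : ∀ k, (Equiv.swap 0 1 * σ : Equiv.Perm (Fin 8)) k =
      (if k = σ.symm 0 then 1 else if k = σ.symm 1 then 0 else σ k) := by
    intro k
    rw [Equiv.Perm.mul_apply]
    by_cases e0 : k = σ.symm 0
    · rw [if_pos e0, (h0 k).2 e0, Equiv.swap_apply_left]
    · rw [if_neg e0]
      by_cases e1 : k = σ.symm 1
      · rw [if_pos e1, (h1 k).2 e1, Equiv.swap_apply_right]
      · rw [if_neg e1, Equiv.swap_apply_of_ne_of_ne (fun h => e0 ((h0 k).1 h))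
          (fun h => e1 ((h1 k).1 h))]
  rw [hs] at hτ
  simp only [hv] at hτ
  have key := pf_sum x.1 x.2 (((Equiv.Perm.sign σ : ℤˣ) : ℤ) : F) σ (σ.symm 0) (σ.symm 1) hne
    (σ.apply_symm_apply 0) (σ.apply_symm_apply 1) hτ
  simp only [h0, h1]
  rw [key]
  ring

end
end SpreadPerm.E7
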