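import Pool.Agent.Lib.MP_e6ed9e_al.EX.Core67

/-! # The points of `E_6` and `F_4`: the theorems -/

namespace SpreadPerm.EX

open Matrix Finset
open scoped Classical

noncomputable section

section defs

variable {F : Type} [Field F]

/-- The standard symplectic form. -/
def J : Matrix (Fin 6) (Fin 6) F :=
  wedge (Pi.single 0 1) (Pi.single 1 1) + wedge (Pi.single 2 1) (Pi.single 3 1) +
    wedge (Pi.single 4 1) (Pi.single 5 1)

/-- The linear forms in the span of `l₀` and `l` have nonzero norm, and `l` is not in the span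
of `l₀`. -/
def Aniso (l₀ l : V F) : Prop :=
  Alt l.2.1 ∧ (∀ s t : F, s • l₀ + t • l = 0 → t = 0) ∧
    ∀ s t : F, s • l₀ + t • l ≠ 0 → Nd (s • l₀ + t • l) ≠ 0

end defs

variable {F : Type} [Field F]

theorem alt_add {b c : Matrix (Fin 6) (Fin 6) F} (hb : Alt b) (hc : Alt c) : Alt (b + c) :=
  ⟨fun i => by rw [Matrix.add_apply, hb.1 i, hc.1 i, add_zero], fun i j => by
    rw [Matrix.add_apply, Matrix.add_apply, hb.2 i j, hc.2 i j]
    ring⟩

theorem alt_smul' (t : F) {b : Matrix (Fin 6) (Fin 6) F} (h : Alt b) : Alt (t • b) :=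
  ⟨fun i => by rw [Matrix.smul_apply, h.1 i, smul_zero], fun i j => by
    rw [Matrix.smul_apply, Matrix.smul_apply, h.2 i j, smul_neg]⟩

theorem alt_J : Alt (J : Matrix (Fin 6) (Fin 6) F) :=
  alt_add (alt_add (wedge_alt _ _) (wedge_alt _ _)) (wedge_alt _ _)

/-- The second form of the pencil. -/
def C₁ (β : F) : Matrix (Fin 6) (Fin 6) F :=
  wedge (Pi.single 0 1) (Pi.single 3 1) + wedge (Pi.single 2 1) (Pi.single 5 1) +
    (wedge (Pi.single 4 1) (-β • Pi.single 1 1) + wedge (Pi.single 4 1) (Pi.single 3 1))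

theorem alt_C₁ (β : F) : Alt (C₁ β) :=
  alt_add (alt_add (wedge_alt _ _) (wedge_alt _ _)) (alt_add (wedge_alt _ _) (wedge_alt _ _))

theorem Pf_pencil (β s t : F) : Pf (s • J + t • C₁ β) = s ^ 3 - s * t ^ 2 - β * t ^ 3 := by
  unfold Pf pf J C₁
  simp only [Matrix.add_apply, Matrix.smul_apply, wedge_apply, Pi.smul_apply, smul_eq_mul,
    Pi.single_apply]
  simp
  ring

theorem exists_beta [Finite F] : ∃ β : F, ∀ x : F, x ^ 3 - x ≠ β := by
  by_contra h
  push Not at h
  have h1 : Function.Surjective fun x : F => x ^ 3 - x := h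
  have h2 := Finite.injective_iff_surjective.2 h1
  have h3 : (0 : F) = 1 := h2 (by norm_num)
  exact zero_ne_one h3

theorem pair_single (c : Matrix (Fin 6) (Fin 6) F) (hc : Alt c) (i j : Fin 6) :
    pair c (wedge (Pi.single i 1) (Pi.single j 1)) = c i j := by
  rw [pair_wedge c hc]
  simp

theorem Nd_mid (c : Matrix (Fin 6) (Fin 6) F) : Nd ((0, c, 0) : V F) = Pf c := by
  show Pf c - (0 : Fin 6 → F) ⬝ᵥ (c *ᵥ 0) = Pf c
  rw [zero_dotProduct, sub_zero]

theorem comb_mid (c d : Matrix (Fin 6) (Fin 6) F) (s t : F) :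
    s • ((0, c, 0) : V F) + t • ((0, d, 0) : V F) = (0, s • c + t • d, 0) := by
  refine Prod.ext ?_ (Prod.ext rfl ?_)
  · show s • (0 : Fin 6 → F) + t • (0 : Fin 6 → F) = 0
    simp
  · show s • (0 : Fin 6 → F) + t • (0 : Fin 6 → F) = 0
    simp

theorem J01 : (J : Matrix (Fin 6) (Fin 6) F) 0 1 = 1 := by
  simp [J, wedge_apply, Pi.single_apply]

theorem J03 : (J : Matrix (Fin 6) (Fin 6) F) 0 3 = 0 := by
  simp [J, wedge_apply, Pi.single_apply]

theorem C03 (β : F) : C₁ β 0 3 = 1 := by
  simp [C₁, wedge_apply, Pi.single_apply]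

theorem Pf_J : Pf (J : Matrix (Fin 6) (Fin 6) F) = 1 := by
  have := Pf_pencil (0 : F) 1 0
  rw [one_smul, zero_smul, add_zero] at this
  rw [this]
  ring

theorem aniso_zero {l : V F} (h : Aniso 0 l) : Alt l.2.1 ∧ Nd l ≠ 0 := by
  obtain ⟨h1, h2, h3⟩ := h
  have hl : (0 : F) • (0 : V F) + (1 : F) • l = l := by simp
  refine ⟨h1, ?_⟩
  have h4 := h3 0 1 (fun h => one_ne_zero (h2 0 1 h))
  rwa [hl] at h4

theorem aniso_zero_J : Aniso (0 : V F) (0, J, 0) := by
  have hne : ((0, J, 0) : V F) ≠ 0 := by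
    intro h
    have h1 : (J : Matrix (Fin 6) (Fin 6) F) = 0 := congrArg (fun y : V F => y.2.1) h
    have h2 := J01 (F := F)
    rw [h1] at h2
    exact zero_ne_one h2
  refine ⟨alt_J, fun s t h => ?_, fun s t h => ?_⟩
  · rw [smul_zero, zero_add] at h
    exact (smul_eq_zero.1 h).resolve_right hne
  · rw [smul_zero, zero_add] at h ⊢
    have ht : t ≠ 0 := fun h' => h (by rw [h', zero_smul])
    have h1 : t • ((0, J, 0) : V F) = (0, t • J, 0) := by
      have := comb_mid (F := F) 0 J 0 t
      rw [zero_smul, zero_add, zero_smul, zero_add] at this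
      exact this
    have h2 : Pf (t • (J : Matrix (Fin 6) (Fin 6) F)) = t ^ 3 := by
      have := Pf_pencil (0 : F) t 0
      rw [zero_smul, add_zero] at this
      rw [this]
      ring
    rw [h1, Nd_mid, h2]
    exact pow_ne_zero 3 ht

theorem aniso_J {β : F} (hβ : ∀ x : F, x ^ 3 - x ≠ β) : Aniso ((0, J, 0) : V F) (0, C₁ β, 0) := by
  refine ⟨alt_C₁ β, fun s t h => ?_, fun s t h => ?_⟩
  · rw [comb_mid] at h
    have h1 : s • J + t • C₁ β = 0 := congrArg (fun y : V F => y.2.1) h
    have h2 := congrFun (congrFun h1 0) 3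
    rw [Matrix.add_apply, Matrix.smul_apply, Matrix.smul_apply, J03, C03, smul_zero, zero_add,
      smul_eq_mul, mul_one] at h2
    exact h2
  · rw [comb_mid] at h ⊢
    rw [Nd_mid, Pf_pencil]
    intro h1
    by_cases ht : t = 0
    · subst ht
      have hs : s = 0 := by
        have : s ^ 3 = 0 := by linear_combination h1
        exact pow_eq_zero_iff (by norm_num) |>.1 this
      subst hs
      apply h
      rw [zero_smul, zero_smul, add_zero]
      rfl
    · apply hβ (s / t)
      field_simp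
      linear_combination h1

theorem ev_comb (l₀ l x : V F) (s t : F) :
    ev (s • l₀ + t • l) x = s * ev l₀ x + t * ev l x := by
  have hp : pair (s • l₀.2.1 + t • l.2.1) x.2.1 =
      s * pair l₀.2.1 x.2.1 + t * pair l.2.1 x.2.1 := by
    unfold pair
    rw [Finset.mul_sum, Finset.mul_sum, ← Finset.sum_add_distrib]
    refine Finset.sum_congr rfl fun i _ => ?_
    rw [Finset.mul_sum, Finset.mul_sum, ← Finset.sum_add_distrib]
    refine Finset.sum_congr rfl fun j _ => ?_
    split_ifs
    · rw [Matrix.add_apply, Matrix.smul_apply, Matrix.smul_apply, smul_eq_mul, smul_eq_mul]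
      ring
    · ring
  show (s • l₀.1 + t • l.1) ⬝ᵥ x.1 + pair (s • l₀.2.1 + t • l.2.1) x.2.1 +
    (s • l₀.2.2 + t • l.2.2) ⬝ᵥ x.2.2 = _
  rw [hp]
  unfold ev
  rw [add_dotProduct, add_dotProduct, smul_dotProduct, smul_dotProduct, smul_dotProduct,
    smul_dotProduct]
  simp only [smul_eq_mul]
  ring

variable [Fintype F]

theorem cnt2 (α β : F) :
    (univ.filter fun p : F × F => p ≠ 0 ∧ p.1 * α + p.2 * β = 0).card =
      if α = 0 ∧ β = 0 then Fintype.card F ^ 2 - 1 else Fintype.card F - 1 := by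
  have h0 := Finset.card_filter_add_card_filter_not
    (s := (univ.filter fun p : F × F => p.1 * α + p.2 * β = 0)) (fun p : F × F => p ≠ 0)
  have h1 : ((univ.filter fun p : F × F => p.1 * α + p.2 * β = 0).filter fun p => ¬ p ≠ 0) =
      {0} := by
    ext p
    simp only [mem_filter, mem_univ, true_and, not_not, mem_singleton]
    constructor
    · exact fun h => h.2
    · rintro rfl
      exact ⟨by simp, rfl⟩
  have h2 : ((univ.filter fun p : F × F => p.1 * α + p.2 * β = 0).filter fun p => p ≠ 0) =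
      univ.filter fun p : F × F => p ≠ 0 ∧ p.1 * α + p.2 * β = 0 := by
    ext p
    simp only [mem_filter, mem_univ, true_and]
    exact and_comm
  rw [h1, h2, Finset.card_singleton] at h0
  by_cases h : α = 0 ∧ β = 0
  · rw [if_pos h]
    have h3 : (univ.filter fun p : F × F => p.1 * α + p.2 * β = 0) = univ := by
      ext p
      simp [h.1, h.2]
    rw [h3, Finset.card_univ, Fintype.card_prod] at h0
    rw [pow_two]
    omega
  · rw [if_neg h]
    have h3 : (univ.filter fun p : F × F => p.1 * α + p.2 * β = 0) =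
        (univ : Finset F).image fun t => (t * β, -(t * α)) := by
      ext ⟨s, t⟩
      simp only [mem_filter, mem_univ, true_and, mem_image, Prod.mk.injEq]
      constructor
      · intro h4
        by_cases hα : α = 0
        · have hβ : β ≠ 0 := fun hβ => h ⟨hα, hβ⟩
          refine ⟨s / β, div_mul_cancel₀ _ hβ, ?_⟩
          rw [hα, mul_zero, zero_add] at h4
          rw [hα, mul_zero, neg_zero]
          exact ((mul_eq_zero.1 h4).resolve_right hβ).symm
        · refine ⟨-t / α, ?_, ?_⟩
          · field_simp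
            linear_combination -h4
          · field_simp
      · rintro ⟨r, rfl, rfl⟩
        ring
    rw [h3, Finset.card_image_of_injective, Finset.card_univ] at h0
    · omega
    · intro r r' hr
      simp only [Prod.mk.injEq] at hr
      by_cases hα : α = 0
      · have hβ : β ≠ 0 := fun hβ => h ⟨hα, hβ⟩
        exact mul_right_cancel₀ hβ hr.1
      · exact mul_right_cancel₀ hα (neg_injective hr.2)

theorem pencil_sum (l₀ l : V F) (g : V F → ℕ) :
    ∑ p ∈ univ.filter (fun p : F × F => p ≠ 0),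
      ∑ x : V F, (if ev (p.1 • l₀ + p.2 • l) x = 0 then g x else 0) =
      (Fintype.card F - 1) * ∑ x : V F, g x + (Fintype.card F ^ 2 - Fintype.card F) *
        ∑ x : V F, (if ev l₀ x = 0 ∧ ev l x = 0 then g x else 0) := by
  have hq : 2 ≤ Fintype.card F := Fintype.one_lt_card
  rw [Finset.sum_comm, Finset.mul_sum, Finset.mul_sum, ← Finset.sum_add_distrib]
  refine Finset.sum_congr rfl fun x _ => ?_
  rw [← Finset.sum_filter, Finset.sum_const, smul_eq_mul]
  have h1 : ((univ.filter (fun p : F × F => p ≠ 0)).filter fun p =>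
      ev (p.1 • l₀ + p.2 • l) x = 0) =
      univ.filter fun p : F × F => p ≠ 0 ∧ p.1 * ev l₀ x + p.2 * ev l x = 0 := by
    ext p
    simp only [mem_filter, mem_univ, true_and, ev_comb]
  rw [h1, cnt2]
  by_cases h : ev l₀ x = 0 ∧ ev l x = 0
  · rw [if_pos h, if_pos h, ← add_mul]
    congr 1
    have : Fintype.card F ≤ Fintype.card F ^ 2 := Nat.le_self_pow (by omega) _
    omega
  · rw [if_neg h, if_neg h, mul_zero, add_zero]

end

end SpreadPerm.EX
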