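import Pool.Agent.Lib.MP_e6ed9e_al.EX.Root67

/-! # Totally white six-dimensional subspaces: the row ROOT, all cases -/

namespace SpreadPerm.EX.Root67

open Matrix SpreadPerm.EX

noncomputable section

variable {F : Type} [Field F]

/-- The statement for one triple. -/
def Rt (F : Type) [Field F] (i j k : Fin 6) : Prop := ∀ s : F,
  ∃ κ : Matrix (Fin 6) (Fin 6) F →ₗ[F] (Fin 6 → F), ∀ x : V F, White x →
    White (x.1 + κ x.2.1,
      x.2.1 + s • con (Pi.single i 1) (Pi.single j 1) (Pi.single k 1) x.2.2, x.2.2)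

theorem con_swap (x y z u : Fin 6 → F) : con x y z u = -con y x z u := by
  ext i j
  simp only [con, wedge, Matrix.sub_apply, Matrix.add_apply, Matrix.smul_apply, Matrix.neg_apply,
    vecMulVec_apply, smul_eq_mul]
  ring

theorem con_swap' (x y z u : Fin 6 → F) : con x y z u = -con x z y u := by
  ext i j
  simp only [con, wedge, Matrix.sub_apply, Matrix.add_apply, Matrix.smul_apply, Matrix.neg_apply,
    vecMulVec_apply, smul_eq_mul]
  ring

theorem con_self (x z u : Fin 6 → F) : con x x z u = 0 := by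
  ext i j
  simp only [con, wedge, Matrix.sub_apply, Matrix.add_apply, Matrix.smul_apply, Matrix.zero_apply,
    vecMulVec_apply, smul_eq_mul]
  ring

theorem rt_swap {i j k : Fin 6} (h : Rt F i j k) : Rt F j i k := by
  intro s
  obtain ⟨κ, hκ⟩ := h (-s)
  refine ⟨κ, fun x hx => ?_⟩
  rw [con_swap, smul_neg, ← neg_smul]
  exact hκ x hx

theorem rt_swap' {i j k : Fin 6} (h : Rt F i j k) : Rt F i k j := by
  intro s
  obtain ⟨κ, hκ⟩ := h (-s)
  refine ⟨κ, fun x hx => ?_⟩
  rw [con_swap', smul_neg, ← neg_smul]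
  exact hκ x hx

theorem rt_self (i k : Fin 6) : Rt F i i k := by
  intro s
  refine ⟨0, fun x hx => ?_⟩
  rw [con_self, smul_zero, LinearMap.zero_apply, add_zero, add_zero]
  exact hx

theorem rr012 : Rt F 0 1 2 := fun s => ⟨_, root012 s⟩
theorem rr013 : Rt F 0 1 3 := fun s => ⟨_, root013 s⟩
theorem rr014 : Rt F 0 1 4 := fun s => ⟨_, root014 s⟩
theorem rr015 : Rt F 0 1 5 := fun s => ⟨_, root015 s⟩
theorem rr023 : Rt F 0 2 3 := fun s => ⟨_, root023 s⟩
theorem rr024 : Rt F 0 2 4 := fun s => ⟨_, root024 s⟩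
theorem rr025 : Rt F 0 2 5 := fun s => ⟨_, root025 s⟩
theorem rr034 : Rt F 0 3 4 := fun s => ⟨_, root034 s⟩
theorem rr035 : Rt F 0 3 5 := fun s => ⟨_, root035 s⟩
theorem rr045 : Rt F 0 4 5 := fun s => ⟨_, root045 s⟩
theorem rr123 : Rt F 1 2 3 := fun s => ⟨_, root123 s⟩
theorem rr124 : Rt F 1 2 4 := fun s => ⟨_, root124 s⟩
theorem rr125 : Rt F 1 2 5 := fun s => ⟨_, root125 s⟩
theorem rr134 : Rt F 1 3 4 := fun s => ⟨_, root134 s⟩
theorem rr135 : Rt F 1 3 5 := fun s => ⟨_, root135 s⟩
theorem rr145 : Rt F 1 4 5 := fun s => ⟨_, root145 s⟩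
theorem rr234 : Rt F 2 3 4 := fun s => ⟨_, root234 s⟩
theorem rr235 : Rt F 2 3 5 := fun s => ⟨_, root235 s⟩
theorem rr245 : Rt F 2 4 5 := fun s => ⟨_, root245 s⟩
theorem rr345 : Rt F 3 4 5 := fun s => ⟨_, root345 s⟩

attribute [local irreducible] Rt in
theorem rt_sorted (i j k : Fin 6) (hij : i < j) (hjk : j < k) : Rt F i j k := by
  fin_cases i <;> fin_cases j <;> (try exact absurd hij (by decide)) <;> fin_cases k <;>
    (try exact absurd hjk (by decide)) <;>
    first
    | exact rr012 | exact rr013 | exact rr014 | exact rr015 | exact rr023 | exact rr024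
    | exact rr025 | exact rr034 | exact rr035 | exact rr045 | exact rr123 | exact rr124 | exact rr125
    | exact rr134 | exact rr135 | exact rr145 | exact rr234 | exact rr235 | exact rr245 | exact rr345

theorem rt_all (i j k : Fin 6) : Rt F i j k := by
  rcases lt_trichotomy i j with h1 | h1 | h1
  · rcases lt_trichotomy j k with h2 | h2 | h2
    · exact rt_sorted i j k h1 h2
    · subst h2
      exact rt_swap (rt_swap' (rt_self j i))
    · rcases lt_trichotomy i k with h3 | h3 | h3
      · exact rt_swap' (rt_sorted i k j h3 h2)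
      · subst h3
        exact rt_swap' (rt_self i j)
      · exact rt_swap' (rt_swap (rt_sorted k i j h3 h1))
  · subst h1
    exact rt_self i k
  · rcases lt_trichotomy i k with h2 | h2 | h2
    · exact rt_swap (rt_sorted j i k h1 h2)
    · subst h2
      exact rt_swap' (rt_self i j)
    · rcases lt_trichotomy j k with h3 | h3 | h3
      · exact rt_swap (rt_swap' (rt_sorted j k i h3 h2))
      · subst h3
        exact rt_swap (rt_swap' (rt_self j i))
      · exact rt_swap (rt_swap' (rt_swap (rt_sorted k j i h3 h1)))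

end

end SpreadPerm.EX.Root67

namespace SpreadPerm.EX

/-- The row ROOT. -/
theorem root67 : StRoot := fun _ _ i j k => Root67.rt_all i j k

end SpreadPerm.EX
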