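import Pool.Agent.Lib.MP_e6ed9e_al.EX.StarDefs67

/-! # The row STAR -/

namespace SpreadPerm.EX

open Matrix

noncomputable section

variable {F : Type} [Field F]

theorem pairJ97 (x y : Fin 6 → F) : pair J (wedge x y) =
    x 0 * y 1 - x 1 * y 0 + (x 2 * y 3 - x 3 * y 2) + (x 4 * y 5 - x 5 * y 4) := by
  unfold pair J
  simp only [Fin.sum_univ_six, Matrix.add_apply, wedge_apply, Pi.single_apply]
  simp
  ring

theorem fun397 (x y z : Fin 6 → F) : fun3 x y z =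
    x 0 * (y 2 * z 4 - y 4 * z 2) - y 0 * (x 2 * z 4 - x 4 * z 2) +
      z 0 * (x 2 * y 4 - x 4 * y 2) +
    (x 1 * (y 3 * z 5 - y 5 * z 3) - y 1 * (x 3 * z 5 - x 5 * z 3) +
      z 1 * (x 3 * y 5 - x 5 * y 3)) := by
  unfold fun3 con
  simp only [Matrix.add_apply, Matrix.sub_apply, Matrix.smul_apply, wedge_apply, smul_eq_mul,
    dotProduct_single, mul_one]
  ring

theorem dot697 (x u : Fin 6 → F) : x ⬝ᵥ u =
    x 0 * u 0 + x 1 * u 1 + x 2 * u 2 + x 3 * u 3 + x 4 * u 4 + x 5 * u 5 := by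
  simp only [dotProduct, Fin.sum_univ_six]

theorem star97 : StStar := by
  intro F _ u hu
  by_cases hb : u 1 = 0 ∧ u 3 = 0 ∧ u 5 = 0
  · obtain ⟨h1, h3, h5⟩ := hb
    refine ⟨![0, 1, 0, 0, 0, 0], ![0, 0, 0, 1, 0, 0], ![0, 0, 0, 0, 0, 1], ?_, ?_, ?_, ?_, ?_, ?_,
      ?_⟩
    · rw [dot697]; simp [h1]
    · rw [dot697]; simp [h3]
    · rw [dot697]; simp [h5]
    · rw [pairJ97]; simp
    · rw [pairJ97]; simp
    · rw [pairJ97]; simp
    · rw [fun397]; simp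
  · obtain ⟨c0, c1, c2, hc⟩ : ∃ c0 c1 c2 : F, c0 * u 1 + c1 * u 3 + c2 * u 5 = 1 := by
      by_cases h1 : u 1 = 0
      · by_cases h3 : u 3 = 0
        · have h5 : u 5 ≠ 0 := fun h => hb ⟨h1, h3, h⟩
          exact ⟨0, 0, (u 5)⁻¹, by rw [inv_mul_cancel₀ h5]; ring⟩
        · exact ⟨0, (u 3)⁻¹, 0, by rw [inv_mul_cancel₀ h3]; ring⟩
      · exact ⟨(u 1)⁻¹, 0, 0, by rw [inv_mul_cancel₀ h1]; ring⟩
    obtain ⟨m, hm⟩ : ∃ m : F, m = u 0 * u 1 + u 2 * u 3 + u 4 * u 5 := ⟨_, rfl⟩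
    refine ⟨![1, -(u 0 * c0 + c0 * u 0) + m * c0 * c0, 0, -(u 0 * c1 + c0 * u 2) + m * c0 * c1,
        0, -(u 0 * c2 + c0 * u 4) + m * c0 * c2],
      ![0, -(u 0 * c1 + c0 * u 2) + m * c0 * c1, 1, -(u 2 * c1 + c1 * u 2) + m * c1 * c1,
        0, -(u 2 * c2 + c1 * u 4) + m * c1 * c2],
      ![0, -(u 0 * c2 + c0 * u 4) + m * c0 * c2, 0, -(u 2 * c2 + c1 * u 4) + m * c1 * c2,
        1, -(u 4 * c2 + c2 * u 4) + m * c2 * c2], ?_, ?_, ?_, ?_, ?_, ?_, ?_⟩
    · rw [dot697]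
      simp only [Matrix.cons_val]
      linear_combination (m * c0 - u 0) * hc + c0 * hm
    · rw [dot697]
      simp only [Matrix.cons_val]
      linear_combination (m * c1 - u 2) * hc + c1 * hm
    · rw [dot697]
      simp only [Matrix.cons_val]
      linear_combination (m * c2 - u 4) * hc + c2 * hm
    · rw [pairJ97]
      simp only [Matrix.cons_val]
      ring
    · rw [pairJ97]
      simp only [Matrix.cons_val]
      ring
    · rw [pairJ97]
      simp only [Matrix.cons_val]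
      ring
    · rw [fun397]
      simp only [Matrix.cons_val]
      have : (1 : F) ≠ 0 := one_ne_zero
      convert this using 1
      ring

end

end SpreadPerm.EX
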