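import Pool.Agent.Lib.MP_e6ed9e_al.EX.StarMain67
import Pool.Agent.Lib.MP_e6ed9e_al.EX.RootAll67
import Pool.Agent.Lib.MP_e6ed9e_al.EX.Star97

/-! # Totally white six-dimensional subspaces: all rows together -/

namespace SpreadPerm.EX

/-- The long root groups of `E_6(q)` (`l₀ = 0`) and `F_4(q)` (`l₀ = (0, J, 0)`). -/
theorem longRoots67 {F : Type} [Field F] [Finite F] {G Ω : Type} [Group G] [Fintype Ω]
    [MulAction G Ω] [MulAction.IsPretransitive G Ω] (l₀ : V F) (hl₀ : l₀ = 0 ∨ l₀ = (0, J, 0))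
    (e : Ω ≃ {W : Submodule F (V F) // Module.finrank F W = 6 ∧ ∀ x ∈ W, White x ∧ ev l₀ x = 0})
    (hG : ∀ (g : G) (x : V F), ∃ x', ∀ ω : Ω, x ∈ (e ω).1 ↔ x' ∈ (e (g • ω)).1) :
    NonSpreading G Ω := by
  have : Fintype F := Fintype.ofFinite F
  exact longRoots root67 star97 l₀ hl₀ e hG

end SpreadPerm.EX
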