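import Pool.Agent.Lib.MP_e6ed9e_al.EX.Cnt67

/-! # The points of `E_6`: the sections -/

namespace SpreadPerm.EX

open Matrix Finset
open scoped Classical

noncomputable section

variable {F : Type} [Field F] [Fintype F]

theorem EE_zero : (EE (0 : Fin 6 → F)).card = Fintype.card F ^ 6 - 1 := by
  rw [← card_ne_zero]
  unfold EE
  congr 1
  ext w
  simp

theorem card_dot_ne (f : Fin 6 → F) (hf : f ≠ 0) :
    (univ.filter fun z : Fin 6 → F => z ≠ 0 ∧ f ⬝ᵥ z = 0).card = Fintype.card F ^ 5 - 1 := by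
  have h4 := Finset.card_filter_add_card_filter_not
    (s := (univ.filter fun y : Fin 6 → F => f ⬝ᵥ y = 0)) (fun y : Fin 6 → F => y ≠ 0)
  have h5 : ((univ.filter fun y : Fin 6 → F => f ⬝ᵥ y = 0).filter fun y => ¬ y ≠ 0) =
      {0} := by
    ext y
    simp only [mem_filter, mem_univ, true_and, not_not, mem_singleton]
    constructor
    · exact fun h => h.2
    · rintro rfl
      exact ⟨dotProduct_zero _, rfl⟩
  have h6 : ((univ.filter fun y : Fin 6 → F => f ⬝ᵥ y = 0).filter fun y => y ≠ 0) =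
      univ.filter fun z : Fin 6 → F => z ≠ 0 ∧ f ⬝ᵥ z = 0 := by
    ext y
    simp only [mem_filter, mem_univ, true_and]
    exact and_comm
  rw [h5, h6, Finset.card_singleton, card_dot f hf] at h4
  omega

theorem EE_ne {a : Fin 6 → F} (ha : a ≠ 0) : (EE a).card = Fintype.card F ^ 5 - 1 :=
  card_dot_ne a ha

theorem dot_vecMul (a y : Fin 6 → F) (c : Matrix (Fin 6) (Fin 6) F) :
    a ⬝ᵥ (y ᵥ* c) = (c *ᵥ a) ⬝ᵥ y := by
  rw [dotProduct_comm, ← dotProduct_mulVec, dotProduct_comm]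

/-- The arithmetic of the double count. -/
theorem arith {q : ℤ} (hq : 2 ≤ q) {P D E : ℤ}
    (h1 : P + q * (q ^ 6 - 1) = (q ^ 6 - 1) * q ^ 9 + E * (q ^ 6 - q ^ 5))
    (h2 : P = (q ^ 3 - q) * D + (q ^ 5 - 1) * q * E) :
    (q ^ 2 - 1) * (D + (q ^ 2 + 1) * E) = (q ^ 6 - 1) * (q ^ 8 - 1) := by
  have hq0 : q ≠ 0 := by omega
  apply mul_left_cancel₀ hq0
  linear_combination h1 - h2

theorem main_section (hDec : StDec) (hSec : StSec) (hReg : StReg) (l : V F) (hl : Alt l.2.1)
    (hN : Nd l ≠ 0) :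
    ((Fintype.card F : ℤ) ^ 2 - 1) * ((DD l.1 l.2.1).card +
      ((Fintype.card F : ℤ) ^ 2 + 1) * (EE l.1).card) =
      ((Fintype.card F : ℤ) ^ 6 - 1) * ((Fintype.card F : ℤ) ^ 8 - 1) := by
  obtain ⟨a, c, d⟩ := l
  simp only at hl ⊢
  obtain ⟨hr1, hr2⟩ := hReg F (a, c, d) hl hN
  simp only at hr1 hr2
  have hq : 2 ≤ Fintype.card F := Fintype.one_lt_card
  have hNF : Nat.card F = Fintype.card F := Nat.card_eq_fintype_card
  have h1 := card_PP_left a c hl
  have h2 := card_PP_right hDec a c hl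
  rw [card_ne_zero] at h1
  have h3 : ∀ y ∈ univ.filter (fun y : Fin 6 → F => y ≠ 0), (NN a c y).card =
      Fintype.card F ^ 9 + if a ⬝ᵥ (y ᵥ* c) = 0 then Fintype.card F ^ 6 - Fintype.card F ^ 5 else 0 := by
    intro y hy
    have hy0 : y ≠ 0 := (mem_filter.1 hy).2
    have h4 := hSec F y a (y ᵥ* c) hy0 (vecMul_dot_self c hl y) (by
      by_cases hf : y ᵥ* c = 0
      · right
        intro t ht
        have h5 : c *ᵥ y = 0 := by
          have := vecMul_eq_neg c hl y
          rw [hf] at this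
          exact neg_eq_zero.1 this.symm
        by_cases ha : a = 0
        · exact hy0 (hr2 ha y h5)
        · refine hr1 ha ?_
          rw [ht, mulVec_smul, h5, smul_zero]
      · exact Or.inl hf)
    rw [hNF, Nat.card_eq_fintype_card, Fintype.card_subtype] at h4
    unfold NN
    rw [h4]
    congr 1
  rw [Finset.sum_congr rfl h3, Finset.sum_add_distrib, Finset.sum_const, card_ne_zero,
    smul_eq_mul, ← Finset.sum_filter, Finset.sum_const, smul_eq_mul] at h1
  have h4 : ((univ.filter fun y : Fin 6 → F => y ≠ 0).filter fun y =>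
      a ⬝ᵥ (y ᵥ* c) = 0).card = (EE a).card := by
    have h5 : ((univ.filter fun y : Fin 6 → F => y ≠ 0).filter fun y =>
        a ⬝ᵥ (y ᵥ* c) = 0) = univ.filter fun y : Fin 6 → F => y ≠ 0 ∧ (c *ᵥ a) ⬝ᵥ y = 0 := by
      ext y
      simp only [mem_filter, mem_univ, true_and, dot_vecMul]
    rw [h5]
    by_cases ha : a = 0
    · rw [ha, EE_zero, ← card_ne_zero]
      congr 1
      ext y
      simp
    · rw [EE_ne ha, card_dot_ne _ (hr1 ha)]
  rw [h4] at h1
  have hq1 : 1 ≤ Fintype.card F ^ 6 := Nat.one_le_pow _ _ (by omega)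
  have hq2 : 1 ≤ Fintype.card F ^ 5 := Nat.one_le_pow _ _ (by omega)
  have hq3 : Fintype.card F ^ 5 ≤ Fintype.card F ^ 6 := Nat.pow_le_pow_right (by omega) (by omega)
  have hq4 : Fintype.card F ≤ Fintype.card F ^ 3 := by
    calc Fintype.card F = Fintype.card F ^ 1 := (pow_one _).symm
      _ ≤ Fintype.card F ^ 3 := Nat.pow_le_pow_right (by omega) (by omega)
  have h5 := congrArg (Nat.cast : ℕ → ℤ) h1
  have h6 := congrArg (Nat.cast : ℕ → ℤ) h2
  push_cast [Nat.cast_sub hq1, Nat.cast_sub hq2, Nat.cast_sub hq3, Nat.cast_sub hq4] at h5 h6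
  refine arith (q := (Fintype.card F : ℤ)) (by exact_mod_cast hq) (P := ((PP a c).card : ℤ)) ?_ ?_
  · linear_combination h5
  · linear_combination h6

/-- All white vectors `(w, b, 0)`, `b ≠ 0`. -/
theorem main_total (hDec : StDec) (hTot : StTot) :
    ((Fintype.card F : ℤ) ^ 2 - 1) * (DD (0 : Fin 6 → F) 0).card =
      ((Fintype.card F : ℤ) ^ 6 - 1) * (Fintype.card F : ℤ) ^ 4 *
        ((Fintype.card F : ℤ) ^ 5 - 1) := by
  have hq : 2 ≤ Fintype.card F := Fintype.one_lt_card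
  have hNF : Nat.card F = Fintype.card F := Nat.card_eq_fintype_card
  have hl : Alt (0 : Matrix (Fin 6) (Fin 6) F) := ⟨fun i => rfl, fun i j => by simp⟩
  have h1 := card_PP_left (0 : Fin 6 → F) 0 hl
  have h2 := card_PP_right hDec (0 : Fin 6 → F) 0 hl
  rw [card_ne_zero] at h1
  have h3 : ∀ y ∈ univ.filter (fun y : Fin 6 → F => y ≠ 0),
      (NN (0 : Fin 6 → F) 0 y).card = Fintype.card F ^ 10 + Fintype.card F ^ 6 - Fintype.card F ^ 5 := by
    intro y hy
    have hy0 : y ≠ 0 := (mem_filter.1 hy).2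
    have h4 := hTot F y hy0
    rw [hNF, Nat.card_eq_fintype_card, Fintype.card_subtype] at h4
    rw [← h4]
    unfold NN
    congr 1
    ext p
    simp
  rw [Finset.sum_congr rfl h3, Finset.sum_const, card_ne_zero, smul_eq_mul] at h1
  rw [EE_zero] at h2
  have hq1 : 1 ≤ Fintype.card F ^ 6 := Nat.one_le_pow _ _ (by omega)
  have hq2 : 1 ≤ Fintype.card F ^ 5 := Nat.one_le_pow _ _ (by omega)
  have hq3 : Fintype.card F ^ 5 ≤ Fintype.card F ^ 10 + Fintype.card F ^ 6 :=
    (Nat.pow_le_pow_right (by omega) (by omega)).trans (Nat.le_add_right _ _)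
  have hq4 : Fintype.card F ≤ Fintype.card F ^ 3 := by
    calc Fintype.card F = Fintype.card F ^ 1 := (pow_one _).symm
      _ ≤ Fintype.card F ^ 3 := Nat.pow_le_pow_right (by omega) (by omega)
  have h5 := congrArg (Nat.cast : ℕ → ℤ) h1
  have h6 := congrArg (Nat.cast : ℕ → ℤ) h2
  push_cast [Nat.cast_sub hq1, Nat.cast_sub hq2, Nat.cast_sub hq3, Nat.cast_sub hq4] at h5 h6
  have hq0 : (Fintype.card F : ℤ) ≠ 0 := by
    have : (2 : ℤ) ≤ Fintype.card F := by exact_mod_cast hq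
    omega
  apply mul_left_cancel₀ hq0
  linear_combination h5 - h6

end

end SpreadPerm.EX
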