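import Pool.Agent.Lib.MP_e6ed9e_al.EX.Main67

/-! # The points of `E_6`: from vectors to points -/

namespace SpreadPerm.EX

open Matrix Finset
open scoped Classical

noncomputable section

variable {F : Type} [Field F] [Fintype F]

theorem sum_pts {W : Type} [AddCommGroup W] [Module F W] [Fintype W] (S : Set W)
    (hS : ∀ (a : F) (x : W), a ≠ 0 → x ∈ S → a • x ∈ S) (f : W → ℕ)
    (hf : ∀ (a : F) (x : W), a ≠ 0 → f (a • x) = f x) (hf0 : ∀ x, f x ≠ 0 → x ≠ 0 ∧ x ∈ S)
    [Fintype {p : Projectivization F W // p.rep ∈ S}] :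
    (Fintype.card F - 1) * ∑ p : {p : Projectivization F W // p.rep ∈ S}, f p.1.rep =
      ∑ x, f x := by
  have h1 : ∑ z : {p : Projectivization F W // p.rep ∈ S} × Fˣ, f (z.2 • z.1.1.rep) =
      ∑ y, f y := by
    refine Fintype.sum_of_injective
      (fun z : {p : Projectivization F W // p.rep ∈ S} × Fˣ => z.2 • z.1.1.rep) ?_ _ _ ?_ ?_
    · rintro ⟨p, a⟩ ⟨q, b⟩ h
      have h' : a • p.1.rep = b • q.1.rep := h
      have hpq : p.1 = q.1 := by
        rw [← Projectivization.mk_rep p.1, ← Projectivization.mk_rep q.1,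
          Projectivization.mk_eq_mk_iff]
        refine ⟨a⁻¹ * b, ?_⟩
        rw [mul_smul, ← h', inv_smul_smul]
      have hpq' : p = q := Subtype.ext hpq
      subst hpq'
      have h2 : ((a : F) - b) • p.1.rep = 0 := by
        rw [sub_smul]
        exact sub_eq_zero.2 h'
      rcases smul_eq_zero.1 h2 with h3 | h3
      · have : a = b := Units.ext (sub_eq_zero.1 h3)
        rw [this]
      · exact absurd h3 p.1.rep_nonzero
    · intro y hy
      by_contra h
      obtain ⟨hy0, hyS⟩ := hf0 y h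
      obtain ⟨a, ha⟩ := Projectivization.exists_smul_eq_mk_rep F y hy0
      refine hy ⟨(⟨Projectivization.mk F y hy0, ?_⟩, a⁻¹), ?_⟩
      · rw [← ha]
        exact hS _ _ a.ne_zero hyS
      · show a⁻¹ • (Projectivization.mk F y hy0).rep = y
        rw [← ha, inv_smul_smul]
    · intro z
      rfl
  rw [← h1, Fintype.sum_prod_type, Finset.mul_sum]
  refine Finset.sum_congr rfl fun p _ => ?_
  have h3 : ∀ a : Fˣ, f (a • p.1.rep) = f p.1.rep := fun a => hf (a : F) p.1.rep a.ne_zero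
  rw [Finset.sum_congr rfl (fun a _ => h3 a), Finset.sum_const, Finset.card_univ,
    smul_eq_mul, Fintype.card_units]

theorem card_pts {W : Type} [AddCommGroup W] [Module F W] [Fintype W] (S : Set W)
    (hS : ∀ (a : F) (x : W), a ≠ 0 → x ∈ S → a • x ∈ S)
    [Fintype {p : Projectivization F W // p.rep ∈ S}] :
    (Fintype.card F - 1) * Fintype.card {p : Projectivization F W // p.rep ∈ S} =
      (univ.filter fun x : W => x ≠ 0 ∧ x ∈ S).card := by
  have hiff : ∀ (a : F) (x : W), a ≠ 0 → ((a • x ≠ 0 ∧ a • x ∈ S) ↔ (x ≠ 0 ∧ x ∈ S)) := by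
    intro a x ha
    constructor
    · rintro ⟨h1, h2⟩
      refine ⟨fun h => h1 (by rw [h, smul_zero]), ?_⟩
      have := hS a⁻¹ _ (inv_ne_zero ha) h2
      rwa [smul_smul, inv_mul_cancel₀ ha, one_smul] at this
    · rintro ⟨h1, h2⟩
      exact ⟨fun h => (smul_eq_zero.1 h).elim ha h1, hS a x ha h2⟩
  have h := sum_pts S hS (fun x => if x ≠ 0 ∧ x ∈ S then 1 else 0) (by
    intro a x ha
    exact if_congr (hiff a x ha) rfl rfl) (by
    intro x hx
    by_contra h
    exact hx (if_neg h))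
  rw [Finset.card_filter, ← h]
  congr 1
  rw [Finset.sum_congr rfl (g := fun _ => 1), Finset.sum_const, Finset.card_univ, smul_eq_mul,
    mul_one]
  intro p _
  exact if_pos ⟨p.1.rep_nonzero, p.2⟩

/-! ## Scaling -/

theorem pf_smul (t : F) (b : Matrix (Fin 6) (Fin 6) F) (i j k l : Fin 6) :
    pf (t • b) i j k l = t ^ 2 * pf b i j k l := by
  unfold pf
  simp only [Matrix.smul_apply, smul_eq_mul]
  ring

theorem Pf_smul (t : F) (b : Matrix (Fin 6) (Fin 6) F) : Pf (t • b) = t ^ 3 * Pf b := by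
  unfold Pf
  simp only [pf_smul, Matrix.smul_apply, smul_eq_mul]
  ring

theorem wedge_smul (t : F) (y z : Fin 6 → F) : wedge (t • y) z = t • wedge y z := by
  ext i j
  rw [Matrix.smul_apply, wedge_apply, wedge_apply]
  simp only [Pi.smul_apply, smul_eq_mul]
  ring

theorem alt_smul (t : F) {b : Matrix (Fin 6) (Fin 6) F} (h : Alt b) : Alt (t • b) :=
  ⟨fun i => by rw [Matrix.smul_apply, h.1 i, smul_zero], fun i j => by
    rw [Matrix.smul_apply, Matrix.smul_apply, h.2 i j, smul_neg]⟩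

theorem white_smul (t : F) (x : V F) (ht : t ≠ 0) (h : White x) : White (t • x) := by
  obtain ⟨h1, h2, h3, h4⟩ := h
  refine ⟨alt_smul t h1, ?_, ?_, ?_⟩
  · show (t • x.2.1) *ᵥ (t • x.1) = 0
    rw [smul_mulVec, mulVec_smul, h2, smul_zero, smul_zero]
  · show (t • x.2.1) *ᵥ (t • x.2.2) = 0
    rw [smul_mulVec, mulVec_smul, h3, smul_zero, smul_zero]
  · intro y z
    show Pf (t • x.2.1 + wedge y z) = Pf (t • x.2.1) +
      ((y ⬝ᵥ (t • x.1)) * (z ⬝ᵥ (t • x.2.2)) - (y ⬝ᵥ (t • x.2.2)) * (z ⬝ᵥ (t • x.1)))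
    have h5 : wedge y z = t • wedge (t⁻¹ • y) z := by
      rw [← wedge_smul, smul_smul, mul_inv_cancel₀ ht, one_smul]
    rw [h5, ← smul_add, Pf_smul, Pf_smul, h4]
    simp only [smul_dotProduct, dotProduct_smul, smul_eq_mul]
    field_simp

theorem pair_smul (c b : Matrix (Fin 6) (Fin 6) F) (t : F) : pair c (t • b) = t * pair c b := by
  unfold pair
  rw [Finset.mul_sum]
  refine Finset.sum_congr rfl fun i _ => ?_
  rw [Finset.mul_sum]
  refine Finset.sum_congr rfl fun j _ => ?_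
  split_ifs
  · rw [Matrix.smul_apply, smul_eq_mul]
    ring
  · ring

theorem ev_smul (l x : V F) (t : F) : ev l (t • x) = t * ev l x := by
  show l.1 ⬝ᵥ (t • x.1) + pair l.2.1 (t • x.2.1) + l.2.2 ⬝ᵥ (t • x.2.2) = t * ev l x
  rw [dotProduct_smul, dotProduct_smul, pair_smul, smul_eq_mul, smul_eq_mul]
  unfold ev
  ring

/-! ## The multiset -/

/-- The multiset `A` on vectors. -/
def wt (x : V F) : ℕ :=
  if x.2.2 ≠ 0 then 0 else if x.2.1 ≠ 0 then 1 else Fintype.card F ^ 2 + 1

theorem wt_smul (t : F) (x : V F) (ht : t ≠ 0) : wt (t • x) = wt x := by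
  unfold wt
  have h1 : (t • x).2.2 ≠ 0 ↔ x.2.2 ≠ 0 := by
    show t • x.2.2 ≠ 0 ↔ _
    rw [Ne, smul_eq_zero, not_or]
    exact and_iff_right ht
  have h2 : (t • x).2.1 ≠ 0 ↔ x.2.1 ≠ 0 := by
    show t • x.2.1 ≠ 0 ↔ _
    rw [Ne, smul_eq_zero, not_or]
    exact and_iff_right ht
  exact if_congr h1 rfl (if_congr h2 rfl rfl)

theorem white_w (w : Fin 6 → F) : White ((w, 0, 0) : V F) := by
  refine ⟨⟨fun i => rfl, fun i j => by simp⟩, ?_, ?_, ?_⟩
  · exact zero_mulVec _
  · exact zero_mulVec _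
  · intro y z
    show Pf (0 + wedge y z) = Pf 0 + ((y ⬝ᵥ w) * (z ⬝ᵥ 0) - (y ⬝ᵥ 0) * (z ⬝ᵥ w))
    rw [dotProduct_zero, dotProduct_zero, zero_add]
    unfold Pf
    simp only [wedge_pf]
    simp [pf]

theorem white_b (hPf0 : StPf0) (w : Fin 6 → F) (b : Matrix (Fin 6) (Fin 6) F) :
    White ((w, b, 0) : V F) ↔ Alt b ∧ (∀ i j k l, pf b i j k l = 0) ∧ b *ᵥ w = 0 := by
  constructor
  · rintro ⟨h1, h2, _, h4⟩
    refine ⟨h1, (hPf0 F b h1).1 fun y z => ?_, h2⟩
    have := h4 y z
    simpa using this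
  · rintro ⟨h1, h2, h3⟩
    refine ⟨h1, h3, mulVec_zero _, fun y z => ?_⟩
    have := (hPf0 F b h1).2 h2 y z
    show Pf (b + wedge y z) = Pf b + ((y ⬝ᵥ w) * (z ⬝ᵥ 0) - (y ⬝ᵥ 0) * (z ⬝ᵥ w))
    rw [this, dotProduct_zero, dotProduct_zero]
    ring

/-- The sum of `A` over a hyperplane section, as vectors. -/
theorem sum_section (hPf0 : StPf0) (a : Fin 6 → F) (c : Matrix (Fin 6) (Fin 6) F)
    (d : Fin 6 → F) :
    ∑ x : V F, (if x ≠ 0 ∧ White x ∧ ev (a, c, d) x = 0 then wt x else 0) =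
      (DD a c).card + (Fintype.card F ^ 2 + 1) * (EE a).card := by
  rw [← Finset.sum_filter]
  have h1 : ∑ x ∈ univ.filter (fun x : V F => x ≠ 0 ∧ White x ∧ ev (a, c, d) x = 0), wt x =
      ∑ x ∈ (DD a c).image (fun p => ((p.1, p.2, 0) : V F)) ∪
        (EE a).image (fun w => ((w, 0, 0) : V F)), wt x := by
    symm
    refine Finset.sum_subset ?_ ?_
    · intro x hx
      rw [mem_union, mem_image, mem_image] at hx
      rw [mem_filter]
      refine ⟨mem_univ _, ?_⟩
      rcases hx with ⟨p, hp, rfl⟩ | ⟨w, hw, rfl⟩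
      · simp only [DD, mem_filter, mem_univ, true_and] at hp
        obtain ⟨h1, h2, h3, h4, h5⟩ := hp
        refine ⟨fun h => h2 (congrArg (fun y : V F => y.2.1) h), ?_, ?_⟩
        · exact (white_b hPf0 _ _).2 ⟨h1, h3, h4⟩
        · show a ⬝ᵥ p.1 + pair c p.2 + d ⬝ᵥ 0 = 0
          rw [dotProduct_zero, add_zero]
          exact h5
      · simp only [EE, mem_filter, mem_univ, true_and] at hw
        refine ⟨fun h => hw.1 (congrArg (fun y : V F => y.1) h), white_w w, ?_⟩
        show a ⬝ᵥ w + pair c 0 + d ⬝ᵥ 0 = 0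
        rw [pair_zero, dotProduct_zero, add_zero, add_zero]
        exact hw.2
    · rintro ⟨w, b, u⟩ hx hx'
      rw [mem_filter] at hx
      obtain ⟨_, h0, h1, h2⟩ := hx
      by_cases hu : u = 0
      · exfalso
        subst hu
        apply hx'
        rw [mem_union, mem_image, mem_image]
        have h2' : a ⬝ᵥ w + pair c b + d ⬝ᵥ 0 = 0 := h2
        rw [dotProduct_zero, add_zero] at h2'
        by_cases hb : b = 0
        · subst hb
          right
          refine ⟨w, ?_, rfl⟩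
          simp only [EE, mem_filter, mem_univ, true_and]
          rw [pair_zero, add_zero] at h2'
          exact ⟨fun h => h0 (by rw [h]; rfl), h2'⟩
        · left
          refine ⟨(w, b), ?_, rfl⟩
          simp only [DD, mem_filter, mem_univ, true_and]
          obtain ⟨h3, h4, h5⟩ := (white_b hPf0 w b).1 h1
          exact ⟨h3, hb, h4, h5, h2'⟩
      · exact if_pos hu
  rw [h1, Finset.sum_union]
  · congr 1
    · rw [Finset.sum_image]
      · rw [Finset.sum_congr rfl (g := fun _ => 1), Finset.sum_const, smul_eq_mul, mul_one]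
        intro p hp
        simp only [DD, mem_filter, mem_univ, true_and] at hp
        show (if (0 : Fin 6 → F) ≠ 0 then 0 else if p.2 ≠ 0 then 1 else _) = 1
        rw [if_neg (by simp), if_pos hp.2.1]
      · intro p _ p' _ h
        have h1 : p.1 = p'.1 := congrArg (fun y : V F => y.1) h
        have h2 : p.2 = p'.2 := congrArg (fun y : V F => y.2.1) h
        exact Prod.ext h1 h2
    · rw [Finset.sum_image]
      · rw [Finset.sum_congr rfl (g := fun _ => Fintype.card F ^ 2 + 1), Finset.sum_const,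
          smul_eq_mul, mul_comm]
        intro w _
        show (if (0 : Fin 6 → F) ≠ 0 then 0 else
          if (0 : Matrix (Fin 6) (Fin 6) F) ≠ 0 then 1 else _) = _
        rw [if_neg (by simp), if_neg (by simp)]
      · intro w _ w' _ h
        exact congrArg (fun y : V F => y.1) h
  · rw [Finset.disjoint_left]
    intro x hx hx'
    rw [mem_image] at hx hx'
    obtain ⟨p, hp, rfl⟩ := hx
    obtain ⟨w, _, h⟩ := hx'
    simp only [DD, mem_filter, mem_univ, true_and] at hp
    exact hp.2.1 (congrArg (fun y : V F => y.2.1) h).symm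

end

end SpreadPerm.EX
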