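import Pool.Agent.Lib.MP_e6ed9e_al.EX.StarDefs67

/-! # Totally white six-dimensional subspaces: the row ROOT -/

namespace SpreadPerm.EX.Root67

open Matrix SpreadPerm.EX

noncomputable section

variable {F : Type} [Field F]

/-- White vectors in coordinates. -/
structure WC (b : Matrix (Fin 6) (Fin 6) F) (w u : Fin 6 → F) : Prop where
  w0 : b 0 1 * w 1 + b 0 2 * w 2 + b 0 3 * w 3 + b 0 4 * w 4 + b 0 5 * w 5 = 0
  w1 : -b 0 1 * w 0 + b 1 2 * w 2 + b 1 3 * w 3 + b 1 4 * w 4 + b 1 5 * w 5 = 0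
  w2 : -b 0 2 * w 0 - b 1 2 * w 1 + b 2 3 * w 3 + b 2 4 * w 4 + b 2 5 * w 5 = 0
  w3 : -b 0 3 * w 0 - b 1 3 * w 1 - b 2 3 * w 2 + b 3 4 * w 4 + b 3 5 * w 5 = 0
  w4 : -b 0 4 * w 0 - b 1 4 * w 1 - b 2 4 * w 2 - b 3 4 * w 3 + b 4 5 * w 5 = 0
  w5 : -b 0 5 * w 0 - b 1 5 * w 1 - b 2 5 * w 2 - b 3 5 * w 3 - b 4 5 * w 4 = 0
  u0 : b 0 1 * u 1 + b 0 2 * u 2 + b 0 3 * u 3 + b 0 4 * u 4 + b 0 5 * u 5 = 0
  u1 : -b 0 1 * u 0 + b 1 2 * u 2 + b 1 3 * u 3 + b 1 4 * u 4 + b 1 5 * u 5 = 0
  u2 : -b 0 2 * u 0 - b 1 2 * u 1 + b 2 3 * u 3 + b 2 4 * u 4 + b 2 5 * u 5 = 0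
  u3 : -b 0 3 * u 0 - b 1 3 * u 1 - b 2 3 * u 2 + b 3 4 * u 4 + b 3 5 * u 5 = 0
  u4 : -b 0 4 * u 0 - b 1 4 * u 1 - b 2 4 * u 2 - b 3 4 * u 3 + b 4 5 * u 5 = 0
  u5 : -b 0 5 * u 0 - b 1 5 * u 1 - b 2 5 * u 2 - b 3 5 * u 3 - b 4 5 * u 4 = 0
  c01 : (b 2 3 * b 4 5 - b 2 4 * b 3 5 + b 2 5 * b 3 4) = w 0 * u 1 - w 1 * u 0
  c02 : -(b 1 3 * b 4 5 - b 1 4 * b 3 5 + b 1 5 * b 3 4) = w 0 * u 2 - w 2 * u 0
  c03 : (b 1 2 * b 4 5 - b 1 4 * b 2 5 + b 1 5 * b 2 4) = w 0 * u 3 - w 3 * u 0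
  c04 : -(b 1 2 * b 3 5 - b 1 3 * b 2 5 + b 1 5 * b 2 3) = w 0 * u 4 - w 4 * u 0
  c05 : (b 1 2 * b 3 4 - b 1 3 * b 2 4 + b 1 4 * b 2 3) = w 0 * u 5 - w 5 * u 0
  c12 : (b 0 3 * b 4 5 - b 0 4 * b 3 5 + b 0 5 * b 3 4) = w 1 * u 2 - w 2 * u 1
  c13 : -(b 0 2 * b 4 5 - b 0 4 * b 2 5 + b 0 5 * b 2 4) = w 1 * u 3 - w 3 * u 1
  c14 : (b 0 2 * b 3 5 - b 0 3 * b 2 5 + b 0 5 * b 2 3) = w 1 * u 4 - w 4 * u 1
  c15 : -(b 0 2 * b 3 4 - b 0 3 * b 2 4 + b 0 4 * b 2 3) = w 1 * u 5 - w 5 * u 1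
  c23 : (b 0 1 * b 4 5 - b 0 4 * b 1 5 + b 0 5 * b 1 4) = w 2 * u 3 - w 3 * u 2
  c24 : -(b 0 1 * b 3 5 - b 0 3 * b 1 5 + b 0 5 * b 1 3) = w 2 * u 4 - w 4 * u 2
  c25 : (b 0 1 * b 3 4 - b 0 3 * b 1 4 + b 0 4 * b 1 3) = w 2 * u 5 - w 5 * u 2
  c34 : (b 0 1 * b 2 5 - b 0 2 * b 1 5 + b 0 5 * b 1 2) = w 3 * u 4 - w 4 * u 3
  c35 : -(b 0 1 * b 2 4 - b 0 2 * b 1 4 + b 0 4 * b 1 2) = w 3 * u 5 - w 5 * u 3
  c45 : (b 0 1 * b 2 3 - b 0 2 * b 1 3 + b 0 3 * b 1 2) = w 4 * u 5 - w 5 * u 4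

theorem Pf_add_wedge (b : Matrix (Fin 6) (Fin 6) F) (y z : Fin 6 → F) :
    Pf (b + wedge y z) = Pf b +
      ((y 0 * z 1 - z 0 * y 1) * ((b 2 3 * b 4 5 - b 2 4 * b 3 5 + b 2 5 * b 3 4)) +
      (y 0 * z 2 - z 0 * y 2) * (-(b 1 3 * b 4 5 - b 1 4 * b 3 5 + b 1 5 * b 3 4)) +
      (y 0 * z 3 - z 0 * y 3) * ((b 1 2 * b 4 5 - b 1 4 * b 2 5 + b 1 5 * b 2 4)) +
      (y 0 * z 4 - z 0 * y 4) * (-(b 1 2 * b 3 5 - b 1 3 * b 2 5 + b 1 5 * b 2 3)) +
      (y 0 * z 5 - z 0 * y 5) * ((b 1 2 * b 3 4 - b 1 3 * b 2 4 + b 1 4 * b 2 3)) +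
      (y 1 * z 2 - z 1 * y 2) * ((b 0 3 * b 4 5 - b 0 4 * b 3 5 + b 0 5 * b 3 4)) +
      (y 1 * z 3 - z 1 * y 3) * (-(b 0 2 * b 4 5 - b 0 4 * b 2 5 + b 0 5 * b 2 4)) +
      (y 1 * z 4 - z 1 * y 4) * ((b 0 2 * b 3 5 - b 0 3 * b 2 5 + b 0 5 * b 2 3)) +
      (y 1 * z 5 - z 1 * y 5) * (-(b 0 2 * b 3 4 - b 0 3 * b 2 4 + b 0 4 * b 2 3)) +
      (y 2 * z 3 - z 2 * y 3) * ((b 0 1 * b 4 5 - b 0 4 * b 1 5 + b 0 5 * b 1 4)) +
      (y 2 * z 4 - z 2 * y 4) * (-(b 0 1 * b 3 5 - b 0 3 * b 1 5 + b 0 5 * b 1 3)) +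
      (y 2 * z 5 - z 2 * y 5) * ((b 0 1 * b 3 4 - b 0 3 * b 1 4 + b 0 4 * b 1 3)) +
      (y 3 * z 4 - z 3 * y 4) * ((b 0 1 * b 2 5 - b 0 2 * b 1 5 + b 0 5 * b 1 2)) +
      (y 3 * z 5 - z 3 * y 5) * (-(b 0 1 * b 2 4 - b 0 2 * b 1 4 + b 0 4 * b 1 2)) +
      (y 4 * z 5 - z 4 * y 5) * ((b 0 1 * b 2 3 - b 0 2 * b 1 3 + b 0 3 * b 1 2))) := by
  unfold Pf pf
  simp only [Matrix.add_apply, wedge_apply]
  ring

theorem mv_apply (b : Matrix (Fin 6) (Fin 6) F) (v : Fin 6 → F) (a : Fin 6) :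
    (b *ᵥ v) a = b a 0 * v 0 + b a 1 * v 1 + b a 2 * v 2 + b a 3 * v 3 + b a 4 * v 4 +
      b a 5 * v 5 := by
  show ∑ j, b a j * v j = _
  rw [Fin.sum_univ_six]

theorem dp_apply (y v : Fin 6 → F) :
    y ⬝ᵥ v = y 0 * v 0 + y 1 * v 1 + y 2 * v 2 + y 3 * v 3 + y 4 * v 4 + y 5 * v 5 := by
  show ∑ j, y j * v j = _
  rw [Fin.sum_univ_six]

theorem wc_of {b : Matrix (Fin 6) (Fin 6) F} {w u : Fin 6 → F} (hb : Alt b)
    (h : White (w, b, u)) : WC b w u := by
  obtain ⟨-, h2, h3, h4⟩ := h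
  have h2' : b *ᵥ w = 0 := h2
  have h3' : b *ᵥ u = 0 := h3
  have h4' : ∀ y z : Fin 6 → F, Pf (b + wedge y z) = Pf b + ((y ⬝ᵥ w) * (z ⬝ᵥ u) -
    (y ⬝ᵥ u) * (z ⬝ᵥ w)) := h4
  constructor
  · have h := congrFun h2' 0
    rw [mv_apply, Pi.zero_apply] at h
    linear_combination h - w 0 * hb.1 0
  · have h := congrFun h2' 1
    rw [mv_apply, Pi.zero_apply] at h
    linear_combination h - w 0 * hb.2 1 0 - w 1 * hb.1 1
  · have h := congrFun h2' 2
    rw [mv_apply, Pi.zero_apply] at h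
    linear_combination h - w 0 * hb.2 2 0 - w 1 * hb.2 2 1 - w 2 * hb.1 2
  · have h := congrFun h2' 3
    rw [mv_apply, Pi.zero_apply] at h
    linear_combination h - w 0 * hb.2 3 0 - w 1 * hb.2 3 1 - w 2 * hb.2 3 2 - w 3 * hb.1 3
  · have h := congrFun h2' 4
    rw [mv_apply, Pi.zero_apply] at h
    linear_combination h - w 0 * hb.2 4 0 - w 1 * hb.2 4 1 - w 2 * hb.2 4 2 - w 3 * hb.2 4 3 - w 4 * hb.1 4
  · have h := congrFun h2' 5
    rw [mv_apply, Pi.zero_apply] at h
    linear_combination h - w 0 * hb.2 5 0 - w 1 * hb.2 5 1 - w 2 * hb.2 5 2 - w 3 * hb.2 5 3 - w 4 * hb.2 5 4 - w 5 * hb.1 5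
  · have h := congrFun h3' 0
    rw [mv_apply, Pi.zero_apply] at h
    linear_combination h - u 0 * hb.1 0
  · have h := congrFun h3' 1
    rw [mv_apply, Pi.zero_apply] at h
    linear_combination h - u 0 * hb.2 1 0 - u 1 * hb.1 1
  · have h := congrFun h3' 2
    rw [mv_apply, Pi.zero_apply] at h
    linear_combination h - u 0 * hb.2 2 0 - u 1 * hb.2 2 1 - u 2 * hb.1 2
  · have h := congrFun h3' 3
    rw [mv_apply, Pi.zero_apply] at h
    linear_combination h - u 0 * hb.2 3 0 - u 1 * hb.2 3 1 - u 2 * hb.2 3 2 - u 3 * hb.1 3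
  · have h := congrFun h3' 4
    rw [mv_apply, Pi.zero_apply] at h
    linear_combination h - u 0 * hb.2 4 0 - u 1 * hb.2 4 1 - u 2 * hb.2 4 2 - u 3 * hb.2 4 3 - u 4 * hb.1 4
  · have h := congrFun h3' 5
    rw [mv_apply, Pi.zero_apply] at h
    linear_combination h - u 0 * hb.2 5 0 - u 1 * hb.2 5 1 - u 2 * hb.2 5 2 - u 3 * hb.2 5 3 - u 4 * hb.2 5 4 - u 5 * hb.1 5
  · have h := h4' (Pi.single 0 1) (Pi.single 1 1)
    rw [Pf_add_wedge] at h
    have h' := add_left_cancel h
    simp [Pi.single_apply] at h'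
    linear_combination h'
  · have h := h4' (Pi.single 0 1) (Pi.single 2 1)
    rw [Pf_add_wedge] at h
    have h' := add_left_cancel h
    simp [Pi.single_apply] at h'
    linear_combination h'
  · have h := h4' (Pi.single 0 1) (Pi.single 3 1)
    rw [Pf_add_wedge] at h
    have h' := add_left_cancel h
    simp [Pi.single_apply] at h'
    linear_combination h'
  · have h := h4' (Pi.single 0 1) (Pi.single 4 1)
    rw [Pf_add_wedge] at h
    have h' := add_left_cancel h
    simp [Pi.single_apply] at h'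
    linear_combination h'
  · have h := h4' (Pi.single 0 1) (Pi.single 5 1)
    rw [Pf_add_wedge] at h
    have h' := add_left_cancel h
    simp [Pi.single_apply] at h'
    linear_combination h'
  · have h := h4' (Pi.single 1 1) (Pi.single 2 1)
    rw [Pf_add_wedge] at h
    have h' := add_left_cancel h
    simp [Pi.single_apply] at h'
    linear_combination h'
  · have h := h4' (Pi.single 1 1) (Pi.single 3 1)
    rw [Pf_add_wedge] at h
    have h' := add_left_cancel h
    simp [Pi.single_apply] at h'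
    linear_combination h'
  · have h := h4' (Pi.single 1 1) (Pi.single 4 1)
    rw [Pf_add_wedge] at h
    have h' := add_left_cancel h
    simp [Pi.single_apply] at h'
    linear_combination h'
  · have h := h4' (Pi.single 1 1) (Pi.single 5 1)
    rw [Pf_add_wedge] at h
    have h' := add_left_cancel h
    simp [Pi.single_apply] at h'
    linear_combination h'
  · have h := h4' (Pi.single 2 1) (Pi.single 3 1)
    rw [Pf_add_wedge] at h
    have h' := add_left_cancel h
    simp [Pi.single_apply] at h'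
    linear_combination h'
  · have h := h4' (Pi.single 2 1) (Pi.single 4 1)
    rw [Pf_add_wedge] at h
    have h' := add_left_cancel h
    simp [Pi.single_apply] at h'
    linear_combination h'
  · have h := h4' (Pi.single 2 1) (Pi.single 5 1)
    rw [Pf_add_wedge] at h
    have h' := add_left_cancel h
    simp [Pi.single_apply] at h'
    linear_combination h'
  · have h := h4' (Pi.single 3 1) (Pi.single 4 1)
    rw [Pf_add_wedge] at h
    have h' := add_left_cancel h
    simp [Pi.single_apply] at h'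
    linear_combination h'
  · have h := h4' (Pi.single 3 1) (Pi.single 5 1)
    rw [Pf_add_wedge] at h
    have h' := add_left_cancel h
    simp [Pi.single_apply] at h'
    linear_combination h'
  · have h := h4' (Pi.single 4 1) (Pi.single 5 1)
    rw [Pf_add_wedge] at h
    have h' := add_left_cancel h
    simp [Pi.single_apply] at h'
    linear_combination h'

theorem of_wc {b : Matrix (Fin 6) (Fin 6) F} {w u : Fin 6 → F} (hb : Alt b)
    (h : WC b w u) : White (w, b, u) := by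
  refine ⟨hb, ?_, ?_, fun y z => ?_⟩
  · show b *ᵥ w = 0
    ext a
    rw [mv_apply, Pi.zero_apply]
    fin_cases a
    · show b 0 0 * w 0 + b 0 1 * w 1 + b 0 2 * w 2 + b 0 3 * w 3 + b 0 4 * w 4 +
        b 0 5 * w 5 = 0
      linear_combination h.w0 + w 0 * hb.1 0
    · show b 1 0 * w 0 + b 1 1 * w 1 + b 1 2 * w 2 + b 1 3 * w 3 + b 1 4 * w 4 +
        b 1 5 * w 5 = 0
      linear_combination h.w1 + w 0 * hb.2 1 0 + w 1 * hb.1 1
    · show b 2 0 * w 0 + b 2 1 * w 1 + b 2 2 * w 2 + b 2 3 * w 3 + b 2 4 * w 4 +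
        b 2 5 * w 5 = 0
      linear_combination h.w2 + w 0 * hb.2 2 0 + w 1 * hb.2 2 1 + w 2 * hb.1 2
    · show b 3 0 * w 0 + b 3 1 * w 1 + b 3 2 * w 2 + b 3 3 * w 3 + b 3 4 * w 4 +
        b 3 5 * w 5 = 0
      linear_combination h.w3 + w 0 * hb.2 3 0 + w 1 * hb.2 3 1 + w 2 * hb.2 3 2 + w 3 * hb.1 3
    · show b 4 0 * w 0 + b 4 1 * w 1 + b 4 2 * w 2 + b 4 3 * w 3 + b 4 4 * w 4 +
        b 4 5 * w 5 = 0
      linear_combination h.w4 + w 0 * hb.2 4 0 + w 1 * hb.2 4 1 + w 2 * hb.2 4 2 + w 3 * hb.2 4 3 + w 4 * hb.1 4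
    · show b 5 0 * w 0 + b 5 1 * w 1 + b 5 2 * w 2 + b 5 3 * w 3 + b 5 4 * w 4 +
        b 5 5 * w 5 = 0
      linear_combination h.w5 + w 0 * hb.2 5 0 + w 1 * hb.2 5 1 + w 2 * hb.2 5 2 + w 3 * hb.2 5 3 + w 4 * hb.2 5 4 + w 5 * hb.1 5
  · show b *ᵥ u = 0
    ext a
    rw [mv_apply, Pi.zero_apply]
    fin_cases a
    · show b 0 0 * u 0 + b 0 1 * u 1 + b 0 2 * u 2 + b 0 3 * u 3 + b 0 4 * u 4 +
        b 0 5 * u 5 = 0
      linear_combination h.u0 + u 0 * hb.1 0
    · show b 1 0 * u 0 + b 1 1 * u 1 + b 1 2 * u 2 + b 1 3 * u 3 + b 1 4 * u 4 +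
        b 1 5 * u 5 = 0
      linear_combination h.u1 + u 0 * hb.2 1 0 + u 1 * hb.1 1
    · show b 2 0 * u 0 + b 2 1 * u 1 + b 2 2 * u 2 + b 2 3 * u 3 + b 2 4 * u 4 +
        b 2 5 * u 5 = 0
      linear_combination h.u2 + u 0 * hb.2 2 0 + u 1 * hb.2 2 1 + u 2 * hb.1 2
    · show b 3 0 * u 0 + b 3 1 * u 1 + b 3 2 * u 2 + b 3 3 * u 3 + b 3 4 * u 4 +
        b 3 5 * u 5 = 0
      linear_combination h.u3 + u 0 * hb.2 3 0 + u 1 * hb.2 3 1 + u 2 * hb.2 3 2 + u 3 * hb.1 3
    · show b 4 0 * u 0 + b 4 1 * u 1 + b 4 2 * u 2 + b 4 3 * u 3 + b 4 4 * u 4 +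
        b 4 5 * u 5 = 0
      linear_combination h.u4 + u 0 * hb.2 4 0 + u 1 * hb.2 4 1 + u 2 * hb.2 4 2 + u 3 * hb.2 4 3 + u 4 * hb.1 4
    · show b 5 0 * u 0 + b 5 1 * u 1 + b 5 2 * u 2 + b 5 3 * u 3 + b 5 4 * u 4 +
        b 5 5 * u 5 = 0
      linear_combination h.u5 + u 0 * hb.2 5 0 + u 1 * hb.2 5 1 + u 2 * hb.2 5 2 + u 3 * hb.2 5 3 + u 4 * hb.2 5 4 + u 5 * hb.1 5
  · show Pf (b + wedge y z) = Pf b + ((y ⬝ᵥ w) * (z ⬝ᵥ u) - (y ⬝ᵥ u) * (z ⬝ᵥ w))
    rw [Pf_add_wedge, dp_apply, dp_apply, dp_apply, dp_apply]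
    linear_combination (y 0 * z 1 - z 0 * y 1) * h.c01 +
      (y 0 * z 2 - z 0 * y 2) * h.c02 +
      (y 0 * z 3 - z 0 * y 3) * h.c03 +
      (y 0 * z 4 - z 0 * y 4) * h.c04 +
      (y 0 * z 5 - z 0 * y 5) * h.c05 +
      (y 1 * z 2 - z 1 * y 2) * h.c12 +
      (y 1 * z 3 - z 1 * y 3) * h.c13 +
      (y 1 * z 4 - z 1 * y 4) * h.c14 +
      (y 1 * z 5 - z 1 * y 5) * h.c15 +
      (y 2 * z 3 - z 2 * y 3) * h.c23 +
      (y 2 * z 4 - z 2 * y 4) * h.c24 +
      (y 2 * z 5 - z 2 * y 5) * h.c25 +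
      (y 3 * z 4 - z 3 * y 4) * h.c34 +
      (y 3 * z 5 - z 3 * y 5) * h.c35 +
      (y 4 * z 5 - z 4 * y 5) * h.c45

/-- The upper linear part. -/
def kap (s : F) (l m n : Fin 6) : Matrix (Fin 6) (Fin 6) F →ₗ[F] (Fin 6 → F) where
  toFun b := fun a => s * ((Pi.single l (1 : F) : Fin 6 → F) a * b m n -
    (Pi.single m (1 : F) : Fin 6 → F) a * b l n + (Pi.single n (1 : F) : Fin 6 → F) a * b l m)
  map_add' b c := by
    ext a
    simp only [Matrix.add_apply, Pi.add_apply]
    ring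
  map_smul' t b := by
    ext a
    simp only [Matrix.smul_apply, Pi.smul_apply, smul_eq_mul, RingHom.id_apply]
    ring

theorem kap_apply (s : F) (l m n a : Fin 6) (b : Matrix (Fin 6) (Fin 6) F) :
    kap s l m n b a = s * ((Pi.single l (1 : F) : Fin 6 → F) a * b m n -
    (Pi.single m (1 : F) : Fin 6 → F) a * b l n + (Pi.single n (1 : F) : Fin 6 → F) a * b l m) :=
  rfl

theorem con_single (i j k a c : Fin 6) (u : Fin 6 → F) :
    con (Pi.single i (1 : F)) (Pi.single j (1 : F)) (Pi.single k (1 : F)) u a c =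
      u i * ((Pi.single j (1 : F) : Fin 6 → F) a * (Pi.single k (1 : F) : Fin 6 → F) c -
        (Pi.single k (1 : F) : Fin 6 → F) a * (Pi.single j (1 : F) : Fin 6 → F) c) -
      u j * ((Pi.single i (1 : F) : Fin 6 → F) a * (Pi.single k (1 : F) : Fin 6 → F) c -
        (Pi.single k (1 : F) : Fin 6 → F) a * (Pi.single i (1 : F) : Fin 6 → F) c) +
      u k * ((Pi.single i (1 : F) : Fin 6 → F) a * (Pi.single j (1 : F) : Fin 6 → F) c -
        (Pi.single j (1 : F) : Fin 6 → F) a * (Pi.single i (1 : F) : Fin 6 → F) c) := by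
  unfold con
  rw [single_one_dotProduct, single_one_dotProduct, single_one_dotProduct]
  rfl

theorem alt_con (x y z u : Fin 6 → F) : Alt (con x y z u) := by
  constructor
  · intro a
    simp only [con, wedge, Matrix.sub_apply, Matrix.add_apply, Matrix.smul_apply, vecMulVec_apply,
      smul_eq_mul]
    ring
  · intro a c
    simp only [con, wedge, Matrix.sub_apply, Matrix.add_apply, Matrix.smul_apply, vecMulVec_apply,
      smul_eq_mul]
    ring

theorem core012 {b b' : Matrix (Fin 6) (Fin 6) F} {w w' u : Fin 6 → F} (s : F)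
    (h : WC b w u)
    (e01 : b' 0 1 = b 0 1 + s * u 2)
    (e02 : b' 0 2 = b 0 2 - s * u 1)
    (e03 : b' 0 3 = b 0 3)
    (e04 : b' 0 4 = b 0 4)
    (e05 : b' 0 5 = b 0 5)
    (e12 : b' 1 2 = b 1 2 + s * u 0)
    (e13 : b' 1 3 = b 1 3)
    (e14 : b' 1 4 = b 1 4)
    (e15 : b' 1 5 = b 1 5)
    (e23 : b' 2 3 = b 2 3)
    (e24 : b' 2 4 = b 2 4)
    (e25 : b' 2 5 = b 2 5)
    (e34 : b' 3 4 = b 3 4)
    (e35 : b' 3 5 = b 3 5)
    (e45 : b' 4 5 = b 4 5)
    (k0 : w' 0 = w 0)
    (k1 : w' 1 = w 1)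
    (k2 : w' 2 = w 2)
    (k3 : w' 3 = w 3 - s * b 4 5)
    (k4 : w' 4 = w 4 + s * b 3 5)
    (k5 : w' 5 = w 5 - s * b 3 4)
    : WC b' w' u := by
  constructor
  · rw [e01, e02, e03, e04, e05, k1, k2, k3, k4, k5]
    linear_combination h.w0 - s * h.c12
  · rw [e01, e12, e13, e14, e15, k0, k2, k3, k4, k5]
    linear_combination h.w1 + s * h.c02
  · rw [e02, e12, e23, e24, e25, k0, k1, k3, k4, k5]
    linear_combination h.w2 - s * h.c01
  · rw [e03, e13, e23, e34, e35, k0, k1, k2, k4, k5]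
    linear_combination h.w3
  · rw [e04, e14, e24, e34, e45, k0, k1, k2, k3, k5]
    linear_combination h.w4
  · rw [e05, e15, e25, e35, e45, k0, k1, k2, k3, k4]
    linear_combination h.w5
  · rw [e01, e02, e03, e04, e05]
    linear_combination h.u0
  · rw [e01, e12, e13, e14, e15]
    linear_combination h.u1
  · rw [e02, e12, e23, e24, e25]
    linear_combination h.u2
  · rw [e03, e13, e23, e34, e35]
    linear_combination h.u3
  · rw [e04, e14, e24, e34, e45]
    linear_combination h.u4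
  · rw [e05, e15, e25, e35, e45]
    linear_combination h.u5
  · rw [e23, e24, e25, e34, e35, e45, k0, k1]
    linear_combination h.c01
  · rw [e13, e14, e15, e34, e35, e45, k0, k2]
    linear_combination h.c02
  · rw [e12, e14, e15, e24, e25, e45, k0, k3]
    linear_combination h.c03
  · rw [e12, e13, e15, e23, e25, e35, k0, k4]
    linear_combination h.c04
  · rw [e12, e13, e14, e23, e24, e34, k0, k5]
    linear_combination h.c05
  · rw [e03, e04, e05, e34, e35, e45, k1, k2]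
    linear_combination h.c12
  · rw [e02, e04, e05, e24, e25, e45, k1, k3]
    linear_combination h.c13
  · rw [e02, e03, e05, e23, e25, e35, k1, k4]
    linear_combination h.c14
  · rw [e02, e03, e04, e23, e24, e34, k1, k5]
    linear_combination h.c15
  · rw [e01, e04, e05, e14, e15, e45, k2, k3]
    linear_combination h.c23
  · rw [e01, e03, e05, e13, e15, e35, k2, k4]
    linear_combination h.c24
  · rw [e01, e03, e04, e13, e14, e34, k2, k5]
    linear_combination h.c25
  · rw [e01, e02, e05, e12, e15, e25, k3, k4]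
    linear_combination h.c34 - s * h.u5
  · rw [e01, e02, e04, e12, e14, e24, k3, k5]
    linear_combination h.c35 + s * h.u4
  · rw [e01, e02, e03, e12, e13, e23, k4, k5]
    linear_combination h.c45 - s * h.u3

theorem root012 (s : F) (x : V F) (hx : White x) :
    White (x.1 + kap (-s) 3 4 5 x.2.1, x.2.1 +
      s • con (Pi.single 0 (1 : F)) (Pi.single 1 (1 : F)) (Pi.single 2 (1 : F)) x.2.2, x.2.2) := by
  obtain ⟨w, b, u⟩ := x
  have hb : Alt b := hx.1
  refine of_wc (alt_add hb (alt_smul' s (alt_con _ _ _ _))) (core012 s (wc_of hb hx) ?_ ?_ ?_ ?_ ?_ ?_ ?_ ?_ ?_ ?_ ?_ ?_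
    ?_ ?_ ?_ ?_ ?_ ?_ ?_ ?_ ?_)
  iterate 15
    · rw [Matrix.add_apply, Matrix.smul_apply, con_single]
      simp [Pi.single_apply]
      try ring
  iterate 6
    · rw [Pi.add_apply, kap_apply]
      simp [Pi.single_apply]
      try ring

theorem core013 {b b' : Matrix (Fin 6) (Fin 6) F} {w w' u : Fin 6 → F} (s : F)
    (h : WC b w u)
    (e01 : b' 0 1 = b 0 1 + s * u 3)
    (e02 : b' 0 2 = b 0 2)
    (e03 : b' 0 3 = b 0 3 - s * u 1)
    (e04 : b' 0 4 = b 0 4)
    (e05 : b' 0 5 = b 0 5)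
    (e12 : b' 1 2 = b 1 2)
    (e13 : b' 1 3 = b 1 3 + s * u 0)
    (e14 : b' 1 4 = b 1 4)
    (e15 : b' 1 5 = b 1 5)
    (e23 : b' 2 3 = b 2 3)
    (e24 : b' 2 4 = b 2 4)
    (e25 : b' 2 5 = b 2 5)
    (e34 : b' 3 4 = b 3 4)
    (e35 : b' 3 5 = b 3 5)
    (e45 : b' 4 5 = b 4 5)
    (k0 : w' 0 = w 0)
    (k1 : w' 1 = w 1)
    (k2 : w' 2 = w 2 + s * b 4 5)
    (k3 : w' 3 = w 3)
    (k4 : w' 4 = w 4 - s * b 2 5)
    (k5 : w' 5 = w 5 + s * b 2 4)
    : WC b' w' u := by
  constructor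
  · rw [e01, e02, e03, e04, e05, k1, k2, k3, k4, k5]
    linear_combination h.w0 - s * h.c13
  · rw [e01, e12, e13, e14, e15, k0, k2, k3, k4, k5]
    linear_combination h.w1 + s * h.c03
  · rw [e02, e12, e23, e24, e25, k0, k1, k3, k4, k5]
    linear_combination h.w2
  · rw [e03, e13, e23, e34, e35, k0, k1, k2, k4, k5]
    linear_combination h.w3 - s * h.c01
  · rw [e04, e14, e24, e34, e45, k0, k1, k2, k3, k5]
    linear_combination h.w4
  · rw [e05, e15, e25, e35, e45, k0, k1, k2, k3, k4]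
    linear_combination h.w5
  · rw [e01, e02, e03, e04, e05]
    linear_combination h.u0
  · rw [e01, e12, e13, e14, e15]
    linear_combination h.u1
  · rw [e02, e12, e23, e24, e25]
    linear_combination h.u2
  · rw [e03, e13, e23, e34, e35]
    linear_combination h.u3
  · rw [e04, e14, e24, e34, e45]
    linear_combination h.u4
  · rw [e05, e15, e25, e35, e45]
    linear_combination h.u5
  · rw [e23, e24, e25, e34, e35, e45, k0, k1]
    linear_combination h.c01
  · rw [e13, e14, e15, e34, e35, e45, k0, k2]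
    linear_combination h.c02
  · rw [e12, e14, e15, e24, e25, e45, k0, k3]
    linear_combination h.c03
  · rw [e12, e13, e15, e23, e25, e35, k0, k4]
    linear_combination h.c04
  · rw [e12, e13, e14, e23, e24, e34, k0, k5]
    linear_combination h.c05
  · rw [e03, e04, e05, e34, e35, e45, k1, k2]
    linear_combination h.c12
  · rw [e02, e04, e05, e24, e25, e45, k1, k3]
    linear_combination h.c13
  · rw [e02, e03, e05, e23, e25, e35, k1, k4]
    linear_combination h.c14
  · rw [e02, e03, e04, e23, e24, e34, k1, k5]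
    linear_combination h.c15
  · rw [e01, e04, e05, e14, e15, e45, k2, k3]
    linear_combination h.c23
  · rw [e01, e03, e05, e13, e15, e35, k2, k4]
    linear_combination h.c24 + s * h.u5
  · rw [e01, e03, e04, e13, e14, e34, k2, k5]
    linear_combination h.c25 - s * h.u4
  · rw [e01, e02, e05, e12, e15, e25, k3, k4]
    linear_combination h.c34
  · rw [e01, e02, e04, e12, e14, e24, k3, k5]
    linear_combination h.c35
  · rw [e01, e02, e03, e12, e13, e23, k4, k5]
    linear_combination h.c45 + s * h.u2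

theorem root013 (s : F) (x : V F) (hx : White x) :
    White (x.1 + kap s 2 4 5 x.2.1, x.2.1 +
      s • con (Pi.single 0 (1 : F)) (Pi.single 1 (1 : F)) (Pi.single 3 (1 : F)) x.2.2, x.2.2) := by
  obtain ⟨w, b, u⟩ := x
  have hb : Alt b := hx.1
  refine of_wc (alt_add hb (alt_smul' s (alt_con _ _ _ _))) (core013 s (wc_of hb hx) ?_ ?_ ?_ ?_ ?_ ?_ ?_ ?_ ?_ ?_ ?_ ?_
    ?_ ?_ ?_ ?_ ?_ ?_ ?_ ?_ ?_)
  iterate 15
    · rw [Matrix.add_apply, Matrix.smul_apply, con_single]
      simp [Pi.single_apply]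
      try ring
  iterate 6
    · rw [Pi.add_apply, kap_apply]
      simp [Pi.single_apply]
      try ring

theorem core014 {b b' : Matrix (Fin 6) (Fin 6) F} {w w' u : Fin 6 → F} (s : F)
    (h : WC b w u)
    (e01 : b' 0 1 = b 0 1 + s * u 4)
    (e02 : b' 0 2 = b 0 2)
    (e03 : b' 0 3 = b 0 3)
    (e04 : b' 0 4 = b 0 4 - s * u 1)
    (e05 : b' 0 5 = b 0 5)
    (e12 : b' 1 2 = b 1 2)
    (e13 : b' 1 3 = b 1 3)
    (e14 : b' 1 4 = b 1 4 + s * u 0)
    (e15 : b' 1 5 = b 1 5)
    (e23 : b' 2 3 = b 2 3)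
    (e24 : b' 2 4 = b 2 4)
    (e25 : b' 2 5 = b 2 5)
    (e34 : b' 3 4 = b 3 4)
    (e35 : b' 3 5 = b 3 5)
    (e45 : b' 4 5 = b 4 5)
    (k0 : w' 0 = w 0)
    (k1 : w' 1 = w 1)
    (k2 : w' 2 = w 2 - s * b 3 5)
    (k3 : w' 3 = w 3 + s * b 2 5)
    (k4 : w' 4 = w 4)
    (k5 : w' 5 = w 5 - s * b 2 3)
    : WC b' w' u := by
  constructor
  · rw [e01, e02, e03, e04, e05, k1, k2, k3, k4, k5]
    linear_combination h.w0 - s * h.c14
  · rw [e01, e12, e13, e14, e15, k0, k2, k3, k4, k5]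
    linear_combination h.w1 + s * h.c04
  · rw [e02, e12, e23, e24, e25, k0, k1, k3, k4, k5]
    linear_combination h.w2
  · rw [e03, e13, e23, e34, e35, k0, k1, k2, k4, k5]
    linear_combination h.w3
  · rw [e04, e14, e24, e34, e45, k0, k1, k2, k3, k5]
    linear_combination h.w4 - s * h.c01
  · rw [e05, e15, e25, e35, e45, k0, k1, k2, k3, k4]
    linear_combination h.w5
  · rw [e01, e02, e03, e04, e05]
    linear_combination h.u0
  · rw [e01, e12, e13, e14, e15]
    linear_combination h.u1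
  · rw [e02, e12, e23, e24, e25]
    linear_combination h.u2
  · rw [e03, e13, e23, e34, e35]
    linear_combination h.u3
  · rw [e04, e14, e24, e34, e45]
    linear_combination h.u4
  · rw [e05, e15, e25, e35, e45]
    linear_combination h.u5
  · rw [e23, e24, e25, e34, e35, e45, k0, k1]
    linear_combination h.c01
  · rw [e13, e14, e15, e34, e35, e45, k0, k2]
    linear_combination h.c02
  · rw [e12, e14, e15, e24, e25, e45, k0, k3]
    linear_combination h.c03
  · rw [e12, e13, e15, e23, e25, e35, k0, k4]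
    linear_combination h.c04
  · rw [e12, e13, e14, e23, e24, e34, k0, k5]
    linear_combination h.c05
  · rw [e03, e04, e05, e34, e35, e45, k1, k2]
    linear_combination h.c12
  · rw [e02, e04, e05, e24, e25, e45, k1, k3]
    linear_combination h.c13
  · rw [e02, e03, e05, e23, e25, e35, k1, k4]
    linear_combination h.c14
  · rw [e02, e03, e04, e23, e24, e34, k1, k5]
    linear_combination h.c15
  · rw [e01, e04, e05, e14, e15, e45, k2, k3]
    linear_combination h.c23 - s * h.u5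
  · rw [e01, e03, e05, e13, e15, e35, k2, k4]
    linear_combination h.c24
  · rw [e01, e03, e04, e13, e14, e34, k2, k5]
    linear_combination h.c25 + s * h.u3
  · rw [e01, e02, e05, e12, e15, e25, k3, k4]
    linear_combination h.c34
  · rw [e01, e02, e04, e12, e14, e24, k3, k5]
    linear_combination h.c35 - s * h.u2
  · rw [e01, e02, e03, e12, e13, e23, k4, k5]
    linear_combination h.c45

theorem root014 (s : F) (x : V F) (hx : White x) :
    White (x.1 + kap (-s) 2 3 5 x.2.1, x.2.1 +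
      s • con (Pi.single 0 (1 : F)) (Pi.single 1 (1 : F)) (Pi.single 4 (1 : F)) x.2.2, x.2.2) := by
  obtain ⟨w, b, u⟩ := x
  have hb : Alt b := hx.1
  refine of_wc (alt_add hb (alt_smul' s (alt_con _ _ _ _))) (core014 s (wc_of hb hx) ?_ ?_ ?_ ?_ ?_ ?_ ?_ ?_ ?_ ?_ ?_ ?_
    ?_ ?_ ?_ ?_ ?_ ?_ ?_ ?_ ?_)
  iterate 15
    · rw [Matrix.add_apply, Matrix.smul_apply, con_single]
      simp [Pi.single_apply]
      try ring
  iterate 6
    · rw [Pi.add_apply, kap_apply]
      simp [Pi.single_apply]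
      try ring

theorem core015 {b b' : Matrix (Fin 6) (Fin 6) F} {w w' u : Fin 6 → F} (s : F)
    (h : WC b w u)
    (e01 : b' 0 1 = b 0 1 + s * u 5)
    (e02 : b' 0 2 = b 0 2)
    (e03 : b' 0 3 = b 0 3)
    (e04 : b' 0 4 = b 0 4)
    (e05 : b' 0 5 = b 0 5 - s * u 1)
    (e12 : b' 1 2 = b 1 2)
    (e13 : b' 1 3 = b 1 3)
    (e14 : b' 1 4 = b 1 4)
    (e15 : b' 1 5 = b 1 5 + s * u 0)
    (e23 : b' 2 3 = b 2 3)
    (e24 : b' 2 4 = b 2 4)
    (e25 : b' 2 5 = b 2 5)
    (e34 : b' 3 4 = b 3 4)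
    (e35 : b' 3 5 = b 3 5)
    (e45 : b' 4 5 = b 4 5)
    (k0 : w' 0 = w 0)
    (k1 : w' 1 = w 1)
    (k2 : w' 2 = w 2 + s * b 3 4)
    (k3 : w' 3 = w 3 - s * b 2 4)
    (k4 : w' 4 = w 4 + s * b 2 3)
    (k5 : w' 5 = w 5)
    : WC b' w' u := by
  constructor
  · rw [e01, e02, e03, e04, e05, k1, k2, k3, k4, k5]
    linear_combination h.w0 - s * h.c15
  · rw [e01, e12, e13, e14, e15, k0, k2, k3, k4, k5]
    linear_combination h.w1 + s * h.c05
  · rw [e02, e12, e23, e24, e25, k0, k1, k3, k4, k5]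
    linear_combination h.w2
  · rw [e03, e13, e23, e34, e35, k0, k1, k2, k4, k5]
    linear_combination h.w3
  · rw [e04, e14, e24, e34, e45, k0, k1, k2, k3, k5]
    linear_combination h.w4
  · rw [e05, e15, e25, e35, e45, k0, k1, k2, k3, k4]
    linear_combination h.w5 - s * h.c01
  · rw [e01, e02, e03, e04, e05]
    linear_combination h.u0
  · rw [e01, e12, e13, e14, e15]
    linear_combination h.u1
  · rw [e02, e12, e23, e24, e25]
    linear_combination h.u2
  · rw [e03, e13, e23, e34, e35]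
    linear_combination h.u3
  · rw [e04, e14, e24, e34, e45]
    linear_combination h.u4
  · rw [e05, e15, e25, e35, e45]
    linear_combination h.u5
  · rw [e23, e24, e25, e34, e35, e45, k0, k1]
    linear_combination h.c01
  · rw [e13, e14, e15, e34, e35, e45, k0, k2]
    linear_combination h.c02
  · rw [e12, e14, e15, e24, e25, e45, k0, k3]
    linear_combination h.c03
  · rw [e12, e13, e15, e23, e25, e35, k0, k4]
    linear_combination h.c04
  · rw [e12, e13, e14, e23, e24, e34, k0, k5]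
    linear_combination h.c05
  · rw [e03, e04, e05, e34, e35, e45, k1, k2]
    linear_combination h.c12
  · rw [e02, e04, e05, e24, e25, e45, k1, k3]
    linear_combination h.c13
  · rw [e02, e03, e05, e23, e25, e35, k1, k4]
    linear_combination h.c14
  · rw [e02, e03, e04, e23, e24, e34, k1, k5]
    linear_combination h.c15
  · rw [e01, e04, e05, e14, e15, e45, k2, k3]
    linear_combination h.c23 + s * h.u4
  · rw [e01, e03, e05, e13, e15, e35, k2, k4]
    linear_combination h.c24 - s * h.u3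
  · rw [e01, e03, e04, e13, e14, e34, k2, k5]
    linear_combination h.c25
  · rw [e01, e02, e05, e12, e15, e25, k3, k4]
    linear_combination h.c34 + s * h.u2
  · rw [e01, e02, e04, e12, e14, e24, k3, k5]
    linear_combination h.c35
  · rw [e01, e02, e03, e12, e13, e23, k4, k5]
    linear_combination h.c45

theorem root015 (s : F) (x : V F) (hx : White x) :
    White (x.1 + kap s 2 3 4 x.2.1, x.2.1 +
      s • con (Pi.single 0 (1 : F)) (Pi.single 1 (1 : F)) (Pi.single 5 (1 : F)) x.2.2, x.2.2) := by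
  obtain ⟨w, b, u⟩ := x
  have hb : Alt b := hx.1
  refine of_wc (alt_add hb (alt_smul' s (alt_con _ _ _ _))) (core015 s (wc_of hb hx) ?_ ?_ ?_ ?_ ?_ ?_ ?_ ?_ ?_ ?_ ?_ ?_
    ?_ ?_ ?_ ?_ ?_ ?_ ?_ ?_ ?_)
  iterate 15
    · rw [Matrix.add_apply, Matrix.smul_apply, con_single]
      simp [Pi.single_apply]
      try ring
  iterate 6
    · rw [Pi.add_apply, kap_apply]
      simp [Pi.single_apply]
      try ring

theorem core023 {b b' : Matrix (Fin 6) (Fin 6) F} {w w' u : Fin 6 → F} (s : F)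
    (h : WC b w u)
    (e01 : b' 0 1 = b 0 1)
    (e02 : b' 0 2 = b 0 2 + s * u 3)
    (e03 : b' 0 3 = b 0 3 - s * u 2)
    (e04 : b' 0 4 = b 0 4)
    (e05 : b' 0 5 = b 0 5)
    (e12 : b' 1 2 = b 1 2)
    (e13 : b' 1 3 = b 1 3)
    (e14 : b' 1 4 = b 1 4)
    (e15 : b' 1 5 = b 1 5)
    (e23 : b' 2 3 = b 2 3 + s * u 0)
    (e24 : b' 2 4 = b 2 4)
    (e25 : b' 2 5 = b 2 5)
    (e34 : b' 3 4 = b 3 4)
    (e35 : b' 3 5 = b 3 5)
    (e45 : b' 4 5 = b 4 5)
    (k0 : w' 0 = w 0)
    (k1 : w' 1 = w 1 - s * b 4 5)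
    (k2 : w' 2 = w 2)
    (k3 : w' 3 = w 3)
    (k4 : w' 4 = w 4 + s * b 1 5)
    (k5 : w' 5 = w 5 - s * b 1 4)
    : WC b' w' u := by
  constructor
  · rw [e01, e02, e03, e04, e05, k1, k2, k3, k4, k5]
    linear_combination h.w0 - s * h.c23
  · rw [e01, e12, e13, e14, e15, k0, k2, k3, k4, k5]
    linear_combination h.w1
  · rw [e02, e12, e23, e24, e25, k0, k1, k3, k4, k5]
    linear_combination h.w2 + s * h.c03
  · rw [e03, e13, e23, e34, e35, k0, k1, k2, k4, k5]
    linear_combination h.w3 - s * h.c02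
  · rw [e04, e14, e24, e34, e45, k0, k1, k2, k3, k5]
    linear_combination h.w4
  · rw [e05, e15, e25, e35, e45, k0, k1, k2, k3, k4]
    linear_combination h.w5
  · rw [e01, e02, e03, e04, e05]
    linear_combination h.u0
  · rw [e01, e12, e13, e14, e15]
    linear_combination h.u1
  · rw [e02, e12, e23, e24, e25]
    linear_combination h.u2
  · rw [e03, e13, e23, e34, e35]
    linear_combination h.u3
  · rw [e04, e14, e24, e34, e45]
    linear_combination h.u4
  · rw [e05, e15, e25, e35, e45]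
    linear_combination h.u5
  · rw [e23, e24, e25, e34, e35, e45, k0, k1]
    linear_combination h.c01
  · rw [e13, e14, e15, e34, e35, e45, k0, k2]
    linear_combination h.c02
  · rw [e12, e14, e15, e24, e25, e45, k0, k3]
    linear_combination h.c03
  · rw [e12, e13, e15, e23, e25, e35, k0, k4]
    linear_combination h.c04
  · rw [e12, e13, e14, e23, e24, e34, k0, k5]
    linear_combination h.c05
  · rw [e03, e04, e05, e34, e35, e45, k1, k2]
    linear_combination h.c12
  · rw [e02, e04, e05, e24, e25, e45, k1, k3]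
    linear_combination h.c13
  · rw [e02, e03, e05, e23, e25, e35, k1, k4]
    linear_combination h.c14 - s * h.u5
  · rw [e02, e03, e04, e23, e24, e34, k1, k5]
    linear_combination h.c15 + s * h.u4
  · rw [e01, e04, e05, e14, e15, e45, k2, k3]
    linear_combination h.c23
  · rw [e01, e03, e05, e13, e15, e35, k2, k4]
    linear_combination h.c24
  · rw [e01, e03, e04, e13, e14, e34, k2, k5]
    linear_combination h.c25
  · rw [e01, e02, e05, e12, e15, e25, k3, k4]
    linear_combination h.c34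
  · rw [e01, e02, e04, e12, e14, e24, k3, k5]
    linear_combination h.c35
  · rw [e01, e02, e03, e12, e13, e23, k4, k5]
    linear_combination h.c45 - s * h.u1

theorem root023 (s : F) (x : V F) (hx : White x) :
    White (x.1 + kap (-s) 1 4 5 x.2.1, x.2.1 +
      s • con (Pi.single 0 (1 : F)) (Pi.single 2 (1 : F)) (Pi.single 3 (1 : F)) x.2.2, x.2.2) := by
  obtain ⟨w, b, u⟩ := x
  have hb : Alt b := hx.1
  refine of_wc (alt_add hb (alt_smul' s (alt_con _ _ _ _))) (core023 s (wc_of hb hx) ?_ ?_ ?_ ?_ ?_ ?_ ?_ ?_ ?_ ?_ ?_ ?_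
    ?_ ?_ ?_ ?_ ?_ ?_ ?_ ?_ ?_)
  iterate 15
    · rw [Matrix.add_apply, Matrix.smul_apply, con_single]
      simp [Pi.single_apply]
      try ring
  iterate 6
    · rw [Pi.add_apply, kap_apply]
      simp [Pi.single_apply]
      try ring

theorem core024 {b b' : Matrix (Fin 6) (Fin 6) F} {w w' u : Fin 6 → F} (s : F)
    (h : WC b w u)
    (e01 : b' 0 1 = b 0 1)
    (e02 : b' 0 2 = b 0 2 + s * u 4)
    (e03 : b' 0 3 = b 0 3)
    (e04 : b' 0 4 = b 0 4 - s * u 2)
    (e05 : b' 0 5 = b 0 5)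
    (e12 : b' 1 2 = b 1 2)
    (e13 : b' 1 3 = b 1 3)
    (e14 : b' 1 4 = b 1 4)
    (e15 : b' 1 5 = b 1 5)
    (e23 : b' 2 3 = b 2 3)
    (e24 : b' 2 4 = b 2 4 + s * u 0)
    (e25 : b' 2 5 = b 2 5)
    (e34 : b' 3 4 = b 3 4)
    (e35 : b' 3 5 = b 3 5)
    (e45 : b' 4 5 = b 4 5)
    (k0 : w' 0 = w 0)
    (k1 : w' 1 = w 1 + s * b 3 5)
    (k2 : w' 2 = w 2)
    (k3 : w' 3 = w 3 - s * b 1 5)
    (k4 : w' 4 = w 4)
    (k5 : w' 5 = w 5 + s * b 1 3)
    : WC b' w' u := by
  constructor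
  · rw [e01, e02, e03, e04, e05, k1, k2, k3, k4, k5]
    linear_combination h.w0 - s * h.c24
  · rw [e01, e12, e13, e14, e15, k0, k2, k3, k4, k5]
    linear_combination h.w1
  · rw [e02, e12, e23, e24, e25, k0, k1, k3, k4, k5]
    linear_combination h.w2 + s * h.c04
  · rw [e03, e13, e23, e34, e35, k0, k1, k2, k4, k5]
    linear_combination h.w3
  · rw [e04, e14, e24, e34, e45, k0, k1, k2, k3, k5]
    linear_combination h.w4 - s * h.c02
  · rw [e05, e15, e25, e35, e45, k0, k1, k2, k3, k4]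
    linear_combination h.w5
  · rw [e01, e02, e03, e04, e05]
    linear_combination h.u0
  · rw [e01, e12, e13, e14, e15]
    linear_combination h.u1
  · rw [e02, e12, e23, e24, e25]
    linear_combination h.u2
  · rw [e03, e13, e23, e34, e35]
    linear_combination h.u3
  · rw [e04, e14, e24, e34, e45]
    linear_combination h.u4
  · rw [e05, e15, e25, e35, e45]
    linear_combination h.u5
  · rw [e23, e24, e25, e34, e35, e45, k0, k1]
    linear_combination h.c01
  · rw [e13, e14, e15, e34, e35, e45, k0, k2]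
    linear_combination h.c02
  · rw [e12, e14, e15, e24, e25, e45, k0, k3]
    linear_combination h.c03
  · rw [e12, e13, e15, e23, e25, e35, k0, k4]
    linear_combination h.c04
  · rw [e12, e13, e14, e23, e24, e34, k0, k5]
    linear_combination h.c05
  · rw [e03, e04, e05, e34, e35, e45, k1, k2]
    linear_combination h.c12
  · rw [e02, e04, e05, e24, e25, e45, k1, k3]
    linear_combination h.c13 + s * h.u5
  · rw [e02, e03, e05, e23, e25, e35, k1, k4]
    linear_combination h.c14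
  · rw [e02, e03, e04, e23, e24, e34, k1, k5]
    linear_combination h.c15 - s * h.u3
  · rw [e01, e04, e05, e14, e15, e45, k2, k3]
    linear_combination h.c23
  · rw [e01, e03, e05, e13, e15, e35, k2, k4]
    linear_combination h.c24
  · rw [e01, e03, e04, e13, e14, e34, k2, k5]
    linear_combination h.c25
  · rw [e01, e02, e05, e12, e15, e25, k3, k4]
    linear_combination h.c34
  · rw [e01, e02, e04, e12, e14, e24, k3, k5]
    linear_combination h.c35 + s * h.u1
  · rw [e01, e02, e03, e12, e13, e23, k4, k5]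
    linear_combination h.c45

theorem root024 (s : F) (x : V F) (hx : White x) :
    White (x.1 + kap s 1 3 5 x.2.1, x.2.1 +
      s • con (Pi.single 0 (1 : F)) (Pi.single 2 (1 : F)) (Pi.single 4 (1 : F)) x.2.2, x.2.2) := by
  obtain ⟨w, b, u⟩ := x
  have hb : Alt b := hx.1
  refine of_wc (alt_add hb (alt_smul' s (alt_con _ _ _ _))) (core024 s (wc_of hb hx) ?_ ?_ ?_ ?_ ?_ ?_ ?_ ?_ ?_ ?_ ?_ ?_
    ?_ ?_ ?_ ?_ ?_ ?_ ?_ ?_ ?_)
  iterate 15
    · rw [Matrix.add_apply, Matrix.smul_apply, con_single]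
      simp [Pi.single_apply]
      try ring
  iterate 6
    · rw [Pi.add_apply, kap_apply]
      simp [Pi.single_apply]
      try ring

theorem core025 {b b' : Matrix (Fin 6) (Fin 6) F} {w w' u : Fin 6 → F} (s : F)
    (h : WC b w u)
    (e01 : b' 0 1 = b 0 1)
    (e02 : b' 0 2 = b 0 2 + s * u 5)
    (e03 : b' 0 3 = b 0 3)
    (e04 : b' 0 4 = b 0 4)
    (e05 : b' 0 5 = b 0 5 - s * u 2)
    (e12 : b' 1 2 = b 1 2)
    (e13 : b' 1 3 = b 1 3)
    (e14 : b' 1 4 = b 1 4)
    (e15 : b' 1 5 = b 1 5)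
    (e23 : b' 2 3 = b 2 3)
    (e24 : b' 2 4 = b 2 4)
    (e25 : b' 2 5 = b 2 5 + s * u 0)
    (e34 : b' 3 4 = b 3 4)
    (e35 : b' 3 5 = b 3 5)
    (e45 : b' 4 5 = b 4 5)
    (k0 : w' 0 = w 0)
    (k1 : w' 1 = w 1 - s * b 3 4)
    (k2 : w' 2 = w 2)
    (k3 : w' 3 = w 3 + s * b 1 4)
    (k4 : w' 4 = w 4 - s * b 1 3)
    (k5 : w' 5 = w 5)
    : WC b' w' u := by
  constructor
  · rw [e01, e02, e03, e04, e05, k1, k2, k3, k4, k5]
    linear_combination h.w0 - s * h.c25
  · rw [e01, e12, e13, e14, e15, k0, k2, k3, k4, k5]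
    linear_combination h.w1
  · rw [e02, e12, e23, e24, e25, k0, k1, k3, k4, k5]
    linear_combination h.w2 + s * h.c05
  · rw [e03, e13, e23, e34, e35, k0, k1, k2, k4, k5]
    linear_combination h.w3
  · rw [e04, e14, e24, e34, e45, k0, k1, k2, k3, k5]
    linear_combination h.w4
  · rw [e05, e15, e25, e35, e45, k0, k1, k2, k3, k4]
    linear_combination h.w5 - s * h.c02
  · rw [e01, e02, e03, e04, e05]
    linear_combination h.u0
  · rw [e01, e12, e13, e14, e15]
    linear_combination h.u1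
  · rw [e02, e12, e23, e24, e25]
    linear_combination h.u2
  · rw [e03, e13, e23, e34, e35]
    linear_combination h.u3
  · rw [e04, e14, e24, e34, e45]
    linear_combination h.u4
  · rw [e05, e15, e25, e35, e45]
    linear_combination h.u5
  · rw [e23, e24, e25, e34, e35, e45, k0, k1]
    linear_combination h.c01
  · rw [e13, e14, e15, e34, e35, e45, k0, k2]
    linear_combination h.c02
  · rw [e12, e14, e15, e24, e25, e45, k0, k3]
    linear_combination h.c03
  · rw [e12, e13, e15, e23, e25, e35, k0, k4]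
    linear_combination h.c04
  · rw [e12, e13, e14, e23, e24, e34, k0, k5]
    linear_combination h.c05
  · rw [e03, e04, e05, e34, e35, e45, k1, k2]
    linear_combination h.c12
  · rw [e02, e04, e05, e24, e25, e45, k1, k3]
    linear_combination h.c13 - s * h.u4
  · rw [e02, e03, e05, e23, e25, e35, k1, k4]
    linear_combination h.c14 + s * h.u3
  · rw [e02, e03, e04, e23, e24, e34, k1, k5]
    linear_combination h.c15
  · rw [e01, e04, e05, e14, e15, e45, k2, k3]
    linear_combination h.c23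
  · rw [e01, e03, e05, e13, e15, e35, k2, k4]
    linear_combination h.c24
  · rw [e01, e03, e04, e13, e14, e34, k2, k5]
    linear_combination h.c25
  · rw [e01, e02, e05, e12, e15, e25, k3, k4]
    linear_combination h.c34 - s * h.u1
  · rw [e01, e02, e04, e12, e14, e24, k3, k5]
    linear_combination h.c35
  · rw [e01, e02, e03, e12, e13, e23, k4, k5]
    linear_combination h.c45

theorem root025 (s : F) (x : V F) (hx : White x) :
    White (x.1 + kap (-s) 1 3 4 x.2.1, x.2.1 +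
      s • con (Pi.single 0 (1 : F)) (Pi.single 2 (1 : F)) (Pi.single 5 (1 : F)) x.2.2, x.2.2) := by
  obtain ⟨w, b, u⟩ := x
  have hb : Alt b := hx.1
  refine of_wc (alt_add hb (alt_smul' s (alt_con _ _ _ _))) (core025 s (wc_of hb hx) ?_ ?_ ?_ ?_ ?_ ?_ ?_ ?_ ?_ ?_ ?_ ?_
    ?_ ?_ ?_ ?_ ?_ ?_ ?_ ?_ ?_)
  iterate 15
    · rw [Matrix.add_apply, Matrix.smul_apply, con_single]
      simp [Pi.single_apply]
      try ring
  iterate 6
    · rw [Pi.add_apply, kap_apply]
      simp [Pi.single_apply]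
      try ring

theorem core034 {b b' : Matrix (Fin 6) (Fin 6) F} {w w' u : Fin 6 → F} (s : F)
    (h : WC b w u)
    (e01 : b' 0 1 = b 0 1)
    (e02 : b' 0 2 = b 0 2)
    (e03 : b' 0 3 = b 0 3 + s * u 4)
    (e04 : b' 0 4 = b 0 4 - s * u 3)
    (e05 : b' 0 5 = b 0 5)
    (e12 : b' 1 2 = b 1 2)
    (e13 : b' 1 3 = b 1 3)
    (e14 : b' 1 4 = b 1 4)
    (e15 : b' 1 5 = b 1 5)
    (e23 : b' 2 3 = b 2 3)
    (e24 : b' 2 4 = b 2 4)
    (e25 : b' 2 5 = b 2 5)
    (e34 : b' 3 4 = b 3 4 + s * u 0)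
    (e35 : b' 3 5 = b 3 5)
    (e45 : b' 4 5 = b 4 5)
    (k0 : w' 0 = w 0)
    (k1 : w' 1 = w 1 - s * b 2 5)
    (k2 : w' 2 = w 2 + s * b 1 5)
    (k3 : w' 3 = w 3)
    (k4 : w' 4 = w 4)
    (k5 : w' 5 = w 5 - s * b 1 2)
    : WC b' w' u := by
  constructor
  · rw [e01, e02, e03, e04, e05, k1, k2, k3, k4, k5]
    linear_combination h.w0 - s * h.c34
  · rw [e01, e12, e13, e14, e15, k0, k2, k3, k4, k5]
    linear_combination h.w1
  · rw [e02, e12, e23, e24, e25, k0, k1, k3, k4, k5]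
    linear_combination h.w2
  · rw [e03, e13, e23, e34, e35, k0, k1, k2, k4, k5]
    linear_combination h.w3 + s * h.c04
  · rw [e04, e14, e24, e34, e45, k0, k1, k2, k3, k5]
    linear_combination h.w4 - s * h.c03
  · rw [e05, e15, e25, e35, e45, k0, k1, k2, k3, k4]
    linear_combination h.w5
  · rw [e01, e02, e03, e04, e05]
    linear_combination h.u0
  · rw [e01, e12, e13, e14, e15]
    linear_combination h.u1
  · rw [e02, e12, e23, e24, e25]
    linear_combination h.u2
  · rw [e03, e13, e23, e34, e35]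
    linear_combination h.u3
  · rw [e04, e14, e24, e34, e45]
    linear_combination h.u4
  · rw [e05, e15, e25, e35, e45]
    linear_combination h.u5
  · rw [e23, e24, e25, e34, e35, e45, k0, k1]
    linear_combination h.c01
  · rw [e13, e14, e15, e34, e35, e45, k0, k2]
    linear_combination h.c02
  · rw [e12, e14, e15, e24, e25, e45, k0, k3]
    linear_combination h.c03
  · rw [e12, e13, e15, e23, e25, e35, k0, k4]
    linear_combination h.c04
  · rw [e12, e13, e14, e23, e24, e34, k0, k5]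
    linear_combination h.c05
  · rw [e03, e04, e05, e34, e35, e45, k1, k2]
    linear_combination h.c12 - s * h.u5
  · rw [e02, e04, e05, e24, e25, e45, k1, k3]
    linear_combination h.c13
  · rw [e02, e03, e05, e23, e25, e35, k1, k4]
    linear_combination h.c14
  · rw [e02, e03, e04, e23, e24, e34, k1, k5]
    linear_combination h.c15 + s * h.u2
  · rw [e01, e04, e05, e14, e15, e45, k2, k3]
    linear_combination h.c23
  · rw [e01, e03, e05, e13, e15, e35, k2, k4]
    linear_combination h.c24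
  · rw [e01, e03, e04, e13, e14, e34, k2, k5]
    linear_combination h.c25 - s * h.u1
  · rw [e01, e02, e05, e12, e15, e25, k3, k4]
    linear_combination h.c34
  · rw [e01, e02, e04, e12, e14, e24, k3, k5]
    linear_combination h.c35
  · rw [e01, e02, e03, e12, e13, e23, k4, k5]
    linear_combination h.c45

theorem root034 (s : F) (x : V F) (hx : White x) :
    White (x.1 + kap (-s) 1 2 5 x.2.1, x.2.1 +
      s • con (Pi.single 0 (1 : F)) (Pi.single 3 (1 : F)) (Pi.single 4 (1 : F)) x.2.2, x.2.2) := by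
  obtain ⟨w, b, u⟩ := x
  have hb : Alt b := hx.1
  refine of_wc (alt_add hb (alt_smul' s (alt_con _ _ _ _))) (core034 s (wc_of hb hx) ?_ ?_ ?_ ?_ ?_ ?_ ?_ ?_ ?_ ?_ ?_ ?_
    ?_ ?_ ?_ ?_ ?_ ?_ ?_ ?_ ?_)
  iterate 15
    · rw [Matrix.add_apply, Matrix.smul_apply, con_single]
      simp [Pi.single_apply]
      try ring
  iterate 6
    · rw [Pi.add_apply, kap_apply]
      simp [Pi.single_apply]
      try ring

theorem core035 {b b' : Matrix (Fin 6) (Fin 6) F} {w w' u : Fin 6 → F} (s : F)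
    (h : WC b w u)
    (e01 : b' 0 1 = b 0 1)
    (e02 : b' 0 2 = b 0 2)
    (e03 : b' 0 3 = b 0 3 + s * u 5)
    (e04 : b' 0 4 = b 0 4)
    (e05 : b' 0 5 = b 0 5 - s * u 3)
    (e12 : b' 1 2 = b 1 2)
    (e13 : b' 1 3 = b 1 3)
    (e14 : b' 1 4 = b 1 4)
    (e15 : b' 1 5 = b 1 5)
    (e23 : b' 2 3 = b 2 3)
    (e24 : b' 2 4 = b 2 4)
    (e25 : b' 2 5 = b 2 5)
    (e34 : b' 3 4 = b 3 4)
    (e35 : b' 3 5 = b 3 5 + s * u 0)
    (e45 : b' 4 5 = b 4 5)
    (k0 : w' 0 = w 0)
    (k1 : w' 1 = w 1 + s * b 2 4)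
    (k2 : w' 2 = w 2 - s * b 1 4)
    (k3 : w' 3 = w 3)
    (k4 : w' 4 = w 4 + s * b 1 2)
    (k5 : w' 5 = w 5)
    : WC b' w' u := by
  constructor
  · rw [e01, e02, e03, e04, e05, k1, k2, k3, k4, k5]
    linear_combination h.w0 - s * h.c35
  · rw [e01, e12, e13, e14, e15, k0, k2, k3, k4, k5]
    linear_combination h.w1
  · rw [e02, e12, e23, e24, e25, k0, k1, k3, k4, k5]
    linear_combination h.w2
  · rw [e03, e13, e23, e34, e35, k0, k1, k2, k4, k5]
    linear_combination h.w3 + s * h.c05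
  · rw [e04, e14, e24, e34, e45, k0, k1, k2, k3, k5]
    linear_combination h.w4
  · rw [e05, e15, e25, e35, e45, k0, k1, k2, k3, k4]
    linear_combination h.w5 - s * h.c03
  · rw [e01, e02, e03, e04, e05]
    linear_combination h.u0
  · rw [e01, e12, e13, e14, e15]
    linear_combination h.u1
  · rw [e02, e12, e23, e24, e25]
    linear_combination h.u2
  · rw [e03, e13, e23, e34, e35]
    linear_combination h.u3
  · rw [e04, e14, e24, e34, e45]
    linear_combination h.u4
  · rw [e05, e15, e25, e35, e45]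
    linear_combination h.u5
  · rw [e23, e24, e25, e34, e35, e45, k0, k1]
    linear_combination h.c01
  · rw [e13, e14, e15, e34, e35, e45, k0, k2]
    linear_combination h.c02
  · rw [e12, e14, e15, e24, e25, e45, k0, k3]
    linear_combination h.c03
  · rw [e12, e13, e15, e23, e25, e35, k0, k4]
    linear_combination h.c04
  · rw [e12, e13, e14, e23, e24, e34, k0, k5]
    linear_combination h.c05
  · rw [e03, e04, e05, e34, e35, e45, k1, k2]
    linear_combination h.c12 + s * h.u4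
  · rw [e02, e04, e05, e24, e25, e45, k1, k3]
    linear_combination h.c13
  · rw [e02, e03, e05, e23, e25, e35, k1, k4]
    linear_combination h.c14 - s * h.u2
  · rw [e02, e03, e04, e23, e24, e34, k1, k5]
    linear_combination h.c15
  · rw [e01, e04, e05, e14, e15, e45, k2, k3]
    linear_combination h.c23
  · rw [e01, e03, e05, e13, e15, e35, k2, k4]
    linear_combination h.c24 + s * h.u1
  · rw [e01, e03, e04, e13, e14, e34, k2, k5]
    linear_combination h.c25
  · rw [e01, e02, e05, e12, e15, e25, k3, k4]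
    linear_combination h.c34
  · rw [e01, e02, e04, e12, e14, e24, k3, k5]
    linear_combination h.c35
  · rw [e01, e02, e03, e12, e13, e23, k4, k5]
    linear_combination h.c45

theorem root035 (s : F) (x : V F) (hx : White x) :
    White (x.1 + kap s 1 2 4 x.2.1, x.2.1 +
      s • con (Pi.single 0 (1 : F)) (Pi.single 3 (1 : F)) (Pi.single 5 (1 : F)) x.2.2, x.2.2) := by
  obtain ⟨w, b, u⟩ := x
  have hb : Alt b := hx.1
  refine of_wc (alt_add hb (alt_smul' s (alt_con _ _ _ _))) (core035 s (wc_of hb hx) ?_ ?_ ?_ ?_ ?_ ?_ ?_ ?_ ?_ ?_ ?_ ?_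
    ?_ ?_ ?_ ?_ ?_ ?_ ?_ ?_ ?_)
  iterate 15
    · rw [Matrix.add_apply, Matrix.smul_apply, con_single]
      simp [Pi.single_apply]
      try ring
  iterate 6
    · rw [Pi.add_apply, kap_apply]
      simp [Pi.single_apply]
      try ring

theorem core045 {b b' : Matrix (Fin 6) (Fin 6) F} {w w' u : Fin 6 → F} (s : F)
    (h : WC b w u)
    (e01 : b' 0 1 = b 0 1)
    (e02 : b' 0 2 = b 0 2)
    (e03 : b' 0 3 = b 0 3)
    (e04 : b' 0 4 = b 0 4 + s * u 5)
    (e05 : b' 0 5 = b 0 5 - s * u 4)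
    (e12 : b' 1 2 = b 1 2)
    (e13 : b' 1 3 = b 1 3)
    (e14 : b' 1 4 = b 1 4)
    (e15 : b' 1 5 = b 1 5)
    (e23 : b' 2 3 = b 2 3)
    (e24 : b' 2 4 = b 2 4)
    (e25 : b' 2 5 = b 2 5)
    (e34 : b' 3 4 = b 3 4)
    (e35 : b' 3 5 = b 3 5)
    (e45 : b' 4 5 = b 4 5 + s * u 0)
    (k0 : w' 0 = w 0)
    (k1 : w' 1 = w 1 - s * b 2 3)
    (k2 : w' 2 = w 2 + s * b 1 3)
    (k3 : w' 3 = w 3 - s * b 1 2)
    (k4 : w' 4 = w 4)
    (k5 : w' 5 = w 5)
    : WC b' w' u := by
  constructor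
  · rw [e01, e02, e03, e04, e05, k1, k2, k3, k4, k5]
    linear_combination h.w0 - s * h.c45
  · rw [e01, e12, e13, e14, e15, k0, k2, k3, k4, k5]
    linear_combination h.w1
  · rw [e02, e12, e23, e24, e25, k0, k1, k3, k4, k5]
    linear_combination h.w2
  · rw [e03, e13, e23, e34, e35, k0, k1, k2, k4, k5]
    linear_combination h.w3
  · rw [e04, e14, e24, e34, e45, k0, k1, k2, k3, k5]
    linear_combination h.w4 + s * h.c05
  · rw [e05, e15, e25, e35, e45, k0, k1, k2, k3, k4]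
    linear_combination h.w5 - s * h.c04
  · rw [e01, e02, e03, e04, e05]
    linear_combination h.u0
  · rw [e01, e12, e13, e14, e15]
    linear_combination h.u1
  · rw [e02, e12, e23, e24, e25]
    linear_combination h.u2
  · rw [e03, e13, e23, e34, e35]
    linear_combination h.u3
  · rw [e04, e14, e24, e34, e45]
    linear_combination h.u4
  · rw [e05, e15, e25, e35, e45]
    linear_combination h.u5
  · rw [e23, e24, e25, e34, e35, e45, k0, k1]
    linear_combination h.c01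
  · rw [e13, e14, e15, e34, e35, e45, k0, k2]
    linear_combination h.c02
  · rw [e12, e14, e15, e24, e25, e45, k0, k3]
    linear_combination h.c03
  · rw [e12, e13, e15, e23, e25, e35, k0, k4]
    linear_combination h.c04
  · rw [e12, e13, e14, e23, e24, e34, k0, k5]
    linear_combination h.c05
  · rw [e03, e04, e05, e34, e35, e45, k1, k2]
    linear_combination h.c12 - s * h.u3
  · rw [e02, e04, e05, e24, e25, e45, k1, k3]
    linear_combination h.c13 + s * h.u2
  · rw [e02, e03, e05, e23, e25, e35, k1, k4]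
    linear_combination h.c14
  · rw [e02, e03, e04, e23, e24, e34, k1, k5]
    linear_combination h.c15
  · rw [e01, e04, e05, e14, e15, e45, k2, k3]
    linear_combination h.c23 - s * h.u1
  · rw [e01, e03, e05, e13, e15, e35, k2, k4]
    linear_combination h.c24
  · rw [e01, e03, e04, e13, e14, e34, k2, k5]
    linear_combination h.c25
  · rw [e01, e02, e05, e12, e15, e25, k3, k4]
    linear_combination h.c34
  · rw [e01, e02, e04, e12, e14, e24, k3, k5]
    linear_combination h.c35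
  · rw [e01, e02, e03, e12, e13, e23, k4, k5]
    linear_combination h.c45

theorem root045 (s : F) (x : V F) (hx : White x) :
    White (x.1 + kap (-s) 1 2 3 x.2.1, x.2.1 +
      s • con (Pi.single 0 (1 : F)) (Pi.single 4 (1 : F)) (Pi.single 5 (1 : F)) x.2.2, x.2.2) := by
  obtain ⟨w, b, u⟩ := x
  have hb : Alt b := hx.1
  refine of_wc (alt_add hb (alt_smul' s (alt_con _ _ _ _))) (core045 s (wc_of hb hx) ?_ ?_ ?_ ?_ ?_ ?_ ?_ ?_ ?_ ?_ ?_ ?_
    ?_ ?_ ?_ ?_ ?_ ?_ ?_ ?_ ?_)
  iterate 15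
    · rw [Matrix.add_apply, Matrix.smul_apply, con_single]
      simp [Pi.single_apply]
      try ring
  iterate 6
    · rw [Pi.add_apply, kap_apply]
      simp [Pi.single_apply]
      try ring

theorem core123 {b b' : Matrix (Fin 6) (Fin 6) F} {w w' u : Fin 6 → F} (s : F)
    (h : WC b w u)
    (e01 : b' 0 1 = b 0 1)
    (e02 : b' 0 2 = b 0 2)
    (e03 : b' 0 3 = b 0 3)
    (e04 : b' 0 4 = b 0 4)
    (e05 : b' 0 5 = b 0 5)
    (e12 : b' 1 2 = b 1 2 + s * u 3)
    (e13 : b' 1 3 = b 1 3 - s * u 2)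
    (e14 : b' 1 4 = b 1 4)
    (e15 : b' 1 5 = b 1 5)
    (e23 : b' 2 3 = b 2 3 + s * u 1)
    (e24 : b' 2 4 = b 2 4)
    (e25 : b' 2 5 = b 2 5)
    (e34 : b' 3 4 = b 3 4)
    (e35 : b' 3 5 = b 3 5)
    (e45 : b' 4 5 = b 4 5)
    (k0 : w' 0 = w 0 + s * b 4 5)
    (k1 : w' 1 = w 1)
    (k2 : w' 2 = w 2)
    (k3 : w' 3 = w 3)
    (k4 : w' 4 = w 4 - s * b 0 5)
    (k5 : w' 5 = w 5 + s * b 0 4)
    : WC b' w' u := by
  constructor
  · rw [e01, e02, e03, e04, e05, k1, k2, k3, k4, k5]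
    linear_combination h.w0
  · rw [e01, e12, e13, e14, e15, k0, k2, k3, k4, k5]
    linear_combination h.w1 - s * h.c23
  · rw [e02, e12, e23, e24, e25, k0, k1, k3, k4, k5]
    linear_combination h.w2 + s * h.c13
  · rw [e03, e13, e23, e34, e35, k0, k1, k2, k4, k5]
    linear_combination h.w3 - s * h.c12
  · rw [e04, e14, e24, e34, e45, k0, k1, k2, k3, k5]
    linear_combination h.w4
  · rw [e05, e15, e25, e35, e45, k0, k1, k2, k3, k4]
    linear_combination h.w5
  · rw [e01, e02, e03, e04, e05]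
    linear_combination h.u0
  · rw [e01, e12, e13, e14, e15]
    linear_combination h.u1
  · rw [e02, e12, e23, e24, e25]
    linear_combination h.u2
  · rw [e03, e13, e23, e34, e35]
    linear_combination h.u3
  · rw [e04, e14, e24, e34, e45]
    linear_combination h.u4
  · rw [e05, e15, e25, e35, e45]
    linear_combination h.u5
  · rw [e23, e24, e25, e34, e35, e45, k0, k1]
    linear_combination h.c01
  · rw [e13, e14, e15, e34, e35, e45, k0, k2]
    linear_combination h.c02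
  · rw [e12, e14, e15, e24, e25, e45, k0, k3]
    linear_combination h.c03
  · rw [e12, e13, e15, e23, e25, e35, k0, k4]
    linear_combination h.c04 + s * h.u5
  · rw [e12, e13, e14, e23, e24, e34, k0, k5]
    linear_combination h.c05 - s * h.u4
  · rw [e03, e04, e05, e34, e35, e45, k1, k2]
    linear_combination h.c12
  · rw [e02, e04, e05, e24, e25, e45, k1, k3]
    linear_combination h.c13
  · rw [e02, e03, e05, e23, e25, e35, k1, k4]
    linear_combination h.c14
  · rw [e02, e03, e04, e23, e24, e34, k1, k5]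
    linear_combination h.c15
  · rw [e01, e04, e05, e14, e15, e45, k2, k3]
    linear_combination h.c23
  · rw [e01, e03, e05, e13, e15, e35, k2, k4]
    linear_combination h.c24
  · rw [e01, e03, e04, e13, e14, e34, k2, k5]
    linear_combination h.c25
  · rw [e01, e02, e05, e12, e15, e25, k3, k4]
    linear_combination h.c34
  · rw [e01, e02, e04, e12, e14, e24, k3, k5]
    linear_combination h.c35
  · rw [e01, e02, e03, e12, e13, e23, k4, k5]
    linear_combination h.c45 + s * h.u0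

theorem root123 (s : F) (x : V F) (hx : White x) :
    White (x.1 + kap s 0 4 5 x.2.1, x.2.1 +
      s • con (Pi.single 1 (1 : F)) (Pi.single 2 (1 : F)) (Pi.single 3 (1 : F)) x.2.2, x.2.2) := by
  obtain ⟨w, b, u⟩ := x
  have hb : Alt b := hx.1
  refine of_wc (alt_add hb (alt_smul' s (alt_con _ _ _ _))) (core123 s (wc_of hb hx) ?_ ?_ ?_ ?_ ?_ ?_ ?_ ?_ ?_ ?_ ?_ ?_
    ?_ ?_ ?_ ?_ ?_ ?_ ?_ ?_ ?_)
  iterate 15
    · rw [Matrix.add_apply, Matrix.smul_apply, con_single]
      simp [Pi.single_apply]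
      try ring
  iterate 6
    · rw [Pi.add_apply, kap_apply]
      simp [Pi.single_apply]
      try ring

theorem core124 {b b' : Matrix (Fin 6) (Fin 6) F} {w w' u : Fin 6 → F} (s : F)
    (h : WC b w u)
    (e01 : b' 0 1 = b 0 1)
    (e02 : b' 0 2 = b 0 2)
    (e03 : b' 0 3 = b 0 3)
    (e04 : b' 0 4 = b 0 4)
    (e05 : b' 0 5 = b 0 5)
    (e12 : b' 1 2 = b 1 2 + s * u 4)
    (e13 : b' 1 3 = b 1 3)
    (e14 : b' 1 4 = b 1 4 - s * u 2)
    (e15 : b' 1 5 = b 1 5)
    (e23 : b' 2 3 = b 2 3)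
    (e24 : b' 2 4 = b 2 4 + s * u 1)
    (e25 : b' 2 5 = b 2 5)
    (e34 : b' 3 4 = b 3 4)
    (e35 : b' 3 5 = b 3 5)
    (e45 : b' 4 5 = b 4 5)
    (k0 : w' 0 = w 0 - s * b 3 5)
    (k1 : w' 1 = w 1)
    (k2 : w' 2 = w 2)
    (k3 : w' 3 = w 3 + s * b 0 5)
    (k4 : w' 4 = w 4)
    (k5 : w' 5 = w 5 - s * b 0 3)
    : WC b' w' u := by
  constructor
  · rw [e01, e02, e03, e04, e05, k1, k2, k3, k4, k5]
    linear_combination h.w0
  · rw [e01, e12, e13, e14, e15, k0, k2, k3, k4, k5]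
    linear_combination h.w1 - s * h.c24
  · rw [e02, e12, e23, e24, e25, k0, k1, k3, k4, k5]
    linear_combination h.w2 + s * h.c14
  · rw [e03, e13, e23, e34, e35, k0, k1, k2, k4, k5]
    linear_combination h.w3
  · rw [e04, e14, e24, e34, e45, k0, k1, k2, k3, k5]
    linear_combination h.w4 - s * h.c12
  · rw [e05, e15, e25, e35, e45, k0, k1, k2, k3, k4]
    linear_combination h.w5
  · rw [e01, e02, e03, e04, e05]
    linear_combination h.u0
  · rw [e01, e12, e13, e14, e15]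
    linear_combination h.u1
  · rw [e02, e12, e23, e24, e25]
    linear_combination h.u2
  · rw [e03, e13, e23, e34, e35]
    linear_combination h.u3
  · rw [e04, e14, e24, e34, e45]
    linear_combination h.u4
  · rw [e05, e15, e25, e35, e45]
    linear_combination h.u5
  · rw [e23, e24, e25, e34, e35, e45, k0, k1]
    linear_combination h.c01
  · rw [e13, e14, e15, e34, e35, e45, k0, k2]
    linear_combination h.c02
  · rw [e12, e14, e15, e24, e25, e45, k0, k3]
    linear_combination h.c03 - s * h.u5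
  · rw [e12, e13, e15, e23, e25, e35, k0, k4]
    linear_combination h.c04
  · rw [e12, e13, e14, e23, e24, e34, k0, k5]
    linear_combination h.c05 + s * h.u3
  · rw [e03, e04, e05, e34, e35, e45, k1, k2]
    linear_combination h.c12
  · rw [e02, e04, e05, e24, e25, e45, k1, k3]
    linear_combination h.c13
  · rw [e02, e03, e05, e23, e25, e35, k1, k4]
    linear_combination h.c14
  · rw [e02, e03, e04, e23, e24, e34, k1, k5]
    linear_combination h.c15
  · rw [e01, e04, e05, e14, e15, e45, k2, k3]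
    linear_combination h.c23
  · rw [e01, e03, e05, e13, e15, e35, k2, k4]
    linear_combination h.c24
  · rw [e01, e03, e04, e13, e14, e34, k2, k5]
    linear_combination h.c25
  · rw [e01, e02, e05, e12, e15, e25, k3, k4]
    linear_combination h.c34
  · rw [e01, e02, e04, e12, e14, e24, k3, k5]
    linear_combination h.c35 - s * h.u0
  · rw [e01, e02, e03, e12, e13, e23, k4, k5]
    linear_combination h.c45

theorem root124 (s : F) (x : V F) (hx : White x) :
    White (x.1 + kap (-s) 0 3 5 x.2.1, x.2.1 +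
      s • con (Pi.single 1 (1 : F)) (Pi.single 2 (1 : F)) (Pi.single 4 (1 : F)) x.2.2, x.2.2) := by
  obtain ⟨w, b, u⟩ := x
  have hb : Alt b := hx.1
  refine of_wc (alt_add hb (alt_smul' s (alt_con _ _ _ _))) (core124 s (wc_of hb hx) ?_ ?_ ?_ ?_ ?_ ?_ ?_ ?_ ?_ ?_ ?_ ?_
    ?_ ?_ ?_ ?_ ?_ ?_ ?_ ?_ ?_)
  iterate 15
    · rw [Matrix.add_apply, Matrix.smul_apply, con_single]
      simp [Pi.single_apply]
      try ring
  iterate 6
    · rw [Pi.add_apply, kap_apply]
      simp [Pi.single_apply]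
      try ring

theorem core125 {b b' : Matrix (Fin 6) (Fin 6) F} {w w' u : Fin 6 → F} (s : F)
    (h : WC b w u)
    (e01 : b' 0 1 = b 0 1)
    (e02 : b' 0 2 = b 0 2)
    (e03 : b' 0 3 = b 0 3)
    (e04 : b' 0 4 = b 0 4)
    (e05 : b' 0 5 = b 0 5)
    (e12 : b' 1 2 = b 1 2 + s * u 5)
    (e13 : b' 1 3 = b 1 3)
    (e14 : b' 1 4 = b 1 4)
    (e15 : b' 1 5 = b 1 5 - s * u 2)
    (e23 : b' 2 3 = b 2 3)
    (e24 : b' 2 4 = b 2 4)
    (e25 : b' 2 5 = b 2 5 + s * u 1)
    (e34 : b' 3 4 = b 3 4)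
    (e35 : b' 3 5 = b 3 5)
    (e45 : b' 4 5 = b 4 5)
    (k0 : w' 0 = w 0 + s * b 3 4)
    (k1 : w' 1 = w 1)
    (k2 : w' 2 = w 2)
    (k3 : w' 3 = w 3 - s * b 0 4)
    (k4 : w' 4 = w 4 + s * b 0 3)
    (k5 : w' 5 = w 5)
    : WC b' w' u := by
  constructor
  · rw [e01, e02, e03, e04, e05, k1, k2, k3, k4, k5]
    linear_combination h.w0
  · rw [e01, e12, e13, e14, e15, k0, k2, k3, k4, k5]
    linear_combination h.w1 - s * h.c25
  · rw [e02, e12, e23, e24, e25, k0, k1, k3, k4, k5]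
    linear_combination h.w2 + s * h.c15
  · rw [e03, e13, e23, e34, e35, k0, k1, k2, k4, k5]
    linear_combination h.w3
  · rw [e04, e14, e24, e34, e45, k0, k1, k2, k3, k5]
    linear_combination h.w4
  · rw [e05, e15, e25, e35, e45, k0, k1, k2, k3, k4]
    linear_combination h.w5 - s * h.c12
  · rw [e01, e02, e03, e04, e05]
    linear_combination h.u0
  · rw [e01, e12, e13, e14, e15]
    linear_combination h.u1
  · rw [e02, e12, e23, e24, e25]
    linear_combination h.u2
  · rw [e03, e13, e23, e34, e35]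
    linear_combination h.u3
  · rw [e04, e14, e24, e34, e45]
    linear_combination h.u4
  · rw [e05, e15, e25, e35, e45]
    linear_combination h.u5
  · rw [e23, e24, e25, e34, e35, e45, k0, k1]
    linear_combination h.c01
  · rw [e13, e14, e15, e34, e35, e45, k0, k2]
    linear_combination h.c02
  · rw [e12, e14, e15, e24, e25, e45, k0, k3]
    linear_combination h.c03 + s * h.u4
  · rw [e12, e13, e15, e23, e25, e35, k0, k4]
    linear_combination h.c04 - s * h.u3
  · rw [e12, e13, e14, e23, e24, e34, k0, k5]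
    linear_combination h.c05
  · rw [e03, e04, e05, e34, e35, e45, k1, k2]
    linear_combination h.c12
  · rw [e02, e04, e05, e24, e25, e45, k1, k3]
    linear_combination h.c13
  · rw [e02, e03, e05, e23, e25, e35, k1, k4]
    linear_combination h.c14
  · rw [e02, e03, e04, e23, e24, e34, k1, k5]
    linear_combination h.c15
  · rw [e01, e04, e05, e14, e15, e45, k2, k3]
    linear_combination h.c23
  · rw [e01, e03, e05, e13, e15, e35, k2, k4]
    linear_combination h.c24
  · rw [e01, e03, e04, e13, e14, e34, k2, k5]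
    linear_combination h.c25
  · rw [e01, e02, e05, e12, e15, e25, k3, k4]
    linear_combination h.c34 + s * h.u0
  · rw [e01, e02, e04, e12, e14, e24, k3, k5]
    linear_combination h.c35
  · rw [e01, e02, e03, e12, e13, e23, k4, k5]
    linear_combination h.c45

theorem root125 (s : F) (x : V F) (hx : White x) :
    White (x.1 + kap s 0 3 4 x.2.1, x.2.1 +
      s • con (Pi.single 1 (1 : F)) (Pi.single 2 (1 : F)) (Pi.single 5 (1 : F)) x.2.2, x.2.2) := by
  obtain ⟨w, b, u⟩ := x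
  have hb : Alt b := hx.1
  refine of_wc (alt_add hb (alt_smul' s (alt_con _ _ _ _))) (core125 s (wc_of hb hx) ?_ ?_ ?_ ?_ ?_ ?_ ?_ ?_ ?_ ?_ ?_ ?_
    ?_ ?_ ?_ ?_ ?_ ?_ ?_ ?_ ?_)
  iterate 15
    · rw [Matrix.add_apply, Matrix.smul_apply, con_single]
      simp [Pi.single_apply]
      try ring
  iterate 6
    · rw [Pi.add_apply, kap_apply]
      simp [Pi.single_apply]
      try ring

theorem core134 {b b' : Matrix (Fin 6) (Fin 6) F} {w w' u : Fin 6 → F} (s : F)
    (h : WC b w u)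
    (e01 : b' 0 1 = b 0 1)
    (e02 : b' 0 2 = b 0 2)
    (e03 : b' 0 3 = b 0 3)
    (e04 : b' 0 4 = b 0 4)
    (e05 : b' 0 5 = b 0 5)
    (e12 : b' 1 2 = b 1 2)
    (e13 : b' 1 3 = b 1 3 + s * u 4)
    (e14 : b' 1 4 = b 1 4 - s * u 3)
    (e15 : b' 1 5 = b 1 5)
    (e23 : b' 2 3 = b 2 3)
    (e24 : b' 2 4 = b 2 4)
    (e25 : b' 2 5 = b 2 5)
    (e34 : b' 3 4 = b 3 4 + s * u 1)
    (e35 : b' 3 5 = b 3 5)
    (e45 : b' 4 5 = b 4 5)
    (k0 : w' 0 = w 0 + s * b 2 5)
    (k1 : w' 1 = w 1)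
    (k2 : w' 2 = w 2 - s * b 0 5)
    (k3 : w' 3 = w 3)
    (k4 : w' 4 = w 4)
    (k5 : w' 5 = w 5 + s * b 0 2)
    : WC b' w' u := by
  constructor
  · rw [e01, e02, e03, e04, e05, k1, k2, k3, k4, k5]
    linear_combination h.w0
  · rw [e01, e12, e13, e14, e15, k0, k2, k3, k4, k5]
    linear_combination h.w1 - s * h.c34
  · rw [e02, e12, e23, e24, e25, k0, k1, k3, k4, k5]
    linear_combination h.w2
  · rw [e03, e13, e23, e34, e35, k0, k1, k2, k4, k5]
    linear_combination h.w3 + s * h.c14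
  · rw [e04, e14, e24, e34, e45, k0, k1, k2, k3, k5]
    linear_combination h.w4 - s * h.c13
  · rw [e05, e15, e25, e35, e45, k0, k1, k2, k3, k4]
    linear_combination h.w5
  · rw [e01, e02, e03, e04, e05]
    linear_combination h.u0
  · rw [e01, e12, e13, e14, e15]
    linear_combination h.u1
  · rw [e02, e12, e23, e24, e25]
    linear_combination h.u2
  · rw [e03, e13, e23, e34, e35]
    linear_combination h.u3
  · rw [e04, e14, e24, e34, e45]
    linear_combination h.u4
  · rw [e05, e15, e25, e35, e45]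
    linear_combination h.u5
  · rw [e23, e24, e25, e34, e35, e45, k0, k1]
    linear_combination h.c01
  · rw [e13, e14, e15, e34, e35, e45, k0, k2]
    linear_combination h.c02 + s * h.u5
  · rw [e12, e14, e15, e24, e25, e45, k0, k3]
    linear_combination h.c03
  · rw [e12, e13, e15, e23, e25, e35, k0, k4]
    linear_combination h.c04
  · rw [e12, e13, e14, e23, e24, e34, k0, k5]
    linear_combination h.c05 - s * h.u2
  · rw [e03, e04, e05, e34, e35, e45, k1, k2]
    linear_combination h.c12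
  · rw [e02, e04, e05, e24, e25, e45, k1, k3]
    linear_combination h.c13
  · rw [e02, e03, e05, e23, e25, e35, k1, k4]
    linear_combination h.c14
  · rw [e02, e03, e04, e23, e24, e34, k1, k5]
    linear_combination h.c15
  · rw [e01, e04, e05, e14, e15, e45, k2, k3]
    linear_combination h.c23
  · rw [e01, e03, e05, e13, e15, e35, k2, k4]
    linear_combination h.c24
  · rw [e01, e03, e04, e13, e14, e34, k2, k5]
    linear_combination h.c25 + s * h.u0
  · rw [e01, e02, e05, e12, e15, e25, k3, k4]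
    linear_combination h.c34
  · rw [e01, e02, e04, e12, e14, e24, k3, k5]
    linear_combination h.c35
  · rw [e01, e02, e03, e12, e13, e23, k4, k5]
    linear_combination h.c45

theorem root134 (s : F) (x : V F) (hx : White x) :
    White (x.1 + kap s 0 2 5 x.2.1, x.2.1 +
      s • con (Pi.single 1 (1 : F)) (Pi.single 3 (1 : F)) (Pi.single 4 (1 : F)) x.2.2, x.2.2) := by
  obtain ⟨w, b, u⟩ := x
  have hb : Alt b := hx.1
  refine of_wc (alt_add hb (alt_smul' s (alt_con _ _ _ _))) (core134 s (wc_of hb hx) ?_ ?_ ?_ ?_ ?_ ?_ ?_ ?_ ?_ ?_ ?_ ?_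
    ?_ ?_ ?_ ?_ ?_ ?_ ?_ ?_ ?_)
  iterate 15
    · rw [Matrix.add_apply, Matrix.smul_apply, con_single]
      simp [Pi.single_apply]
      try ring
  iterate 6
    · rw [Pi.add_apply, kap_apply]
      simp [Pi.single_apply]
      try ring

theorem core135 {b b' : Matrix (Fin 6) (Fin 6) F} {w w' u : Fin 6 → F} (s : F)
    (h : WC b w u)
    (e01 : b' 0 1 = b 0 1)
    (e02 : b' 0 2 = b 0 2)
    (e03 : b' 0 3 = b 0 3)
    (e04 : b' 0 4 = b 0 4)
    (e05 : b' 0 5 = b 0 5)
    (e12 : b' 1 2 = b 1 2)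
    (e13 : b' 1 3 = b 1 3 + s * u 5)
    (e14 : b' 1 4 = b 1 4)
    (e15 : b' 1 5 = b 1 5 - s * u 3)
    (e23 : b' 2 3 = b 2 3)
    (e24 : b' 2 4 = b 2 4)
    (e25 : b' 2 5 = b 2 5)
    (e34 : b' 3 4 = b 3 4)
    (e35 : b' 3 5 = b 3 5 + s * u 1)
    (e45 : b' 4 5 = b 4 5)
    (k0 : w' 0 = w 0 - s * b 2 4)
    (k1 : w' 1 = w 1)
    (k2 : w' 2 = w 2 + s * b 0 4)
    (k3 : w' 3 = w 3)
    (k4 : w' 4 = w 4 - s * b 0 2)
    (k5 : w' 5 = w 5)
    : WC b' w' u := by
  constructor
  · rw [e01, e02, e03, e04, e05, k1, k2, k3, k4, k5]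
    linear_combination h.w0
  · rw [e01, e12, e13, e14, e15, k0, k2, k3, k4, k5]
    linear_combination h.w1 - s * h.c35
  · rw [e02, e12, e23, e24, e25, k0, k1, k3, k4, k5]
    linear_combination h.w2
  · rw [e03, e13, e23, e34, e35, k0, k1, k2, k4, k5]
    linear_combination h.w3 + s * h.c15
  · rw [e04, e14, e24, e34, e45, k0, k1, k2, k3, k5]
    linear_combination h.w4
  · rw [e05, e15, e25, e35, e45, k0, k1, k2, k3, k4]
    linear_combination h.w5 - s * h.c13
  · rw [e01, e02, e03, e04, e05]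
    linear_combination h.u0
  · rw [e01, e12, e13, e14, e15]
    linear_combination h.u1
  · rw [e02, e12, e23, e24, e25]
    linear_combination h.u2
  · rw [e03, e13, e23, e34, e35]
    linear_combination h.u3
  · rw [e04, e14, e24, e34, e45]
    linear_combination h.u4
  · rw [e05, e15, e25, e35, e45]
    linear_combination h.u5
  · rw [e23, e24, e25, e34, e35, e45, k0, k1]
    linear_combination h.c01
  · rw [e13, e14, e15, e34, e35, e45, k0, k2]
    linear_combination h.c02 - s * h.u4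
  · rw [e12, e14, e15, e24, e25, e45, k0, k3]
    linear_combination h.c03
  · rw [e12, e13, e15, e23, e25, e35, k0, k4]
    linear_combination h.c04 + s * h.u2
  · rw [e12, e13, e14, e23, e24, e34, k0, k5]
    linear_combination h.c05
  · rw [e03, e04, e05, e34, e35, e45, k1, k2]
    linear_combination h.c12
  · rw [e02, e04, e05, e24, e25, e45, k1, k3]
    linear_combination h.c13
  · rw [e02, e03, e05, e23, e25, e35, k1, k4]
    linear_combination h.c14
  · rw [e02, e03, e04, e23, e24, e34, k1, k5]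
    linear_combination h.c15
  · rw [e01, e04, e05, e14, e15, e45, k2, k3]
    linear_combination h.c23
  · rw [e01, e03, e05, e13, e15, e35, k2, k4]
    linear_combination h.c24 - s * h.u0
  · rw [e01, e03, e04, e13, e14, e34, k2, k5]
    linear_combination h.c25
  · rw [e01, e02, e05, e12, e15, e25, k3, k4]
    linear_combination h.c34
  · rw [e01, e02, e04, e12, e14, e24, k3, k5]
    linear_combination h.c35
  · rw [e01, e02, e03, e12, e13, e23, k4, k5]
    linear_combination h.c45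

theorem root135 (s : F) (x : V F) (hx : White x) :
    White (x.1 + kap (-s) 0 2 4 x.2.1, x.2.1 +
      s • con (Pi.single 1 (1 : F)) (Pi.single 3 (1 : F)) (Pi.single 5 (1 : F)) x.2.2, x.2.2) := by
  obtain ⟨w, b, u⟩ := x
  have hb : Alt b := hx.1
  refine of_wc (alt_add hb (alt_smul' s (alt_con _ _ _ _))) (core135 s (wc_of hb hx) ?_ ?_ ?_ ?_ ?_ ?_ ?_ ?_ ?_ ?_ ?_ ?_
    ?_ ?_ ?_ ?_ ?_ ?_ ?_ ?_ ?_)
  iterate 15
    · rw [Matrix.add_apply, Matrix.smul_apply, con_single]
      simp [Pi.single_apply]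
      try ring
  iterate 6
    · rw [Pi.add_apply, kap_apply]
      simp [Pi.single_apply]
      try ring

theorem core145 {b b' : Matrix (Fin 6) (Fin 6) F} {w w' u : Fin 6 → F} (s : F)
    (h : WC b w u)
    (e01 : b' 0 1 = b 0 1)
    (e02 : b' 0 2 = b 0 2)
    (e03 : b' 0 3 = b 0 3)
    (e04 : b' 0 4 = b 0 4)
    (e05 : b' 0 5 = b 0 5)
    (e12 : b' 1 2 = b 1 2)
    (e13 : b' 1 3 = b 1 3)
    (e14 : b' 1 4 = b 1 4 + s * u 5)
    (e15 : b' 1 5 = b 1 5 - s * u 4)
    (e23 : b' 2 3 = b 2 3)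
    (e24 : b' 2 4 = b 2 4)
    (e25 : b' 2 5 = b 2 5)
    (e34 : b' 3 4 = b 3 4)
    (e35 : b' 3 5 = b 3 5)
    (e45 : b' 4 5 = b 4 5 + s * u 1)
    (k0 : w' 0 = w 0 + s * b 2 3)
    (k1 : w' 1 = w 1)
    (k2 : w' 2 = w 2 - s * b 0 3)
    (k3 : w' 3 = w 3 + s * b 0 2)
    (k4 : w' 4 = w 4)
    (k5 : w' 5 = w 5)
    : WC b' w' u := by
  constructor
  · rw [e01, e02, e03, e04, e05, k1, k2, k3, k4, k5]
    linear_combination h.w0
  · rw [e01, e12, e13, e14, e15, k0, k2, k3, k4, k5]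
    linear_combination h.w1 - s * h.c45
  · rw [e02, e12, e23, e24, e25, k0, k1, k3, k4, k5]
    linear_combination h.w2
  · rw [e03, e13, e23, e34, e35, k0, k1, k2, k4, k5]
    linear_combination h.w3
  · rw [e04, e14, e24, e34, e45, k0, k1, k2, k3, k5]
    linear_combination h.w4 + s * h.c15
  · rw [e05, e15, e25, e35, e45, k0, k1, k2, k3, k4]
    linear_combination h.w5 - s * h.c14
  · rw [e01, e02, e03, e04, e05]
    linear_combination h.u0
  · rw [e01, e12, e13, e14, e15]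
    linear_combination h.u1
  · rw [e02, e12, e23, e24, e25]
    linear_combination h.u2
  · rw [e03, e13, e23, e34, e35]
    linear_combination h.u3
  · rw [e04, e14, e24, e34, e45]
    linear_combination h.u4
  · rw [e05, e15, e25, e35, e45]
    linear_combination h.u5
  · rw [e23, e24, e25, e34, e35, e45, k0, k1]
    linear_combination h.c01
  · rw [e13, e14, e15, e34, e35, e45, k0, k2]
    linear_combination h.c02 + s * h.u3
  · rw [e12, e14, e15, e24, e25, e45, k0, k3]
    linear_combination h.c03 - s * h.u2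
  · rw [e12, e13, e15, e23, e25, e35, k0, k4]
    linear_combination h.c04
  · rw [e12, e13, e14, e23, e24, e34, k0, k5]
    linear_combination h.c05
  · rw [e03, e04, e05, e34, e35, e45, k1, k2]
    linear_combination h.c12
  · rw [e02, e04, e05, e24, e25, e45, k1, k3]
    linear_combination h.c13
  · rw [e02, e03, e05, e23, e25, e35, k1, k4]
    linear_combination h.c14
  · rw [e02, e03, e04, e23, e24, e34, k1, k5]
    linear_combination h.c15
  · rw [e01, e04, e05, e14, e15, e45, k2, k3]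
    linear_combination h.c23 + s * h.u0
  · rw [e01, e03, e05, e13, e15, e35, k2, k4]
    linear_combination h.c24
  · rw [e01, e03, e04, e13, e14, e34, k2, k5]
    linear_combination h.c25
  · rw [e01, e02, e05, e12, e15, e25, k3, k4]
    linear_combination h.c34
  · rw [e01, e02, e04, e12, e14, e24, k3, k5]
    linear_combination h.c35
  · rw [e01, e02, e03, e12, e13, e23, k4, k5]
    linear_combination h.c45

theorem root145 (s : F) (x : V F) (hx : White x) :
    White (x.1 + kap s 0 2 3 x.2.1, x.2.1 +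
      s • con (Pi.single 1 (1 : F)) (Pi.single 4 (1 : F)) (Pi.single 5 (1 : F)) x.2.2, x.2.2) := by
  obtain ⟨w, b, u⟩ := x
  have hb : Alt b := hx.1
  refine of_wc (alt_add hb (alt_smul' s (alt_con _ _ _ _))) (core145 s (wc_of hb hx) ?_ ?_ ?_ ?_ ?_ ?_ ?_ ?_ ?_ ?_ ?_ ?_
    ?_ ?_ ?_ ?_ ?_ ?_ ?_ ?_ ?_)
  iterate 15
    · rw [Matrix.add_apply, Matrix.smul_apply, con_single]
      simp [Pi.single_apply]
      try ring
  iterate 6
    · rw [Pi.add_apply, kap_apply]
      simp [Pi.single_apply]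
      try ring

theorem core234 {b b' : Matrix (Fin 6) (Fin 6) F} {w w' u : Fin 6 → F} (s : F)
    (h : WC b w u)
    (e01 : b' 0 1 = b 0 1)
    (e02 : b' 0 2 = b 0 2)
    (e03 : b' 0 3 = b 0 3)
    (e04 : b' 0 4 = b 0 4)
    (e05 : b' 0 5 = b 0 5)
    (e12 : b' 1 2 = b 1 2)
    (e13 : b' 1 3 = b 1 3)
    (e14 : b' 1 4 = b 1 4)
    (e15 : b' 1 5 = b 1 5)
    (e23 : b' 2 3 = b 2 3 + s * u 4)
    (e24 : b' 2 4 = b 2 4 - s * u 3)
    (e25 : b' 2 5 = b 2 5)
    (e34 : b' 3 4 = b 3 4 + s * u 2)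
    (e35 : b' 3 5 = b 3 5)
    (e45 : b' 4 5 = b 4 5)
    (k0 : w' 0 = w 0 - s * b 1 5)
    (k1 : w' 1 = w 1 + s * b 0 5)
    (k2 : w' 2 = w 2)
    (k3 : w' 3 = w 3)
    (k4 : w' 4 = w 4)
    (k5 : w' 5 = w 5 - s * b 0 1)
    : WC b' w' u := by
  constructor
  · rw [e01, e02, e03, e04, e05, k1, k2, k3, k4, k5]
    linear_combination h.w0
  · rw [e01, e12, e13, e14, e15, k0, k2, k3, k4, k5]
    linear_combination h.w1
  · rw [e02, e12, e23, e24, e25, k0, k1, k3, k4, k5]
    linear_combination h.w2 - s * h.c34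
  · rw [e03, e13, e23, e34, e35, k0, k1, k2, k4, k5]
    linear_combination h.w3 + s * h.c24
  · rw [e04, e14, e24, e34, e45, k0, k1, k2, k3, k5]
    linear_combination h.w4 - s * h.c23
  · rw [e05, e15, e25, e35, e45, k0, k1, k2, k3, k4]
    linear_combination h.w5
  · rw [e01, e02, e03, e04, e05]
    linear_combination h.u0
  · rw [e01, e12, e13, e14, e15]
    linear_combination h.u1
  · rw [e02, e12, e23, e24, e25]
    linear_combination h.u2
  · rw [e03, e13, e23, e34, e35]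
    linear_combination h.u3
  · rw [e04, e14, e24, e34, e45]
    linear_combination h.u4
  · rw [e05, e15, e25, e35, e45]
    linear_combination h.u5
  · rw [e23, e24, e25, e34, e35, e45, k0, k1]
    linear_combination h.c01 - s * h.u5
  · rw [e13, e14, e15, e34, e35, e45, k0, k2]
    linear_combination h.c02
  · rw [e12, e14, e15, e24, e25, e45, k0, k3]
    linear_combination h.c03
  · rw [e12, e13, e15, e23, e25, e35, k0, k4]
    linear_combination h.c04
  · rw [e12, e13, e14, e23, e24, e34, k0, k5]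
    linear_combination h.c05 + s * h.u1
  · rw [e03, e04, e05, e34, e35, e45, k1, k2]
    linear_combination h.c12
  · rw [e02, e04, e05, e24, e25, e45, k1, k3]
    linear_combination h.c13
  · rw [e02, e03, e05, e23, e25, e35, k1, k4]
    linear_combination h.c14
  · rw [e02, e03, e04, e23, e24, e34, k1, k5]
    linear_combination h.c15 - s * h.u0
  · rw [e01, e04, e05, e14, e15, e45, k2, k3]
    linear_combination h.c23
  · rw [e01, e03, e05, e13, e15, e35, k2, k4]
    linear_combination h.c24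
  · rw [e01, e03, e04, e13, e14, e34, k2, k5]
    linear_combination h.c25
  · rw [e01, e02, e05, e12, e15, e25, k3, k4]
    linear_combination h.c34
  · rw [e01, e02, e04, e12, e14, e24, k3, k5]
    linear_combination h.c35
  · rw [e01, e02, e03, e12, e13, e23, k4, k5]
    linear_combination h.c45

theorem root234 (s : F) (x : V F) (hx : White x) :
    White (x.1 + kap (-s) 0 1 5 x.2.1, x.2.1 +
      s • con (Pi.single 2 (1 : F)) (Pi.single 3 (1 : F)) (Pi.single 4 (1 : F)) x.2.2, x.2.2) := by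
  obtain ⟨w, b, u⟩ := x
  have hb : Alt b := hx.1
  refine of_wc (alt_add hb (alt_smul' s (alt_con _ _ _ _))) (core234 s (wc_of hb hx) ?_ ?_ ?_ ?_ ?_ ?_ ?_ ?_ ?_ ?_ ?_ ?_
    ?_ ?_ ?_ ?_ ?_ ?_ ?_ ?_ ?_)
  iterate 15
    · rw [Matrix.add_apply, Matrix.smul_apply, con_single]
      simp [Pi.single_apply]
      try ring
  iterate 6
    · rw [Pi.add_apply, kap_apply]
      simp [Pi.single_apply]
      try ring

theorem core235 {b b' : Matrix (Fin 6) (Fin 6) F} {w w' u : Fin 6 → F} (s : F)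
    (h : WC b w u)
    (e01 : b' 0 1 = b 0 1)
    (e02 : b' 0 2 = b 0 2)
    (e03 : b' 0 3 = b 0 3)
    (e04 : b' 0 4 = b 0 4)
    (e05 : b' 0 5 = b 0 5)
    (e12 : b' 1 2 = b 1 2)
    (e13 : b' 1 3 = b 1 3)
    (e14 : b' 1 4 = b 1 4)
    (e15 : b' 1 5 = b 1 5)
    (e23 : b' 2 3 = b 2 3 + s * u 5)
    (e24 : b' 2 4 = b 2 4)
    (e25 : b' 2 5 = b 2 5 - s * u 3)
    (e34 : b' 3 4 = b 3 4)
    (e35 : b' 3 5 = b 3 5 + s * u 2)
    (e45 : b' 4 5 = b 4 5)
    (k0 : w' 0 = w 0 + s * b 1 4)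
    (k1 : w' 1 = w 1 - s * b 0 4)
    (k2 : w' 2 = w 2)
    (k3 : w' 3 = w 3)
    (k4 : w' 4 = w 4 + s * b 0 1)
    (k5 : w' 5 = w 5)
    : WC b' w' u := by
  constructor
  · rw [e01, e02, e03, e04, e05, k1, k2, k3, k4, k5]
    linear_combination h.w0
  · rw [e01, e12, e13, e14, e15, k0, k2, k3, k4, k5]
    linear_combination h.w1
  · rw [e02, e12, e23, e24, e25, k0, k1, k3, k4, k5]
    linear_combination h.w2 - s * h.c35
  · rw [e03, e13, e23, e34, e35, k0, k1, k2, k4, k5]
    linear_combination h.w3 + s * h.c25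
  · rw [e04, e14, e24, e34, e45, k0, k1, k2, k3, k5]
    linear_combination h.w4
  · rw [e05, e15, e25, e35, e45, k0, k1, k2, k3, k4]
    linear_combination h.w5 - s * h.c23
  · rw [e01, e02, e03, e04, e05]
    linear_combination h.u0
  · rw [e01, e12, e13, e14, e15]
    linear_combination h.u1
  · rw [e02, e12, e23, e24, e25]
    linear_combination h.u2
  · rw [e03, e13, e23, e34, e35]
    linear_combination h.u3
  · rw [e04, e14, e24, e34, e45]
    linear_combination h.u4
  · rw [e05, e15, e25, e35, e45]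
    linear_combination h.u5
  · rw [e23, e24, e25, e34, e35, e45, k0, k1]
    linear_combination h.c01 + s * h.u4
  · rw [e13, e14, e15, e34, e35, e45, k0, k2]
    linear_combination h.c02
  · rw [e12, e14, e15, e24, e25, e45, k0, k3]
    linear_combination h.c03
  · rw [e12, e13, e15, e23, e25, e35, k0, k4]
    linear_combination h.c04 - s * h.u1
  · rw [e12, e13, e14, e23, e24, e34, k0, k5]
    linear_combination h.c05
  · rw [e03, e04, e05, e34, e35, e45, k1, k2]
    linear_combination h.c12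
  · rw [e02, e04, e05, e24, e25, e45, k1, k3]
    linear_combination h.c13
  · rw [e02, e03, e05, e23, e25, e35, k1, k4]
    linear_combination h.c14 + s * h.u0
  · rw [e02, e03, e04, e23, e24, e34, k1, k5]
    linear_combination h.c15
  · rw [e01, e04, e05, e14, e15, e45, k2, k3]
    linear_combination h.c23
  · rw [e01, e03, e05, e13, e15, e35, k2, k4]
    linear_combination h.c24
  · rw [e01, e03, e04, e13, e14, e34, k2, k5]
    linear_combination h.c25
  · rw [e01, e02, e05, e12, e15, e25, k3, k4]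
    linear_combination h.c34
  · rw [e01, e02, e04, e12, e14, e24, k3, k5]
    linear_combination h.c35
  · rw [e01, e02, e03, e12, e13, e23, k4, k5]
    linear_combination h.c45

theorem root235 (s : F) (x : V F) (hx : White x) :
    White (x.1 + kap s 0 1 4 x.2.1, x.2.1 +
      s • con (Pi.single 2 (1 : F)) (Pi.single 3 (1 : F)) (Pi.single 5 (1 : F)) x.2.2, x.2.2) := by
  obtain ⟨w, b, u⟩ := x
  have hb : Alt b := hx.1
  refine of_wc (alt_add hb (alt_smul' s (alt_con _ _ _ _))) (core235 s (wc_of hb hx) ?_ ?_ ?_ ?_ ?_ ?_ ?_ ?_ ?_ ?_ ?_ ?_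
    ?_ ?_ ?_ ?_ ?_ ?_ ?_ ?_ ?_)
  iterate 15
    · rw [Matrix.add_apply, Matrix.smul_apply, con_single]
      simp [Pi.single_apply]
      try ring
  iterate 6
    · rw [Pi.add_apply, kap_apply]
      simp [Pi.single_apply]
      try ring

theorem core245 {b b' : Matrix (Fin 6) (Fin 6) F} {w w' u : Fin 6 → F} (s : F)
    (h : WC b w u)
    (e01 : b' 0 1 = b 0 1)
    (e02 : b' 0 2 = b 0 2)
    (e03 : b' 0 3 = b 0 3)
    (e04 : b' 0 4 = b 0 4)
    (e05 : b' 0 5 = b 0 5)
    (e12 : b' 1 2 = b 1 2)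
    (e13 : b' 1 3 = b 1 3)
    (e14 : b' 1 4 = b 1 4)
    (e15 : b' 1 5 = b 1 5)
    (e23 : b' 2 3 = b 2 3)
    (e24 : b' 2 4 = b 2 4 + s * u 5)
    (e25 : b' 2 5 = b 2 5 - s * u 4)
    (e34 : b' 3 4 = b 3 4)
    (e35 : b' 3 5 = b 3 5)
    (e45 : b' 4 5 = b 4 5 + s * u 2)
    (k0 : w' 0 = w 0 - s * b 1 3)
    (k1 : w' 1 = w 1 + s * b 0 3)
    (k2 : w' 2 = w 2)
    (k3 : w' 3 = w 3 - s * b 0 1)
    (k4 : w' 4 = w 4)
    (k5 : w' 5 = w 5)
    : WC b' w' u := by
  constructor
  · rw [e01, e02, e03, e04, e05, k1, k2, k3, k4, k5]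
    linear_combination h.w0
  · rw [e01, e12, e13, e14, e15, k0, k2, k3, k4, k5]
    linear_combination h.w1
  · rw [e02, e12, e23, e24, e25, k0, k1, k3, k4, k5]
    linear_combination h.w2 - s * h.c45
  · rw [e03, e13, e23, e34, e35, k0, k1, k2, k4, k5]
    linear_combination h.w3
  · rw [e04, e14, e24, e34, e45, k0, k1, k2, k3, k5]
    linear_combination h.w4 + s * h.c25
  · rw [e05, e15, e25, e35, e45, k0, k1, k2, k3, k4]
    linear_combination h.w5 - s * h.c24
  · rw [e01, e02, e03, e04, e05]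
    linear_combination h.u0
  · rw [e01, e12, e13, e14, e15]
    linear_combination h.u1
  · rw [e02, e12, e23, e24, e25]
    linear_combination h.u2
  · rw [e03, e13, e23, e34, e35]
    linear_combination h.u3
  · rw [e04, e14, e24, e34, e45]
    linear_combination h.u4
  · rw [e05, e15, e25, e35, e45]
    linear_combination h.u5
  · rw [e23, e24, e25, e34, e35, e45, k0, k1]
    linear_combination h.c01 - s * h.u3
  · rw [e13, e14, e15, e34, e35, e45, k0, k2]
    linear_combination h.c02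
  · rw [e12, e14, e15, e24, e25, e45, k0, k3]
    linear_combination h.c03 + s * h.u1
  · rw [e12, e13, e15, e23, e25, e35, k0, k4]
    linear_combination h.c04
  · rw [e12, e13, e14, e23, e24, e34, k0, k5]
    linear_combination h.c05
  · rw [e03, e04, e05, e34, e35, e45, k1, k2]
    linear_combination h.c12
  · rw [e02, e04, e05, e24, e25, e45, k1, k3]
    linear_combination h.c13 - s * h.u0
  · rw [e02, e03, e05, e23, e25, e35, k1, k4]
    linear_combination h.c14
  · rw [e02, e03, e04, e23, e24, e34, k1, k5]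
    linear_combination h.c15
  · rw [e01, e04, e05, e14, e15, e45, k2, k3]
    linear_combination h.c23
  · rw [e01, e03, e05, e13, e15, e35, k2, k4]
    linear_combination h.c24
  · rw [e01, e03, e04, e13, e14, e34, k2, k5]
    linear_combination h.c25
  · rw [e01, e02, e05, e12, e15, e25, k3, k4]
    linear_combination h.c34
  · rw [e01, e02, e04, e12, e14, e24, k3, k5]
    linear_combination h.c35
  · rw [e01, e02, e03, e12, e13, e23, k4, k5]
    linear_combination h.c45

theorem root245 (s : F) (x : V F) (hx : White x) :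
    White (x.1 + kap (-s) 0 1 3 x.2.1, x.2.1 +
      s • con (Pi.single 2 (1 : F)) (Pi.single 4 (1 : F)) (Pi.single 5 (1 : F)) x.2.2, x.2.2) := by
  obtain ⟨w, b, u⟩ := x
  have hb : Alt b := hx.1
  refine of_wc (alt_add hb (alt_smul' s (alt_con _ _ _ _))) (core245 s (wc_of hb hx) ?_ ?_ ?_ ?_ ?_ ?_ ?_ ?_ ?_ ?_ ?_ ?_
    ?_ ?_ ?_ ?_ ?_ ?_ ?_ ?_ ?_)
  iterate 15
    · rw [Matrix.add_apply, Matrix.smul_apply, con_single]
      simp [Pi.single_apply]
      try ring
  iterate 6
    · rw [Pi.add_apply, kap_apply]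
      simp [Pi.single_apply]
      try ring

theorem core345 {b b' : Matrix (Fin 6) (Fin 6) F} {w w' u : Fin 6 → F} (s : F)
    (h : WC b w u)
    (e01 : b' 0 1 = b 0 1)
    (e02 : b' 0 2 = b 0 2)
    (e03 : b' 0 3 = b 0 3)
    (e04 : b' 0 4 = b 0 4)
    (e05 : b' 0 5 = b 0 5)
    (e12 : b' 1 2 = b 1 2)
    (e13 : b' 1 3 = b 1 3)
    (e14 : b' 1 4 = b 1 4)
    (e15 : b' 1 5 = b 1 5)
    (e23 : b' 2 3 = b 2 3)
    (e24 : b' 2 4 = b 2 4)
    (e25 : b' 2 5 = b 2 5)
    (e34 : b' 3 4 = b 3 4 + s * u 5)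
    (e35 : b' 3 5 = b 3 5 - s * u 4)
    (e45 : b' 4 5 = b 4 5 + s * u 3)
    (k0 : w' 0 = w 0 + s * b 1 2)
    (k1 : w' 1 = w 1 - s * b 0 2)
    (k2 : w' 2 = w 2 + s * b 0 1)
    (k3 : w' 3 = w 3)
    (k4 : w' 4 = w 4)
    (k5 : w' 5 = w 5)
    : WC b' w' u := by
  constructor
  · rw [e01, e02, e03, e04, e05, k1, k2, k3, k4, k5]
    linear_combination h.w0
  · rw [e01, e12, e13, e14, e15, k0, k2, k3, k4, k5]
    linear_combination h.w1
  · rw [e02, e12, e23, e24, e25, k0, k1, k3, k4, k5]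
    linear_combination h.w2
  · rw [e03, e13, e23, e34, e35, k0, k1, k2, k4, k5]
    linear_combination h.w3 - s * h.c45
  · rw [e04, e14, e24, e34, e45, k0, k1, k2, k3, k5]
    linear_combination h.w4 + s * h.c35
  · rw [e05, e15, e25, e35, e45, k0, k1, k2, k3, k4]
    linear_combination h.w5 - s * h.c34
  · rw [e01, e02, e03, e04, e05]
    linear_combination h.u0
  · rw [e01, e12, e13, e14, e15]
    linear_combination h.u1
  · rw [e02, e12, e23, e24, e25]
    linear_combination h.u2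
  · rw [e03, e13, e23, e34, e35]
    linear_combination h.u3
  · rw [e04, e14, e24, e34, e45]
    linear_combination h.u4
  · rw [e05, e15, e25, e35, e45]
    linear_combination h.u5
  · rw [e23, e24, e25, e34, e35, e45, k0, k1]
    linear_combination h.c01 + s * h.u2
  · rw [e13, e14, e15, e34, e35, e45, k0, k2]
    linear_combination h.c02 - s * h.u1
  · rw [e12, e14, e15, e24, e25, e45, k0, k3]
    linear_combination h.c03
  · rw [e12, e13, e15, e23, e25, e35, k0, k4]
    linear_combination h.c04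
  · rw [e12, e13, e14, e23, e24, e34, k0, k5]
    linear_combination h.c05
  · rw [e03, e04, e05, e34, e35, e45, k1, k2]
    linear_combination h.c12 + s * h.u0
  · rw [e02, e04, e05, e24, e25, e45, k1, k3]
    linear_combination h.c13
  · rw [e02, e03, e05, e23, e25, e35, k1, k4]
    linear_combination h.c14
  · rw [e02, e03, e04, e23, e24, e34, k1, k5]
    linear_combination h.c15
  · rw [e01, e04, e05, e14, e15, e45, k2, k3]
    linear_combination h.c23
  · rw [e01, e03, e05, e13, e15, e35, k2, k4]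
    linear_combination h.c24
  · rw [e01, e03, e04, e13, e14, e34, k2, k5]
    linear_combination h.c25
  · rw [e01, e02, e05, e12, e15, e25, k3, k4]
    linear_combination h.c34
  · rw [e01, e02, e04, e12, e14, e24, k3, k5]
    linear_combination h.c35
  · rw [e01, e02, e03, e12, e13, e23, k4, k5]
    linear_combination h.c45

theorem root345 (s : F) (x : V F) (hx : White x) :
    White (x.1 + kap s 0 1 2 x.2.1, x.2.1 +
      s • con (Pi.single 3 (1 : F)) (Pi.single 4 (1 : F)) (Pi.single 5 (1 : F)) x.2.2, x.2.2) := by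
  obtain ⟨w, b, u⟩ := x
  have hb : Alt b := hx.1
  refine of_wc (alt_add hb (alt_smul' s (alt_con _ _ _ _))) (core345 s (wc_of hb hx) ?_ ?_ ?_ ?_ ?_ ?_ ?_ ?_ ?_ ?_ ?_ ?_
    ?_ ?_ ?_ ?_ ?_ ?_ ?_ ?_ ?_)
  iterate 15
    · rw [Matrix.add_apply, Matrix.smul_apply, con_single]
      simp [Pi.single_apply]
      try ring
  iterate 6
    · rw [Pi.add_apply, kap_apply]
      simp [Pi.single_apply]
      try ring

end

end SpreadPerm.EX.Root67
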