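import Mathlib
import Pool.Agent.Lib.MP_e6ed9e_al.EX.Cnt67

/-!
# Rows SEC and TOT: points and hyperplane sections of the hyperbolic quadric
-/

namespace SpreadPerm.EX.Sec16

open Matrix Finset
open scoped Classical

variable {F : Type} [Field F]

/-- two independent linear equations can be solved -/
theorem solve {f g : Fin 6 → F} (hf : f ≠ 0) (hg : ∀ t : F, g ≠ t • f) (α β : F) :
    ∃ z : Fin 6 → F, f ⬝ᵥ z = α ∧ g ⬝ᵥ z = β := by
  obtain ⟨k, hk⟩ : ∃ k, f k ≠ 0 := by
    by_contra h'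
    push Not at h'
    exact hf (funext h')
  obtain ⟨l, hl⟩ : ∃ l, f k * g l - f l * g k ≠ 0 := by
    by_contra h'
    push Not at h'
    apply hg (g k / f k)
    funext l
    rw [Pi.smul_apply, smul_eq_mul, div_mul_eq_mul_div, eq_div_iff hk]
    linear_combination h' l
  have h1 : ∀ (h : Fin 6 → F) (i : Fin 6) (c : F), h ⬝ᵥ Pi.single i c = h i * c := by
    intro h i c
    simp
  refine ⟨Pi.single k (α / f k) + ((β - g k * (α / f k)) / (f k * g l - f l * g k)) •
    (Pi.single l (f k) - Pi.single k (f l)), ?_, ?_⟩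
  · rw [dotProduct_add, dotProduct_smul, dotProduct_sub, h1, h1, h1, smul_eq_mul, mul_div_cancel₀ _ hk]
    ring
  · rw [dotProduct_add, dotProduct_smul, dotProduct_sub, h1, h1, h1, smul_eq_mul]
    have h2 : (g l * f k - g k * f l) = f k * g l - f l * g k := by ring
    rw [h2, div_mul_cancel₀ _ hl]
    ring

variable [Fintype F]

omit [Field F] in
theorem card_V : Fintype.card (Fin 6 → F) = Fintype.card F ^ 6 := by simp

theorem card_two {f g : Fin 6 → F} (hf : f ≠ 0) (hg : ∀ t : F, g ≠ t • f) (α β : F) :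
    (univ.filter fun z : Fin 6 → F => f ⬝ᵥ z = α ∧ g ⬝ᵥ z = β).card = Fintype.card F ^ 4 := by
  have hfib : ∀ α β : F, (univ.filter fun z : Fin 6 → F => f ⬝ᵥ z = α ∧ g ⬝ᵥ z = β).card =
      (univ.filter fun z : Fin 6 → F => f ⬝ᵥ z = 0 ∧ g ⬝ᵥ z = 0).card := by
    intro α β
    obtain ⟨z₀, h1, h2⟩ := solve hf hg α β
    refine Finset.card_bij (fun z _ => z - z₀) ?_ ?_ ?_
    · intro z hz
      simp only [mem_filter, mem_univ, true_and] at hz ⊢
      rw [dotProduct_sub, dotProduct_sub, hz.1, hz.2, h1, h2, sub_self, sub_self]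
      exact ⟨rfl, rfl⟩
    · intro z _ z' _ h
      exact sub_left_injective h
    · intro z hz
      simp only [mem_filter, mem_univ, true_and] at hz
      refine ⟨z + z₀, ?_, ?_⟩
      · simp only [mem_filter, mem_univ, true_and]
        rw [dotProduct_add, dotProduct_add, hz.1, hz.2, h1, h2, zero_add, zero_add]
        exact ⟨rfl, rfl⟩
      · simp
  rw [hfib]
  have h1 : (univ : Finset (Fin 6 → F)).card = ∑ p : F × F,
      (univ.filter fun z : Fin 6 → F => (f ⬝ᵥ z, g ⬝ᵥ z) = p).card :=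
    Finset.card_eq_sum_card_fiberwise (f := fun z : Fin 6 → F => (f ⬝ᵥ z, g ⬝ᵥ z))
      (fun x _ => by simp)
  have h2 : ∀ p : F × F, (univ.filter fun z : Fin 6 → F => (f ⬝ᵥ z, g ⬝ᵥ z) = p).card =
      (univ.filter fun z : Fin 6 → F => f ⬝ᵥ z = 0 ∧ g ⬝ᵥ z = 0).card := by
    rintro ⟨α, β⟩
    rw [← hfib α β]
    congr 1
    ext z
    simp
  rw [Finset.sum_congr rfl (fun p _ => h2 p), Finset.sum_const, Finset.card_univ, Finset.card_univ,
    Fintype.card_prod, card_V, smul_eq_mul] at h1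
  have hq : 0 < Fintype.card F := Fintype.card_pos
  have h3 : Fintype.card F * Fintype.card F *
      (univ.filter fun z : Fin 6 → F => f ⬝ᵥ z = 0 ∧ g ⬝ᵥ z = 0).card =
      Fintype.card F * Fintype.card F * Fintype.card F ^ 4 := by
    rw [← h1]; ring
  exact Nat.eq_of_mul_eq_mul_left (Nat.mul_pos hq hq) h3

omit [Field F] in
theorem count (P : (Fin 6 → F) → (Fin 6 → F) → Prop) :
    Nat.card {p : (Fin 6 → F) × (Fin 6 → F) // P p.1 p.2} =
      ∑ w, (univ.filter fun z => P w z).card := by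
  rw [Nat.card_eq_fintype_card, Fintype.card_subtype, Finset.card_filter, Fintype.sum_prod_type]
  exact Finset.sum_congr rfl fun w _ => by rw [Finset.card_filter]

theorem card_dot_pos (y : Fin 6 → F) (hy : y ≠ 0) :
    (univ.filter fun w : Fin 6 → F => w ⬝ᵥ y = 0).card = Fintype.card F ^ 5 := card_dot' y hy

theorem tot {y : Fin 6 → F} (hy : y ≠ 0) :
    ∑ w : Fin 6 → F, (univ.filter fun z : Fin 6 → F => w ⬝ᵥ y = 0 ∧ w ⬝ᵥ z = 0).card =
      Fintype.card F ^ 10 + Fintype.card F ^ 6 - Fintype.card F ^ 5 := by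
  have h1 : ∀ w : Fin 6 → F,
      (univ.filter fun z : Fin 6 → F => w ⬝ᵥ y = 0 ∧ w ⬝ᵥ z = 0).card =
        if w ⬝ᵥ y = 0 then (if w = 0 then Fintype.card F ^ 6 else Fintype.card F ^ 5) else 0 := by
    intro w
    split_ifs with h2 h3
    · subst h3
      rw [Finset.filter_true_of_mem (fun z _ => by simp), Finset.card_univ, card_V]
    · rw [← card_dot w h3]
      congr 1
      ext z
      simp [h2]
    · rw [Finset.filter_false_of_mem (fun z _ h => h2 h.1), Finset.card_empty]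
  rw [Finset.sum_congr rfl (fun w _ => h1 w), ← Finset.sum_filter]
  have h0 : (0 : Fin 6 → F) ∈ univ.filter fun w : Fin 6 → F => w ⬝ᵥ y = 0 := by simp
  rw [← Finset.add_sum_erase _ _ h0, if_pos rfl, Finset.sum_congr rfl (g := fun _ =>
    Fintype.card F ^ 5) (fun w hw => if_neg (Finset.ne_of_mem_erase hw)), Finset.sum_const,
    Finset.card_erase_of_mem h0, card_dot_pos y hy, smul_eq_mul]
  have hq : 1 ≤ Fintype.card F ^ 5 := Nat.one_le_pow _ _ Fintype.card_pos
  have e1 : (Fintype.card F ^ 5 - 1) * Fintype.card F ^ 5 =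
      Fintype.card F ^ 10 - Fintype.card F ^ 5 := by
    rw [Nat.sub_mul, one_mul, ← pow_add]
  have e2 : Fintype.card F ^ 5 ≤ Fintype.card F ^ 10 :=
    Nat.pow_le_pow_right Fintype.card_pos (by norm_num)
  rw [e1]
  omega

theorem sec_f0 {y a : Fin 6 → F} (hy : y ≠ 0) (ha : ∀ t : F, a ≠ t • y) :
    ∑ w : Fin 6 → F, (univ.filter fun z : Fin 6 → F =>
      w ⬝ᵥ y = 0 ∧ w ⬝ᵥ z = 0 ∧ a ⬝ᵥ w + (0 : Fin 6 → F) ⬝ᵥ z = 0).card =
      Fintype.card F ^ 9 + (Fintype.card F ^ 6 - Fintype.card F ^ 5) := by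
  have h1 : ∀ w : Fin 6 → F,
      (univ.filter fun z : Fin 6 → F =>
        w ⬝ᵥ y = 0 ∧ w ⬝ᵥ z = 0 ∧ a ⬝ᵥ w + (0 : Fin 6 → F) ⬝ᵥ z = 0).card =
        if (y ⬝ᵥ w = 0 ∧ a ⬝ᵥ w = 0) then
          (if w = 0 then Fintype.card F ^ 6 else Fintype.card F ^ 5) else 0 := by
    intro w
    split_ifs with h2 h3
    · subst h3
      rw [Finset.filter_true_of_mem (fun z _ => by simp), Finset.card_univ, card_V]
    · rw [← card_dot w h3]
      congr 1
      ext z
      simp [h2.2, dotProduct_comm w y, h2.1]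
    · rw [Finset.filter_false_of_mem, Finset.card_empty]
      rintro z _ ⟨h3, -, h4⟩
      apply h2
      rw [zero_dotProduct, add_zero] at h4
      exact ⟨by rw [dotProduct_comm]; exact h3, h4⟩
  rw [Finset.sum_congr rfl (fun w _ => h1 w), ← Finset.sum_filter]
  have h0 : (0 : Fin 6 → F) ∈ univ.filter fun w : Fin 6 → F => y ⬝ᵥ w = 0 ∧ a ⬝ᵥ w = 0 := by simp
  rw [← Finset.add_sum_erase _ _ h0, if_pos rfl, Finset.sum_congr rfl (g := fun _ =>
    Fintype.card F ^ 5) (fun w hw => if_neg (Finset.ne_of_mem_erase hw)), Finset.sum_const,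
    Finset.card_erase_of_mem h0, card_two hy ha, smul_eq_mul]
  have e1 : (Fintype.card F ^ 4 - 1) * Fintype.card F ^ 5 =
      Fintype.card F ^ 9 - Fintype.card F ^ 5 := by
    rw [Nat.sub_mul, one_mul, ← pow_add]
  have e2 : Fintype.card F ^ 5 ≤ Fintype.card F ^ 9 :=
    Nat.pow_le_pow_right Fintype.card_pos (by norm_num)
  have e3 : Fintype.card F ^ 5 ≤ Fintype.card F ^ 6 :=
    Nat.pow_le_pow_right Fintype.card_pos (by norm_num)
  rw [e1]
  omega

theorem sec_f {y a f : Fin 6 → F} (hy : y ≠ 0) (hfy : f ⬝ᵥ y = 0) (hf : f ≠ 0) :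
    ∑ w : Fin 6 → F, (univ.filter fun z : Fin 6 → F =>
      w ⬝ᵥ y = 0 ∧ w ⬝ᵥ z = 0 ∧ a ⬝ᵥ w + f ⬝ᵥ z = 0).card =
      Fintype.card F ^ 9 + if a ⬝ᵥ f = 0 then (Fintype.card F ^ 6 - Fintype.card F ^ 5) else 0 := by
  set N : (Fin 6 → F) → ℕ := fun w => (univ.filter fun z : Fin 6 → F =>
      w ⬝ᵥ y = 0 ∧ w ⬝ᵥ z = 0 ∧ a ⬝ᵥ w + f ⬝ᵥ z = 0).card with hN
  set S : Finset (Fin 6 → F) := univ.filter fun w : Fin 6 → F => w ⬝ᵥ y = 0 with hS
  set T : Finset (Fin 6 → F) := univ.image (fun t : F => t • f) with hT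
  have hTS : T ⊆ S := by
    intro w hw
    rw [hT, mem_image] at hw
    obtain ⟨t, -, rfl⟩ := hw
    simp [hS, hfy]
  have hinj : Function.Injective (fun t : F => t • f) := by
    intro s t h
    have h2 : (s - t) • f = 0 := by
      rw [sub_smul]
      exact sub_eq_zero.2 h
    rcases smul_eq_zero.1 h2 with h3 | h3
    · exact sub_eq_zero.1 h3
    · exact absurd h3 hf
  have hTc : T.card = Fintype.card F := by
    rw [hT, Finset.card_image_of_injective _ hinj, Finset.card_univ]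
  have hSc : S.card = Fintype.card F ^ 5 := card_dot_pos y hy
  have h1 : ∑ w, N w = ∑ w ∈ S, N w := by
    rw [hS, Finset.sum_filter]
    refine Finset.sum_congr rfl fun w _ => ?_
    split_ifs with h
    · rfl
    · simp only [hN]
      rw [Finset.filter_false_of_mem (fun z _ h' => h h'.1), Finset.card_empty]
  have h2 : ∑ w ∈ S, N w = ∑ w ∈ S \ T, N w + ∑ w ∈ T, N w := (Finset.sum_sdiff hTS).symm
  have h3 : ∑ w ∈ S \ T, N w = (Fintype.card F ^ 5 - Fintype.card F) * Fintype.card F ^ 4 := by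
    rw [Finset.sum_congr rfl (g := fun _ => Fintype.card F ^ 4), Finset.sum_const,
      Finset.card_sdiff_of_subset hTS, hTc, hSc, smul_eq_mul]
    intro w hw
    rw [Finset.mem_sdiff] at hw
    have hwy : w ⬝ᵥ y = 0 := by
      have := hw.1
      simpa [hS] using this
    have hwf : ∀ t : F, w ≠ t • f := by
      rintro t rfl
      exact hw.2 (by rw [hT, mem_image]; exact ⟨t, mem_univ _, rfl⟩)
    simp only [hN]
    rw [← card_two hf hwf (-(a ⬝ᵥ w)) 0]
    congr 1
    ext z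
    simp only [mem_filter, mem_univ, true_and, hwy]
    rw [and_comm, eq_neg_iff_add_eq_zero, add_comm (f ⬝ᵥ z)]
  have h4 : ∑ w ∈ T, N w = ∑ t : F, N (t • f) := by
    rw [hT, Finset.sum_image (fun s _ t _ h => hinj h)]
  have h5 : N ((0 : F) • f) = Fintype.card F ^ 5 := by
    simp only [hN]
    rw [← card_dot f hf]
    congr 1
    ext z
    simp
  have h6 : ∀ t : F, t ≠ 0 → N (t • f) = if a ⬝ᵥ f = 0 then Fintype.card F ^ 5 else 0 := by
    intro t ht
    simp only [hN]
    split_ifs with h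
    · rw [← card_dot f hf]
      congr 1
      ext z
      simp [hfy, ht, h]
    · rw [Finset.filter_false_of_mem, Finset.card_empty]
      rintro z _ ⟨-, h7, h8⟩
      rw [smul_dotProduct, smul_eq_mul, mul_eq_zero] at h7
      rcases h7 with h7 | h7
      · exact ht h7
      · rw [h7, add_zero, dotProduct_smul, smul_eq_mul, mul_eq_zero] at h8
        rcases h8 with h8 | h8
        · exact ht h8
        · exact h h8
  have h7 : ∑ t : F, N (t • f) = Fintype.card F ^ 5 +
      (Fintype.card F - 1) * (if a ⬝ᵥ f = 0 then Fintype.card F ^ 5 else 0) := by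
    rw [← Finset.add_sum_erase _ _ (mem_univ (0 : F)), h5,
      Finset.sum_congr rfl (g := fun _ => if a ⬝ᵥ f = 0 then Fintype.card F ^ 5 else 0)
        (fun t ht => h6 t (Finset.ne_of_mem_erase ht)), Finset.sum_const,
      Finset.card_erase_of_mem (mem_univ _), Finset.card_univ, smul_eq_mul]
  change ∑ w, N w = _
  rw [h1, h2, h3, h4, h7]
  have e1 : (Fintype.card F ^ 5 - Fintype.card F) * Fintype.card F ^ 4 =
      Fintype.card F ^ 9 - Fintype.card F ^ 5 := by
    rw [Nat.sub_mul, ← pow_add, ← pow_succ']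
  have e2 : (Fintype.card F - 1) * Fintype.card F ^ 5 = Fintype.card F ^ 6 - Fintype.card F ^ 5 := by
    rw [Nat.sub_mul, one_mul, ← pow_succ']
  have e3 : Fintype.card F ^ 5 ≤ Fintype.card F ^ 9 :=
    Nat.pow_le_pow_right Fintype.card_pos (by norm_num)
  rw [e1]
  split_ifs with h
  · rw [e2]
    omega
  · omega

end SpreadPerm.EX.Sec16

namespace SpreadPerm.EX

open Matrix Sec16
open scoped Classical

/-- row TOT -/
theorem tot16 : StTot := by
  intro F _ _ y hy
  have : Fintype F := Fintype.ofFinite F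
  rw [Nat.card_eq_fintype_card (α := F), count (fun w z => w ⬝ᵥ y = 0 ∧ w ⬝ᵥ z = 0)]
  convert tot hy

/-- row SEC -/
theorem sec16 : StSec := by
  intro F _ _ y a f hy hfy h
  have : Fintype F := Fintype.ofFinite F
  rw [Nat.card_eq_fintype_card (α := F),
    count (fun w z => w ⬝ᵥ y = 0 ∧ w ⬝ᵥ z = 0 ∧ a ⬝ᵥ w + f ⬝ᵥ z = 0)]
  by_cases hf : f = 0
  · subst hf
    rw [Set.indicator_of_mem (show (0 : Fin 6 → F) ∈ {f : Fin 6 → F | a ⬝ᵥ f = 0} by simp)]
    convert sec_f0 hy (h.resolve_left (fun h => h rfl))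
  · have h1 := sec_f (a := a) hy hfy hf
    rw [Set.indicator_apply]
    convert h1
    exact Iff.rfl

end SpreadPerm.EX
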