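import Pool.Agent.Lib.MP_e6ed9e_al.EX.StarDefs67

/-! # Totally white six-dimensional subspaces: unipotent maps -/

namespace SpreadPerm.EX

open Matrix Finset
open scoped Classical

noncomputable section

variable {F : Type} [Field F]

/-- `con` is linear in `u`. -/
def conL (x y z : Fin 6 → F) : (Fin 6 → F) →ₗ[F] Matrix (Fin 6) (Fin 6) F where
  toFun u := con x y z u
  map_add' u v := by
    unfold con
    rw [dotProduct_add, dotProduct_add, dotProduct_add, add_smul, add_smul, add_smul]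
    abel
  map_smul' c u := by
    unfold con
    rw [dotProduct_smul, dotProduct_smul, dotProduct_smul, RingHom.id_apply, smul_add, smul_sub,
      smul_smul, smul_smul, smul_smul]
    rfl

theorem conL_apply (x y z u : Fin 6 → F) : conL x y z u = con x y z u := rfl

theorem wedge_add_left (x x' y : Fin 6 → F) : wedge (x + x') y = wedge x y + wedge x' y := by
  ext i j
  simp only [wedge, Matrix.sub_apply, Matrix.add_apply, vecMulVec_apply, Pi.add_apply]
  ring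

theorem wedge_smul_left (c : F) (x y : Fin 6 → F) : wedge (c • x) y = c • wedge x y := by
  ext i j
  simp only [wedge, Matrix.sub_apply, Matrix.smul_apply, vecMulVec_apply, Pi.smul_apply,
    smul_eq_mul]
  ring

/-- `con` is linear in `x`. -/
def conX (y z u : Fin 6 → F) : (Fin 6 → F) →ₗ[F] Matrix (Fin 6) (Fin 6) F where
  toFun x := con x y z u
  map_add' x x' := by
    unfold con
    rw [add_dotProduct, wedge_add_left, wedge_add_left, add_smul, smul_add, smul_add]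
    abel
  map_smul' c x := by
    unfold con
    rw [smul_dotProduct, wedge_smul_left, wedge_smul_left, RingHom.id_apply, smul_add, smul_sub,
      smul_smul, smul_smul, smul_smul, smul_smul, smul_smul, smul_eq_mul, mul_comm (y ⬝ᵥ u) c,
      mul_comm (z ⬝ᵥ u) c]

theorem conL_expand (x y z : Fin 6 → F) :
    conL x y z = ∑ i, x i • conL (Pi.single i (1 : F)) y z := by
  refine LinearMap.ext fun u => ?_
  rw [LinearMap.sum_apply]
  have h := LinearMap.pi_apply_eq_sum_univ (conX y z u) x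
  refine h.trans (Finset.sum_congr rfl fun i _ => ?_)
  rw [LinearMap.smul_apply]
  congr 1
  show con _ y z u = con _ y z u
  congr 1
  ext j
  simp only [Pi.single_apply, eq_comm]

theorem conL_swap (x y z : Fin 6 → F) : conL x y z = -conL y x z := by
  refine LinearMap.ext fun u => ?_
  show con x y z u = -con y x z u
  ext i j
  simp only [con, wedge, Matrix.sub_apply, Matrix.add_apply, Matrix.smul_apply, Matrix.neg_apply,
    vecMulVec_apply, smul_eq_mul]
  ring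

theorem conL_swap' (x y z : Fin 6 → F) : conL x y z = -conL x z y := by
  refine LinearMap.ext fun u => ?_
  show con x y z u = -con x z y u
  ext i j
  simp only [con, wedge, Matrix.sub_apply, Matrix.add_apply, Matrix.smul_apply, Matrix.neg_apply,
    vecMulVec_apply, smul_eq_mul]
  ring

/-- There is a unipotent map with middle part `n` which preserves white vectors. -/
def Good (n : (Fin 6 → F) →ₗ[F] Matrix (Fin 6) (Fin 6) F) : Prop :=
  ∃ (κ : Matrix (Fin 6) (Fin 6) F →ₗ[F] (Fin 6 → F)) (μ : (Fin 6 → F) →ₗ[F] (Fin 6 → F)),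
    ∀ x : V F, White x → White (x.1 + κ x.2.1 + μ x.2.2, x.2.1 + n x.2.2, x.2.2)

theorem good_zero : Good (0 : (Fin 6 → F) →ₗ[F] Matrix (Fin 6) (Fin 6) F) :=
  ⟨0, 0, fun x hx => by
    simp only [LinearMap.zero_apply, add_zero]
    exact hx⟩

theorem good_add {n m : (Fin 6 → F) →ₗ[F] Matrix (Fin 6) (Fin 6) F} (hn : Good n) (hm : Good m) :
    Good (n + m) := by
  obtain ⟨κ, μ, h⟩ := hn
  obtain ⟨κ', μ', h'⟩ := hm
  refine ⟨κ + κ', μ + μ' + κ' ∘ₗ n, fun x hx => ?_⟩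
  have h1 := h' _ (h x hx)
  have h2 : x.1 + κ x.2.1 + μ x.2.2 + κ' (x.2.1 + n x.2.2) + μ' x.2.2 =
      x.1 + (κ + κ') x.2.1 + (μ + μ' + κ' ∘ₗ n) x.2.2 := by
    simp only [map_add, LinearMap.add_apply, LinearMap.comp_apply]
    abel
  have h3 : x.2.1 + n x.2.2 + m x.2.2 = x.2.1 + (n + m) x.2.2 := by
    rw [LinearMap.add_apply, add_assoc]
  rw [← h2, ← h3]
  exact h1

theorem good_sum {ι : Type} (s : Finset ι) (n : ι → ((Fin 6 → F) →ₗ[F] Matrix (Fin 6) (Fin 6) F))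
    (h : ∀ i ∈ s, Good (n i)) : Good (∑ i ∈ s, n i) := by
  induction s using Finset.induction_on with
  | empty => rw [Finset.sum_empty]; exact good_zero
  | insert a s ha ih =>
    rw [Finset.sum_insert ha]
    exact good_add (h a (Finset.mem_insert_self a s))
      (ih fun i hi => h i (Finset.mem_insert_of_mem hi))

theorem good_root (hR : StRoot) (i j k : Fin 6) (s : F) :
    Good (s • conL (Pi.single i (1 : F)) (Pi.single j (1 : F)) (Pi.single k (1 : F))) := by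
  obtain ⟨κ, h⟩ := hR F i j k s
  refine ⟨κ, 0, fun x hx => ?_⟩
  rw [LinearMap.zero_apply, add_zero, LinearMap.smul_apply]
  exact h x hx

theorem good_left (y z : Fin 6 → F) (h : ∀ (i : Fin 6) (s : F), Good (s • conL (Pi.single i (1 : F)) y z))
    (x : Fin 6 → F) (s : F) : Good (s • conL x y z) := by
  rw [conL_expand, Finset.smul_sum]
  refine good_sum _ _ fun i _ => ?_
  rw [smul_smul]
  exact h i _

theorem conL_rot (x y z : Fin 6 → F) : conL x y z = conL z x y := by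
  rw [conL_swap' x y z, conL_swap x z y, neg_neg]

theorem good_one (hR : StRoot) (i j : Fin 6) (z : Fin 6 → F) (s : F) :
    Good (s • conL (Pi.single i (1 : F)) (Pi.single j (1 : F)) z) := by
  rw [conL_rot]
  exact good_left _ _ (fun k s => good_root hR k i j s) z s

theorem good_two (hR : StRoot) (i : Fin 6) (y z : Fin 6 → F) (s : F) :
    Good (s • conL (Pi.single i (1 : F)) y z) := by
  rw [conL_swap, smul_neg, ← neg_smul]
  refine good_left _ _ (fun k s => ?_) y (-s)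
  exact good_one hR k i z s

theorem good_tri (hR : StRoot) (x y z : Fin 6 → F) (s : F) : Good (s • conL x y z) :=
  good_left y z (fun i s => good_two hR i y z s) x s

theorem white_shift (t : F) (x : V F) (h : White x) : White (x.1 + t • x.2.2, x.2.1, x.2.2) := by
  obtain ⟨h1, h2, h3, h4⟩ := h
  refine ⟨h1, ?_, h3, fun y z => ?_⟩
  · show x.2.1 *ᵥ (x.1 + t • x.2.2) = 0
    rw [mulVec_add, mulVec_smul, h2, h3, smul_zero, add_zero]
  · show Pf (x.2.1 + wedge y z) = Pf x.2.1 + ((y ⬝ᵥ (x.1 + t • x.2.2)) * (z ⬝ᵥ x.2.2) -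
      (y ⬝ᵥ x.2.2) * (z ⬝ᵥ (x.1 + t • x.2.2)))
    rw [h4, dotProduct_add, dotProduct_add, dotProduct_smul, dotProduct_smul, smul_eq_mul,
      smul_eq_mul]
    ring

theorem white_unique (w w' : Fin 6 → F) (b : Matrix (Fin 6) (Fin 6) F) (u : Fin 6 → F)
    (h : White (w, b, u)) (h' : White (w', b, u)) (hu : u ≠ 0) : ∃ t : F, w' = w + t • u := by
  obtain ⟨i, hi⟩ := Function.ne_iff.1 hu
  have hi' : u i ≠ 0 := hi
  have h4 := h.2.2.2
  have h4' := h'.2.2.2
  have key : ∀ y z : Fin 6 → F, (y ⬝ᵥ w) * (z ⬝ᵥ u) - (y ⬝ᵥ u) * (z ⬝ᵥ w) =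
      (y ⬝ᵥ w') * (z ⬝ᵥ u) - (y ⬝ᵥ u) * (z ⬝ᵥ w') := by
    intro y z
    exact add_left_cancel ((h4 y z).symm.trans (h4' y z))
  refine ⟨(w' i - w i) / u i, funext fun j => ?_⟩
  have h1 := key (Pi.single j (1 : F)) (Pi.single i (1 : F))
  simp only [single_one_dotProduct] at h1
  rw [Pi.add_apply, Pi.smul_apply, smul_eq_mul]
  field_simp
  linear_combination -h1

/-- A good map can be chosen to fix a white vector. -/
theorem good_fix {n : (Fin 6 → F) →ₗ[F] Matrix (Fin 6) (Fin 6) F} (hn : Good n) (p : V F)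
    (hp : White p) (hu : p.2.2 ≠ 0) (h0 : n p.2.2 = 0) :
    ∃ (κ : Matrix (Fin 6) (Fin 6) F →ₗ[F] (Fin 6 → F)) (μ : (Fin 6 → F) →ₗ[F] (Fin 6 → F)),
    (∀ x : V F, White x → White (x.1 + κ x.2.1 + μ x.2.2, x.2.1 + n x.2.2, x.2.2)) ∧
      p.1 + κ p.2.1 + μ p.2.2 = p.1 := by
  obtain ⟨κ, μ, h⟩ := hn
  have h1 := h p hp
  rw [h0, add_zero] at h1
  obtain ⟨t, ht⟩ := white_unique p.1 _ p.2.1 p.2.2 hp h1 hu
  refine ⟨κ, μ + (-t) • (LinearMap.id : (Fin 6 → F) →ₗ[F] (Fin 6 → F)), fun x hx => ?_, ?_⟩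
  · have h2 := white_shift (-t) _ (h x hx)
    have h3 : x.1 + κ x.2.1 + μ x.2.2 + (-t) • x.2.2 =
        x.1 + κ x.2.1 + (μ + (-t) • (LinearMap.id : (Fin 6 → F) →ₗ[F] (Fin 6 → F))) x.2.2 := by
      rw [LinearMap.add_apply, LinearMap.smul_apply, LinearMap.id_apply, add_assoc _ (μ x.2.2)]
    rw [← h3]
    exact h2
  · rw [LinearMap.add_apply, LinearMap.smul_apply, LinearMap.id_apply, ← add_assoc, ht,
      neg_smul, add_neg_cancel_right]

/-- The unipotent map. -/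
def Tr (κ : Matrix (Fin 6) (Fin 6) F →ₗ[F] (Fin 6 → F)) (μ : (Fin 6 → F) →ₗ[F] (Fin 6 → F))
    (n : (Fin 6 → F) →ₗ[F] Matrix (Fin 6) (Fin 6) F) : V F →ₗ[F] V F where
  toFun x := (x.1 + κ x.2.1 + μ x.2.2, x.2.1 + n x.2.2, x.2.2)
  map_add' x y := by
    refine Prod.ext ?_ (Prod.ext ?_ rfl)
    · show x.1 + y.1 + κ (x.2.1 + y.2.1) + μ (x.2.2 + y.2.2) =
        (x.1 + κ x.2.1 + μ x.2.2) + (y.1 + κ y.2.1 + μ y.2.2)
      rw [map_add, map_add]
      abel
    · show x.2.1 + y.2.1 + n (x.2.2 + y.2.2) = (x.2.1 + n x.2.2) + (y.2.1 + n y.2.2)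
      rw [map_add]
      abel
  map_smul' c x := by
    refine Prod.ext ?_ (Prod.ext ?_ rfl)
    · show c • x.1 + κ (c • x.2.1) + μ (c • x.2.2) = c • (x.1 + κ x.2.1 + μ x.2.2)
      rw [map_smul, map_smul, smul_add, smul_add]
    · show c • x.2.1 + n (c • x.2.2) = c • (x.2.1 + n x.2.2)
      rw [map_smul, smul_add]

theorem Tr_inj (κ : Matrix (Fin 6) (Fin 6) F →ₗ[F] (Fin 6 → F))
    (μ : (Fin 6 → F) →ₗ[F] (Fin 6 → F)) (n : (Fin 6 → F) →ₗ[F] Matrix (Fin 6) (Fin 6) F) :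
    Function.Injective (Tr κ μ n) := by
  intro x y h
  have h3' : (Tr κ μ n x).2.2 = (Tr κ μ n y).2.2 := by rw [h]
  have h3 : x.2.2 = y.2.2 := h3'
  have h2'' : (Tr κ μ n x).2.1 = (Tr κ μ n y).2.1 := by rw [h]
  have h2 : x.2.1 + n x.2.2 = y.2.1 + n y.2.2 := h2''
  have h1' : (Tr κ μ n x).1 = (Tr κ μ n y).1 := by rw [h]
  have h1 : x.1 + κ x.2.1 + μ x.2.2 = y.1 + κ y.2.1 + μ y.2.2 := h1'
  rw [h3] at h2 h1
  have h2' := add_right_cancel h2
  rw [h2'] at h1
  exact Prod.ext (add_right_cancel (add_right_cancel h1)) (Prod.ext h2' h3)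

/-- Opposite to the subspace `u = b = 0`. -/
def Opp (W : Submodule F (V F)) : Prop := ∀ x ∈ W, x.2.2 = 0 → x = 0

/-- The functional takes the value `s` on the subspace. -/
def Val (W : Submodule F (V F)) (s : F) : Prop := ∃ x ∈ W, ∃ y ∈ W,
  x.2.2 = Pi.single 0 1 ∧ y.2.2 = Pi.single 1 1 ∧ x.2.1 2 4 + y.2.1 3 5 = s

theorem opp_map {κ : Matrix (Fin 6) (Fin 6) F →ₗ[F] (Fin 6 → F)}
    {μ : (Fin 6 → F) →ₗ[F] (Fin 6 → F)} {n : (Fin 6 → F) →ₗ[F] Matrix (Fin 6) (Fin 6) F}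
    {W : Submodule F (V F)} (h : Opp W) : Opp (W.map (Tr κ μ n)) := by
  rintro _ ⟨x, hx, rfl⟩ h0
  rw [h x hx h0, map_zero]

theorem val_map {κ : Matrix (Fin 6) (Fin 6) F →ₗ[F] (Fin 6 → F)}
    {μ : (Fin 6 → F) →ₗ[F] (Fin 6 → F)} {n : (Fin 6 → F) →ₗ[F] Matrix (Fin 6) (Fin 6) F}
    {W : Submodule F (V F)} {s : F} (h : Val W s) :
    Val (W.map (Tr κ μ n)) (s + (n (Pi.single 0 1) 2 4 + n (Pi.single 1 1) 3 5)) := by
  obtain ⟨x, hx, y, hy, h1, h2, h3⟩ := h
  refine ⟨Tr κ μ n x, ⟨x, hx, rfl⟩, Tr κ μ n y, ⟨y, hy, rfl⟩, h1, h2, ?_⟩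
  show (x.2.1 + n x.2.2) 2 4 + (y.2.1 + n y.2.2) 3 5 = _
  rw [h1, h2, Matrix.add_apply, Matrix.add_apply, ← h3]
  ring

end

end SpreadPerm.EX
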