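import Pool.Agent.Lib.MP_e6ed9e_al.EX.Final67

/-! # Totally white six-dimensional subspaces (long root groups of `E_6` and `F_4`): rows -/

namespace SpreadPerm.EX

open Matrix

noncomputable section

variable {F : Type} [Field F]

/-- The trivector `x ∧ y ∧ z` contracted with `u`. -/
def con (x y z u : Fin 6 → F) : Matrix (Fin 6) (Fin 6) F :=
  (x ⬝ᵥ u) • wedge y z - (y ⬝ᵥ u) • wedge x z + (z ⬝ᵥ u) • wedge x y

/-- The linear functional on trivectors (at `x ∧ y ∧ z`): coordinate 024 plus coordinate 135. -/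
def fun3 (x y z : Fin 6 → F) : F :=
  con x y z (Pi.single 0 1) 2 4 + con x y z (Pi.single 1 1) 3 5

/-- ROOT: the root elements of the unipotent radical preserve white vectors. -/
def StRoot : Prop := ∀ (F : Type) [Field F] (i j k : Fin 6) (s : F),
  ∃ κ : Matrix (Fin 6) (Fin 6) F →ₗ[F] (Fin 6 → F), ∀ x : V F, White x →
    White (x.1 + κ x.2.1,
      x.2.1 + s • con (Pi.single i 1) (Pi.single j 1) (Pi.single k 1) x.2.2, x.2.2)

/-- STAR: an isotropic trivector killed by `u` on which the functional does not vanish. -/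
def StStar : Prop := ∀ (F : Type) [Field F] (u : Fin 6 → F), u ≠ 0 →
  ∃ x y z : Fin 6 → F, x ⬝ᵥ u = 0 ∧ y ⬝ᵥ u = 0 ∧ z ⬝ᵥ u = 0 ∧
    pair J (wedge x y) = 0 ∧ pair J (wedge x z) = 0 ∧ pair J (wedge y z) = 0 ∧ fun3 x y z ≠ 0

end

end SpreadPerm.EX
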