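import Pool.Agent.Lib.MP_e6ed9e_al.EX.Star67
import Pool.Agent.Lib.MP_e6ed9e_al.EX.Pf0_16
import Pool.Agent.Lib.MP_e6ed9e_al.Polar.Glue88

/-! # Totally white six-dimensional subspaces: the theorem -/

namespace SpreadPerm.EX

open Matrix Finset
open scoped Classical

noncomputable section

variable {F : Type} [Field F]

/-- The subspaces. -/
def LR (l₀ : V F) : Set (Submodule F (V F)) :=
  {W | Module.finrank F W = 6 ∧ ∀ x ∈ W, White x ∧ ev l₀ x = 0}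

variable [Fintype F]

theorem pair_add (c a b : Matrix (Fin 6) (Fin 6) F) : pair c (a + b) = pair c a + pair c b := by
  unfold pair
  rw [← Finset.sum_add_distrib]
  refine Finset.sum_congr rfl fun i _ => ?_
  rw [← Finset.sum_add_distrib]
  refine Finset.sum_congr rfl fun j _ => ?_
  split_ifs
  · rw [Matrix.add_apply, mul_add]
  · rw [add_zero]

theorem pair_sub (c a b : Matrix (Fin 6) (Fin 6) F) : pair c (a - b) = pair c a - pair c b := by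
  rw [sub_eq_add_neg, pair_add, ← neg_one_smul F b, pair_smul]
  ring

theorem pair_con (c : Matrix (Fin 6) (Fin 6) F) (x y z u : Fin 6 → F) :
    pair c (con x y z u) = (x ⬝ᵥ u) * pair c (wedge y z) - (y ⬝ᵥ u) * pair c (wedge x z) +
      (z ⬝ᵥ u) * pair c (wedge x y) := by
  unfold con
  rw [pair_add, pair_sub, pair_smul, pair_smul, pair_smul]

/-- Unipotent maps act on the set of subspaces. -/
theorem lr_map {c₀ : Matrix (Fin 6) (Fin 6) F} {κ : Matrix (Fin 6) (Fin 6) F →ₗ[F] (Fin 6 → F)}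
    {μ : (Fin 6 → F) →ₗ[F] (Fin 6 → F)} {n : (Fin 6 → F) →ₗ[F] Matrix (Fin 6) (Fin 6) F}
    (hw : ∀ x : V F, White x → White (x.1 + κ x.2.1 + μ x.2.2, x.2.1 + n x.2.2, x.2.2))
    (hc : ∀ u, pair c₀ (n u) = 0) {W : Submodule F (V F)} (hW : W ∈ LR ((0, c₀, 0) : V F)) :
    W.map (Tr κ μ n) ∈ LR ((0, c₀, 0) : V F) := by
  refine ⟨?_, ?_⟩
  · exact (Submodule.equivMapOfInjective (Tr κ μ n) (Tr_inj κ μ n) W).finrank_eq.symm.trans hW.1
  · rintro _ ⟨x, hx, rfl⟩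
    have h := hW.2 x hx
    refine ⟨hw x h.1, ?_⟩
    have h2 := h.2
    rw [ev_mid] at h2 ⊢
    show pair c₀ (x.2.1 + n x.2.2) = 0
    rw [pair_add, h2, hc, add_zero]

/-- One direction of the counting. -/
theorem card_le_of_map {Ω : Type} [Fintype Ω] (c₀ : Matrix (Fin 6) (Fin 6) F)
    (e : Ω ≃ LR ((0, c₀, 0) : V F)) (p : V F)
    (κ : Matrix (Fin 6) (Fin 6) F →ₗ[F] (Fin 6 → F)) (μ : (Fin 6 → F) →ₗ[F] (Fin 6 → F))
    (n : (Fin 6 → F) →ₗ[F] Matrix (Fin 6) (Fin 6) F)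
    (hw : ∀ x : V F, White x → White (x.1 + κ x.2.1 + μ x.2.2, x.2.1 + n x.2.2, x.2.2))
    (hc : ∀ u, pair c₀ (n u) = 0) (hp : Tr κ μ n p = p) (s t : F)
    (hst : s + (n (Pi.single 0 1) 2 4 + n (Pi.single 1 1) 3 5) = t) :
    (Finset.univ.filter fun ω : Ω => p ∈ (e ω).1 ∧ Opp (e ω).1 ∧ Val (e ω).1 s).card ≤
      (Finset.univ.filter fun ω : Ω => p ∈ (e ω).1 ∧ Opp (e ω).1 ∧ Val (e ω).1 t).card := by
  refine Finset.card_le_card_of_injOn
    (fun ω => e.symm ⟨(e ω).1.map (Tr κ μ n), lr_map hw hc (e ω).2⟩) ?_ ?_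
  · intro ω hω
    rw [Finset.mem_coe, Finset.mem_filter] at hω ⊢
    refine ⟨Finset.mem_univ _, ?_⟩
    show p ∈ (e (e.symm _)).1 ∧ Opp (e (e.symm _)).1 ∧ Val (e (e.symm _)).1 t
    rw [e.apply_symm_apply]
    refine ⟨⟨p, hω.2.1, hp⟩, opp_map hω.2.2.1, ?_⟩
    rw [← hst]
    exact val_map hω.2.2.2
  · intro ω _ ω' _ h
    have h1 := e.symm.injective h
    have h2 : (e ω).1.map (Tr κ μ n) = (e ω').1.map (Tr κ μ n) := congrArg Subtype.val h1
    have h3 := Submodule.map_injective_of_injective (Tr_inj κ μ n) h2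
    exact e.injective (Subtype.ext h3)

theorem tr_fix {κ : Matrix (Fin 6) (Fin 6) F →ₗ[F] (Fin 6 → F)}
    {μ : (Fin 6 → F) →ₗ[F] (Fin 6 → F)} {n : (Fin 6 → F) →ₗ[F] Matrix (Fin 6) (Fin 6) F}
    {p : V F} (h0 : n p.2.2 = 0) (h1 : p.1 + κ p.2.1 + μ p.2.2 = p.1) : Tr κ μ n p = p := by
  refine Prod.ext h1 (Prod.ext ?_ rfl)
  show p.2.1 + n p.2.2 = p.2.1
  rw [h0, add_zero]

/-- In the star of `p` the values `0` and `1` are taken equally often. -/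
theorem star_card (hR : StRoot) (hS : StStar) {Ω : Type} [Fintype Ω]
    (c₀ : Matrix (Fin 6) (Fin 6) F) (hc₀ : c₀ = 0 ∨ c₀ = J) (e : Ω ≃ LR ((0, c₀, 0) : V F))
    (p : V F) (hp : p ≠ 0) :
    (Finset.univ.filter fun ω : Ω => p ∈ (e ω).1 ∧ Opp (e ω).1 ∧ Val (e ω).1 0).card =
      (Finset.univ.filter fun ω : Ω => p ∈ (e ω).1 ∧ Opp (e ω).1 ∧ Val (e ω).1 1).card := by
  by_cases hu : p.2.2 = 0
  · have h : ∀ s : F, (Finset.univ.filter fun ω : Ω =>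
        p ∈ (e ω).1 ∧ Opp (e ω).1 ∧ Val (e ω).1 s) = ∅ := by
      intro s
      refine Finset.filter_eq_empty_iff.2 fun ω _ h => ?_
      exact hp (h.2.1 p h.1 hu)
    rw [h 0, h 1]
  by_cases hpw : White p
  swap
  · have h : ∀ s : F, (Finset.univ.filter fun ω : Ω =>
        p ∈ (e ω).1 ∧ Opp (e ω).1 ∧ Val (e ω).1 s) = ∅ := by
      intro s
      refine Finset.filter_eq_empty_iff.2 fun ω _ h => ?_
      exact hpw ((e ω).2.2 p h.1).1
    rw [h 0, h 1]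
  obtain ⟨x, y, z, hx, hy, hz, hxy, hxz, hyz, ha⟩ := hS F p.2.2 hu
  have hn0 : ∀ s : F, (s • conL x y z) p.2.2 = 0 := by
    intro s
    rw [LinearMap.smul_apply, conL_apply]
    unfold con
    rw [hx, hy, hz]
    simp
  have hnc : ∀ (s : F) u, pair c₀ ((s • conL x y z) u) = 0 := by
    intro s u
    rw [LinearMap.smul_apply, conL_apply, pair_smul, pair_con]
    rcases hc₀ with rfl | rfl
    · rw [pair_zero_left, pair_zero_left, pair_zero_left]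
      ring
    · rw [hxy, hxz, hyz]
      ring
  have hval : ∀ s : F, (s • conL x y z) (Pi.single 0 1) 2 4 +
      (s • conL x y z) (Pi.single 1 1) 3 5 = s * fun3 x y z := by
    intro s
    rw [LinearMap.smul_apply, LinearMap.smul_apply, conL_apply, conL_apply, Matrix.smul_apply,
      Matrix.smul_apply, smul_eq_mul, smul_eq_mul]
    unfold fun3
    ring
  refine le_antisymm ?_ ?_
  · obtain ⟨κ, μ, hw, hf⟩ := good_fix (good_tri hR x y z (fun3 x y z)⁻¹) p hpw hu (hn0 _)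
    refine card_le_of_map c₀ e p κ μ _ hw (hnc _) (tr_fix (hn0 _) hf) 0 1 ?_
    rw [hval, inv_mul_cancel₀ ha, zero_add]
  · obtain ⟨κ, μ, hw, hf⟩ := good_fix (good_tri hR x y z (-(fun3 x y z)⁻¹)) p hpw hu (hn0 _)
    refine card_le_of_map c₀ e p κ μ _ hw (hnc _) (tr_fix (hn0 _) hf) 1 0 ?_
    rw [hval, neg_mul, inv_mul_cancel₀ ha, add_neg_cancel]

/-- The subspace `w = b = 0`. -/
def W0 : Submodule F (V F) := LinearMap.range
  ((LinearMap.inr F (Fin 6 → F) (Matrix (Fin 6) (Fin 6) F × (Fin 6 → F))) ∘ₗ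
    (LinearMap.inr F (Matrix (Fin 6) (Fin 6) F) (Fin 6 → F)))

/-- The subspace `b = u = 0`. -/
def W1 : Submodule F (V F) := LinearMap.range
  (LinearMap.inl F (Fin 6 → F) (Matrix (Fin 6) (Fin 6) F × (Fin 6 → F)))

theorem mem_W0 (x : V F) : x ∈ (W0 : Submodule F (V F)) ↔ ∃ u, x = (0, 0, u) :=
  ⟨fun ⟨u, hu⟩ => ⟨u, hu.symm⟩, fun ⟨u, hu⟩ => ⟨u, hu.symm⟩⟩

theorem mem_W1 (x : V F) : x ∈ (W1 : Submodule F (V F)) ↔ ∃ w, x = (w, 0, 0) :=
  ⟨fun ⟨u, hu⟩ => ⟨u, hu.symm⟩, fun ⟨u, hu⟩ => ⟨u, hu.symm⟩⟩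

theorem W0_lr (c₀ : Matrix (Fin 6) (Fin 6) F) : W0 ∈ LR ((0, c₀, 0) : V F) := by
  refine ⟨?_, fun x hx => ?_⟩
  · unfold W0
    rw [LinearMap.finrank_range_of_inj, Module.finrank_fin_fun]
    exact LinearMap.inr_injective.comp LinearMap.inr_injective
  · obtain ⟨u, rfl⟩ := (mem_W0 x).1 hx
    refine ⟨white_u pf0_16 u, ?_⟩
    rw [ev_mid]
    exact pair_zero _

theorem W1_lr (c₀ : Matrix (Fin 6) (Fin 6) F) : W1 ∈ LR ((0, c₀, 0) : V F) := by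
  refine ⟨?_, fun x hx => ?_⟩
  · unfold W1
    rw [LinearMap.finrank_range_of_inj, Module.finrank_fin_fun]
    exact LinearMap.inl_injective
  · obtain ⟨u, rfl⟩ := (mem_W1 x).1 hx
    refine ⟨white_w u, ?_⟩
    rw [ev_mid]
    exact pair_zero _

theorem W0_opp : Opp (W0 : Submodule F (V F)) := by
  intro x hx h
  obtain ⟨u, rfl⟩ := (mem_W0 x).1 hx
  have h' : u = 0 := h
  rw [h']
  rfl

theorem W0_val (s : F) : Val (W0 : Submodule F (V F)) s ↔ s = 0 := by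
  constructor
  · rintro ⟨x, hx, y, hy, -, -, h⟩
    obtain ⟨u, rfl⟩ := (mem_W0 x).1 hx
    obtain ⟨v, rfl⟩ := (mem_W0 y).1 hy
    rw [← h]
    show (0 : Matrix (Fin 6) (Fin 6) F) 2 4 + (0 : Matrix (Fin 6) (Fin 6) F) 3 5 = 0
    simp
  · rintro rfl
    refine ⟨(0, 0, Pi.single 0 1), (mem_W0 _).2 ⟨_, rfl⟩, (0, 0, Pi.single 1 1),
      (mem_W0 _).2 ⟨_, rfl⟩, rfl, rfl, ?_⟩
    show (0 : Matrix (Fin 6) (Fin 6) F) 2 4 + (0 : Matrix (Fin 6) (Fin 6) F) 3 5 = 0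
    simp

/-- The long root groups of `E_6(q)` and `F_4(q)`. -/
theorem longRoots (hR : StRoot) (hS : StStar) {G Ω : Type} [Group G] [Fintype Ω]
    [MulAction G Ω] [MulAction.IsPretransitive G Ω] (l₀ : V F) (hl₀ : l₀ = 0 ∨ l₀ = (0, J, 0))
    (e : Ω ≃ {W : Submodule F (V F) // Module.finrank F W = 6 ∧ ∀ x ∈ W, White x ∧ ev l₀ x = 0})
    (hG : ∀ (g : G) (x : V F), ∃ x', ∀ ω : Ω, x ∈ (e ω).1 ↔ x' ∈ (e (g • ω)).1) :
    NonSpreading G Ω := by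
  obtain ⟨c₀, hc₀, rfl⟩ : ∃ c₀ : Matrix (Fin 6) (Fin 6) F, (c₀ = 0 ∨ c₀ = J) ∧ l₀ = (0, c₀, 0) := by
    rcases hl₀ with rfl | rfl
    · exact ⟨0, Or.inl rfl, rfl⟩
    · exact ⟨J, Or.inr rfl, rfl⟩
  let v : Ω → ℤ := fun ω => (if Opp (e ω).1 ∧ Val (e ω).1 0 then 1 else 0) -
    (if Opp (e ω).1 ∧ Val (e ω).1 1 then 1 else 0)
  let ω₀ : Ω := e.symm ⟨W0, W0_lr c₀⟩
  let ω₁ : Ω := e.symm ⟨W1, W1_lr c₀⟩
  have he0 : (e ω₀).1 = W0 := by rw [e.apply_symm_apply]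
  have he1 : (e ω₁).1 = W1 := by rw [e.apply_symm_apply]
  have hne0 : (Pi.single 0 1 : Fin 6 → F) ≠ 0 := single_ne 0
  let p₀ : V F := (0, 0, Pi.single 0 1)
  have hp₀ : p₀ ≠ 0 := fun h => hne0 (congrArg (fun y : V F => y.2.2) h)
  have hsum : ∀ p : V F, p ≠ 0 →
      ∑ ω : Ω, (if p ∈ (e ω).1 then v ω else 0) = 0 := by
    intro p hp
    have h := star_card hR hS c₀ hc₀ e p hp
    rw [Finset.card_filter, Finset.card_filter] at h
    have h' : (∑ ω : Ω, if p ∈ (e ω).1 ∧ Opp (e ω).1 ∧ Val (e ω).1 0 then (1 : ℤ) else 0) =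
        ∑ ω : Ω, if p ∈ (e ω).1 ∧ Opp (e ω).1 ∧ Val (e ω).1 1 then (1 : ℤ) else 0 := by
      exact_mod_cast h
    have h2 : ∀ ω : Ω, (if p ∈ (e ω).1 then v ω else 0) =
        (if p ∈ (e ω).1 ∧ Opp (e ω).1 ∧ Val (e ω).1 0 then (1 : ℤ) else 0) -
        if p ∈ (e ω).1 ∧ Opp (e ω).1 ∧ Val (e ω).1 1 then (1 : ℤ) else 0 := by
      intro ω
      by_cases h3 : p ∈ (e ω).1
      · simp only [h3, true_and, if_true, v]
      · simp only [h3, false_and, if_false, sub_zero]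
    rw [Finset.sum_congr rfl fun ω _ => h2 ω, Finset.sum_sub_distrib, h', sub_self]
  have hv0 : v ω₀ = 1 := by
    show (if Opp (e ω₀).1 ∧ Val (e ω₀).1 0 then (1 : ℤ) else 0) -
      (if Opp (e ω₀).1 ∧ Val (e ω₀).1 1 then 1 else 0) = 1
    rw [he0, if_pos ⟨W0_opp, (W0_val 0).2 rfl⟩, if_neg, sub_zero]
    rintro ⟨-, h⟩
    exact one_ne_zero ((W0_val 1).1 h)
  have hp0 : p₀ ∈ (e ω₀).1 := by
    rw [he0]
    exact (mem_W0 _).2 ⟨_, rfl⟩
  have hp1 : p₀ ∉ (e ω₁).1 := by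
    rw [he1]
    intro h
    obtain ⟨w, hw⟩ := (mem_W1 _).1 h
    exact hne0 (congrArg (fun y : V F => y.2.2) hw)
  refine nonSpreading_of_vector v (fun ω => ?_) ⟨ω₀, by rw [hv0]; exact one_ne_zero⟩
    (Finset.univ.filter fun ω : Ω => p₀ ∈ (e ω).1) ?_ ?_ fun g => ?_
  · show -1 ≤ (if Opp (e ω).1 ∧ Val (e ω).1 0 then (1 : ℤ) else 0) -
      (if Opp (e ω).1 ∧ Val (e ω).1 1 then 1 else 0)
    split_ifs <;> norm_num
  · -- two subspaces in the star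
    have h1 := hsum p₀ hp₀
    by_contra hcard
    have h2 : (Finset.univ.filter fun ω : Ω => p₀ ∈ (e ω).1) = {ω₀} := by
      refine (Finset.eq_of_subset_of_card_le ?_ ?_).symm
      · rw [Finset.singleton_subset_iff, Finset.mem_filter]
        exact ⟨Finset.mem_univ _, hp0⟩
      · rw [Finset.card_singleton]
        omega
    rw [← Finset.sum_filter, h2, Finset.sum_singleton, hv0] at h1
    exact one_ne_zero h1
  · rw [← Finset.card_univ]
    refine Finset.card_lt_card ((Finset.ssubset_iff_of_subset (Finset.subset_univ _)).2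
      ⟨ω₁, Finset.mem_univ _, ?_⟩)
    rw [Finset.mem_filter]
    exact fun h => hp1 h.2
  · obtain ⟨p', hp'⟩ := hG g p₀
    have hp'0 : p' ≠ 0 := by
      rintro rfl
      exact hp1 ((hp' ω₁).2 (Submodule.zero_mem _))
    refine Eq.trans ?_ (hsum p' hp'0)
    rw [Finset.sum_filter, ← Equiv.sum_comp (MulAction.toPerm g)
      (fun ω : Ω => if p' ∈ (e ω).1 then v ω else 0)]
    refine Finset.sum_congr rfl fun ω _ => ?_
    show (if p₀ ∈ (e ω).1 then v (g • ω) else 0) = if p' ∈ (e (g • ω)).1 then v (g • ω) else 0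
    by_cases h3 : p₀ ∈ (e ω).1
    · rw [if_pos h3, if_pos ((hp' ω).1 h3)]
    · rw [if_neg h3, if_neg fun h => h3 ((hp' ω).2 h)]

end

end SpreadPerm.EX
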