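import Pool.Agent.Lib.MP_e6ed9e_al.EX.Final67

/-! # The points of `E_6` and `F_4`: the theorems -/

namespace SpreadPerm.EX

open Matrix Finset
open scoped Classical

noncomputable section

variable {F : Type} [Field F] [Fintype F]

theorem two_le_q : (2 : ℤ) ≤ (Fintype.card F : ℤ) := by
  exact_mod_cast (Fintype.one_lt_card : 1 < Fintype.card F)

theorem sum_tot (hPf0 : StPf0) (hDec : StDec) (hTot : StTot) :
    ((Fintype.card F : ℤ) ^ 2 - 1) *
      ((∑ x : V F, (if x ≠ 0 ∧ White x then wt x else 0) : ℕ) : ℤ) =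
      ((Fintype.card F : ℤ) ^ 6 - 1) * ((Fintype.card F : ℤ) ^ 9 - 1) := by
  have h1 := sum_section hPf0 (0 : Fin 6 → F) 0 0
  have h2 : ∑ x : V F, (if x ≠ 0 ∧ White x ∧ ev ((0, 0, 0) : V F) x = 0 then wt x else 0) =
      ∑ x : V F, (if x ≠ 0 ∧ White x then wt x else 0) := by
    refine Finset.sum_congr rfl fun x _ => ?_
    refine if_congr ?_ rfl rfl
    rw [ev_zero]
    simp
  rw [h2] at h1
  have h3 := main_total (F := F) hDec hTot
  rw [EE_zero] at h1
  have h4 := congrArg (Nat.cast : ℕ → ℤ) h1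
  have hq1 : 1 ≤ Fintype.card F ^ 6 := Nat.one_le_pow _ _ (Fintype.card_pos)
  push_cast [Nat.cast_sub hq1] at h4
  push_cast
  rw [h4]
  linear_combination h3

theorem sum_reg (hPf0 : StPf0) (hDec : StDec) (hSec : StSec) (hReg : StReg) (l : V F)
    (hl : Alt l.2.1) (hN : Nd l ≠ 0) :
    ((Fintype.card F : ℤ) ^ 2 - 1) *
      ((∑ x : V F, (if x ≠ 0 ∧ White x ∧ ev l x = 0 then wt x else 0) : ℕ) : ℤ) =
      ((Fintype.card F : ℤ) ^ 6 - 1) * ((Fintype.card F : ℤ) ^ 8 - 1) := by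
  obtain ⟨a, c, d⟩ := l
  have h1 := sum_section hPf0 a c d
  have h3 := main_section hDec hSec hReg (a, c, d) hl hN
  rw [h1]
  push_cast
  exact h3

theorem sum_pencil (hPf0 : StPf0) (hDec : StDec) (hSec : StSec) (hTot : StTot) (hReg : StReg)
    (l₀ l : V F) (h0 : Alt l₀.2.1) (hl0 : l₀ ≠ 0) (hl : Aniso l₀ l) :
    ((Fintype.card F : ℤ) ^ 2 - 1) *
      ((∑ x : V F, (if x ≠ 0 ∧ White x ∧ ev l₀ x = 0 ∧ ev l x = 0 then wt x else 0) : ℕ) : ℤ) =
      ((Fintype.card F : ℤ) ^ 6 - 1) * ((Fintype.card F : ℤ) ^ 7 - 1) := by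
  have hq := two_le_q (F := F)
  have h1 := pencil_sum l₀ l (fun x => if x ≠ 0 ∧ White x then wt x else 0)
  have h2 : ∑ x : V F, (if ev l₀ x = 0 ∧ ev l x = 0 then
      (if x ≠ 0 ∧ White x then wt x else 0) else 0) =
      ∑ x : V F, (if x ≠ 0 ∧ White x ∧ ev l₀ x = 0 ∧ ev l x = 0 then wt x else 0) := by
    refine Finset.sum_congr rfl fun x _ => ?_
    by_cases h3 : ev l₀ x = 0 ∧ ev l x = 0
    · rw [if_pos h3]
      refine if_congr ?_ rfl rfl
      rw [← and_assoc (a := x ≠ 0)]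
      exact (and_iff_left h3).symm
    · rw [if_neg h3, if_neg fun h => h3 h.2.2]
  rw [h2] at h1
  have h3 : ∀ p ∈ univ.filter (fun p : F × F => p ≠ 0),
      ((Fintype.card F : ℤ) ^ 2 - 1) *
        ((∑ x : V F, (if ev (p.1 • l₀ + p.2 • l) x = 0 then
          (if x ≠ 0 ∧ White x then wt x else 0) else 0) : ℕ) : ℤ) =
        ((Fintype.card F : ℤ) ^ 6 - 1) * ((Fintype.card F : ℤ) ^ 8 - 1) := by
    intro p hp
    have hp0 : p ≠ 0 := (mem_filter.1 hp).2
    have hne : p.1 • l₀ + p.2 • l ≠ 0 := by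
      intro h
      have h4 := hl.2.1 _ _ h
      rw [h4, zero_smul, add_zero] at h
      exact hp0 (Prod.ext ((smul_eq_zero.1 h).resolve_right hl0) h4)
    have h5 := sum_reg hPf0 hDec hSec hReg (p.1 • l₀ + p.2 • l)
      (alt_add (alt_smul' _ h0) (alt_smul' _ hl.1)) (hl.2.2 _ _ hne)
    rw [← h5]
    congr 2
    refine Finset.sum_congr rfl fun x _ => ?_
    by_cases h6 : ev (p.1 • l₀ + p.2 • l) x = 0
    · rw [if_pos h6]
      refine if_congr ?_ rfl rfl
      rw [← and_assoc]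
      exact (and_iff_left h6).symm
    · rw [if_neg h6, if_neg fun h => h6 h.2.2]
  have h4 : ((Fintype.card F : ℤ) ^ 2 - 1) *
      ((∑ p ∈ univ.filter (fun p : F × F => p ≠ 0),
      ∑ x : V F, (if ev (p.1 • l₀ + p.2 • l) x = 0 then
        (if x ≠ 0 ∧ White x then wt x else 0) else 0) : ℕ) : ℤ) =
      ((Fintype.card F : ℤ) ^ 2 - 1) *
        (((Fintype.card F : ℤ) ^ 6 - 1) * ((Fintype.card F : ℤ) ^ 8 - 1)) := by
    rw [Nat.cast_sum, Finset.mul_sum, Finset.sum_congr rfl h3, Finset.sum_const, nsmul_eq_mul]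
    congr 1
    have h5 := cnt2 (0 : F) 0
    rw [if_pos ⟨rfl, rfl⟩] at h5
    have h6 : (univ.filter fun p : F × F => p ≠ 0 ∧ p.1 * 0 + p.2 * 0 = 0) =
        univ.filter fun p : F × F => p ≠ 0 := by
      ext p
      simp
    rw [h6] at h5
    rw [h5]
    have : 1 ≤ Fintype.card F ^ 2 := Nat.one_le_pow _ _ (Fintype.card_pos)
    push_cast [Nat.cast_sub this]
    ring
  rw [h1] at h4
  have hq1 : 1 ≤ Fintype.card F := Fintype.card_pos
  have hq2 : Fintype.card F ≤ Fintype.card F ^ 2 := Nat.le_self_pow (by omega) _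
  rw [Nat.cast_add, Nat.cast_mul, Nat.cast_mul, Nat.cast_sub hq1, Nat.cast_sub hq2] at h4
  have h5 := sum_tot (F := F) hPf0 hDec hTot
  generalize ((∑ x : V F, (if x ≠ 0 ∧ White x then wt x else 0) : ℕ) : ℤ) = T at h4 h5
  generalize ((∑ x : V F, (if x ≠ 0 ∧ White x ∧ ev l₀ x = 0 ∧ ev l x = 0 then wt x else 0)
    : ℕ) : ℤ) = S at h4 ⊢
  push_cast at h4
  have hq0 : ((Fintype.card F : ℤ) - 1) * (Fintype.card F : ℤ) ≠ 0 :=
    mul_ne_zero (by omega) (by omega)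
  apply mul_left_cancel₀ hq0
  linear_combination h4 - ((Fintype.card F : ℤ) - 1) * h5

theorem nat_of_int {q T K : ℕ} (hq : 1 ≤ q) (a b : ℕ)
    (h : ((q : ℤ) ^ 2 - 1) * (T : ℤ) = ((q : ℤ) ^ a - 1) * ((q : ℤ) ^ b - 1))
    (hK : K = (q ^ a - 1) * (q ^ b - 1)) : (q ^ 2 - 1) * T = K := by
  rw [hK]
  have h1 : 1 ≤ q ^ 2 := Nat.one_le_pow _ _ hq
  have h2 : 1 ≤ q ^ a := Nat.one_le_pow _ _ hq
  have h3 : 1 ≤ q ^ b := Nat.one_le_pow _ _ hq
  zify [h1, h2, h3]
  exact h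

theorem dvd_arith {q T N : ℕ} (hq : 2 ≤ q) (m : ℕ)
    (h1 : ((q : ℤ) ^ 2 - 1) * (T : ℤ) = ((q : ℤ) ^ 6 - 1) * ((q : ℤ) ^ m - 1))
    (h2 : (N : ℤ) = ((q : ℤ) ^ 6 - 1) * (q : ℤ) ^ (m + 2) + ((T : ℤ) -
      (q : ℤ) ^ 2 * ((q : ℤ) ^ 6 - 1))) : T ∣ N := by
  have hq' : (2 : ℤ) ≤ q := by exact_mod_cast hq
  have h3 : (N : ℤ) = (T : ℤ) * ((q : ℤ) ^ 4 - (q : ℤ) ^ 2 + 1) := by
    rw [h2, pow_add]
    linear_combination (-((q : ℤ) ^ 2)) * h1
  exact Int.natCast_dvd_natCast.1 ⟨_, h3⟩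

/-- `E_6` and `F_4`: every group that permutes the sections of the variety is non-spreading. -/
theorem exceptional (hPf0 : StPf0) (hDec : StDec) (hSec : StSec) (hTot : StTot) (hReg : StReg)
    (hU : StU) (hUc : StUc) {G Ω : Type} [Group G] [Fintype Ω] [MulAction G Ω] (l₀ : V F)
    (hl₀ : l₀ = 0 ∨ l₀ = (0, J, 0))
    (e : Ω ≃ {p : Projectivization F (V F) // p.rep ∈ {x : V F | White x ∧ ev l₀ x = 0}})
    (hG : ∀ (g : G) (l : V F), Aniso l₀ l → ∃ l', Aniso l₀ l' ∧ ∀ ω : Ω,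
      ev l (e ω).1.rep = 0 ↔ ev l' (e (g • ω)).1.rep = 0) : NonSpreading G Ω := by
  have hq : 2 ≤ Fintype.card F := Fintype.one_lt_card
  have hq1 : 1 ≤ Fintype.card F ^ 6 := Nat.one_le_pow _ _ (Fintype.card_pos)
  have hpow : ∀ n : ℕ, n ≠ 0 → 0 < Fintype.card F ^ n - 1 := by
    intro n hn
    have := Nat.one_lt_pow hn (by omega : 1 < Fintype.card F)
    omega
  rcases hl₀ with rfl | rfl
  · have h0 : (0 : V F) = (0, 0, 0) := rfl
    have hz : ∀ x : V F, ev (0 : V F) x = 0 := ev_zero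
    refine core hPf0 (0 : Matrix (Fin 6) (Fin 6) F) J e (Aniso 0) aniso_zero_J
      ((Fintype.card F ^ 6 - 1) * (Fintype.card F ^ 8 - 1))
      (Nat.mul_pos (hpow 6 (by norm_num)) (hpow 8 (by norm_num))) ?_ ?_
      (0, wedge (Pi.single 0 1) (Pi.single 1 1), 0) ?_ ?_ ?_ hG
    · intro l hl
      obtain ⟨h1, h2⟩ := aniso_zero hl
      refine nat_of_int (by omega) 6 8 ?_ rfl
      rw [← sum_reg hPf0 hDec hSec hReg l h1 h2]
      congr 2
      refine Finset.sum_congr rfl fun x _ => if_congr ?_ rfl rfl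
      rw [ev_zero]
      simp
    · have h1 := sum_tot (F := F) hPf0 hDec hTot
      have h2 := card_white_all (F := F) hPf0 hU
      have h3 := sum_section hPf0 (0 : Fin 6 → F) 0 0
      rw [EE_zero] at h3
      rw [Finset.card_filter] at h2
      have h4 : ∑ x : V F, (if x ≠ 0 ∧ White x ∧ ev ((0, 0, 0) : V F) x = 0 then wt x else 0) =
          ∑ x : V F, (if x ≠ 0 ∧ White x then wt x else 0) := by
        refine Finset.sum_congr rfl fun x _ => if_congr ?_ rfl rfl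
        rw [ev_zero]
        simp
      have h5 : ∑ x : V F, (if x ≠ 0 ∧ White x ∧ ev ((0, 0, 0) : V F) x = 0 then 1 else 0) =
          ∑ x : V F, (if x ≠ 0 ∧ White x then 1 else 0) := by
        refine Finset.sum_congr rfl fun x _ => if_congr ?_ rfl rfl
        rw [ev_zero]
        simp
      rw [h4] at h3
      rw [h4, h5]
      refine dvd_arith hq 9 h1 ?_
      have h6 := congrArg (Nat.cast : ℕ → ℤ) h2
      have h7 := congrArg (Nat.cast : ℕ → ℤ) h3
      rw [Nat.cast_add, Nat.cast_add, Nat.cast_mul, Nat.cast_sub hq1] at h6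
      rw [Nat.cast_add, Nat.cast_mul, Nat.cast_sub hq1] at h7
      generalize ((∑ x : V F, (if x ≠ 0 ∧ White x then wt x else 0) : ℕ) : ℤ) = T at h7 ⊢
      generalize ((∑ x : V F, (if x ≠ 0 ∧ White x then 1 else 0) : ℕ) : ℤ) = N at h6 ⊢
      push_cast at h6 h7
      linear_combination h6 - h7
    · exact (white_b hPf0 _ _).2 ⟨wedge_alt _ _, wedge_pf _ _, mulVec_zero _⟩
    · exact ev_zero _
    · rw [ev_mid]
      show pair J (wedge (Pi.single 0 1) (Pi.single 1 1)) ≠ 0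
      rw [pair_single _ alt_J, J01]
      exact one_ne_zero
  · obtain ⟨β, hβ⟩ := exists_beta (F := F)
    have hl0 : ((0, J, 0) : V F) ≠ 0 := by
      intro h
      have h1 : (J : Matrix (Fin 6) (Fin 6) F) = 0 := congrArg (fun y : V F => y.2.1) h
      have h2 := J01 (F := F)
      rw [h1] at h2
      exact zero_ne_one h2
    have hN : Nd ((0, J, 0) : V F) ≠ 0 := by
      rw [Nd_mid, Pf_J]
      exact one_ne_zero
    have hreg := (hReg F ((0, J, 0) : V F) alt_J hN).2 rfl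
    refine core hPf0 (J : Matrix (Fin 6) (Fin 6) F) (C₁ β) e (Aniso (0, J, 0)) (aniso_J hβ)
      ((Fintype.card F ^ 6 - 1) * (Fintype.card F ^ 7 - 1))
      (Nat.mul_pos (hpow 6 (by norm_num)) (hpow 7 (by norm_num))) ?_ ?_
      (0, wedge (Pi.single 0 1) (Pi.single 3 1), 0) ?_ ?_ ?_ hG
    · intro l hl
      refine nat_of_int (by omega) 6 7 ?_ rfl
      exact sum_pencil hPf0 hDec hSec hTot hReg (0, J, 0) l alt_J hl0 hl
    · have h1 := sum_reg hPf0 hDec hSec hReg ((0, J, 0) : V F) alt_J hN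
      have h2 := card_white_sec hPf0 hUc (J : Matrix (Fin 6) (Fin 6) F) alt_J hreg
      have h3 := sum_section hPf0 (0 : Fin 6 → F) J 0
      rw [EE_zero] at h3
      rw [Finset.card_filter] at h2
      refine dvd_arith hq 8 h1 ?_
      have h6 := congrArg (Nat.cast : ℕ → ℤ) h2
      have h7 := congrArg (Nat.cast : ℕ → ℤ) h3
      rw [Nat.cast_add, Nat.cast_add, Nat.cast_mul, Nat.cast_sub hq1] at h6
      rw [Nat.cast_add, Nat.cast_mul, Nat.cast_sub hq1] at h7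
      generalize ((∑ x : V F, (if x ≠ 0 ∧ White x ∧ ev ((0, J, 0) : V F) x = 0 then wt x
        else 0) : ℕ) : ℤ) = T at h7 ⊢
      generalize ((∑ x : V F, (if x ≠ 0 ∧ White x ∧ ev ((0, J, 0) : V F) x = 0 then 1
        else 0) : ℕ) : ℤ) = N at h6 ⊢
      push_cast at h6 h7
      linear_combination h6 - h7
    · exact (white_b hPf0 _ _).2 ⟨wedge_alt _ _, wedge_pf _ _, mulVec_zero _⟩
    · rw [ev_mid]
      show pair J (wedge (Pi.single 0 1) (Pi.single 3 1)) = 0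
      rw [pair_single _ alt_J, J03]
    · rw [ev_mid]
      show pair (C₁ β) (wedge (Pi.single 0 1) (Pi.single 3 1)) ≠ 0
      rw [pair_single _ (alt_C₁ β), C03]
      exact one_ne_zero

end

end SpreadPerm.EX
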