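import Pool.Agent.Lib.MP_e6ed9e_al.EX.Star67
import Pool.Agent.Lib.MP_e6ed9e_al.EX.RootAll67

/-! # Long root groups of `2E_6(q)`: totally white subspaces fixed by a unitary polarity -/

namespace SpreadPerm.EX.Tw

open Matrix SpreadPerm.EX

noncomputable section

variable {K : Type} [Field K]

/-- Exchange of `0` and `1`, `2` and `3`, `4` and `5`. -/
def sw : Fin 6 → Fin 6 := ![1, 0, 3, 2, 5, 4]

/-- The unitary polarity: the linear form attached to a vector. -/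
def pol (σ : K →+* K) (x : V K) : V K :=
  (fun i => σ (x.2.2 (sw i)), fun i j => σ (x.2.1 (sw i) (sw j)), fun i => σ (x.1 (sw i)))

/-- The trilinear form of the cubic form. -/
def tri (x y z : V K) : K :=
  Nd (x + y + z) - Nd (x + y) - Nd (y + z) - Nd (x + z) + Nd x + Nd y + Nd z

/-- `y` is perpendicular to `W`. -/
def Perp (σ : K →+* K) (W : Submodule K (V K)) (y : V K) : Prop :=
  Alt y.2.1 ∧ ∀ x ∈ W, ev (pol σ x) y = 0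

/-- The subspaces `W`: six-dimensional, white, isotropic, and fixed by the polarity. -/
def LR2 (σ : K →+* K) : Set (Submodule K (V K)) :=
  {W | Module.finrank K W = 6 ∧ (∀ x ∈ W, White x ∧ Perp σ W x) ∧
    ∀ x ∈ W, ∀ y z, Perp σ W y → Perp σ W z → tri x y z = 0}

/-- Absolute points. -/
def Abs (σ : K →+* K) (p : V K) : Prop :=
  p ≠ 0 ∧ White p ∧ ∃ y : V K, Alt y.2.1 ∧ ∀ z : V K, Alt z.2.1 → tri p y z = ev (pol σ p) z

/-- The vector conjugate to `u`. -/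
def bar (σ : K →+* K) (u : Fin 6 → K) : Fin 6 → K := fun i => σ (u (sw i))

/-- Coordinate of a trivector. -/
def det3 (x p r : Fin 6 → K) (i j k : Fin 6) : K :=
  x i * (p j * r k - p k * r j) - x j * (p i * r k - p k * r i) + x k * (p i * r j - p j * r i)

/-- STAR2. -/
def StStar2 : Prop := ∀ (K : Type) [Field K] (σ : K →+* K) (c : K) (u : Fin 6 → K), c ≠ 0 →
  u ≠ 0 → bar σ u ⬝ᵥ u = 0 → ∃ p r : Fin 6 → K, p ⬝ᵥ u = 0 ∧ r ⬝ᵥ u = 0 ∧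
    det3 (bar σ u) p r 1 3 5 + c * det3 (bar σ u) p r 0 2 4 ≠ 0

/-- The real trivector with parameter `s` at the place `i j k` and `ε * σ s` at `l m n`. -/
def gen (σ : K →+* K) (ε : K) (i j k l m n : Fin 6) (s : K) :
    (Fin 6 → K) →ₗ[K] Matrix (Fin 6) (Fin 6) K :=
  s • conL (Pi.single i (1 : K)) (Pi.single j (1 : K)) (Pi.single k (1 : K)) +
    (ε * σ s) • conL (Pi.single l (1 : K)) (Pi.single m (1 : K)) (Pi.single n (1 : K))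

/-- The real trivector `t + ρ(t)`. -/
def realL (σ : K →+* K) (t : Fin 6 → Fin 6 → Fin 6 → K) :
    (Fin 6 → K) →ₗ[K] Matrix (Fin 6) (Fin 6) K :=
  gen σ (-1) 0 1 2 2 4 5 (t 0 1 2) + gen σ 1 0 1 3 3 4 5 (t 0 1 3) +
  gen σ (-1) 0 1 4 2 3 4 (t 0 1 4) + gen σ 1 0 1 5 2 3 5 (t 0 1 5) +
  gen σ (-1) 0 2 3 0 4 5 (t 0 2 3) + gen σ (-1) 0 2 4 0 2 4 (t 0 2 4) +
  gen σ 1 0 2 5 0 2 5 (t 0 2 5) + gen σ 1 0 3 4 0 3 4 (t 0 3 4) +
  gen σ (-1) 0 3 5 0 3 5 (t 0 3 5) + gen σ (-1) 0 4 5 0 2 3 (t 0 4 5) +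
  gen σ 1 1 2 3 1 4 5 (t 1 2 3) + gen σ 1 1 2 4 1 2 4 (t 1 2 4) +
  gen σ (-1) 1 2 5 1 2 5 (t 1 2 5) + gen σ (-1) 1 3 4 1 3 4 (t 1 3 4) +
  gen σ 1 1 3 5 1 3 5 (t 1 3 5) + gen σ 1 1 4 5 1 2 3 (t 1 4 5) +
  gen σ (-1) 2 3 4 0 1 4 (t 2 3 4) + gen σ 1 2 3 5 0 1 5 (t 2 3 5) +
  gen σ (-1) 2 4 5 0 1 2 (t 2 4 5) + gen σ 1 3 4 5 0 1 3 (t 3 4 5)

/-- NU: the real trivector of `λ x ∧ p ∧ r` is killed by `u`. -/
def StNU : Prop := ∀ (K : Type) [Field K] (σ : K →+* K) (_ : ∀ x, σ (σ x) = x)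
  (u p r : Fin 6 → K) (l : K), bar σ u ⬝ᵥ u = 0 → p ⬝ᵥ u = 0 → r ⬝ᵥ u = 0 →
  realL σ (fun i j k => l * det3 (bar σ u) p r i j k) u = 0

/-- The unipotent map with middle part `n` can be chosen in the unitary group. -/
def GoodU (σ : K →+* K) (n : (Fin 6 → K) →ₗ[K] Matrix (Fin 6) (Fin 6) K) : Prop :=
  ∃ (κ : Matrix (Fin 6) (Fin 6) K →ₗ[K] (Fin 6 → K)) (μ : (Fin 6 → K) →ₗ[K] (Fin 6 → K)),
    (∀ u, Alt (n u)) ∧ (∀ x, White x → White (Tr κ μ n x)) ∧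
    (∀ x : V K, Alt x.2.1 → Nd (Tr κ μ n x) = Nd x) ∧
    ∀ x y : V K, Alt x.2.1 → Alt y.2.1 → ev (pol σ (Tr κ μ n y)) (Tr κ μ n x) = ev (pol σ y) x

end

end SpreadPerm.EX.Tw
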