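import Pool.Agent.Lib.MP_e6ed9e_al.EX.TwDefs67

/-! # Long root groups of `2E_6(q)`: expansions -/

namespace SpreadPerm.EX.Tw

open Matrix SpreadPerm.EX SpreadPerm.EX.Root67

noncomputable section

variable {K : Type} [Field K]

theorem evpol (σ : K →+* K) (y x : V K) (hy : Alt y.2.1) : ev (pol σ y) x =
    σ (y.2.2 1) * x.1 0 + σ (y.2.2 0) * x.1 1 + σ (y.2.2 3) * x.1 2 + σ (y.2.2 2) * x.1 3 +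
      σ (y.2.2 5) * x.1 4 + σ (y.2.2 4) * x.1 5 + (-σ (y.2.1 0 1)) * x.2.1 0 1 +
      σ (y.2.1 1 3) * x.2.1 0 2 + σ (y.2.1 1 2) * x.2.1 0 3 +
      σ (y.2.1 1 5) * x.2.1 0 4 + σ (y.2.1 1 4) * x.2.1 0 5 +
      σ (y.2.1 0 3) * x.2.1 1 2 + σ (y.2.1 0 2) * x.2.1 1 3 +
      σ (y.2.1 0 5) * x.2.1 1 4 + σ (y.2.1 0 4) * x.2.1 1 5 +
      (-σ (y.2.1 2 3)) * x.2.1 2 3 + σ (y.2.1 3 5) * x.2.1 2 4 +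
      σ (y.2.1 3 4) * x.2.1 2 5 + σ (y.2.1 2 5) * x.2.1 3 4 +
      σ (y.2.1 2 4) * x.2.1 3 5 + (-σ (y.2.1 4 5)) * x.2.1 4 5 + σ (y.1 1) * x.2.2 0 +
      σ (y.1 0) * x.2.2 1 + σ (y.1 3) * x.2.2 2 + σ (y.1 2) * x.2.2 3 +
      σ (y.1 5) * x.2.2 4 + σ (y.1 4) * x.2.2 5 := by
  have h1 : σ (y.2.1 1 0) = -σ (y.2.1 0 1) := by rw [hy.2 1 0, map_neg]
  have h2 : σ (y.2.1 3 2) = -σ (y.2.1 2 3) := by rw [hy.2 3 2, map_neg]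
  have h3 : σ (y.2.1 5 4) = -σ (y.2.1 4 5) := by rw [hy.2 5 4, map_neg]
  have hp : ∀ (c b : Matrix (Fin 6) (Fin 6) K), pair c b =
      c 0 1 * b 0 1 + c 0 2 * b 0 2 + c 0 3 * b 0 3 + c 0 4 * b 0 4 + c 0 5 * b 0 5 +
      c 1 2 * b 1 2 + c 1 3 * b 1 3 + c 1 4 * b 1 4 + c 1 5 * b 1 5 + c 2 3 * b 2 3 +
      c 2 4 * b 2 4 + c 2 5 * b 2 5 + c 3 4 * b 3 4 + c 3 5 * b 3 5 + c 4 5 * b 4 5 := by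
    intro c b
    unfold pair
    simp only [Fin.sum_univ_six]
    simp
    ring
  unfold ev
  rw [dp_apply, dp_apply, hp]
  show (σ (y.2.2 1) * x.1 0 + σ (y.2.2 0) * x.1 1 + σ (y.2.2 3) * x.1 2 + σ (y.2.2 2) * x.1 3 +
    σ (y.2.2 5) * x.1 4 + σ (y.2.2 4) * x.1 5) +
    (σ (y.2.1 1 0) * x.2.1 0 1 + σ (y.2.1 1 3) * x.2.1 0 2 + σ (y.2.1 1 2) * x.2.1 0 3 +
    σ (y.2.1 1 5) * x.2.1 0 4 + σ (y.2.1 1 4) * x.2.1 0 5 + σ (y.2.1 0 3) * x.2.1 1 2 +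
    σ (y.2.1 0 2) * x.2.1 1 3 + σ (y.2.1 0 5) * x.2.1 1 4 + σ (y.2.1 0 4) * x.2.1 1 5 +
    σ (y.2.1 3 2) * x.2.1 2 3 + σ (y.2.1 3 5) * x.2.1 2 4 + σ (y.2.1 3 4) * x.2.1 2 5 +
    σ (y.2.1 2 5) * x.2.1 3 4 + σ (y.2.1 2 4) * x.2.1 3 5 + σ (y.2.1 5 4) * x.2.1 4 5) +
    (σ (y.1 1) * x.2.2 0 + σ (y.1 0) * x.2.2 1 + σ (y.1 3) * x.2.2 2 + σ (y.1 2) * x.2.2 3 +
    σ (y.1 5) * x.2.2 4 + σ (y.1 4) * x.2.2 5) = _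
  rw [h1, h2, h3]
  ring

theorem Nd_exp (x : V K) (h : Alt x.2.1) : Nd x =
    (x.2.1 0 1 * (x.2.1 2 3 * x.2.1 4 5 - x.2.1 2 4 * x.2.1 3 5 + x.2.1 2 5 * x.2.1 3 4) - x.2.1 0 2 * (x.2.1 1 3 * x.2.1 4 5 - x.2.1 1 4 * x.2.1 3 5 + x.2.1 1 5 * x.2.1 3 4) +
      x.2.1 0 3 * (x.2.1 1 2 * x.2.1 4 5 - x.2.1 1 4 * x.2.1 2 5 + x.2.1 1 5 * x.2.1 2 4) -
      x.2.1 0 4 * (x.2.1 1 2 * x.2.1 3 5 - x.2.1 1 3 * x.2.1 2 5 + x.2.1 1 5 * x.2.1 2 3) +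
      x.2.1 0 5 * (x.2.1 1 2 * x.2.1 3 4 - x.2.1 1 3 * x.2.1 2 4 + x.2.1 1 4 * x.2.1 2 3)) -
      (x.2.1 0 1 * (x.1 0 * x.2.2 1 - x.1 1 * x.2.2 0) +
      x.2.1 0 2 * (x.1 0 * x.2.2 2 - x.1 2 * x.2.2 0) +
      x.2.1 0 3 * (x.1 0 * x.2.2 3 - x.1 3 * x.2.2 0) +
      x.2.1 0 4 * (x.1 0 * x.2.2 4 - x.1 4 * x.2.2 0) +
      x.2.1 0 5 * (x.1 0 * x.2.2 5 - x.1 5 * x.2.2 0) +
      x.2.1 1 2 * (x.1 1 * x.2.2 2 - x.1 2 * x.2.2 1) +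
      x.2.1 1 3 * (x.1 1 * x.2.2 3 - x.1 3 * x.2.2 1) +
      x.2.1 1 4 * (x.1 1 * x.2.2 4 - x.1 4 * x.2.2 1) +
      x.2.1 1 5 * (x.1 1 * x.2.2 5 - x.1 5 * x.2.2 1) +
      x.2.1 2 3 * (x.1 2 * x.2.2 3 - x.1 3 * x.2.2 2) +
      x.2.1 2 4 * (x.1 2 * x.2.2 4 - x.1 4 * x.2.2 2) +
      x.2.1 2 5 * (x.1 2 * x.2.2 5 - x.1 5 * x.2.2 2) +
      x.2.1 3 4 * (x.1 3 * x.2.2 4 - x.1 4 * x.2.2 3) +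
      x.2.1 3 5 * (x.1 3 * x.2.2 5 - x.1 5 * x.2.2 3) +
      x.2.1 4 5 * (x.1 4 * x.2.2 5 - x.1 5 * x.2.2 4)) := by
  unfold Nd Pf pf
  rw [dp_apply, mv_apply, mv_apply, mv_apply, mv_apply, mv_apply, mv_apply]
  linear_combination -(x.1 0 * x.2.2 0 * h.1 0 + x.1 1 * x.2.2 0 * h.2 1 0 + x.1 1 * x.2.2 1 * h.1 1 +
    x.1 2 * x.2.2 0 * h.2 2 0 + x.1 2 * x.2.2 1 * h.2 2 1 + x.1 2 * x.2.2 2 * h.1 2 +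
    x.1 3 * x.2.2 0 * h.2 3 0 + x.1 3 * x.2.2 1 * h.2 3 1 + x.1 3 * x.2.2 2 * h.2 3 2 +
    x.1 3 * x.2.2 3 * h.1 3 + x.1 4 * x.2.2 0 * h.2 4 0 + x.1 4 * x.2.2 1 * h.2 4 1 +
    x.1 4 * x.2.2 2 * h.2 4 2 + x.1 4 * x.2.2 3 * h.2 4 3 + x.1 4 * x.2.2 4 * h.1 4 +
    x.1 5 * x.2.2 0 * h.2 5 0 + x.1 5 * x.2.2 1 * h.2 5 1 + x.1 5 * x.2.2 2 * h.2 5 2 +
    x.1 5 * x.2.2 3 * h.2 5 3 + x.1 5 * x.2.2 4 * h.2 5 4 + x.1 5 * x.2.2 5 * h.1 5)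

theorem tr_b (κ : Matrix (Fin 6) (Fin 6) K →ₗ[K] (Fin 6 → K)) (μ : (Fin 6 → K) →ₗ[K] (Fin 6 → K))
    (n : (Fin 6 → K) →ₗ[K] Matrix (Fin 6) (Fin 6) K) (x : V K) (i j : Fin 6) :
    (Tr κ μ n x).2.1 i j = x.2.1 i j + n x.2.2 i j := rfl

theorem tr_w (κ : Matrix (Fin 6) (Fin 6) K →ₗ[K] (Fin 6 → K)) (μ : (Fin 6 → K) →ₗ[K] (Fin 6 → K))
    (n : (Fin 6 → K) →ₗ[K] Matrix (Fin 6) (Fin 6) K) (x : V K) (i : Fin 6) :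
    (Tr κ μ n x).1 i = x.1 i + κ x.2.1 i + μ x.2.2 i := rfl

theorem gen_b (s t : K) (a b c d e f : Fin 6 → K) (u : Fin 6 → K) (i j : Fin 6) :
    (s • conL a b c + t • conL d e f) u i j = s * con a b c u i j + t * con d e f u i j := rfl

theorem kk_w (k k' : Matrix (Fin 6) (Fin 6) K →ₗ[K] (Fin 6 → K)) (b : Matrix (Fin 6) (Fin 6) K)
    (i : Fin 6) : (k + k') b i = k b i + k' b i := rfl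

theorem comp_w (k : Matrix (Fin 6) (Fin 6) K →ₗ[K] (Fin 6 → K))
    (n : (Fin 6 → K) →ₗ[K] Matrix (Fin 6) (Fin 6) K) (u : Fin 6 → K) (i : Fin 6) :
    (k ∘ₗ n) u i = k (n u) i := rfl

theorem sc_b (t : K) (d e f : Fin 6 → K) (u : Fin 6 → K) (i j : Fin 6) :
    (t • conL d e f) u i j = t * con d e f u i j := rfl

/-- One root element. -/
def RS (k : Matrix (Fin 6) (Fin 6) K →ₗ[K] (Fin 6 → K))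
    (n : (Fin 6 → K) →ₗ[K] Matrix (Fin 6) (Fin 6) K) : Prop :=
  (∀ x : V K, White x → White (x.1 + k x.2.1, x.2.1 + n x.2.2, x.2.2)) ∧
    (∀ x : V K, Alt x.2.1 → Nd (x.1 + k x.2.1, x.2.1 + n x.2.2, x.2.2) = Nd x) ∧
    ∀ u, Alt (n u)

theorem comp_eq (kA kB : Matrix (Fin 6) (Fin 6) K →ₗ[K] (Fin 6 → K))
    (nA nB : (Fin 6 → K) →ₗ[K] Matrix (Fin 6) (Fin 6) K) (x : V K) :
    Tr (kB + kA) (kA ∘ₗ nB) (nA + nB) x =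
      (x.1 + kB x.2.1 + kA (x.2.1 + nB x.2.2), x.2.1 + nB x.2.2 + nA x.2.2, x.2.2) := by
  refine Prod.ext ?_ (Prod.ext ?_ rfl)
  · show x.1 + (kB + kA) x.2.1 + (kA ∘ₗ nB) x.2.2 = x.1 + kB x.2.1 + kA (x.2.1 + nB x.2.2)
    rw [map_add, LinearMap.add_apply, LinearMap.comp_apply]
    abel
  · show x.2.1 + (nA + nB) x.2.2 = x.2.1 + nB x.2.2 + nA x.2.2
    rw [LinearMap.add_apply]
    abel

theorem goodU_of (σ : K →+* K) {kA kB : Matrix (Fin 6) (Fin 6) K →ₗ[K] (Fin 6 → K)}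
    {nA nB : (Fin 6 → K) →ₗ[K] Matrix (Fin 6) (Fin 6) K} (hA : RS kA nA) (hB : RS kB nB)
    (h : ∀ x y : V K, Alt x.2.1 → Alt y.2.1 →
      ev (pol σ (Tr (kB + kA) (kA ∘ₗ nB) (nA + nB) y)) (Tr (kB + kA) (kA ∘ₗ nB) (nA + nB) x) =
        ev (pol σ y) x) : GoodU σ (nA + nB) := by
  refine ⟨kB + kA, kA ∘ₗ nB, fun u => ?_, fun x hx => ?_, fun x hx => ?_, h⟩
  · rw [LinearMap.add_apply]
    exact alt_add (hA.2.2 u) (hB.2.2 u)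
  · rw [comp_eq]
    exact hA.1 _ (hB.1 x hx)
  · rw [comp_eq]
    exact (hA.2.1 _ (alt_add hx (hB.2.2 _))).trans (hB.2.1 x hx)

theorem alt_Tr (κ : Matrix (Fin 6) (Fin 6) K →ₗ[K] (Fin 6 → K))
    (μ : (Fin 6 → K) →ₗ[K] (Fin 6 → K)) {n : (Fin 6 → K) →ₗ[K] Matrix (Fin 6) (Fin 6) K}
    (hn : ∀ u, Alt (n u)) {x : V K} (hx : Alt x.2.1) : Alt (Tr κ μ n x).2.1 :=
  alt_add hx (hn _)

theorem alt_gen (s t : K) (a b c d e f : Fin 6 → K) (u : Fin 6 → K) :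
    Alt ((s • conL a b c + t • conL d e f) u) :=
  alt_add (alt_smul' s (alt_con _ _ _ _)) (alt_smul' t (alt_con _ _ _ _))

end

end SpreadPerm.EX.Tw
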