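import Pool.Agent.Lib.MP_e6ed9e_al.EX.TwDefs67

/-! # The row NU -/

namespace SpreadPerm.EX.Tw

open Matrix SpreadPerm.EX

section

variable {K : Type} [Field K]

theorem alt_gen97 (σ : K →+* K) (ε : K) (i j k l m n : Fin 6) (s : K) (u : Fin 6 → K) :
    Alt (gen σ ε i j k l m n s u) := by
  unfold gen
  rw [LinearMap.add_apply, LinearMap.smul_apply, LinearMap.smul_apply, conL_apply, conL_apply]
  exact alt_add (alt_smul' _ (Root67.alt_con _ _ _ _)) (alt_smul' _ (Root67.alt_con _ _ _ _))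

theorem alt_real97 (σ : K →+* K) (t : Fin 6 → Fin 6 → Fin 6 → K) (u : Fin 6 → K) :
    Alt (realL σ t u) := by
  unfold realL
  simp only [LinearMap.add_apply]
  refine alt_add (alt_add (alt_add (alt_add (alt_add (alt_add (alt_add (alt_add (alt_add (alt_add
    (alt_add (alt_add (alt_add (alt_add (alt_add (alt_add (alt_add (alt_add (alt_add ?_ ?_) ?_) ?_)
    ?_) ?_) ?_) ?_) ?_) ?_) ?_) ?_) ?_) ?_) ?_) ?_) ?_) ?_) ?_) ?_ <;> exact alt_gen97 _ _ _ _ _ _ _ _ _ _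

theorem gen_entry97 (σ : K →+* K) (ε : K) (i j k l m n : Fin 6) (s : K) (u : Fin 6 → K)
    (a c : Fin 6) : gen σ ε i j k l m n s u a c =
      s * con (Pi.single i (1 : K)) (Pi.single j (1 : K)) (Pi.single k (1 : K)) u a c +
      ε * σ s * con (Pi.single l (1 : K)) (Pi.single m (1 : K)) (Pi.single n (1 : K)) u a c := rfl

theorem ent97_01 (σ : K →+* K) (t : Fin 6 → Fin 6 → Fin 6 → K) (u : Fin 6 → K) :
    realL σ t u 0 1 =
      0 + t 0 1 2 * u 2 + t 0 1 3 * u 3 + t 0 1 4 * u 4 + t 0 1 5 * u 5 - σ (t 2 3 4) * u 4 + σ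
      (t 2 3 5) * u 5 - σ (t 2 4 5) * u 2 + σ (t 3 4 5) * u 3 := by
  unfold realL
  simp only [LinearMap.add_apply, Matrix.add_apply, gen_entry97, Root67.con_single, Pi.single_apply]
  simp
  ring

theorem ent97_02 (σ : K →+* K) (t : Fin 6 → Fin 6 → Fin 6 → K) (u : Fin 6 → K) :
    realL σ t u 0 2 =
      0 - t 0 1 2 * u 1 + t 0 2 3 * u 3 + t 0 2 4 * u 4 - σ (t 0 2 4) * u 4 + t 0 2 5 * u 5 + σ
      (t 0 2 5) * u 5 - σ (t 0 4 5) * u 3 + σ (t 2 4 5) * u 1 := by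
  unfold realL
  simp only [LinearMap.add_apply, Matrix.add_apply, gen_entry97, Root67.con_single, Pi.single_apply]
  simp
  ring

theorem ent97_03 (σ : K →+* K) (t : Fin 6 → Fin 6 → Fin 6 → K) (u : Fin 6 → K) :
    realL σ t u 0 3 =
      0 - t 0 1 3 * u 1 - t 0 2 3 * u 2 + t 0 3 4 * u 4 + σ (t 0 3 4) * u 4 + t 0 3 5 * u 5 - σ
      (t 0 3 5) * u 5 + σ (t 0 4 5) * u 2 - σ (t 3 4 5) * u 1 := by
  unfold realL
  simp only [LinearMap.add_apply, Matrix.add_apply, gen_entry97, Root67.con_single, Pi.single_apply]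
  simp
  ring

theorem ent97_04 (σ : K →+* K) (t : Fin 6 → Fin 6 → Fin 6 → K) (u : Fin 6 → K) :
    realL σ t u 0 4 =
      0 - t 0 1 4 * u 1 - σ (t 0 2 3) * u 5 - t 0 2 4 * u 2 + σ (t 0 2 4) * u 2 - t 0 3 4 * u 3
      - σ (t 0 3 4) * u 3 + t 0 4 5 * u 5 + σ (t 2 3 4) * u 1 := by
  unfold realL
  simp only [LinearMap.add_apply, Matrix.add_apply, gen_entry97, Root67.con_single, Pi.single_apply]
  simp
  ring

theorem ent97_05 (σ : K →+* K) (t : Fin 6 → Fin 6 → Fin 6 → K) (u : Fin 6 → K) :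
    realL σ t u 0 5 =
      0 - t 0 1 5 * u 1 + σ (t 0 2 3) * u 4 - t 0 2 5 * u 2 - σ (t 0 2 5) * u 2 - t 0 3 5 * u 3
      + σ (t 0 3 5) * u 3 - t 0 4 5 * u 4 - σ (t 2 3 5) * u 1 := by
  unfold realL
  simp only [LinearMap.add_apply, Matrix.add_apply, gen_entry97, Root67.con_single, Pi.single_apply]
  simp
  ring

theorem ent97_12 (σ : K →+* K) (t : Fin 6 → Fin 6 → Fin 6 → K) (u : Fin 6 → K) :
    realL σ t u 1 2 =
      0 + t 0 1 2 * u 0 + t 1 2 3 * u 3 + t 1 2 4 * u 4 + σ (t 1 2 4) * u 4 + t 1 2 5 * u 5 - σ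
      (t 1 2 5) * u 5 + σ (t 1 4 5) * u 3 - σ (t 2 4 5) * u 0 := by
  unfold realL
  simp only [LinearMap.add_apply, Matrix.add_apply, gen_entry97, Root67.con_single, Pi.single_apply]
  simp
  ring

theorem ent97_13 (σ : K →+* K) (t : Fin 6 → Fin 6 → Fin 6 → K) (u : Fin 6 → K) :
    realL σ t u 1 3 =
      0 + t 0 1 3 * u 0 - t 1 2 3 * u 2 + t 1 3 4 * u 4 - σ (t 1 3 4) * u 4 + t 1 3 5 * u 5 + σ
      (t 1 3 5) * u 5 - σ (t 1 4 5) * u 2 + σ (t 3 4 5) * u 0 := by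
  unfold realL
  simp only [LinearMap.add_apply, Matrix.add_apply, gen_entry97, Root67.con_single, Pi.single_apply]
  simp
  ring

theorem ent97_14 (σ : K →+* K) (t : Fin 6 → Fin 6 → Fin 6 → K) (u : Fin 6 → K) :
    realL σ t u 1 4 =
      0 + t 0 1 4 * u 0 + σ (t 1 2 3) * u 5 - t 1 2 4 * u 2 - σ (t 1 2 4) * u 2 - t 1 3 4 * u 3
      + σ (t 1 3 4) * u 3 + t 1 4 5 * u 5 - σ (t 2 3 4) * u 0 := by
  unfold realL
  simp only [LinearMap.add_apply, Matrix.add_apply, gen_entry97, Root67.con_single, Pi.single_apply]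
  simp
  ring

theorem ent97_15 (σ : K →+* K) (t : Fin 6 → Fin 6 → Fin 6 → K) (u : Fin 6 → K) :
    realL σ t u 1 5 =
      0 + t 0 1 5 * u 0 - σ (t 1 2 3) * u 4 - t 1 2 5 * u 2 + σ (t 1 2 5) * u 2 - t 1 3 5 * u 3
      - σ (t 1 3 5) * u 3 - t 1 4 5 * u 4 + σ (t 2 3 5) * u 0 := by
  unfold realL
  simp only [LinearMap.add_apply, Matrix.add_apply, gen_entry97, Root67.con_single, Pi.single_apply]
  simp
  ring

theorem ent97_23 (σ : K →+* K) (t : Fin 6 → Fin 6 → Fin 6 → K) (u : Fin 6 → K) :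
    realL σ t u 2 3 =
      0 - σ (t 0 1 4) * u 4 + σ (t 0 1 5) * u 5 + t 0 2 3 * u 0 - σ (t 0 4 5) * u 0 + t 1 2 3 *
      u 1 + σ (t 1 4 5) * u 1 + t 2 3 4 * u 4 + t 2 3 5 * u 5 := by
  unfold realL
  simp only [LinearMap.add_apply, Matrix.add_apply, gen_entry97, Root67.con_single, Pi.single_apply]
  simp
  ring

theorem ent97_24 (σ : K →+* K) (t : Fin 6 → Fin 6 → Fin 6 → K) (u : Fin 6 → K) :
    realL σ t u 2 4 =
      0 - σ (t 0 1 2) * u 5 + σ (t 0 1 4) * u 3 + t 0 2 4 * u 0 - σ (t 0 2 4) * u 0 + t 1 2 4 *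
      u 1 + σ (t 1 2 4) * u 1 - t 2 3 4 * u 3 + t 2 4 5 * u 5 := by
  unfold realL
  simp only [LinearMap.add_apply, Matrix.add_apply, gen_entry97, Root67.con_single, Pi.single_apply]
  simp
  ring

theorem ent97_25 (σ : K →+* K) (t : Fin 6 → Fin 6 → Fin 6 → K) (u : Fin 6 → K) :
    realL σ t u 2 5 =
      0 + σ (t 0 1 2) * u 4 - σ (t 0 1 5) * u 3 + t 0 2 5 * u 0 + σ (t 0 2 5) * u 0 + t 1 2 5 *
      u 1 - σ (t 1 2 5) * u 1 - t 2 3 5 * u 3 - t 2 4 5 * u 4 := by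
  unfold realL
  simp only [LinearMap.add_apply, Matrix.add_apply, gen_entry97, Root67.con_single, Pi.single_apply]
  simp
  ring

theorem ent97_34 (σ : K →+* K) (t : Fin 6 → Fin 6 → Fin 6 → K) (u : Fin 6 → K) :
    realL σ t u 3 4 =
      0 + σ (t 0 1 3) * u 5 - σ (t 0 1 4) * u 2 + t 0 3 4 * u 0 + σ (t 0 3 4) * u 0 + t 1 3 4 *
      u 1 - σ (t 1 3 4) * u 1 + t 2 3 4 * u 2 + t 3 4 5 * u 5 := by
  unfold realL
  simp only [LinearMap.add_apply, Matrix.add_apply, gen_entry97, Root67.con_single, Pi.single_apply]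
  simp
  ring

theorem ent97_35 (σ : K →+* K) (t : Fin 6 → Fin 6 → Fin 6 → K) (u : Fin 6 → K) :
    realL σ t u 3 5 =
      0 - σ (t 0 1 3) * u 4 + σ (t 0 1 5) * u 2 + t 0 3 5 * u 0 - σ (t 0 3 5) * u 0 + t 1 3 5 *
      u 1 + σ (t 1 3 5) * u 1 + t 2 3 5 * u 2 - t 3 4 5 * u 4 := by
  unfold realL
  simp only [LinearMap.add_apply, Matrix.add_apply, gen_entry97, Root67.con_single, Pi.single_apply]
  simp
  ring

theorem ent97_45 (σ : K →+* K) (t : Fin 6 → Fin 6 → Fin 6 → K) (u : Fin 6 → K) :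
    realL σ t u 4 5 =
      0 - σ (t 0 1 2) * u 2 + σ (t 0 1 3) * u 3 - σ (t 0 2 3) * u 0 + t 0 4 5 * u 0 + σ (t 1 2
      3) * u 1 + t 1 4 5 * u 1 + t 2 4 5 * u 2 + t 3 4 5 * u 3 := by
  unfold realL
  simp only [LinearMap.add_apply, Matrix.add_apply, gen_entry97, Root67.con_single, Pi.single_apply]
  simp
  ring

end

theorem hh97_01 {K : Type} [Field K] (σ : K →+* K) (hσ : ∀ x, σ (σ x) = x)
    (u p r : Fin 6 → K) (l : K)
    (hx : σ (u 1) * u 0 + σ (u 0) * u 1 + σ (u 3) * u 2 + σ (u 2) * u 3 + σ (u 5) * u 4 +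
      σ (u 4) * u 5 = 0)
    (hp : p 0 * u 0 + p 1 * u 1 + p 2 * u 2 + p 3 * u 3 + p 4 * u 4 + p 5 * u 5 = 0)
    (hr : r 0 * u 0 + r 1 * u 1 + r 2 * u 2 + r 3 * u 3 + r 4 * u 4 + r 5 * u 5 = 0) :
    realL σ (fun i j k => l * det3 (bar σ u) p r i j k) u 0 1 = 0 := by
  have b0 : bar σ u 0 = σ (u 1) := rfl
  have b1 : bar σ u 1 = σ (u 0) := rfl
  have b2 : bar σ u 2 = σ (u 3) := rfl
  have b3 : bar σ u 3 = σ (u 2) := rfl
  have b4 : bar σ u 4 = σ (u 5) := rfl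
  have b5 : bar σ u 5 = σ (u 4) := rfl
  rw [ent97_01]
  simp only [det3, b0, b1, b2, b3, b4, b5, map_mul, map_add, map_sub, hσ]
  linear_combination l * (p 0 * r 1 - p 1 * r 0) * hx -
    l * (σ (u 1) * r 1 - σ (u 0) * r 0) * hp + l * (σ (u 1) * p 1 - σ (u 0) * p 0) * hr

theorem hh97_02 {K : Type} [Field K] (σ : K →+* K) (hσ : ∀ x, σ (σ x) = x)
    (u p r : Fin 6 → K) (l : K)
    (hx : σ (u 1) * u 0 + σ (u 0) * u 1 + σ (u 3) * u 2 + σ (u 2) * u 3 + σ (u 5) * u 4 +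
      σ (u 4) * u 5 = 0)
    (hp : p 0 * u 0 + p 1 * u 1 + p 2 * u 2 + p 3 * u 3 + p 4 * u 4 + p 5 * u 5 = 0)
    (hr : r 0 * u 0 + r 1 * u 1 + r 2 * u 2 + r 3 * u 3 + r 4 * u 4 + r 5 * u 5 = 0) :
    realL σ (fun i j k => l * det3 (bar σ u) p r i j k) u 0 2 = 0 := by
  have b0 : bar σ u 0 = σ (u 1) := rfl
  have b1 : bar σ u 1 = σ (u 0) := rfl
  have b2 : bar σ u 2 = σ (u 3) := rfl
  have b3 : bar σ u 3 = σ (u 2) := rfl
  have b4 : bar σ u 4 = σ (u 5) := rfl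
  have b5 : bar σ u 5 = σ (u 4) := rfl
  rw [ent97_02]
  simp only [det3, b0, b1, b2, b3, b4, b5, map_mul, map_add, map_sub, hσ]
  linear_combination l * (p 0 * r 2 - p 2 * r 0) * hx -
    l * (σ (u 1) * r 2 - σ (u 3) * r 0) * hp + l * (σ (u 1) * p 2 - σ (u 3) * p 0) * hr

theorem hh97_03 {K : Type} [Field K] (σ : K →+* K) (hσ : ∀ x, σ (σ x) = x)
    (u p r : Fin 6 → K) (l : K)
    (hx : σ (u 1) * u 0 + σ (u 0) * u 1 + σ (u 3) * u 2 + σ (u 2) * u 3 + σ (u 5) * u 4 +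
      σ (u 4) * u 5 = 0)
    (hp : p 0 * u 0 + p 1 * u 1 + p 2 * u 2 + p 3 * u 3 + p 4 * u 4 + p 5 * u 5 = 0)
    (hr : r 0 * u 0 + r 1 * u 1 + r 2 * u 2 + r 3 * u 3 + r 4 * u 4 + r 5 * u 5 = 0) :
    realL σ (fun i j k => l * det3 (bar σ u) p r i j k) u 0 3 = 0 := by
  have b0 : bar σ u 0 = σ (u 1) := rfl
  have b1 : bar σ u 1 = σ (u 0) := rfl
  have b2 : bar σ u 2 = σ (u 3) := rfl
  have b3 : bar σ u 3 = σ (u 2) := rfl
  have b4 : bar σ u 4 = σ (u 5) := rfl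
  have b5 : bar σ u 5 = σ (u 4) := rfl
  rw [ent97_03]
  simp only [det3, b0, b1, b2, b3, b4, b5, map_mul, map_add, map_sub, hσ]
  linear_combination l * (p 0 * r 3 - p 3 * r 0) * hx -
    l * (σ (u 1) * r 3 - σ (u 2) * r 0) * hp + l * (σ (u 1) * p 3 - σ (u 2) * p 0) * hr

theorem hh97_04 {K : Type} [Field K] (σ : K →+* K) (hσ : ∀ x, σ (σ x) = x)
    (u p r : Fin 6 → K) (l : K)
    (hx : σ (u 1) * u 0 + σ (u 0) * u 1 + σ (u 3) * u 2 + σ (u 2) * u 3 + σ (u 5) * u 4 +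
      σ (u 4) * u 5 = 0)
    (hp : p 0 * u 0 + p 1 * u 1 + p 2 * u 2 + p 3 * u 3 + p 4 * u 4 + p 5 * u 5 = 0)
    (hr : r 0 * u 0 + r 1 * u 1 + r 2 * u 2 + r 3 * u 3 + r 4 * u 4 + r 5 * u 5 = 0) :
    realL σ (fun i j k => l * det3 (bar σ u) p r i j k) u 0 4 = 0 := by
  have b0 : bar σ u 0 = σ (u 1) := rfl
  have b1 : bar σ u 1 = σ (u 0) := rfl
  have b2 : bar σ u 2 = σ (u 3) := rfl
  have b3 : bar σ u 3 = σ (u 2) := rfl
  have b4 : bar σ u 4 = σ (u 5) := rfl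
  have b5 : bar σ u 5 = σ (u 4) := rfl
  rw [ent97_04]
  simp only [det3, b0, b1, b2, b3, b4, b5, map_mul, map_add, map_sub, hσ]
  linear_combination l * (p 0 * r 4 - p 4 * r 0) * hx -
    l * (σ (u 1) * r 4 - σ (u 5) * r 0) * hp + l * (σ (u 1) * p 4 - σ (u 5) * p 0) * hr

theorem hh97_05 {K : Type} [Field K] (σ : K →+* K) (hσ : ∀ x, σ (σ x) = x)
    (u p r : Fin 6 → K) (l : K)
    (hx : σ (u 1) * u 0 + σ (u 0) * u 1 + σ (u 3) * u 2 + σ (u 2) * u 3 + σ (u 5) * u 4 +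
      σ (u 4) * u 5 = 0)
    (hp : p 0 * u 0 + p 1 * u 1 + p 2 * u 2 + p 3 * u 3 + p 4 * u 4 + p 5 * u 5 = 0)
    (hr : r 0 * u 0 + r 1 * u 1 + r 2 * u 2 + r 3 * u 3 + r 4 * u 4 + r 5 * u 5 = 0) :
    realL σ (fun i j k => l * det3 (bar σ u) p r i j k) u 0 5 = 0 := by
  have b0 : bar σ u 0 = σ (u 1) := rfl
  have b1 : bar σ u 1 = σ (u 0) := rfl
  have b2 : bar σ u 2 = σ (u 3) := rfl
  have b3 : bar σ u 3 = σ (u 2) := rfl
  have b4 : bar σ u 4 = σ (u 5) := rfl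
  have b5 : bar σ u 5 = σ (u 4) := rfl
  rw [ent97_05]
  simp only [det3, b0, b1, b2, b3, b4, b5, map_mul, map_add, map_sub, hσ]
  linear_combination l * (p 0 * r 5 - p 5 * r 0) * hx -
    l * (σ (u 1) * r 5 - σ (u 4) * r 0) * hp + l * (σ (u 1) * p 5 - σ (u 4) * p 0) * hr

theorem hh97_12 {K : Type} [Field K] (σ : K →+* K) (hσ : ∀ x, σ (σ x) = x)
    (u p r : Fin 6 → K) (l : K)
    (hx : σ (u 1) * u 0 + σ (u 0) * u 1 + σ (u 3) * u 2 + σ (u 2) * u 3 + σ (u 5) * u 4 +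
      σ (u 4) * u 5 = 0)
    (hp : p 0 * u 0 + p 1 * u 1 + p 2 * u 2 + p 3 * u 3 + p 4 * u 4 + p 5 * u 5 = 0)
    (hr : r 0 * u 0 + r 1 * u 1 + r 2 * u 2 + r 3 * u 3 + r 4 * u 4 + r 5 * u 5 = 0) :
    realL σ (fun i j k => l * det3 (bar σ u) p r i j k) u 1 2 = 0 := by
  have b0 : bar σ u 0 = σ (u 1) := rfl
  have b1 : bar σ u 1 = σ (u 0) := rfl
  have b2 : bar σ u 2 = σ (u 3) := rfl
  have b3 : bar σ u 3 = σ (u 2) := rfl
  have b4 : bar σ u 4 = σ (u 5) := rfl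
  have b5 : bar σ u 5 = σ (u 4) := rfl
  rw [ent97_12]
  simp only [det3, b0, b1, b2, b3, b4, b5, map_mul, map_add, map_sub, hσ]
  linear_combination l * (p 1 * r 2 - p 2 * r 1) * hx -
    l * (σ (u 0) * r 2 - σ (u 3) * r 1) * hp + l * (σ (u 0) * p 2 - σ (u 3) * p 1) * hr

theorem hh97_13 {K : Type} [Field K] (σ : K →+* K) (hσ : ∀ x, σ (σ x) = x)
    (u p r : Fin 6 → K) (l : K)
    (hx : σ (u 1) * u 0 + σ (u 0) * u 1 + σ (u 3) * u 2 + σ (u 2) * u 3 + σ (u 5) * u 4 +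
      σ (u 4) * u 5 = 0)
    (hp : p 0 * u 0 + p 1 * u 1 + p 2 * u 2 + p 3 * u 3 + p 4 * u 4 + p 5 * u 5 = 0)
    (hr : r 0 * u 0 + r 1 * u 1 + r 2 * u 2 + r 3 * u 3 + r 4 * u 4 + r 5 * u 5 = 0) :
    realL σ (fun i j k => l * det3 (bar σ u) p r i j k) u 1 3 = 0 := by
  have b0 : bar σ u 0 = σ (u 1) := rfl
  have b1 : bar σ u 1 = σ (u 0) := rfl
  have b2 : bar σ u 2 = σ (u 3) := rfl
  have b3 : bar σ u 3 = σ (u 2) := rfl
  have b4 : bar σ u 4 = σ (u 5) := rfl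
  have b5 : bar σ u 5 = σ (u 4) := rfl
  rw [ent97_13]
  simp only [det3, b0, b1, b2, b3, b4, b5, map_mul, map_add, map_sub, hσ]
  linear_combination l * (p 1 * r 3 - p 3 * r 1) * hx -
    l * (σ (u 0) * r 3 - σ (u 2) * r 1) * hp + l * (σ (u 0) * p 3 - σ (u 2) * p 1) * hr

theorem hh97_14 {K : Type} [Field K] (σ : K →+* K) (hσ : ∀ x, σ (σ x) = x)
    (u p r : Fin 6 → K) (l : K)
    (hx : σ (u 1) * u 0 + σ (u 0) * u 1 + σ (u 3) * u 2 + σ (u 2) * u 3 + σ (u 5) * u 4 +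
      σ (u 4) * u 5 = 0)
    (hp : p 0 * u 0 + p 1 * u 1 + p 2 * u 2 + p 3 * u 3 + p 4 * u 4 + p 5 * u 5 = 0)
    (hr : r 0 * u 0 + r 1 * u 1 + r 2 * u 2 + r 3 * u 3 + r 4 * u 4 + r 5 * u 5 = 0) :
    realL σ (fun i j k => l * det3 (bar σ u) p r i j k) u 1 4 = 0 := by
  have b0 : bar σ u 0 = σ (u 1) := rfl
  have b1 : bar σ u 1 = σ (u 0) := rfl
  have b2 : bar σ u 2 = σ (u 3) := rfl
  have b3 : bar σ u 3 = σ (u 2) := rfl
  have b4 : bar σ u 4 = σ (u 5) := rfl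
  have b5 : bar σ u 5 = σ (u 4) := rfl
  rw [ent97_14]
  simp only [det3, b0, b1, b2, b3, b4, b5, map_mul, map_add, map_sub, hσ]
  linear_combination l * (p 1 * r 4 - p 4 * r 1) * hx -
    l * (σ (u 0) * r 4 - σ (u 5) * r 1) * hp + l * (σ (u 0) * p 4 - σ (u 5) * p 1) * hr

theorem hh97_15 {K : Type} [Field K] (σ : K →+* K) (hσ : ∀ x, σ (σ x) = x)
    (u p r : Fin 6 → K) (l : K)
    (hx : σ (u 1) * u 0 + σ (u 0) * u 1 + σ (u 3) * u 2 + σ (u 2) * u 3 + σ (u 5) * u 4 +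
      σ (u 4) * u 5 = 0)
    (hp : p 0 * u 0 + p 1 * u 1 + p 2 * u 2 + p 3 * u 3 + p 4 * u 4 + p 5 * u 5 = 0)
    (hr : r 0 * u 0 + r 1 * u 1 + r 2 * u 2 + r 3 * u 3 + r 4 * u 4 + r 5 * u 5 = 0) :
    realL σ (fun i j k => l * det3 (bar σ u) p r i j k) u 1 5 = 0 := by
  have b0 : bar σ u 0 = σ (u 1) := rfl
  have b1 : bar σ u 1 = σ (u 0) := rfl
  have b2 : bar σ u 2 = σ (u 3) := rfl
  have b3 : bar σ u 3 = σ (u 2) := rfl
  have b4 : bar σ u 4 = σ (u 5) := rfl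
  have b5 : bar σ u 5 = σ (u 4) := rfl
  rw [ent97_15]
  simp only [det3, b0, b1, b2, b3, b4, b5, map_mul, map_add, map_sub, hσ]
  linear_combination l * (p 1 * r 5 - p 5 * r 1) * hx -
    l * (σ (u 0) * r 5 - σ (u 4) * r 1) * hp + l * (σ (u 0) * p 5 - σ (u 4) * p 1) * hr

theorem hh97_23 {K : Type} [Field K] (σ : K →+* K) (hσ : ∀ x, σ (σ x) = x)
    (u p r : Fin 6 → K) (l : K)
    (hx : σ (u 1) * u 0 + σ (u 0) * u 1 + σ (u 3) * u 2 + σ (u 2) * u 3 + σ (u 5) * u 4 +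
      σ (u 4) * u 5 = 0)
    (hp : p 0 * u 0 + p 1 * u 1 + p 2 * u 2 + p 3 * u 3 + p 4 * u 4 + p 5 * u 5 = 0)
    (hr : r 0 * u 0 + r 1 * u 1 + r 2 * u 2 + r 3 * u 3 + r 4 * u 4 + r 5 * u 5 = 0) :
    realL σ (fun i j k => l * det3 (bar σ u) p r i j k) u 2 3 = 0 := by
  have b0 : bar σ u 0 = σ (u 1) := rfl
  have b1 : bar σ u 1 = σ (u 0) := rfl
  have b2 : bar σ u 2 = σ (u 3) := rfl
  have b3 : bar σ u 3 = σ (u 2) := rfl
  have b4 : bar σ u 4 = σ (u 5) := rfl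
  have b5 : bar σ u 5 = σ (u 4) := rfl
  rw [ent97_23]
  simp only [det3, b0, b1, b2, b3, b4, b5, map_mul, map_add, map_sub, hσ]
  linear_combination l * (p 2 * r 3 - p 3 * r 2) * hx -
    l * (σ (u 3) * r 3 - σ (u 2) * r 2) * hp + l * (σ (u 3) * p 3 - σ (u 2) * p 2) * hr

theorem hh97_24 {K : Type} [Field K] (σ : K →+* K) (hσ : ∀ x, σ (σ x) = x)
    (u p r : Fin 6 → K) (l : K)
    (hx : σ (u 1) * u 0 + σ (u 0) * u 1 + σ (u 3) * u 2 + σ (u 2) * u 3 + σ (u 5) * u 4 +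
      σ (u 4) * u 5 = 0)
    (hp : p 0 * u 0 + p 1 * u 1 + p 2 * u 2 + p 3 * u 3 + p 4 * u 4 + p 5 * u 5 = 0)
    (hr : r 0 * u 0 + r 1 * u 1 + r 2 * u 2 + r 3 * u 3 + r 4 * u 4 + r 5 * u 5 = 0) :
    realL σ (fun i j k => l * det3 (bar σ u) p r i j k) u 2 4 = 0 := by
  have b0 : bar σ u 0 = σ (u 1) := rfl
  have b1 : bar σ u 1 = σ (u 0) := rfl
  have b2 : bar σ u 2 = σ (u 3) := rfl
  have b3 : bar σ u 3 = σ (u 2) := rfl
  have b4 : bar σ u 4 = σ (u 5) := rfl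
  have b5 : bar σ u 5 = σ (u 4) := rfl
  rw [ent97_24]
  simp only [det3, b0, b1, b2, b3, b4, b5, map_mul, map_add, map_sub, hσ]
  linear_combination l * (p 2 * r 4 - p 4 * r 2) * hx -
    l * (σ (u 3) * r 4 - σ (u 5) * r 2) * hp + l * (σ (u 3) * p 4 - σ (u 5) * p 2) * hr

theorem hh97_25 {K : Type} [Field K] (σ : K →+* K) (hσ : ∀ x, σ (σ x) = x)
    (u p r : Fin 6 → K) (l : K)
    (hx : σ (u 1) * u 0 + σ (u 0) * u 1 + σ (u 3) * u 2 + σ (u 2) * u 3 + σ (u 5) * u 4 +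
      σ (u 4) * u 5 = 0)
    (hp : p 0 * u 0 + p 1 * u 1 + p 2 * u 2 + p 3 * u 3 + p 4 * u 4 + p 5 * u 5 = 0)
    (hr : r 0 * u 0 + r 1 * u 1 + r 2 * u 2 + r 3 * u 3 + r 4 * u 4 + r 5 * u 5 = 0) :
    realL σ (fun i j k => l * det3 (bar σ u) p r i j k) u 2 5 = 0 := by
  have b0 : bar σ u 0 = σ (u 1) := rfl
  have b1 : bar σ u 1 = σ (u 0) := rfl
  have b2 : bar σ u 2 = σ (u 3) := rfl
  have b3 : bar σ u 3 = σ (u 2) := rfl
  have b4 : bar σ u 4 = σ (u 5) := rfl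
  have b5 : bar σ u 5 = σ (u 4) := rfl
  rw [ent97_25]
  simp only [det3, b0, b1, b2, b3, b4, b5, map_mul, map_add, map_sub, hσ]
  linear_combination l * (p 2 * r 5 - p 5 * r 2) * hx -
    l * (σ (u 3) * r 5 - σ (u 4) * r 2) * hp + l * (σ (u 3) * p 5 - σ (u 4) * p 2) * hr

theorem hh97_34 {K : Type} [Field K] (σ : K →+* K) (hσ : ∀ x, σ (σ x) = x)
    (u p r : Fin 6 → K) (l : K)
    (hx : σ (u 1) * u 0 + σ (u 0) * u 1 + σ (u 3) * u 2 + σ (u 2) * u 3 + σ (u 5) * u 4 +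
      σ (u 4) * u 5 = 0)
    (hp : p 0 * u 0 + p 1 * u 1 + p 2 * u 2 + p 3 * u 3 + p 4 * u 4 + p 5 * u 5 = 0)
    (hr : r 0 * u 0 + r 1 * u 1 + r 2 * u 2 + r 3 * u 3 + r 4 * u 4 + r 5 * u 5 = 0) :
    realL σ (fun i j k => l * det3 (bar σ u) p r i j k) u 3 4 = 0 := by
  have b0 : bar σ u 0 = σ (u 1) := rfl
  have b1 : bar σ u 1 = σ (u 0) := rfl
  have b2 : bar σ u 2 = σ (u 3) := rfl
  have b3 : bar σ u 3 = σ (u 2) := rfl
  have b4 : bar σ u 4 = σ (u 5) := rfl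
  have b5 : bar σ u 5 = σ (u 4) := rfl
  rw [ent97_34]
  simp only [det3, b0, b1, b2, b3, b4, b5, map_mul, map_add, map_sub, hσ]
  linear_combination l * (p 3 * r 4 - p 4 * r 3) * hx -
    l * (σ (u 2) * r 4 - σ (u 5) * r 3) * hp + l * (σ (u 2) * p 4 - σ (u 5) * p 3) * hr

theorem hh97_35 {K : Type} [Field K] (σ : K →+* K) (hσ : ∀ x, σ (σ x) = x)
    (u p r : Fin 6 → K) (l : K)
    (hx : σ (u 1) * u 0 + σ (u 0) * u 1 + σ (u 3) * u 2 + σ (u 2) * u 3 + σ (u 5) * u 4 +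
      σ (u 4) * u 5 = 0)
    (hp : p 0 * u 0 + p 1 * u 1 + p 2 * u 2 + p 3 * u 3 + p 4 * u 4 + p 5 * u 5 = 0)
    (hr : r 0 * u 0 + r 1 * u 1 + r 2 * u 2 + r 3 * u 3 + r 4 * u 4 + r 5 * u 5 = 0) :
    realL σ (fun i j k => l * det3 (bar σ u) p r i j k) u 3 5 = 0 := by
  have b0 : bar σ u 0 = σ (u 1) := rfl
  have b1 : bar σ u 1 = σ (u 0) := rfl
  have b2 : bar σ u 2 = σ (u 3) := rfl
  have b3 : bar σ u 3 = σ (u 2) := rfl
  have b4 : bar σ u 4 = σ (u 5) := rfl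
  have b5 : bar σ u 5 = σ (u 4) := rfl
  rw [ent97_35]
  simp only [det3, b0, b1, b2, b3, b4, b5, map_mul, map_add, map_sub, hσ]
  linear_combination l * (p 3 * r 5 - p 5 * r 3) * hx -
    l * (σ (u 2) * r 5 - σ (u 4) * r 3) * hp + l * (σ (u 2) * p 5 - σ (u 4) * p 3) * hr

theorem hh97_45 {K : Type} [Field K] (σ : K →+* K) (hσ : ∀ x, σ (σ x) = x)
    (u p r : Fin 6 → K) (l : K)
    (hx : σ (u 1) * u 0 + σ (u 0) * u 1 + σ (u 3) * u 2 + σ (u 2) * u 3 + σ (u 5) * u 4 +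
      σ (u 4) * u 5 = 0)
    (hp : p 0 * u 0 + p 1 * u 1 + p 2 * u 2 + p 3 * u 3 + p 4 * u 4 + p 5 * u 5 = 0)
    (hr : r 0 * u 0 + r 1 * u 1 + r 2 * u 2 + r 3 * u 3 + r 4 * u 4 + r 5 * u 5 = 0) :
    realL σ (fun i j k => l * det3 (bar σ u) p r i j k) u 4 5 = 0 := by
  have b0 : bar σ u 0 = σ (u 1) := rfl
  have b1 : bar σ u 1 = σ (u 0) := rfl
  have b2 : bar σ u 2 = σ (u 3) := rfl
  have b3 : bar σ u 3 = σ (u 2) := rfl
  have b4 : bar σ u 4 = σ (u 5) := rfl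
  have b5 : bar σ u 5 = σ (u 4) := rfl
  rw [ent97_45]
  simp only [det3, b0, b1, b2, b3, b4, b5, map_mul, map_add, map_sub, hσ]
  linear_combination l * (p 4 * r 5 - p 5 * r 4) * hx -
    l * (σ (u 5) * r 5 - σ (u 4) * r 4) * hp + l * (σ (u 5) * p 5 - σ (u 4) * p 4) * hr

theorem nu97 : StNU := by
  intro K _ σ hσ u p r l hx hp hr
  have hdot : ∀ x : Fin 6 → K, x ⬝ᵥ u =
      x 0 * u 0 + x 1 * u 1 + x 2 * u 2 + x 3 * u 3 + x 4 * u 4 + x 5 * u 5 := fun x => by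
    simp only [dotProduct, Fin.sum_univ_six]
  have hx' : σ (u 1) * u 0 + σ (u 0) * u 1 + σ (u 3) * u 2 + σ (u 2) * u 3 + σ (u 5) * u 4 +
      σ (u 4) * u 5 = 0 := by
    rw [hdot] at hx
    exact hx
  rw [hdot] at hp hr
  have hA := alt_real97 σ (fun i j k => l * det3 (bar σ u) p r i j k) u
  have h01 := hh97_01 σ hσ u p r l hx' hp hr
  have h02 := hh97_02 σ hσ u p r l hx' hp hr
  have h03 := hh97_03 σ hσ u p r l hx' hp hr
  have h04 := hh97_04 σ hσ u p r l hx' hp hr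
  have h05 := hh97_05 σ hσ u p r l hx' hp hr
  have h12 := hh97_12 σ hσ u p r l hx' hp hr
  have h13 := hh97_13 σ hσ u p r l hx' hp hr
  have h14 := hh97_14 σ hσ u p r l hx' hp hr
  have h15 := hh97_15 σ hσ u p r l hx' hp hr
  have h23 := hh97_23 σ hσ u p r l hx' hp hr
  have h24 := hh97_24 σ hσ u p r l hx' hp hr
  have h25 := hh97_25 σ hσ u p r l hx' hp hr
  have h34 := hh97_34 σ hσ u p r l hx' hp hr
  have h35 := hh97_35 σ hσ u p r l hx' hp hr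
  have h45 := hh97_45 σ hσ u p r l hx' hp hr
  obtain ⟨M, hM⟩ : ∃ M : Matrix (Fin 6) (Fin 6) K,
      M = realL σ (fun i j k => l * det3 (bar σ u) p r i j k) u := ⟨_, rfl⟩
  rw [← hM] at hA ⊢
  rw [← hM] at h01
  rw [← hM] at h02
  rw [← hM] at h03
  rw [← hM] at h04
  rw [← hM] at h05
  rw [← hM] at h12
  rw [← hM] at h13
  rw [← hM] at h14
  rw [← hM] at h15
  rw [← hM] at h23
  rw [← hM] at h24
  rw [← hM] at h25
  rw [← hM] at h34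
  rw [← hM] at h35
  rw [← hM] at h45
  ext a b
  fin_cases a <;> fin_cases b
  · exact hA.1 0
  · exact h01
  · exact h02
  · exact h03
  · exact h04
  · exact h05
  · exact (hA.2 1 0).trans (by rw [h01, neg_zero]; rfl)
  · exact hA.1 1
  · exact h12
  · exact h13
  · exact h14
  · exact h15
  · exact (hA.2 2 0).trans (by rw [h02, neg_zero]; rfl)
  · exact (hA.2 2 1).trans (by rw [h12, neg_zero]; rfl)
  · exact hA.1 2
  · exact h23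
  · exact h24
  · exact h25
  · exact (hA.2 3 0).trans (by rw [h03, neg_zero]; rfl)
  · exact (hA.2 3 1).trans (by rw [h13, neg_zero]; rfl)
  · exact (hA.2 3 2).trans (by rw [h23, neg_zero]; rfl)
  · exact hA.1 3
  · exact h34
  · exact h35
  · exact (hA.2 4 0).trans (by rw [h04, neg_zero]; rfl)
  · exact (hA.2 4 1).trans (by rw [h14, neg_zero]; rfl)
  · exact (hA.2 4 2).trans (by rw [h24, neg_zero]; rfl)
  · exact (hA.2 4 3).trans (by rw [h34, neg_zero]; rfl)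
  · exact hA.1 4
  · exact h45
  · exact (hA.2 5 0).trans (by rw [h05, neg_zero]; rfl)
  · exact (hA.2 5 1).trans (by rw [h15, neg_zero]; rfl)
  · exact (hA.2 5 2).trans (by rw [h25, neg_zero]; rfl)
  · exact (hA.2 5 3).trans (by rw [h35, neg_zero]; rfl)
  · exact (hA.2 5 4).trans (by rw [h45, neg_zero]; rfl)
  · exact hA.1 5

end SpreadPerm.EX.Tw
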