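import Pool.Agent.Lib.MP_e6ed9e_al.EX.TwMain67
import Pool.Agent.Lib.MP_e6ed9e_al.EX.TwNu97

/-! # Long root groups of `2E_6(q)`: the theorem -/

namespace SpreadPerm.EX.Tw

open Matrix Finset SpreadPerm.EX
open scoped Classical

noncomputable section

variable {K : Type} [Field K]

/-- The functional takes the value `s` on the subspace. -/
def ValC (c : K) (W : Submodule K (V K)) (s : K) : Prop := ∃ x ∈ W, ∃ y ∈ W,
  x.2.2 = Pi.single 0 1 ∧ y.2.2 = Pi.single 1 1 ∧ c * x.2.1 2 4 + y.2.1 3 5 = s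

theorem valC_map {c : K} {κ : Matrix (Fin 6) (Fin 6) K →ₗ[K] (Fin 6 → K)}
    {μ : (Fin 6 → K) →ₗ[K] (Fin 6 → K)} {n : (Fin 6 → K) →ₗ[K] Matrix (Fin 6) (Fin 6) K}
    {W : Submodule K (V K)} {s : K} (h : ValC c W s) :
    ValC c (W.map (Tr κ μ n))
      (s + (c * n (Pi.single 0 1) 2 4 + n (Pi.single 1 1) 3 5)) := by
  obtain ⟨x, hx, y, hy, h1, h2, h3⟩ := h
  refine ⟨Tr κ μ n x, ⟨x, hx, rfl⟩, Tr κ μ n y, ⟨y, hy, rfl⟩, h1, h2, ?_⟩
  show c * (x.2.1 + n x.2.2) 2 4 + (y.2.1 + n y.2.2) 3 5 = _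
  rw [h1, h2, Matrix.add_apply, Matrix.add_apply, ← h3]
  ring

/-- One direction of the counting. -/
theorem card_le2 {Ω : Type} [Fintype Ω] {σ : K →+* K} (c : K) (e : Ω ≃ LR2 σ) (p : V K)
    (κ : Matrix (Fin 6) (Fin 6) K →ₗ[K] (Fin 6 → K)) (μ : (Fin 6 → K) →ₗ[K] (Fin 6 → K))
    (n : (Fin 6 → K) →ₗ[K] Matrix (Fin 6) (Fin 6) K)
    (h1 : ∀ u, Alt (n u)) (h2 : ∀ x, White x → White (Tr κ μ n x))
    (h3 : ∀ x : V K, Alt x.2.1 → Nd (Tr κ μ n x) = Nd x)
    (h4 : ∀ x y : V K, Alt x.2.1 → Alt y.2.1 →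
      ev (pol σ (Tr κ μ n y)) (Tr κ μ n x) = ev (pol σ y) x) (hp : Tr κ μ n p = p) (s t : K)
    (hst : s + (c * n (Pi.single 0 1) 2 4 + n (Pi.single 1 1) 3 5) = t) :
    (Finset.univ.filter fun ω : Ω => p ∈ (e ω).1 ∧ Opp (e ω).1 ∧ ValC c (e ω).1 s).card ≤
      (Finset.univ.filter fun ω : Ω => p ∈ (e ω).1 ∧ Opp (e ω).1 ∧ ValC c (e ω).1 t).card := by
  refine Finset.card_le_card_of_injOn
    (fun ω => e.symm ⟨(e ω).1.map (Tr κ μ n), lr2_Tr h1 h2 h3 h4 (e ω).2⟩) ?_ ?_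
  · intro ω hω
    rw [Finset.mem_coe, Finset.mem_filter] at hω ⊢
    refine ⟨Finset.mem_univ _, ?_⟩
    show p ∈ (e (e.symm _)).1 ∧ Opp (e (e.symm _)).1 ∧ ValC c (e (e.symm _)).1 t
    rw [e.apply_symm_apply]
    refine ⟨⟨p, hω.2.1, hp⟩, opp_map hω.2.2.1, ?_⟩
    rw [← hst]
    exact valC_map hω.2.2.2
  · intro ω _ ω' _ h
    have h1 := e.symm.injective h
    have h2 : (e ω).1.map (Tr κ μ n) = (e ω').1.map (Tr κ μ n) := congrArg Subtype.val h1
    have h3 := Submodule.map_injective_of_injective (Tr_inj κ μ n) h2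
    exact e.injective (Subtype.ext h3)

/-- The coordinates 024 and 135 of a real trivector. -/
theorem realL_024 (σ : K →+* K) (t : Fin 6 → Fin 6 → Fin 6 → K) :
    realL σ t (Pi.single 0 1) 2 4 = t 0 2 4 - σ (t 0 2 4) := by
  unfold realL
  simp only [LinearMap.add_apply, Matrix.add_apply, gen, LinearMap.smul_apply, Matrix.smul_apply,
    conL_apply, Root67.con_single, smul_eq_mul]
  simp [Pi.single_apply]
  try ring

theorem realL_135 (σ : K →+* K) (t : Fin 6 → Fin 6 → Fin 6 → K) :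
    realL σ t (Pi.single 1 1) 3 5 = t 1 3 5 + σ (t 1 3 5) := by
  unfold realL
  simp only [LinearMap.add_apply, Matrix.add_apply, gen, LinearMap.smul_apply, Matrix.smul_apply,
    conL_apply, Root67.con_single, smul_eq_mul]
  simp [Pi.single_apply]
  try ring

/-- An absolute point has isotropic last component. -/
theorem abs_iso {σ : K →+* K} {p : V K} (hA : Abs σ p) : bar σ p.2.2 ⬝ᵥ p.2.2 = 0 := by
  obtain ⟨-, hw, y, hy, h⟩ := hA
  have h1 := h (p.2.2, 0, 0) ⟨fun _ => rfl, fun _ _ => by simp⟩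
  rw [ev_pol_w, tri_rot, tri_w] at h1
  rw [← h1]
  show -(p.2.2 ⬝ᵥ (p.2.1 *ᵥ y.2.2 + y.2.1 *ᵥ p.2.2)) = 0
  have e1 : p.2.2 ⬝ᵥ (p.2.1 *ᵥ y.2.2) = 0 := by
    have h6 : p.2.1ᵀ = -p.2.1 := by
      ext j k
      exact hw.1.2 k j
    rw [dotProduct_mulVec, ← mulVec_transpose, h6, neg_mulVec, hw.2.2.1, neg_zero,
      zero_dotProduct]
  have e2 : p.2.2 ⬝ᵥ (y.2.1 *ᵥ p.2.2) = 0 := by
    rw [Root67.dp_apply, Root67.mv_apply, Root67.mv_apply, Root67.mv_apply, Root67.mv_apply,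
      Root67.mv_apply, Root67.mv_apply, hy.1 0, hy.1 1, hy.1 2, hy.1 3, hy.1 4, hy.1 5,
      hy.2 1 0, hy.2 2 0, hy.2 3 0, hy.2 4 0, hy.2 5 0, hy.2 2 1, hy.2 3 1, hy.2 4 1, hy.2 5 1,
      hy.2 3 2, hy.2 4 2, hy.2 5 2, hy.2 4 3, hy.2 5 3, hy.2 5 4]
    ring
  rw [dotProduct_add, e1, e2, add_zero, neg_zero]

/-- In the star of an absolute point the values `0` and `1` are taken equally often. -/
theorem star_card2 (hS : StStar2) (hNU : StNU) {Ω : Type} [Fintype Ω] {σ : K →+* K}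
    (hσ : ∀ t, σ (σ t) = t) {c θ : K} (hc : c ≠ 0) (hc' : σ c = -c) (hθ : θ + σ θ = 1)
    (e : Ω ≃ LR2 σ) (p : V K) (hp : Abs σ p) :
    (Finset.univ.filter fun ω : Ω => p ∈ (e ω).1 ∧ Opp (e ω).1 ∧ ValC c (e ω).1 0).card =
      (Finset.univ.filter fun ω : Ω => p ∈ (e ω).1 ∧ Opp (e ω).1 ∧ ValC c (e ω).1 1).card := by
  by_cases hu : p.2.2 = 0
  · have h : ∀ s : K, (Finset.univ.filter fun ω : Ω =>
        p ∈ (e ω).1 ∧ Opp (e ω).1 ∧ ValC c (e ω).1 s) = ∅ := by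
      intro s
      refine Finset.filter_eq_empty_iff.2 fun ω _ h => ?_
      exact hp.1 (h.2.1 p h.1 hu)
    rw [h 0, h 1]
  by_cases hex : ∃ ω : Ω, p ∈ (e ω).1 ∧ Opp (e ω).1
  swap
  · have h : ∀ s : K, (Finset.univ.filter fun ω : Ω =>
        p ∈ (e ω).1 ∧ Opp (e ω).1 ∧ ValC c (e ω).1 s) = ∅ := by
      intro s
      refine Finset.filter_eq_empty_iff.2 fun ω _ h => ?_
      exact hex ⟨ω, h.1, h.2.1⟩
    rw [h 0, h 1]
  obtain ⟨ω, hpW, hO⟩ := hex
  have hiso := abs_iso hp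
  obtain ⟨x, z, hx, hz, ha⟩ := hS K σ c p.2.2 hc hu hiso
  let d : Fin 6 → Fin 6 → Fin 6 → K := det3 (bar σ p.2.2) x z
  let A : K := d 1 3 5 + c * d 0 2 4
  have hA : A ≠ 0 := ha
  have hval : ∀ s : K, σ s = s →
      c * realL σ (fun i j k => s * θ / A * d i j k) (Pi.single 0 1) 2 4 +
        realL σ (fun i j k => s * θ / A * d i j k) (Pi.single 1 1) 3 5 = s := by
    intro s hs
    rw [realL_024, realL_135]
    have h1 : σ (s * θ / A * (d 1 3 5 + c * d 0 2 4)) = s * σ θ := by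
      have : s * θ / A * (d 1 3 5 + c * d 0 2 4) = s * θ := by
        show s * θ / A * A = s * θ
        field_simp
      rw [this, map_mul, hs]
    have h2 : s * θ / A * (d 1 3 5 + c * d 0 2 4) = s * θ := by
      show s * θ / A * A = s * θ
      field_simp
    rw [mul_add, map_add, show s * θ / A * (c * d 0 2 4) = c * (s * θ / A * d 0 2 4) by ring,
      map_mul σ c, hc'] at h1
    have h3 : s * θ + s * σ θ = s := by rw [← mul_add, hθ, mul_one]
    linear_combination h2 + h1 + h3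
  have hn0 : ∀ s : K, realL σ (fun i j k => s * θ / A * d i j k) p.2.2 = 0 := fun s =>
    hNU K σ hσ p.2.2 x z (s * θ / A) hiso hx hz
  refine le_antisymm ?_ ?_
  · obtain ⟨κ, μ, h1, h2, h3, h4, h5⟩ := goodU_fix (realL_good σ hσ _) (e ω).2 hO hpW hu hp
      (hn0 1)
    refine card_le2 c e p κ μ _ h1 h2 h3 h4 h5 0 1 ?_
    rw [hval 1 (map_one σ), zero_add]
  · obtain ⟨κ, μ, h1, h2, h3, h4, h5⟩ := goodU_fix (realL_good σ hσ _) (e ω).2 hO hpW hu hp
      (hn0 (-1))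
    refine card_le2 c e p κ μ _ h1 h2 h3 h4 h5 1 0 ?_
    rw [hval (-1) (by rw [map_neg, map_one]), add_neg_cancel]

theorem Nd_b (b : Matrix (Fin 6) (Fin 6) K) (u : Fin 6 → K) : Nd ((0, b, u) : V K) = Pf b := by
  show Pf b - (0 : Fin 6 → K) ⬝ᵥ (b *ᵥ u) = Pf b
  rw [zero_dotProduct, sub_zero]

theorem Nd_b' (w : Fin 6 → K) (b : Matrix (Fin 6) (Fin 6) K) : Nd ((w, b, 0) : V K) = Pf b := by
  show Pf b - w ⬝ᵥ (b *ᵥ 0) = Pf b
  rw [mulVec_zero, dotProduct_zero, sub_zero]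

theorem W0_lr2 [Fintype K] (σ : K →+* K) : (W0 : Submodule K (V K)) ∈ LR2 σ := by
  have h0 := W0_lr (0 : Matrix (Fin 6) (Fin 6) K)
  refine ⟨h0.1, fun x hx => ⟨(h0.2 x hx).1, (h0.2 x hx).1.1, fun y hy => ?_⟩, ?_⟩
  · obtain ⟨u, rfl⟩ := (mem_W0 x).1 hx
    obtain ⟨v, rfl⟩ := (mem_W0 y).1 hy
    unfold ev
    show (fun i => σ (v (sw i))) ⬝ᵥ (0 : Fin 6 → K) + pair _ (0 : Matrix (Fin 6) (Fin 6) K) +
      (fun i => σ ((0 : Fin 6 → K) (sw i))) ⬝ᵥ u = 0
    have h1 : (fun i => σ ((0 : Fin 6 → K) (sw i))) = 0 := by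
      funext i
      exact map_zero σ
    rw [h1, dotProduct_zero, zero_dotProduct, pair_zero]
    ring
  · intro x hx y z hy hz
    have hss : ∀ j : Fin 6, sw (sw j) = j := by decide
    have h1 : ∀ y : V K, Perp σ W0 y → y.1 = 0 := by
      intro y hy
      funext i
      have h2 := hy.2 (0, 0, Pi.single (sw i) 1) ((mem_W0 _).2 ⟨_, rfl⟩)
      unfold ev at h2
      have h3 : (pol σ ((0, 0, Pi.single (sw i) 1) : V K)).1 = Pi.single i 1 := by
        funext j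
        show σ ((Pi.single (sw i) 1 : Fin 6 → K) (sw j)) = (Pi.single i 1 : Fin 6 → K) j
        by_cases hj : j = i
        · subst hj
          rw [Pi.single_eq_same, Pi.single_eq_same, map_one]
        · have hj' : sw j ≠ sw i := fun h => hj (by rw [← hss j, h, hss])
          rw [Pi.single_eq_of_ne hj', Pi.single_eq_of_ne hj, map_zero]
      have h4 : (pol σ ((0, 0, Pi.single (sw i) 1) : V K)).2.1 = 0 := by
        funext j k
        exact map_zero σ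
      have h5 : (pol σ ((0, 0, Pi.single (sw i) 1) : V K)).2.2 = 0 := by
        funext j
        exact map_zero σ
      rw [h3, h4, h5, single_one_dotProduct, pair_zero_left, zero_dotProduct] at h2
      rw [← add_zero (y.1 i), ← add_zero (y.1 i + 0), h2]
      rfl
    obtain ⟨u, rfl⟩ := (mem_W0 x).1 hx
    obtain ⟨yw, yb, yu⟩ := y
    obtain ⟨zw, zb, zu⟩ := z
    have hyw : yw = 0 := h1 _ hy
    have hzw : zw = 0 := h1 _ hz
    subst hyw
    subst hzw
    unfold tri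
    have e1 : ((0, 0, u) : V K) + (0, yb, yu) + (0, zb, zu) = (0, yb + zb, u + yu + zu) := by
      refine Prod.ext ?_ (Prod.ext ?_ rfl)
      · show (0 : Fin 6 → K) + 0 + 0 = 0
        simp
      · show (0 : Matrix (Fin 6) (Fin 6) K) + yb + zb = yb + zb
        rw [zero_add]
    have e2 : ((0, 0, u) : V K) + (0, yb, yu) = (0, yb, u + yu) := by
      refine Prod.ext ?_ (Prod.ext ?_ rfl)
      · show (0 : Fin 6 → K) + 0 = 0
        simp
      · show (0 : Matrix (Fin 6) (Fin 6) K) + yb = yb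
        rw [zero_add]
    have e3 : ((0, yb, yu) : V K) + (0, zb, zu) = (0, yb + zb, yu + zu) := by
      refine Prod.ext ?_ rfl
      show (0 : Fin 6 → K) + 0 = 0
      simp
    have e4 : ((0, 0, u) : V K) + (0, zb, zu) = (0, zb, u + zu) := by
      refine Prod.ext ?_ (Prod.ext ?_ rfl)
      · show (0 : Fin 6 → K) + 0 = 0
        simp
      · show (0 : Matrix (Fin 6) (Fin 6) K) + zb = zb
        rw [zero_add]
    rw [e1, e2, e3, e4, Nd_b, Nd_b, Nd_b, Nd_b, Nd_b, Nd_b, Nd_b]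
    have h0 : Pf (0 : Matrix (Fin 6) (Fin 6) K) = 0 := by simp [Pf, pf]
    rw [h0]
    ring

theorem W1_lr2 [Fintype K] (σ : K →+* K) : (W1 : Submodule K (V K)) ∈ LR2 σ := by
  have h0 := W1_lr (0 : Matrix (Fin 6) (Fin 6) K)
  refine ⟨h0.1, fun x hx => ⟨(h0.2 x hx).1, (h0.2 x hx).1.1, fun y hy => ?_⟩, ?_⟩
  · obtain ⟨u, rfl⟩ := (mem_W1 x).1 hx
    obtain ⟨v, rfl⟩ := (mem_W1 y).1 hy
    unfold ev
    show (fun i => σ ((0 : Fin 6 → K) (sw i))) ⬝ᵥ u + pair _ (0 : Matrix (Fin 6) (Fin 6) K) +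
      (fun i => σ (v (sw i))) ⬝ᵥ (0 : Fin 6 → K) = 0
    have h1 : (fun i => σ ((0 : Fin 6 → K) (sw i))) = 0 := by
      funext i
      exact map_zero σ
    rw [h1, dotProduct_zero, zero_dotProduct, pair_zero]
    ring
  · intro x hx y z hy hz
    have hss : ∀ j : Fin 6, sw (sw j) = j := by decide
    have h1 : ∀ y : V K, Perp σ W1 y → y.2.2 = 0 := by
      intro y hy
      funext i
      have h2 := hy.2 (Pi.single (sw i) 1, 0, 0) ((mem_W1 _).2 ⟨_, rfl⟩)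
      unfold ev at h2
      have h3 : (pol σ ((Pi.single (sw i) 1, 0, 0) : V K)).2.2 = Pi.single i 1 := by
        funext j
        show σ ((Pi.single (sw i) 1 : Fin 6 → K) (sw j)) = (Pi.single i 1 : Fin 6 → K) j
        by_cases hj : j = i
        · subst hj
          rw [Pi.single_eq_same, Pi.single_eq_same, map_one]
        · have hj' : sw j ≠ sw i := fun h => hj (by rw [← hss j, h, hss])
          rw [Pi.single_eq_of_ne hj', Pi.single_eq_of_ne hj, map_zero]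
      have h4 : (pol σ ((Pi.single (sw i) 1, 0, 0) : V K)).2.1 = 0 := by
        funext j k
        exact map_zero σ
      have h5 : (pol σ ((Pi.single (sw i) 1, 0, 0) : V K)).1 = 0 := by
        funext j
        exact map_zero σ
      rw [h3, h4, h5, single_one_dotProduct, pair_zero_left, zero_dotProduct, zero_add,
        zero_add] at h2
      exact h2
    obtain ⟨u, rfl⟩ := (mem_W1 x).1 hx
    obtain ⟨yw, yb, yu⟩ := y
    obtain ⟨zw, zb, zu⟩ := z
    have hyu : yu = 0 := h1 _ hy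
    have hzu : zu = 0 := h1 _ hz
    subst hyu
    subst hzu
    unfold tri
    have hz0 : (0 : Fin 6 → K) + 0 = 0 := by simp
    have e1 : ((u, 0, 0) : V K) + (yw, yb, 0) + (zw, zb, 0) = (u + yw + zw, yb + zb, 0) := by
      refine Prod.ext rfl (Prod.ext ?_ ?_)
      · show (0 : Matrix (Fin 6) (Fin 6) K) + yb + zb = yb + zb
        rw [zero_add]
      · show (0 : Fin 6 → K) + 0 + 0 = 0
        simp
    have e2 : ((u, 0, 0) : V K) + (yw, yb, 0) = (u + yw, yb, 0) := by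
      refine Prod.ext rfl (Prod.ext ?_ hz0)
      show (0 : Matrix (Fin 6) (Fin 6) K) + yb = yb
      rw [zero_add]
    have e3 : ((yw, yb, 0) : V K) + (zw, zb, 0) = (yw + zw, yb + zb, 0) :=
      Prod.ext rfl (Prod.ext rfl hz0)
    have e4 : ((u, 0, 0) : V K) + (zw, zb, 0) = (u + zw, zb, 0) := by
      refine Prod.ext rfl (Prod.ext ?_ hz0)
      show (0 : Matrix (Fin 6) (Fin 6) K) + zb = zb
      rw [zero_add]
    rw [e1, e2, e3, e4, Nd_b', Nd_b', Nd_b', Nd_b', Nd_b', Nd_b', Nd_b']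
    have h0 : Pf (0 : Matrix (Fin 6) (Fin 6) K) = 0 := by simp [Pf, pf]
    rw [h0]
    ring

end

end SpreadPerm.EX.Tw
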