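import Pool.Agent.Lib.MP_e6ed9e_al.EX.TwExp67

/-! # Long root groups of `2E_6(q)`: root elements, part 3 -/

namespace SpreadPerm.EX.Tw

open Matrix SpreadPerm.EX SpreadPerm.EX.Root67

noncomputable section

variable {K : Type} [Field K]

theorem ncore145 {b b' : Matrix (Fin 6) (Fin 6) K} {w w' : Fin 6 → K} (u : Fin 6 → K) (s : K)
    (e01 : b' 0 1 = b 0 1)
    (e02 : b' 0 2 = b 0 2)
    (e03 : b' 0 3 = b 0 3)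
    (e04 : b' 0 4 = b 0 4)
    (e05 : b' 0 5 = b 0 5)
    (e12 : b' 1 2 = b 1 2)
    (e13 : b' 1 3 = b 1 3)
    (e14 : b' 1 4 = b 1 4 + s * u 5)
    (e15 : b' 1 5 = b 1 5 - s * u 4)
    (e23 : b' 2 3 = b 2 3)
    (e24 : b' 2 4 = b 2 4)
    (e25 : b' 2 5 = b 2 5)
    (e34 : b' 3 4 = b 3 4)
    (e35 : b' 3 5 = b 3 5)
    (e45 : b' 4 5 = b 4 5 + s * u 1)
    (k0 : w' 0 = w 0 + s * b 2 3)
    (k1 : w' 1 = w 1)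
    (k2 : w' 2 = w 2 - s * b 0 3)
    (k3 : w' 3 = w 3 + s * b 0 2)
    (k4 : w' 4 = w 4)
    (k5 : w' 5 = w 5) :
    (b' 0 1 * (b' 2 3 * b' 4 5 - b' 2 4 * b' 3 5 + b' 2 5 * b' 3 4) - b' 0 2 * (b' 1 3 * b' 4 5 - b' 1 4 * b' 3 5 + b' 1 5 * b' 3 4) +
      b' 0 3 * (b' 1 2 * b' 4 5 - b' 1 4 * b' 2 5 + b' 1 5 * b' 2 4) -
      b' 0 4 * (b' 1 2 * b' 3 5 - b' 1 3 * b' 2 5 + b' 1 5 * b' 2 3) +
      b' 0 5 * (b' 1 2 * b' 3 4 - b' 1 3 * b' 2 4 + b' 1 4 * b' 2 3)) -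
      (b' 0 1 * (w' 0 * u 1 - w' 1 * u 0) + b' 0 2 * (w' 0 * u 2 - w' 2 * u 0) +
      b' 0 3 * (w' 0 * u 3 - w' 3 * u 0) + b' 0 4 * (w' 0 * u 4 - w' 4 * u 0) +
      b' 0 5 * (w' 0 * u 5 - w' 5 * u 0) + b' 1 2 * (w' 1 * u 2 - w' 2 * u 1) +
      b' 1 3 * (w' 1 * u 3 - w' 3 * u 1) + b' 1 4 * (w' 1 * u 4 - w' 4 * u 1) +
      b' 1 5 * (w' 1 * u 5 - w' 5 * u 1) + b' 2 3 * (w' 2 * u 3 - w' 3 * u 2) +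
      b' 2 4 * (w' 2 * u 4 - w' 4 * u 2) + b' 2 5 * (w' 2 * u 5 - w' 5 * u 2) +
      b' 3 4 * (w' 3 * u 4 - w' 4 * u 3) + b' 3 5 * (w' 3 * u 5 - w' 5 * u 3) +
      b' 4 5 * (w' 4 * u 5 - w' 5 * u 4)) =
    (b 0 1 * (b 2 3 * b 4 5 - b 2 4 * b 3 5 + b 2 5 * b 3 4) - b 0 2 * (b 1 3 * b 4 5 - b 1 4 * b 3 5 + b 1 5 * b 3 4) +
      b 0 3 * (b 1 2 * b 4 5 - b 1 4 * b 2 5 + b 1 5 * b 2 4) -
      b 0 4 * (b 1 2 * b 3 5 - b 1 3 * b 2 5 + b 1 5 * b 2 3) +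
      b 0 5 * (b 1 2 * b 3 4 - b 1 3 * b 2 4 + b 1 4 * b 2 3)) -
      (b 0 1 * (w 0 * u 1 - w 1 * u 0) + b 0 2 * (w 0 * u 2 - w 2 * u 0) +
      b 0 3 * (w 0 * u 3 - w 3 * u 0) + b 0 4 * (w 0 * u 4 - w 4 * u 0) +
      b 0 5 * (w 0 * u 5 - w 5 * u 0) + b 1 2 * (w 1 * u 2 - w 2 * u 1) +
      b 1 3 * (w 1 * u 3 - w 3 * u 1) + b 1 4 * (w 1 * u 4 - w 4 * u 1) +
      b 1 5 * (w 1 * u 5 - w 5 * u 1) + b 2 3 * (w 2 * u 3 - w 3 * u 2) +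
      b 2 4 * (w 2 * u 4 - w 4 * u 2) + b 2 5 * (w 2 * u 5 - w 5 * u 2) +
      b 3 4 * (w 3 * u 4 - w 4 * u 3) + b 3 5 * (w 3 * u 5 - w 5 * u 3) +
      b 4 5 * (w 4 * u 5 - w 5 * u 4)) := by
  rw [e01, e02, e03, e04, e05, e12, e13, e14, e15, e23, e24, e25, e34, e35, e45, k0, k1, k2, k3, k4, k5]
  ring

theorem nroot145 (s : K) (x : V K) (hx : Alt x.2.1) :
    Nd (x.1 + kap s 0 2 3 x.2.1, x.2.1 +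
      s • con (Pi.single 1 (1 : K)) (Pi.single 4 (1 : K)) (Pi.single 5 (1 : K)) x.2.2, x.2.2) =
      Nd x := by
  obtain ⟨w, b, u⟩ := x
  rw [Nd_exp _ (alt_add hx (alt_smul' s (alt_con _ _ _ _))), Nd_exp _ hx]
  refine ncore145 u s ?_ ?_ ?_ ?_ ?_ ?_ ?_ ?_ ?_ ?_ ?_ ?_ ?_ ?_ ?_ ?_ ?_ ?_ ?_ ?_ ?_
  iterate 15
    · dsimp only
      rw [Matrix.add_apply, Matrix.smul_apply, con_single]
      simp [Pi.single_apply]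
      try ring
  iterate 6
    · dsimp only
      rw [Pi.add_apply, kap_apply]
      simp [Pi.single_apply]
      try ring

theorem hcore145 (σ : K →+* K) (hσ : ∀ t, σ (σ t) = t) {b B b' B' : Matrix (Fin 6) (Fin 6) K}
    {w W w' W' : Fin 6 → K} (u u' : Fin 6 → K) (s : K)
    (e01 : B 0 1 = b 0 1)
    (e02 : B 0 2 = b 0 2)
    (e03 : B 0 3 = b 0 3)
    (e04 : B 0 4 = b 0 4)
    (e05 : B 0 5 = b 0 5)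
    (e12 : B 1 2 = b 1 2 + σ s * u 3)
    (e13 : B 1 3 = b 1 3 - σ s * u 2)
    (e14 : B 1 4 = b 1 4 + s * u 5)
    (e15 : B 1 5 = b 1 5 - s * u 4)
    (e23 : B 2 3 = b 2 3 + σ s * u 1)
    (e24 : B 2 4 = b 2 4)
    (e25 : B 2 5 = b 2 5)
    (e34 : B 3 4 = b 3 4)
    (e35 : B 3 5 = b 3 5)
    (e45 : B 4 5 = b 4 5 + s * u 1)
    (k0 : W 0 = w 0 + s * (b 2 3 + σ s * u 1) + σ s * b 4 5)
    (k1 : W 1 = w 1)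
    (k2 : W 2 = w 2 - s * (b 0 3))
    (k3 : W 3 = w 3 + s * (b 0 2))
    (k4 : W 4 = w 4 - σ s * b 0 5)
    (k5 : W 5 = w 5 + σ s * b 0 4)
    (E01 : B' 0 1 = b' 0 1)
    (E02 : B' 0 2 = b' 0 2)
    (E03 : B' 0 3 = b' 0 3)
    (E04 : B' 0 4 = b' 0 4)
    (E05 : B' 0 5 = b' 0 5)
    (E12 : B' 1 2 = b' 1 2 + σ s * u' 3)
    (E13 : B' 1 3 = b' 1 3 - σ s * u' 2)
    (E14 : B' 1 4 = b' 1 4 + s * u' 5)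
    (E15 : B' 1 5 = b' 1 5 - s * u' 4)
    (E23 : B' 2 3 = b' 2 3 + σ s * u' 1)
    (E24 : B' 2 4 = b' 2 4)
    (E25 : B' 2 5 = b' 2 5)
    (E34 : B' 3 4 = b' 3 4)
    (E35 : B' 3 5 = b' 3 5)
    (E45 : B' 4 5 = b' 4 5 + s * u' 1)
    (L0 : W' 0 = w' 0 + s * (b' 2 3 + σ s * u' 1) + σ s * b' 4 5)
    (L1 : W' 1 = w' 1)
    (L2 : W' 2 = w' 2 - s * (b' 0 3))
    (L3 : W' 3 = w' 3 + s * (b' 0 2))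
    (L4 : W' 4 = w' 4 - σ s * b' 0 5)
    (L5 : W' 5 = w' 5 + σ s * b' 0 4) :
    σ (u' 1) * W 0 + σ (u' 0) * W 1 + σ (u' 3) * W 2 + σ (u' 2) * W 3 + σ (u' 5) * W 4 +
      σ (u' 4) * W 5 + (-σ (B' 0 1)) * B 0 1 + σ (B' 1 3) * B 0 2 +
      σ (B' 1 2) * B 0 3 + σ (B' 1 5) * B 0 4 + σ (B' 1 4) * B 0 5 +
      σ (B' 0 3) * B 1 2 + σ (B' 0 2) * B 1 3 + σ (B' 0 5) * B 1 4 +
      σ (B' 0 4) * B 1 5 + (-σ (B' 2 3)) * B 2 3 + σ (B' 3 5) * B 2 4 +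
      σ (B' 3 4) * B 2 5 + σ (B' 2 5) * B 3 4 + σ (B' 2 4) * B 3 5 +
      (-σ (B' 4 5)) * B 4 5 + σ (W' 1) * u 0 + σ (W' 0) * u 1 + σ (W' 3) * u 2 +
      σ (W' 2) * u 3 + σ (W' 5) * u 4 + σ (W' 4) * u 5 =
    σ (u' 1) * w 0 + σ (u' 0) * w 1 + σ (u' 3) * w 2 + σ (u' 2) * w 3 + σ (u' 5) * w 4 +
      σ (u' 4) * w 5 + (-σ (b' 0 1)) * b 0 1 + σ (b' 1 3) * b 0 2 +
      σ (b' 1 2) * b 0 3 + σ (b' 1 5) * b 0 4 + σ (b' 1 4) * b 0 5 +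
      σ (b' 0 3) * b 1 2 + σ (b' 0 2) * b 1 3 + σ (b' 0 5) * b 1 4 +
      σ (b' 0 4) * b 1 5 + (-σ (b' 2 3)) * b 2 3 + σ (b' 3 5) * b 2 4 +
      σ (b' 3 4) * b 2 5 + σ (b' 2 5) * b 3 4 + σ (b' 2 4) * b 3 5 +
      (-σ (b' 4 5)) * b 4 5 + σ (w' 1) * u 0 + σ (w' 0) * u 1 + σ (w' 3) * u 2 +
      σ (w' 2) * u 3 + σ (w' 5) * u 4 + σ (w' 4) * u 5 := by
  rw [e01, e02, e03, e04, e05, e12, e13, e14, e15, e23, e24, e25, e34, e35, e45, k0, k1, k2, k3, k4, k5, E01, E02, E03, E04, E05, E12, E13, E14, E15, E23, E24, E25, E34, E35, E45, L0, L1, L2, L3, L4, L5]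
  simp only [map_add, map_sub, map_mul, map_neg, hσ]
  ring
theorem rs145 (s : K) : RS (kap s 0 2 3)
    (s • conL (Pi.single 1 (1 : K)) (Pi.single 4 (1 : K)) (Pi.single 5 (1 : K))) :=
  ⟨fun x hx => root145 s x hx, fun x hx => nroot145 s x hx,
    fun _ => alt_smul' s (alt_con _ _ _ _)⟩

theorem ncore234 {b b' : Matrix (Fin 6) (Fin 6) K} {w w' : Fin 6 → K} (u : Fin 6 → K) (s : K)
    (e01 : b' 0 1 = b 0 1)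
    (e02 : b' 0 2 = b 0 2)
    (e03 : b' 0 3 = b 0 3)
    (e04 : b' 0 4 = b 0 4)
    (e05 : b' 0 5 = b 0 5)
    (e12 : b' 1 2 = b 1 2)
    (e13 : b' 1 3 = b 1 3)
    (e14 : b' 1 4 = b 1 4)
    (e15 : b' 1 5 = b 1 5)
    (e23 : b' 2 3 = b 2 3 + s * u 4)
    (e24 : b' 2 4 = b 2 4 - s * u 3)
    (e25 : b' 2 5 = b 2 5)
    (e34 : b' 3 4 = b 3 4 + s * u 2)
    (e35 : b' 3 5 = b 3 5)
    (e45 : b' 4 5 = b 4 5)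
    (k0 : w' 0 = w 0 - s * b 1 5)
    (k1 : w' 1 = w 1 + s * b 0 5)
    (k2 : w' 2 = w 2)
    (k3 : w' 3 = w 3)
    (k4 : w' 4 = w 4)
    (k5 : w' 5 = w 5 - s * b 0 1) :
    (b' 0 1 * (b' 2 3 * b' 4 5 - b' 2 4 * b' 3 5 + b' 2 5 * b' 3 4) - b' 0 2 * (b' 1 3 * b' 4 5 - b' 1 4 * b' 3 5 + b' 1 5 * b' 3 4) +
      b' 0 3 * (b' 1 2 * b' 4 5 - b' 1 4 * b' 2 5 + b' 1 5 * b' 2 4) -
      b' 0 4 * (b' 1 2 * b' 3 5 - b' 1 3 * b' 2 5 + b' 1 5 * b' 2 3) +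
      b' 0 5 * (b' 1 2 * b' 3 4 - b' 1 3 * b' 2 4 + b' 1 4 * b' 2 3)) -
      (b' 0 1 * (w' 0 * u 1 - w' 1 * u 0) + b' 0 2 * (w' 0 * u 2 - w' 2 * u 0) +
      b' 0 3 * (w' 0 * u 3 - w' 3 * u 0) + b' 0 4 * (w' 0 * u 4 - w' 4 * u 0) +
      b' 0 5 * (w' 0 * u 5 - w' 5 * u 0) + b' 1 2 * (w' 1 * u 2 - w' 2 * u 1) +
      b' 1 3 * (w' 1 * u 3 - w' 3 * u 1) + b' 1 4 * (w' 1 * u 4 - w' 4 * u 1) +
      b' 1 5 * (w' 1 * u 5 - w' 5 * u 1) + b' 2 3 * (w' 2 * u 3 - w' 3 * u 2) +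
      b' 2 4 * (w' 2 * u 4 - w' 4 * u 2) + b' 2 5 * (w' 2 * u 5 - w' 5 * u 2) +
      b' 3 4 * (w' 3 * u 4 - w' 4 * u 3) + b' 3 5 * (w' 3 * u 5 - w' 5 * u 3) +
      b' 4 5 * (w' 4 * u 5 - w' 5 * u 4)) =
    (b 0 1 * (b 2 3 * b 4 5 - b 2 4 * b 3 5 + b 2 5 * b 3 4) - b 0 2 * (b 1 3 * b 4 5 - b 1 4 * b 3 5 + b 1 5 * b 3 4) +
      b 0 3 * (b 1 2 * b 4 5 - b 1 4 * b 2 5 + b 1 5 * b 2 4) -
      b 0 4 * (b 1 2 * b 3 5 - b 1 3 * b 2 5 + b 1 5 * b 2 3) +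
      b 0 5 * (b 1 2 * b 3 4 - b 1 3 * b 2 4 + b 1 4 * b 2 3)) -
      (b 0 1 * (w 0 * u 1 - w 1 * u 0) + b 0 2 * (w 0 * u 2 - w 2 * u 0) +
      b 0 3 * (w 0 * u 3 - w 3 * u 0) + b 0 4 * (w 0 * u 4 - w 4 * u 0) +
      b 0 5 * (w 0 * u 5 - w 5 * u 0) + b 1 2 * (w 1 * u 2 - w 2 * u 1) +
      b 1 3 * (w 1 * u 3 - w 3 * u 1) + b 1 4 * (w 1 * u 4 - w 4 * u 1) +
      b 1 5 * (w 1 * u 5 - w 5 * u 1) + b 2 3 * (w 2 * u 3 - w 3 * u 2) +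
      b 2 4 * (w 2 * u 4 - w 4 * u 2) + b 2 5 * (w 2 * u 5 - w 5 * u 2) +
      b 3 4 * (w 3 * u 4 - w 4 * u 3) + b 3 5 * (w 3 * u 5 - w 5 * u 3) +
      b 4 5 * (w 4 * u 5 - w 5 * u 4)) := by
  rw [e01, e02, e03, e04, e05, e12, e13, e14, e15, e23, e24, e25, e34, e35, e45, k0, k1, k2, k3, k4, k5]
  ring

theorem nroot234 (s : K) (x : V K) (hx : Alt x.2.1) :
    Nd (x.1 + kap (-s) 0 1 5 x.2.1, x.2.1 +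
      s • con (Pi.single 2 (1 : K)) (Pi.single 3 (1 : K)) (Pi.single 4 (1 : K)) x.2.2, x.2.2) =
      Nd x := by
  obtain ⟨w, b, u⟩ := x
  rw [Nd_exp _ (alt_add hx (alt_smul' s (alt_con _ _ _ _))), Nd_exp _ hx]
  refine ncore234 u s ?_ ?_ ?_ ?_ ?_ ?_ ?_ ?_ ?_ ?_ ?_ ?_ ?_ ?_ ?_ ?_ ?_ ?_ ?_ ?_ ?_
  iterate 15
    · dsimp only
      rw [Matrix.add_apply, Matrix.smul_apply, con_single]
      simp [Pi.single_apply]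
      try ring
  iterate 6
    · dsimp only
      rw [Pi.add_apply, kap_apply]
      simp [Pi.single_apply]
      try ring

theorem hcore234 (σ : K →+* K) (hσ : ∀ t, σ (σ t) = t) {b B b' B' : Matrix (Fin 6) (Fin 6) K}
    {w W w' W' : Fin 6 → K} (u u' : Fin 6 → K) (s : K)
    (e01 : B 0 1 = b 0 1 - σ s * u 4)
    (e02 : B 0 2 = b 0 2)
    (e03 : B 0 3 = b 0 3)
    (e04 : B 0 4 = b 0 4 + σ s * u 1)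
    (e05 : B 0 5 = b 0 5)
    (e12 : B 1 2 = b 1 2)
    (e13 : B 1 3 = b 1 3)
    (e14 : B 1 4 = b 1 4 - σ s * u 0)
    (e15 : B 1 5 = b 1 5)
    (e23 : B 2 3 = b 2 3 + s * u 4)
    (e24 : B 2 4 = b 2 4 - s * u 3)
    (e25 : B 2 5 = b 2 5)
    (e34 : B 3 4 = b 3 4 + s * u 2)
    (e35 : B 3 5 = b 3 5)
    (e45 : B 4 5 = b 4 5)
    (k0 : W 0 = w 0 - s * (b 1 5))
    (k1 : W 1 = w 1 + s * (b 0 5))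
    (k2 : W 2 = w 2 + σ s * b 3 5)
    (k3 : W 3 = w 3 - σ s * b 2 5)
    (k4 : W 4 = w 4)
    (k5 : W 5 = w 5 - s * (b 0 1 - σ s * u 4) + σ s * b 2 3)
    (E01 : B' 0 1 = b' 0 1 - σ s * u' 4)
    (E02 : B' 0 2 = b' 0 2)
    (E03 : B' 0 3 = b' 0 3)
    (E04 : B' 0 4 = b' 0 4 + σ s * u' 1)
    (E05 : B' 0 5 = b' 0 5)
    (E12 : B' 1 2 = b' 1 2)
    (E13 : B' 1 3 = b' 1 3)
    (E14 : B' 1 4 = b' 1 4 - σ s * u' 0)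
    (E15 : B' 1 5 = b' 1 5)
    (E23 : B' 2 3 = b' 2 3 + s * u' 4)
    (E24 : B' 2 4 = b' 2 4 - s * u' 3)
    (E25 : B' 2 5 = b' 2 5)
    (E34 : B' 3 4 = b' 3 4 + s * u' 2)
    (E35 : B' 3 5 = b' 3 5)
    (E45 : B' 4 5 = b' 4 5)
    (L0 : W' 0 = w' 0 - s * (b' 1 5))
    (L1 : W' 1 = w' 1 + s * (b' 0 5))
    (L2 : W' 2 = w' 2 + σ s * b' 3 5)
    (L3 : W' 3 = w' 3 - σ s * b' 2 5)
    (L4 : W' 4 = w' 4)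
    (L5 : W' 5 = w' 5 - s * (b' 0 1 - σ s * u' 4) + σ s * b' 2 3) :
    σ (u' 1) * W 0 + σ (u' 0) * W 1 + σ (u' 3) * W 2 + σ (u' 2) * W 3 + σ (u' 5) * W 4 +
      σ (u' 4) * W 5 + (-σ (B' 0 1)) * B 0 1 + σ (B' 1 3) * B 0 2 +
      σ (B' 1 2) * B 0 3 + σ (B' 1 5) * B 0 4 + σ (B' 1 4) * B 0 5 +
      σ (B' 0 3) * B 1 2 + σ (B' 0 2) * B 1 3 + σ (B' 0 5) * B 1 4 +
      σ (B' 0 4) * B 1 5 + (-σ (B' 2 3)) * B 2 3 + σ (B' 3 5) * B 2 4 +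
      σ (B' 3 4) * B 2 5 + σ (B' 2 5) * B 3 4 + σ (B' 2 4) * B 3 5 +
      (-σ (B' 4 5)) * B 4 5 + σ (W' 1) * u 0 + σ (W' 0) * u 1 + σ (W' 3) * u 2 +
      σ (W' 2) * u 3 + σ (W' 5) * u 4 + σ (W' 4) * u 5 =
    σ (u' 1) * w 0 + σ (u' 0) * w 1 + σ (u' 3) * w 2 + σ (u' 2) * w 3 + σ (u' 5) * w 4 +
      σ (u' 4) * w 5 + (-σ (b' 0 1)) * b 0 1 + σ (b' 1 3) * b 0 2 +
      σ (b' 1 2) * b 0 3 + σ (b' 1 5) * b 0 4 + σ (b' 1 4) * b 0 5 +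
      σ (b' 0 3) * b 1 2 + σ (b' 0 2) * b 1 3 + σ (b' 0 5) * b 1 4 +
      σ (b' 0 4) * b 1 5 + (-σ (b' 2 3)) * b 2 3 + σ (b' 3 5) * b 2 4 +
      σ (b' 3 4) * b 2 5 + σ (b' 2 5) * b 3 4 + σ (b' 2 4) * b 3 5 +
      (-σ (b' 4 5)) * b 4 5 + σ (w' 1) * u 0 + σ (w' 0) * u 1 + σ (w' 3) * u 2 +
      σ (w' 2) * u 3 + σ (w' 5) * u 4 + σ (w' 4) * u 5 := by
  rw [e01, e02, e03, e04, e05, e12, e13, e14, e15, e23, e24, e25, e34, e35, e45, k0, k1, k2, k3, k4, k5, E01, E02, E03, E04, E05, E12, E13, E14, E15, E23, E24, E25, E34, E35, E45, L0, L1, L2, L3, L4, L5]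
  simp only [map_add, map_sub, map_mul, map_neg, hσ]
  ring
theorem rs234 (s : K) : RS (kap (-s) 0 1 5)
    (s • conL (Pi.single 2 (1 : K)) (Pi.single 3 (1 : K)) (Pi.single 4 (1 : K))) :=
  ⟨fun x hx => root234 s x hx, fun x hx => nroot234 s x hx,
    fun _ => alt_smul' s (alt_con _ _ _ _)⟩

theorem ncore235 {b b' : Matrix (Fin 6) (Fin 6) K} {w w' : Fin 6 → K} (u : Fin 6 → K) (s : K)
    (e01 : b' 0 1 = b 0 1)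
    (e02 : b' 0 2 = b 0 2)
    (e03 : b' 0 3 = b 0 3)
    (e04 : b' 0 4 = b 0 4)
    (e05 : b' 0 5 = b 0 5)
    (e12 : b' 1 2 = b 1 2)
    (e13 : b' 1 3 = b 1 3)
    (e14 : b' 1 4 = b 1 4)
    (e15 : b' 1 5 = b 1 5)
    (e23 : b' 2 3 = b 2 3 + s * u 5)
    (e24 : b' 2 4 = b 2 4)
    (e25 : b' 2 5 = b 2 5 - s * u 3)
    (e34 : b' 3 4 = b 3 4)
    (e35 : b' 3 5 = b 3 5 + s * u 2)
    (e45 : b' 4 5 = b 4 5)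
    (k0 : w' 0 = w 0 + s * b 1 4)
    (k1 : w' 1 = w 1 - s * b 0 4)
    (k2 : w' 2 = w 2)
    (k3 : w' 3 = w 3)
    (k4 : w' 4 = w 4 + s * b 0 1)
    (k5 : w' 5 = w 5) :
    (b' 0 1 * (b' 2 3 * b' 4 5 - b' 2 4 * b' 3 5 + b' 2 5 * b' 3 4) - b' 0 2 * (b' 1 3 * b' 4 5 - b' 1 4 * b' 3 5 + b' 1 5 * b' 3 4) +
      b' 0 3 * (b' 1 2 * b' 4 5 - b' 1 4 * b' 2 5 + b' 1 5 * b' 2 4) -
      b' 0 4 * (b' 1 2 * b' 3 5 - b' 1 3 * b' 2 5 + b' 1 5 * b' 2 3) +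
      b' 0 5 * (b' 1 2 * b' 3 4 - b' 1 3 * b' 2 4 + b' 1 4 * b' 2 3)) -
      (b' 0 1 * (w' 0 * u 1 - w' 1 * u 0) + b' 0 2 * (w' 0 * u 2 - w' 2 * u 0) +
      b' 0 3 * (w' 0 * u 3 - w' 3 * u 0) + b' 0 4 * (w' 0 * u 4 - w' 4 * u 0) +
      b' 0 5 * (w' 0 * u 5 - w' 5 * u 0) + b' 1 2 * (w' 1 * u 2 - w' 2 * u 1) +
      b' 1 3 * (w' 1 * u 3 - w' 3 * u 1) + b' 1 4 * (w' 1 * u 4 - w' 4 * u 1) +
      b' 1 5 * (w' 1 * u 5 - w' 5 * u 1) + b' 2 3 * (w' 2 * u 3 - w' 3 * u 2) +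
      b' 2 4 * (w' 2 * u 4 - w' 4 * u 2) + b' 2 5 * (w' 2 * u 5 - w' 5 * u 2) +
      b' 3 4 * (w' 3 * u 4 - w' 4 * u 3) + b' 3 5 * (w' 3 * u 5 - w' 5 * u 3) +
      b' 4 5 * (w' 4 * u 5 - w' 5 * u 4)) =
    (b 0 1 * (b 2 3 * b 4 5 - b 2 4 * b 3 5 + b 2 5 * b 3 4) - b 0 2 * (b 1 3 * b 4 5 - b 1 4 * b 3 5 + b 1 5 * b 3 4) +
      b 0 3 * (b 1 2 * b 4 5 - b 1 4 * b 2 5 + b 1 5 * b 2 4) -
      b 0 4 * (b 1 2 * b 3 5 - b 1 3 * b 2 5 + b 1 5 * b 2 3) +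
      b 0 5 * (b 1 2 * b 3 4 - b 1 3 * b 2 4 + b 1 4 * b 2 3)) -
      (b 0 1 * (w 0 * u 1 - w 1 * u 0) + b 0 2 * (w 0 * u 2 - w 2 * u 0) +
      b 0 3 * (w 0 * u 3 - w 3 * u 0) + b 0 4 * (w 0 * u 4 - w 4 * u 0) +
      b 0 5 * (w 0 * u 5 - w 5 * u 0) + b 1 2 * (w 1 * u 2 - w 2 * u 1) +
      b 1 3 * (w 1 * u 3 - w 3 * u 1) + b 1 4 * (w 1 * u 4 - w 4 * u 1) +
      b 1 5 * (w 1 * u 5 - w 5 * u 1) + b 2 3 * (w 2 * u 3 - w 3 * u 2) +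
      b 2 4 * (w 2 * u 4 - w 4 * u 2) + b 2 5 * (w 2 * u 5 - w 5 * u 2) +
      b 3 4 * (w 3 * u 4 - w 4 * u 3) + b 3 5 * (w 3 * u 5 - w 5 * u 3) +
      b 4 5 * (w 4 * u 5 - w 5 * u 4)) := by
  rw [e01, e02, e03, e04, e05, e12, e13, e14, e15, e23, e24, e25, e34, e35, e45, k0, k1, k2, k3, k4, k5]
  ring

theorem nroot235 (s : K) (x : V K) (hx : Alt x.2.1) :
    Nd (x.1 + kap s 0 1 4 x.2.1, x.2.1 +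
      s • con (Pi.single 2 (1 : K)) (Pi.single 3 (1 : K)) (Pi.single 5 (1 : K)) x.2.2, x.2.2) =
      Nd x := by
  obtain ⟨w, b, u⟩ := x
  rw [Nd_exp _ (alt_add hx (alt_smul' s (alt_con _ _ _ _))), Nd_exp _ hx]
  refine ncore235 u s ?_ ?_ ?_ ?_ ?_ ?_ ?_ ?_ ?_ ?_ ?_ ?_ ?_ ?_ ?_ ?_ ?_ ?_ ?_ ?_ ?_
  iterate 15
    · dsimp only
      rw [Matrix.add_apply, Matrix.smul_apply, con_single]
      simp [Pi.single_apply]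
      try ring
  iterate 6
    · dsimp only
      rw [Pi.add_apply, kap_apply]
      simp [Pi.single_apply]
      try ring

theorem hcore235 (σ : K →+* K) (hσ : ∀ t, σ (σ t) = t) {b B b' B' : Matrix (Fin 6) (Fin 6) K}
    {w W w' W' : Fin 6 → K} (u u' : Fin 6 → K) (s : K)
    (e01 : B 0 1 = b 0 1 + σ s * u 5)
    (e02 : B 0 2 = b 0 2)
    (e03 : B 0 3 = b 0 3)
    (e04 : B 0 4 = b 0 4)
    (e05 : B 0 5 = b 0 5 - σ s * u 1)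
    (e12 : B 1 2 = b 1 2)
    (e13 : B 1 3 = b 1 3)
    (e14 : B 1 4 = b 1 4)
    (e15 : B 1 5 = b 1 5 + σ s * u 0)
    (e23 : B 2 3 = b 2 3 + s * u 5)
    (e24 : B 2 4 = b 2 4)
    (e25 : B 2 5 = b 2 5 - s * u 3)
    (e34 : B 3 4 = b 3 4)
    (e35 : B 3 5 = b 3 5 + s * u 2)
    (e45 : B 4 5 = b 4 5)
    (k0 : W 0 = w 0 + s * (b 1 4))
    (k1 : W 1 = w 1 - s * (b 0 4))
    (k2 : W 2 = w 2 + σ s * b 3 4)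
    (k3 : W 3 = w 3 - σ s * b 2 4)
    (k4 : W 4 = w 4 + s * (b 0 1 + σ s * u 5) + σ s * b 2 3)
    (k5 : W 5 = w 5)
    (E01 : B' 0 1 = b' 0 1 + σ s * u' 5)
    (E02 : B' 0 2 = b' 0 2)
    (E03 : B' 0 3 = b' 0 3)
    (E04 : B' 0 4 = b' 0 4)
    (E05 : B' 0 5 = b' 0 5 - σ s * u' 1)
    (E12 : B' 1 2 = b' 1 2)
    (E13 : B' 1 3 = b' 1 3)
    (E14 : B' 1 4 = b' 1 4)
    (E15 : B' 1 5 = b' 1 5 + σ s * u' 0)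
    (E23 : B' 2 3 = b' 2 3 + s * u' 5)
    (E24 : B' 2 4 = b' 2 4)
    (E25 : B' 2 5 = b' 2 5 - s * u' 3)
    (E34 : B' 3 4 = b' 3 4)
    (E35 : B' 3 5 = b' 3 5 + s * u' 2)
    (E45 : B' 4 5 = b' 4 5)
    (L0 : W' 0 = w' 0 + s * (b' 1 4))
    (L1 : W' 1 = w' 1 - s * (b' 0 4))
    (L2 : W' 2 = w' 2 + σ s * b' 3 4)
    (L3 : W' 3 = w' 3 - σ s * b' 2 4)
    (L4 : W' 4 = w' 4 + s * (b' 0 1 + σ s * u' 5) + σ s * b' 2 3)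
    (L5 : W' 5 = w' 5) :
    σ (u' 1) * W 0 + σ (u' 0) * W 1 + σ (u' 3) * W 2 + σ (u' 2) * W 3 + σ (u' 5) * W 4 +
      σ (u' 4) * W 5 + (-σ (B' 0 1)) * B 0 1 + σ (B' 1 3) * B 0 2 +
      σ (B' 1 2) * B 0 3 + σ (B' 1 5) * B 0 4 + σ (B' 1 4) * B 0 5 +
      σ (B' 0 3) * B 1 2 + σ (B' 0 2) * B 1 3 + σ (B' 0 5) * B 1 4 +
      σ (B' 0 4) * B 1 5 + (-σ (B' 2 3)) * B 2 3 + σ (B' 3 5) * B 2 4 +
      σ (B' 3 4) * B 2 5 + σ (B' 2 5) * B 3 4 + σ (B' 2 4) * B 3 5 +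
      (-σ (B' 4 5)) * B 4 5 + σ (W' 1) * u 0 + σ (W' 0) * u 1 + σ (W' 3) * u 2 +
      σ (W' 2) * u 3 + σ (W' 5) * u 4 + σ (W' 4) * u 5 =
    σ (u' 1) * w 0 + σ (u' 0) * w 1 + σ (u' 3) * w 2 + σ (u' 2) * w 3 + σ (u' 5) * w 4 +
      σ (u' 4) * w 5 + (-σ (b' 0 1)) * b 0 1 + σ (b' 1 3) * b 0 2 +
      σ (b' 1 2) * b 0 3 + σ (b' 1 5) * b 0 4 + σ (b' 1 4) * b 0 5 +
      σ (b' 0 3) * b 1 2 + σ (b' 0 2) * b 1 3 + σ (b' 0 5) * b 1 4 +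
      σ (b' 0 4) * b 1 5 + (-σ (b' 2 3)) * b 2 3 + σ (b' 3 5) * b 2 4 +
      σ (b' 3 4) * b 2 5 + σ (b' 2 5) * b 3 4 + σ (b' 2 4) * b 3 5 +
      (-σ (b' 4 5)) * b 4 5 + σ (w' 1) * u 0 + σ (w' 0) * u 1 + σ (w' 3) * u 2 +
      σ (w' 2) * u 3 + σ (w' 5) * u 4 + σ (w' 4) * u 5 := by
  rw [e01, e02, e03, e04, e05, e12, e13, e14, e15, e23, e24, e25, e34, e35, e45, k0, k1, k2, k3, k4, k5, E01, E02, E03, E04, E05, E12, E13, E14, E15, E23, E24, E25, E34, E35, E45, L0, L1, L2, L3, L4, L5]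
  simp only [map_add, map_sub, map_mul, map_neg, hσ]
  ring
theorem rs235 (s : K) : RS (kap s 0 1 4)
    (s • conL (Pi.single 2 (1 : K)) (Pi.single 3 (1 : K)) (Pi.single 5 (1 : K))) :=
  ⟨fun x hx => root235 s x hx, fun x hx => nroot235 s x hx,
    fun _ => alt_smul' s (alt_con _ _ _ _)⟩

theorem ncore245 {b b' : Matrix (Fin 6) (Fin 6) K} {w w' : Fin 6 → K} (u : Fin 6 → K) (s : K)
    (e01 : b' 0 1 = b 0 1)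
    (e02 : b' 0 2 = b 0 2)
    (e03 : b' 0 3 = b 0 3)
    (e04 : b' 0 4 = b 0 4)
    (e05 : b' 0 5 = b 0 5)
    (e12 : b' 1 2 = b 1 2)
    (e13 : b' 1 3 = b 1 3)
    (e14 : b' 1 4 = b 1 4)
    (e15 : b' 1 5 = b 1 5)
    (e23 : b' 2 3 = b 2 3)
    (e24 : b' 2 4 = b 2 4 + s * u 5)
    (e25 : b' 2 5 = b 2 5 - s * u 4)
    (e34 : b' 3 4 = b 3 4)
    (e35 : b' 3 5 = b 3 5)
    (e45 : b' 4 5 = b 4 5 + s * u 2)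
    (k0 : w' 0 = w 0 - s * b 1 3)
    (k1 : w' 1 = w 1 + s * b 0 3)
    (k2 : w' 2 = w 2)
    (k3 : w' 3 = w 3 - s * b 0 1)
    (k4 : w' 4 = w 4)
    (k5 : w' 5 = w 5) :
    (b' 0 1 * (b' 2 3 * b' 4 5 - b' 2 4 * b' 3 5 + b' 2 5 * b' 3 4) - b' 0 2 * (b' 1 3 * b' 4 5 - b' 1 4 * b' 3 5 + b' 1 5 * b' 3 4) +
      b' 0 3 * (b' 1 2 * b' 4 5 - b' 1 4 * b' 2 5 + b' 1 5 * b' 2 4) -
      b' 0 4 * (b' 1 2 * b' 3 5 - b' 1 3 * b' 2 5 + b' 1 5 * b' 2 3) +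
      b' 0 5 * (b' 1 2 * b' 3 4 - b' 1 3 * b' 2 4 + b' 1 4 * b' 2 3)) -
      (b' 0 1 * (w' 0 * u 1 - w' 1 * u 0) + b' 0 2 * (w' 0 * u 2 - w' 2 * u 0) +
      b' 0 3 * (w' 0 * u 3 - w' 3 * u 0) + b' 0 4 * (w' 0 * u 4 - w' 4 * u 0) +
      b' 0 5 * (w' 0 * u 5 - w' 5 * u 0) + b' 1 2 * (w' 1 * u 2 - w' 2 * u 1) +
      b' 1 3 * (w' 1 * u 3 - w' 3 * u 1) + b' 1 4 * (w' 1 * u 4 - w' 4 * u 1) +
      b' 1 5 * (w' 1 * u 5 - w' 5 * u 1) + b' 2 3 * (w' 2 * u 3 - w' 3 * u 2) +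
      b' 2 4 * (w' 2 * u 4 - w' 4 * u 2) + b' 2 5 * (w' 2 * u 5 - w' 5 * u 2) +
      b' 3 4 * (w' 3 * u 4 - w' 4 * u 3) + b' 3 5 * (w' 3 * u 5 - w' 5 * u 3) +
      b' 4 5 * (w' 4 * u 5 - w' 5 * u 4)) =
    (b 0 1 * (b 2 3 * b 4 5 - b 2 4 * b 3 5 + b 2 5 * b 3 4) - b 0 2 * (b 1 3 * b 4 5 - b 1 4 * b 3 5 + b 1 5 * b 3 4) +
      b 0 3 * (b 1 2 * b 4 5 - b 1 4 * b 2 5 + b 1 5 * b 2 4) -
      b 0 4 * (b 1 2 * b 3 5 - b 1 3 * b 2 5 + b 1 5 * b 2 3) +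
      b 0 5 * (b 1 2 * b 3 4 - b 1 3 * b 2 4 + b 1 4 * b 2 3)) -
      (b 0 1 * (w 0 * u 1 - w 1 * u 0) + b 0 2 * (w 0 * u 2 - w 2 * u 0) +
      b 0 3 * (w 0 * u 3 - w 3 * u 0) + b 0 4 * (w 0 * u 4 - w 4 * u 0) +
      b 0 5 * (w 0 * u 5 - w 5 * u 0) + b 1 2 * (w 1 * u 2 - w 2 * u 1) +
      b 1 3 * (w 1 * u 3 - w 3 * u 1) + b 1 4 * (w 1 * u 4 - w 4 * u 1) +
      b 1 5 * (w 1 * u 5 - w 5 * u 1) + b 2 3 * (w 2 * u 3 - w 3 * u 2) +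
      b 2 4 * (w 2 * u 4 - w 4 * u 2) + b 2 5 * (w 2 * u 5 - w 5 * u 2) +
      b 3 4 * (w 3 * u 4 - w 4 * u 3) + b 3 5 * (w 3 * u 5 - w 5 * u 3) +
      b 4 5 * (w 4 * u 5 - w 5 * u 4)) := by
  rw [e01, e02, e03, e04, e05, e12, e13, e14, e15, e23, e24, e25, e34, e35, e45, k0, k1, k2, k3, k4, k5]
  ring

theorem nroot245 (s : K) (x : V K) (hx : Alt x.2.1) :
    Nd (x.1 + kap (-s) 0 1 3 x.2.1, x.2.1 +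
      s • con (Pi.single 2 (1 : K)) (Pi.single 4 (1 : K)) (Pi.single 5 (1 : K)) x.2.2, x.2.2) =
      Nd x := by
  obtain ⟨w, b, u⟩ := x
  rw [Nd_exp _ (alt_add hx (alt_smul' s (alt_con _ _ _ _))), Nd_exp _ hx]
  refine ncore245 u s ?_ ?_ ?_ ?_ ?_ ?_ ?_ ?_ ?_ ?_ ?_ ?_ ?_ ?_ ?_ ?_ ?_ ?_ ?_ ?_ ?_
  iterate 15
    · dsimp only
      rw [Matrix.add_apply, Matrix.smul_apply, con_single]
      simp [Pi.single_apply]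
      try ring
  iterate 6
    · dsimp only
      rw [Pi.add_apply, kap_apply]
      simp [Pi.single_apply]
      try ring

theorem hcore245 (σ : K →+* K) (hσ : ∀ t, σ (σ t) = t) {b B b' B' : Matrix (Fin 6) (Fin 6) K}
    {w W w' W' : Fin 6 → K} (u u' : Fin 6 → K) (s : K)
    (e01 : B 0 1 = b 0 1 - σ s * u 2)
    (e02 : B 0 2 = b 0 2 + σ s * u 1)
    (e03 : B 0 3 = b 0 3)
    (e04 : B 0 4 = b 0 4)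
    (e05 : B 0 5 = b 0 5)
    (e12 : B 1 2 = b 1 2 - σ s * u 0)
    (e13 : B 1 3 = b 1 3)
    (e14 : B 1 4 = b 1 4)
    (e15 : B 1 5 = b 1 5)
    (e23 : B 2 3 = b 2 3)
    (e24 : B 2 4 = b 2 4 + s * u 5)
    (e25 : B 2 5 = b 2 5 - s * u 4)
    (e34 : B 3 4 = b 3 4)
    (e35 : B 3 5 = b 3 5)
    (e45 : B 4 5 = b 4 5 + s * u 2)
    (k0 : W 0 = w 0 - s * (b 1 3))
    (k1 : W 1 = w 1 + s * (b 0 3))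
    (k2 : W 2 = w 2)
    (k3 : W 3 = w 3 - s * (b 0 1 - σ s * u 2) + σ s * b 4 5)
    (k4 : W 4 = w 4 - σ s * b 3 5)
    (k5 : W 5 = w 5 + σ s * b 3 4)
    (E01 : B' 0 1 = b' 0 1 - σ s * u' 2)
    (E02 : B' 0 2 = b' 0 2 + σ s * u' 1)
    (E03 : B' 0 3 = b' 0 3)
    (E04 : B' 0 4 = b' 0 4)
    (E05 : B' 0 5 = b' 0 5)
    (E12 : B' 1 2 = b' 1 2 - σ s * u' 0)
    (E13 : B' 1 3 = b' 1 3)
    (E14 : B' 1 4 = b' 1 4)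
    (E15 : B' 1 5 = b' 1 5)
    (E23 : B' 2 3 = b' 2 3)
    (E24 : B' 2 4 = b' 2 4 + s * u' 5)
    (E25 : B' 2 5 = b' 2 5 - s * u' 4)
    (E34 : B' 3 4 = b' 3 4)
    (E35 : B' 3 5 = b' 3 5)
    (E45 : B' 4 5 = b' 4 5 + s * u' 2)
    (L0 : W' 0 = w' 0 - s * (b' 1 3))
    (L1 : W' 1 = w' 1 + s * (b' 0 3))
    (L2 : W' 2 = w' 2)
    (L3 : W' 3 = w' 3 - s * (b' 0 1 - σ s * u' 2) + σ s * b' 4 5)
    (L4 : W' 4 = w' 4 - σ s * b' 3 5)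
    (L5 : W' 5 = w' 5 + σ s * b' 3 4) :
    σ (u' 1) * W 0 + σ (u' 0) * W 1 + σ (u' 3) * W 2 + σ (u' 2) * W 3 + σ (u' 5) * W 4 +
      σ (u' 4) * W 5 + (-σ (B' 0 1)) * B 0 1 + σ (B' 1 3) * B 0 2 +
      σ (B' 1 2) * B 0 3 + σ (B' 1 5) * B 0 4 + σ (B' 1 4) * B 0 5 +
      σ (B' 0 3) * B 1 2 + σ (B' 0 2) * B 1 3 + σ (B' 0 5) * B 1 4 +
      σ (B' 0 4) * B 1 5 + (-σ (B' 2 3)) * B 2 3 + σ (B' 3 5) * B 2 4 +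
      σ (B' 3 4) * B 2 5 + σ (B' 2 5) * B 3 4 + σ (B' 2 4) * B 3 5 +
      (-σ (B' 4 5)) * B 4 5 + σ (W' 1) * u 0 + σ (W' 0) * u 1 + σ (W' 3) * u 2 +
      σ (W' 2) * u 3 + σ (W' 5) * u 4 + σ (W' 4) * u 5 =
    σ (u' 1) * w 0 + σ (u' 0) * w 1 + σ (u' 3) * w 2 + σ (u' 2) * w 3 + σ (u' 5) * w 4 +
      σ (u' 4) * w 5 + (-σ (b' 0 1)) * b 0 1 + σ (b' 1 3) * b 0 2 +
      σ (b' 1 2) * b 0 3 + σ (b' 1 5) * b 0 4 + σ (b' 1 4) * b 0 5 +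
      σ (b' 0 3) * b 1 2 + σ (b' 0 2) * b 1 3 + σ (b' 0 5) * b 1 4 +
      σ (b' 0 4) * b 1 5 + (-σ (b' 2 3)) * b 2 3 + σ (b' 3 5) * b 2 4 +
      σ (b' 3 4) * b 2 5 + σ (b' 2 5) * b 3 4 + σ (b' 2 4) * b 3 5 +
      (-σ (b' 4 5)) * b 4 5 + σ (w' 1) * u 0 + σ (w' 0) * u 1 + σ (w' 3) * u 2 +
      σ (w' 2) * u 3 + σ (w' 5) * u 4 + σ (w' 4) * u 5 := by
  rw [e01, e02, e03, e04, e05, e12, e13, e14, e15, e23, e24, e25, e34, e35, e45, k0, k1, k2, k3, k4, k5, E01, E02, E03, E04, E05, E12, E13, E14, E15, E23, E24, E25, E34, E35, E45, L0, L1, L2, L3, L4, L5]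
  simp only [map_add, map_sub, map_mul, map_neg, hσ]
  ring
theorem rs245 (s : K) : RS (kap (-s) 0 1 3)
    (s • conL (Pi.single 2 (1 : K)) (Pi.single 4 (1 : K)) (Pi.single 5 (1 : K))) :=
  ⟨fun x hx => root245 s x hx, fun x hx => nroot245 s x hx,
    fun _ => alt_smul' s (alt_con _ _ _ _)⟩

theorem ncore345 {b b' : Matrix (Fin 6) (Fin 6) K} {w w' : Fin 6 → K} (u : Fin 6 → K) (s : K)
    (e01 : b' 0 1 = b 0 1)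
    (e02 : b' 0 2 = b 0 2)
    (e03 : b' 0 3 = b 0 3)
    (e04 : b' 0 4 = b 0 4)
    (e05 : b' 0 5 = b 0 5)
    (e12 : b' 1 2 = b 1 2)
    (e13 : b' 1 3 = b 1 3)
    (e14 : b' 1 4 = b 1 4)
    (e15 : b' 1 5 = b 1 5)
    (e23 : b' 2 3 = b 2 3)
    (e24 : b' 2 4 = b 2 4)
    (e25 : b' 2 5 = b 2 5)
    (e34 : b' 3 4 = b 3 4 + s * u 5)
    (e35 : b' 3 5 = b 3 5 - s * u 4)
    (e45 : b' 4 5 = b 4 5 + s * u 3)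
    (k0 : w' 0 = w 0 + s * b 1 2)
    (k1 : w' 1 = w 1 - s * b 0 2)
    (k2 : w' 2 = w 2 + s * b 0 1)
    (k3 : w' 3 = w 3)
    (k4 : w' 4 = w 4)
    (k5 : w' 5 = w 5) :
    (b' 0 1 * (b' 2 3 * b' 4 5 - b' 2 4 * b' 3 5 + b' 2 5 * b' 3 4) - b' 0 2 * (b' 1 3 * b' 4 5 - b' 1 4 * b' 3 5 + b' 1 5 * b' 3 4) +
      b' 0 3 * (b' 1 2 * b' 4 5 - b' 1 4 * b' 2 5 + b' 1 5 * b' 2 4) -
      b' 0 4 * (b' 1 2 * b' 3 5 - b' 1 3 * b' 2 5 + b' 1 5 * b' 2 3) +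
      b' 0 5 * (b' 1 2 * b' 3 4 - b' 1 3 * b' 2 4 + b' 1 4 * b' 2 3)) -
      (b' 0 1 * (w' 0 * u 1 - w' 1 * u 0) + b' 0 2 * (w' 0 * u 2 - w' 2 * u 0) +
      b' 0 3 * (w' 0 * u 3 - w' 3 * u 0) + b' 0 4 * (w' 0 * u 4 - w' 4 * u 0) +
      b' 0 5 * (w' 0 * u 5 - w' 5 * u 0) + b' 1 2 * (w' 1 * u 2 - w' 2 * u 1) +
      b' 1 3 * (w' 1 * u 3 - w' 3 * u 1) + b' 1 4 * (w' 1 * u 4 - w' 4 * u 1) +
      b' 1 5 * (w' 1 * u 5 - w' 5 * u 1) + b' 2 3 * (w' 2 * u 3 - w' 3 * u 2) +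
      b' 2 4 * (w' 2 * u 4 - w' 4 * u 2) + b' 2 5 * (w' 2 * u 5 - w' 5 * u 2) +
      b' 3 4 * (w' 3 * u 4 - w' 4 * u 3) + b' 3 5 * (w' 3 * u 5 - w' 5 * u 3) +
      b' 4 5 * (w' 4 * u 5 - w' 5 * u 4)) =
    (b 0 1 * (b 2 3 * b 4 5 - b 2 4 * b 3 5 + b 2 5 * b 3 4) - b 0 2 * (b 1 3 * b 4 5 - b 1 4 * b 3 5 + b 1 5 * b 3 4) +
      b 0 3 * (b 1 2 * b 4 5 - b 1 4 * b 2 5 + b 1 5 * b 2 4) -
      b 0 4 * (b 1 2 * b 3 5 - b 1 3 * b 2 5 + b 1 5 * b 2 3) +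
      b 0 5 * (b 1 2 * b 3 4 - b 1 3 * b 2 4 + b 1 4 * b 2 3)) -
      (b 0 1 * (w 0 * u 1 - w 1 * u 0) + b 0 2 * (w 0 * u 2 - w 2 * u 0) +
      b 0 3 * (w 0 * u 3 - w 3 * u 0) + b 0 4 * (w 0 * u 4 - w 4 * u 0) +
      b 0 5 * (w 0 * u 5 - w 5 * u 0) + b 1 2 * (w 1 * u 2 - w 2 * u 1) +
      b 1 3 * (w 1 * u 3 - w 3 * u 1) + b 1 4 * (w 1 * u 4 - w 4 * u 1) +
      b 1 5 * (w 1 * u 5 - w 5 * u 1) + b 2 3 * (w 2 * u 3 - w 3 * u 2) +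
      b 2 4 * (w 2 * u 4 - w 4 * u 2) + b 2 5 * (w 2 * u 5 - w 5 * u 2) +
      b 3 4 * (w 3 * u 4 - w 4 * u 3) + b 3 5 * (w 3 * u 5 - w 5 * u 3) +
      b 4 5 * (w 4 * u 5 - w 5 * u 4)) := by
  rw [e01, e02, e03, e04, e05, e12, e13, e14, e15, e23, e24, e25, e34, e35, e45, k0, k1, k2, k3, k4, k5]
  ring

theorem nroot345 (s : K) (x : V K) (hx : Alt x.2.1) :
    Nd (x.1 + kap s 0 1 2 x.2.1, x.2.1 +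
      s • con (Pi.single 3 (1 : K)) (Pi.single 4 (1 : K)) (Pi.single 5 (1 : K)) x.2.2, x.2.2) =
      Nd x := by
  obtain ⟨w, b, u⟩ := x
  rw [Nd_exp _ (alt_add hx (alt_smul' s (alt_con _ _ _ _))), Nd_exp _ hx]
  refine ncore345 u s ?_ ?_ ?_ ?_ ?_ ?_ ?_ ?_ ?_ ?_ ?_ ?_ ?_ ?_ ?_ ?_ ?_ ?_ ?_ ?_ ?_
  iterate 15
    · dsimp only
      rw [Matrix.add_apply, Matrix.smul_apply, con_single]
      simp [Pi.single_apply]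
      try ring
  iterate 6
    · dsimp only
      rw [Pi.add_apply, kap_apply]
      simp [Pi.single_apply]
      try ring

theorem hcore345 (σ : K →+* K) (hσ : ∀ t, σ (σ t) = t) {b B b' B' : Matrix (Fin 6) (Fin 6) K}
    {w W w' W' : Fin 6 → K} (u u' : Fin 6 → K) (s : K)
    (e01 : B 0 1 = b 0 1 + σ s * u 3)
    (e02 : B 0 2 = b 0 2)
    (e03 : B 0 3 = b 0 3 - σ s * u 1)
    (e04 : B 0 4 = b 0 4)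
    (e05 : B 0 5 = b 0 5)
    (e12 : B 1 2 = b 1 2)
    (e13 : B 1 3 = b 1 3 + σ s * u 0)
    (e14 : B 1 4 = b 1 4)
    (e15 : B 1 5 = b 1 5)
    (e23 : B 2 3 = b 2 3)
    (e24 : B 2 4 = b 2 4)
    (e25 : B 2 5 = b 2 5)
    (e34 : B 3 4 = b 3 4 + s * u 5)
    (e35 : B 3 5 = b 3 5 - s * u 4)
    (e45 : B 4 5 = b 4 5 + s * u 3)
    (k0 : W 0 = w 0 + s * (b 1 2))
    (k1 : W 1 = w 1 - s * (b 0 2))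
    (k2 : W 2 = w 2 + s * (b 0 1 + σ s * u 3) + σ s * b 4 5)
    (k3 : W 3 = w 3)
    (k4 : W 4 = w 4 - σ s * b 2 5)
    (k5 : W 5 = w 5 + σ s * b 2 4)
    (E01 : B' 0 1 = b' 0 1 + σ s * u' 3)
    (E02 : B' 0 2 = b' 0 2)
    (E03 : B' 0 3 = b' 0 3 - σ s * u' 1)
    (E04 : B' 0 4 = b' 0 4)
    (E05 : B' 0 5 = b' 0 5)
    (E12 : B' 1 2 = b' 1 2)
    (E13 : B' 1 3 = b' 1 3 + σ s * u' 0)
    (E14 : B' 1 4 = b' 1 4)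
    (E15 : B' 1 5 = b' 1 5)
    (E23 : B' 2 3 = b' 2 3)
    (E24 : B' 2 4 = b' 2 4)
    (E25 : B' 2 5 = b' 2 5)
    (E34 : B' 3 4 = b' 3 4 + s * u' 5)
    (E35 : B' 3 5 = b' 3 5 - s * u' 4)
    (E45 : B' 4 5 = b' 4 5 + s * u' 3)
    (L0 : W' 0 = w' 0 + s * (b' 1 2))
    (L1 : W' 1 = w' 1 - s * (b' 0 2))
    (L2 : W' 2 = w' 2 + s * (b' 0 1 + σ s * u' 3) + σ s * b' 4 5)
    (L3 : W' 3 = w' 3)
    (L4 : W' 4 = w' 4 - σ s * b' 2 5)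
    (L5 : W' 5 = w' 5 + σ s * b' 2 4) :
    σ (u' 1) * W 0 + σ (u' 0) * W 1 + σ (u' 3) * W 2 + σ (u' 2) * W 3 + σ (u' 5) * W 4 +
      σ (u' 4) * W 5 + (-σ (B' 0 1)) * B 0 1 + σ (B' 1 3) * B 0 2 +
      σ (B' 1 2) * B 0 3 + σ (B' 1 5) * B 0 4 + σ (B' 1 4) * B 0 5 +
      σ (B' 0 3) * B 1 2 + σ (B' 0 2) * B 1 3 + σ (B' 0 5) * B 1 4 +
      σ (B' 0 4) * B 1 5 + (-σ (B' 2 3)) * B 2 3 + σ (B' 3 5) * B 2 4 +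
      σ (B' 3 4) * B 2 5 + σ (B' 2 5) * B 3 4 + σ (B' 2 4) * B 3 5 +
      (-σ (B' 4 5)) * B 4 5 + σ (W' 1) * u 0 + σ (W' 0) * u 1 + σ (W' 3) * u 2 +
      σ (W' 2) * u 3 + σ (W' 5) * u 4 + σ (W' 4) * u 5 =
    σ (u' 1) * w 0 + σ (u' 0) * w 1 + σ (u' 3) * w 2 + σ (u' 2) * w 3 + σ (u' 5) * w 4 +
      σ (u' 4) * w 5 + (-σ (b' 0 1)) * b 0 1 + σ (b' 1 3) * b 0 2 +
      σ (b' 1 2) * b 0 3 + σ (b' 1 5) * b 0 4 + σ (b' 1 4) * b 0 5 +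
      σ (b' 0 3) * b 1 2 + σ (b' 0 2) * b 1 3 + σ (b' 0 5) * b 1 4 +
      σ (b' 0 4) * b 1 5 + (-σ (b' 2 3)) * b 2 3 + σ (b' 3 5) * b 2 4 +
      σ (b' 3 4) * b 2 5 + σ (b' 2 5) * b 3 4 + σ (b' 2 4) * b 3 5 +
      (-σ (b' 4 5)) * b 4 5 + σ (w' 1) * u 0 + σ (w' 0) * u 1 + σ (w' 3) * u 2 +
      σ (w' 2) * u 3 + σ (w' 5) * u 4 + σ (w' 4) * u 5 := by
  rw [e01, e02, e03, e04, e05, e12, e13, e14, e15, e23, e24, e25, e34, e35, e45, k0, k1, k2, k3, k4, k5, E01, E02, E03, E04, E05, E12, E13, E14, E15, E23, E24, E25, E34, E35, E45, L0, L1, L2, L3, L4, L5]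
  simp only [map_add, map_sub, map_mul, map_neg, hσ]
  ring
theorem rs345 (s : K) : RS (kap s 0 1 2)
    (s • conL (Pi.single 3 (1 : K)) (Pi.single 4 (1 : K)) (Pi.single 5 (1 : K))) :=
  ⟨fun x hx => root345 s x hx, fun x hx => nroot345 s x hx,
    fun _ => alt_smul' s (alt_con _ _ _ _)⟩

end

end SpreadPerm.EX.Tw
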