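import Pool.Agent.Lib.MP_e6ed9e_al.EX.TwExp67
import Pool.Agent.Lib.MP_e6ed9e_al.EX.TwRt0_67
import Pool.Agent.Lib.MP_e6ed9e_al.EX.TwRt1_67
import Pool.Agent.Lib.MP_e6ed9e_al.EX.TwRt2_67
import Pool.Agent.Lib.MP_e6ed9e_al.EX.TwRt3_67

/-! # Long root groups of `2E_6(q)`: root elements, part g3 -/

namespace SpreadPerm.EX.Tw

open Matrix SpreadPerm.EX SpreadPerm.EX.Root67

noncomputable section

variable {K : Type} [Field K]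

theorem good145 (σ : K →+* K) (hσ : ∀ t, σ (σ t) = t) (s : K) :
    GoodU σ (gen σ 1 1 4 5 1 2 3 s) := by
  refine goodU_of σ (rs145 s) (rs123 (1 * σ s)) fun x y hx hy => ?_
  rw [evpol _ _ _ (alt_Tr _ _ (alt_gen _ _ _ _ _ _ _ _) hy), evpol _ _ _ hy]
  refine hcore145 σ hσ x.2.2 y.2.2 s ?_ ?_ ?_ ?_ ?_ ?_ ?_ ?_ ?_ ?_ ?_ ?_ ?_ ?_ ?_ ?_ ?_ ?_ ?_ ?_
    ?_ ?_ ?_ ?_ ?_ ?_ ?_ ?_ ?_ ?_ ?_ ?_ ?_ ?_ ?_ ?_ ?_ ?_ ?_ ?_ ?_ ?_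
  iterate 2
    iterate 15
      · rw [tr_b, gen_b]
        simp only [con_single]
        simp [Pi.single_apply]
        try ring
    iterate 6
      · rw [tr_w, kk_w, comp_w]
        simp only [kap_apply, sc_b, con_single]
        simp [Pi.single_apply]
        try ring

theorem good234 (σ : K →+* K) (hσ : ∀ t, σ (σ t) = t) (s : K) :
    GoodU σ (gen σ (-1) 2 3 4 0 1 4 s) := by
  refine goodU_of σ (rs234 s) (rs014 ((-1) * σ s)) fun x y hx hy => ?_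
  rw [evpol _ _ _ (alt_Tr _ _ (alt_gen _ _ _ _ _ _ _ _) hy), evpol _ _ _ hy]
  refine hcore234 σ hσ x.2.2 y.2.2 s ?_ ?_ ?_ ?_ ?_ ?_ ?_ ?_ ?_ ?_ ?_ ?_ ?_ ?_ ?_ ?_ ?_ ?_ ?_ ?_
    ?_ ?_ ?_ ?_ ?_ ?_ ?_ ?_ ?_ ?_ ?_ ?_ ?_ ?_ ?_ ?_ ?_ ?_ ?_ ?_ ?_ ?_
  iterate 2
    iterate 15
      · rw [tr_b, gen_b]
        simp only [con_single]
        simp [Pi.single_apply]
        try ring
    iterate 6
      · rw [tr_w, kk_w, comp_w]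
        simp only [kap_apply, sc_b, con_single]
        simp [Pi.single_apply]
        try ring

theorem good235 (σ : K →+* K) (hσ : ∀ t, σ (σ t) = t) (s : K) :
    GoodU σ (gen σ 1 2 3 5 0 1 5 s) := by
  refine goodU_of σ (rs235 s) (rs015 (1 * σ s)) fun x y hx hy => ?_
  rw [evpol _ _ _ (alt_Tr _ _ (alt_gen _ _ _ _ _ _ _ _) hy), evpol _ _ _ hy]
  refine hcore235 σ hσ x.2.2 y.2.2 s ?_ ?_ ?_ ?_ ?_ ?_ ?_ ?_ ?_ ?_ ?_ ?_ ?_ ?_ ?_ ?_ ?_ ?_ ?_ ?_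
    ?_ ?_ ?_ ?_ ?_ ?_ ?_ ?_ ?_ ?_ ?_ ?_ ?_ ?_ ?_ ?_ ?_ ?_ ?_ ?_ ?_ ?_
  iterate 2
    iterate 15
      · rw [tr_b, gen_b]
        simp only [con_single]
        simp [Pi.single_apply]
        try ring
    iterate 6
      · rw [tr_w, kk_w, comp_w]
        simp only [kap_apply, sc_b, con_single]
        simp [Pi.single_apply]
        try ring

theorem good245 (σ : K →+* K) (hσ : ∀ t, σ (σ t) = t) (s : K) :
    GoodU σ (gen σ (-1) 2 4 5 0 1 2 s) := by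
  refine goodU_of σ (rs245 s) (rs012 ((-1) * σ s)) fun x y hx hy => ?_
  rw [evpol _ _ _ (alt_Tr _ _ (alt_gen _ _ _ _ _ _ _ _) hy), evpol _ _ _ hy]
  refine hcore245 σ hσ x.2.2 y.2.2 s ?_ ?_ ?_ ?_ ?_ ?_ ?_ ?_ ?_ ?_ ?_ ?_ ?_ ?_ ?_ ?_ ?_ ?_ ?_ ?_
    ?_ ?_ ?_ ?_ ?_ ?_ ?_ ?_ ?_ ?_ ?_ ?_ ?_ ?_ ?_ ?_ ?_ ?_ ?_ ?_ ?_ ?_
  iterate 2
    iterate 15
      · rw [tr_b, gen_b]
        simp only [con_single]
        simp [Pi.single_apply]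
        try ring
    iterate 6
      · rw [tr_w, kk_w, comp_w]
        simp only [kap_apply, sc_b, con_single]
        simp [Pi.single_apply]
        try ring

theorem good345 (σ : K →+* K) (hσ : ∀ t, σ (σ t) = t) (s : K) :
    GoodU σ (gen σ 1 3 4 5 0 1 3 s) := by
  refine goodU_of σ (rs345 s) (rs013 (1 * σ s)) fun x y hx hy => ?_
  rw [evpol _ _ _ (alt_Tr _ _ (alt_gen _ _ _ _ _ _ _ _) hy), evpol _ _ _ hy]
  refine hcore345 σ hσ x.2.2 y.2.2 s ?_ ?_ ?_ ?_ ?_ ?_ ?_ ?_ ?_ ?_ ?_ ?_ ?_ ?_ ?_ ?_ ?_ ?_ ?_ ?_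
    ?_ ?_ ?_ ?_ ?_ ?_ ?_ ?_ ?_ ?_ ?_ ?_ ?_ ?_ ?_ ?_ ?_ ?_ ?_ ?_ ?_ ?_
  iterate 2
    iterate 15
      · rw [tr_b, gen_b]
        simp only [con_single]
        simp [Pi.single_apply]
        try ring
    iterate 6
      · rw [tr_w, kk_w, comp_w]
        simp only [kap_apply, sc_b, con_single]
        simp [Pi.single_apply]
        try ring

end

end SpreadPerm.EX.Tw
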