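import Pool.Agent.Lib.MP_e6ed9e_al.EX.TwUni67

/-! # Long root groups of `2E_6(q)`: the trilinear form on a white subspace -/

namespace SpreadPerm.EX.Tw

open Matrix SpreadPerm.EX SpreadPerm.EX.Root67

noncomputable section

variable {K : Type} [Field K]

/-- The part of `Nd (x + y)` linear in `x`. -/
def lin1 (y x : V K) : K :=
  ((y.2.1 2 3 * y.2.1 4 5 - y.2.1 2 4 * y.2.1 3 5 + y.2.1 2 5 * y.2.1 3 4)) * x.2.1 0 1 +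
    (-(y.2.1 1 3 * y.2.1 4 5 - y.2.1 1 4 * y.2.1 3 5 + y.2.1 1 5 * y.2.1 3 4)) * x.2.1 0 2 +
    ((y.2.1 1 2 * y.2.1 4 5 - y.2.1 1 4 * y.2.1 2 5 + y.2.1 1 5 * y.2.1 2 4)) * x.2.1 0 3 +
    (-(y.2.1 1 2 * y.2.1 3 5 - y.2.1 1 3 * y.2.1 2 5 + y.2.1 1 5 * y.2.1 2 3)) * x.2.1 0 4 +
    ((y.2.1 1 2 * y.2.1 3 4 - y.2.1 1 3 * y.2.1 2 4 + y.2.1 1 4 * y.2.1 2 3)) * x.2.1 0 5 +
    ((y.2.1 0 3 * y.2.1 4 5 - y.2.1 0 4 * y.2.1 3 5 + y.2.1 0 5 * y.2.1 3 4)) * x.2.1 1 2 +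
    (-(y.2.1 0 2 * y.2.1 4 5 - y.2.1 0 4 * y.2.1 2 5 + y.2.1 0 5 * y.2.1 2 4)) * x.2.1 1 3 +
    ((y.2.1 0 2 * y.2.1 3 5 - y.2.1 0 3 * y.2.1 2 5 + y.2.1 0 5 * y.2.1 2 3)) * x.2.1 1 4 +
    (-(y.2.1 0 2 * y.2.1 3 4 - y.2.1 0 3 * y.2.1 2 4 + y.2.1 0 4 * y.2.1 2 3)) * x.2.1 1 5 +
    ((y.2.1 0 1 * y.2.1 4 5 - y.2.1 0 4 * y.2.1 1 5 + y.2.1 0 5 * y.2.1 1 4)) * x.2.1 2 3 +
    (-(y.2.1 0 1 * y.2.1 3 5 - y.2.1 0 3 * y.2.1 1 5 + y.2.1 0 5 * y.2.1 1 3)) * x.2.1 2 4 +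
    ((y.2.1 0 1 * y.2.1 3 4 - y.2.1 0 3 * y.2.1 1 4 + y.2.1 0 4 * y.2.1 1 3)) * x.2.1 2 5 +
    ((y.2.1 0 1 * y.2.1 2 5 - y.2.1 0 2 * y.2.1 1 5 + y.2.1 0 5 * y.2.1 1 2)) * x.2.1 3 4 +
    (-(y.2.1 0 1 * y.2.1 2 4 - y.2.1 0 2 * y.2.1 1 4 + y.2.1 0 4 * y.2.1 1 2)) * x.2.1 3 5 +
    ((y.2.1 0 1 * y.2.1 2 3 - y.2.1 0 2 * y.2.1 1 3 + y.2.1 0 3 * y.2.1 1 2)) * x.2.1 4 5 -
    ((y.2.1 0 1 * (y.1 0 * x.2.2 1 - y.1 1 * x.2.2 0)) +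
    (x.2.1 0 1 * (y.1 0 * y.2.2 1 - y.1 1 * y.2.2 0)) +
    (y.2.1 0 1 * (x.1 0 * y.2.2 1 - x.1 1 * y.2.2 0)) +
    (y.2.1 0 2 * (y.1 0 * x.2.2 2 - y.1 2 * x.2.2 0)) +
    (x.2.1 0 2 * (y.1 0 * y.2.2 2 - y.1 2 * y.2.2 0)) +
    (y.2.1 0 2 * (x.1 0 * y.2.2 2 - x.1 2 * y.2.2 0)) +
    (y.2.1 0 3 * (y.1 0 * x.2.2 3 - y.1 3 * x.2.2 0)) +
    (x.2.1 0 3 * (y.1 0 * y.2.2 3 - y.1 3 * y.2.2 0)) +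
    (y.2.1 0 3 * (x.1 0 * y.2.2 3 - x.1 3 * y.2.2 0)) +
    (y.2.1 0 4 * (y.1 0 * x.2.2 4 - y.1 4 * x.2.2 0)) +
    (x.2.1 0 4 * (y.1 0 * y.2.2 4 - y.1 4 * y.2.2 0)) +
    (y.2.1 0 4 * (x.1 0 * y.2.2 4 - x.1 4 * y.2.2 0)) +
    (y.2.1 0 5 * (y.1 0 * x.2.2 5 - y.1 5 * x.2.2 0)) +
    (x.2.1 0 5 * (y.1 0 * y.2.2 5 - y.1 5 * y.2.2 0)) +
    (y.2.1 0 5 * (x.1 0 * y.2.2 5 - x.1 5 * y.2.2 0)) +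
    (y.2.1 1 2 * (y.1 1 * x.2.2 2 - y.1 2 * x.2.2 1)) +
    (x.2.1 1 2 * (y.1 1 * y.2.2 2 - y.1 2 * y.2.2 1)) +
    (y.2.1 1 2 * (x.1 1 * y.2.2 2 - x.1 2 * y.2.2 1)) +
    (y.2.1 1 3 * (y.1 1 * x.2.2 3 - y.1 3 * x.2.2 1)) +
    (x.2.1 1 3 * (y.1 1 * y.2.2 3 - y.1 3 * y.2.2 1)) +
    (y.2.1 1 3 * (x.1 1 * y.2.2 3 - x.1 3 * y.2.2 1)) +
    (y.2.1 1 4 * (y.1 1 * x.2.2 4 - y.1 4 * x.2.2 1)) +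
    (x.2.1 1 4 * (y.1 1 * y.2.2 4 - y.1 4 * y.2.2 1)) +
    (y.2.1 1 4 * (x.1 1 * y.2.2 4 - x.1 4 * y.2.2 1)) +
    (y.2.1 1 5 * (y.1 1 * x.2.2 5 - y.1 5 * x.2.2 1)) +
    (x.2.1 1 5 * (y.1 1 * y.2.2 5 - y.1 5 * y.2.2 1)) +
    (y.2.1 1 5 * (x.1 1 * y.2.2 5 - x.1 5 * y.2.2 1)) +
    (y.2.1 2 3 * (y.1 2 * x.2.2 3 - y.1 3 * x.2.2 2)) +
    (x.2.1 2 3 * (y.1 2 * y.2.2 3 - y.1 3 * y.2.2 2)) +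
    (y.2.1 2 3 * (x.1 2 * y.2.2 3 - x.1 3 * y.2.2 2)) +
    (y.2.1 2 4 * (y.1 2 * x.2.2 4 - y.1 4 * x.2.2 2)) +
    (x.2.1 2 4 * (y.1 2 * y.2.2 4 - y.1 4 * y.2.2 2)) +
    (y.2.1 2 4 * (x.1 2 * y.2.2 4 - x.1 4 * y.2.2 2)) +
    (y.2.1 2 5 * (y.1 2 * x.2.2 5 - y.1 5 * x.2.2 2)) +
    (x.2.1 2 5 * (y.1 2 * y.2.2 5 - y.1 5 * y.2.2 2)) +
    (y.2.1 2 5 * (x.1 2 * y.2.2 5 - x.1 5 * y.2.2 2)) +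
    (y.2.1 3 4 * (y.1 3 * x.2.2 4 - y.1 4 * x.2.2 3)) +
    (x.2.1 3 4 * (y.1 3 * y.2.2 4 - y.1 4 * y.2.2 3)) +
    (y.2.1 3 4 * (x.1 3 * y.2.2 4 - x.1 4 * y.2.2 3)) +
    (y.2.1 3 5 * (y.1 3 * x.2.2 5 - y.1 5 * x.2.2 3)) +
    (x.2.1 3 5 * (y.1 3 * y.2.2 5 - y.1 5 * y.2.2 3)) +
    (y.2.1 3 5 * (x.1 3 * y.2.2 5 - x.1 5 * y.2.2 3)) +
    (y.2.1 4 5 * (y.1 4 * x.2.2 5 - y.1 5 * x.2.2 4)) +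
    (x.2.1 4 5 * (y.1 4 * y.2.2 5 - y.1 5 * y.2.2 4)) +
    (y.2.1 4 5 * (x.1 4 * y.2.2 5 - x.1 5 * y.2.2 4)))

theorem lin1_add (y x z : V K) : lin1 y (x + z) = lin1 y x + lin1 y z := by
  unfold lin1
  simp only [Prod.fst_add, Prod.snd_add, Matrix.add_apply, Pi.add_apply]
  ring

theorem Nd_add_white (x y : V K) (hx : White x) (hy : Alt y.2.1) :
    Nd (x + y) = Nd x + Nd y + lin1 y x := by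
  have h : WC x.2.1 x.1 x.2.2 := wc_of hx.1 hx
  rw [Nd_exp _ (alt_add hx.1 hy), Nd_exp _ hx.1, Nd_exp _ hy]
  unfold lin1
  simp only [Prod.fst_add, Prod.snd_add, Matrix.add_apply, Pi.add_apply]
  linear_combination y.2.1 0 1 * h.c01 + y.2.1 0 2 * h.c02 + y.2.1 0 3 * h.c03 + y.2.1 0 4 * h.c04 +
    y.2.1 0 5 * h.c05 + y.2.1 1 2 * h.c12 + y.2.1 1 3 * h.c13 + y.2.1 1 4 * h.c14 +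
    y.2.1 1 5 * h.c15 + y.2.1 2 3 * h.c23 + y.2.1 2 4 * h.c24 + y.2.1 2 5 * h.c25 +
    y.2.1 3 4 * h.c34 + y.2.1 3 5 * h.c35 + y.2.1 4 5 * h.c45 + y.2.2 0 * h.w0 +
    y.2.2 1 * h.w1 + y.2.2 2 * h.w2 + y.2.2 3 * h.w3 + y.2.2 4 * h.w4 + y.2.2 5 * h.w5 -
    y.1 0 * h.u0 - y.1 1 * h.u1 - y.1 2 * h.u2 - y.1 3 * h.u3 - y.1 4 * h.u4 - y.1 5 * h.u5

/-- The trilinear form vanishes on two vectors of a white subspace. -/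
theorem tri_white {p z y : V K} (hp : White p) (hz : White z) (hpz : White (p + z))
    (hy : Alt y.2.1) : tri p z y = 0 := by
  unfold tri
  rw [Nd_add_white _ _ hpz hy, Nd_add_white _ _ hz hy, Nd_add_white _ _ hp hy, lin1_add]
  ring

end

end SpreadPerm.EX.Tw
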