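import Pool.Agent.Lib.MP_e6ed9e_al.EX.TwDefs67

/-! # The row STAR2 -/

namespace SpreadPerm.EX.Tw

open Matrix SpreadPerm.EX

theorem compl97 {K : Type} [Field K] (a0 a1 a2 : K) (h : ¬ (a0 = 0 ∧ a1 = 0 ∧ a2 = 0)) :
    ∃ b0 b1 b2 d0 d1 d2 : K, a0 * (b1 * d2 - b2 * d1) - a1 * (b0 * d2 - b2 * d0) +
      a2 * (b0 * d1 - b1 * d0) ≠ 0 := by
  by_cases h0 : a0 = 0
  · by_cases h1 : a1 = 0
    · have h2 : a2 ≠ 0 := fun h2 => h ⟨h0, h1, h2⟩
      refine ⟨1, 0, 0, 0, 1, 0, ?_⟩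
      intro h3
      apply h2
      linear_combination h3
    · refine ⟨0, 0, 1, 1, 0, 0, ?_⟩
      intro h3
      apply h1
      linear_combination h3
  · refine ⟨0, 1, 0, 0, 0, 1, ?_⟩
    intro h3
    apply h0
    linear_combination h3

theorem star2_97 : StStar2 := by
  intro K _ σ c u hc hu _
  have hdot : ∀ x : Fin 6 → K, x ⬝ᵥ u =
      x 0 * u 0 + x 1 * u 1 + x 2 * u 2 + x 3 * u 3 + x 4 * u 4 + x 5 * u 5 := fun x => by
    simp only [dotProduct, Fin.sum_univ_six]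
  have b0 : bar σ u 0 = σ (u 1) := rfl
  have b1 : bar σ u 1 = σ (u 0) := rfl
  have b2 : bar σ u 2 = σ (u 3) := rfl
  have b3 : bar σ u 3 = σ (u 2) := rfl
  have b4 : bar σ u 4 = σ (u 5) := rfl
  have b5 : bar σ u 5 = σ (u 4) := rfl
  have hinj : ∀ a : K, σ a = 0 → a = 0 := fun a h => (map_eq_zero σ).1 h
  by_cases hO : u 1 = 0 ∧ u 3 = 0 ∧ u 5 = 0
  · obtain ⟨h1, h3, h5⟩ := hO
    have hE : ¬ (σ (u 0) = 0 ∧ σ (u 2) = 0 ∧ σ (u 4) = 0) := by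
      rintro ⟨h0, h2, h4⟩
      apply hu
      funext i
      fin_cases i
      · exact hinj _ h0
      · exact h1
      · exact hinj _ h2
      · exact h3
      · exact hinj _ h4
      · exact h5
    obtain ⟨p0, p1, p2, r0, r1, r2, hd⟩ := compl97 _ _ _ hE
    refine ⟨![0, p0, 0, p1, 0, p2], ![0, r0, 0, r1, 0, r2], ?_, ?_, ?_⟩
    · rw [hdot]
      simp [h1, h3, h5]
    · rw [hdot]
      simp [h1, h3, h5]
    · unfold det3
      rw [b0, b1, b2, b3, b4, b5, h1, h3, h5, map_zero]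
      simp only [Matrix.cons_val]
      intro h
      apply hd
      linear_combination h
  · have hE : ¬ (σ (u 1) = 0 ∧ σ (u 3) = 0 ∧ σ (u 5) = 0) := by
      rintro ⟨h0, h2, h4⟩
      exact hO ⟨hinj _ h0, hinj _ h2, hinj _ h4⟩
    obtain ⟨p0, p1, p2, r0, r1, r2, hd⟩ := compl97 _ _ _ hE
    obtain ⟨w0, w1, w2, hw⟩ : ∃ w0 w1 w2 : K, w0 * u 1 + w1 * u 3 + w2 * u 5 = 1 := by
      by_cases h1 : u 1 = 0
      · by_cases h3 : u 3 = 0
        · have h5 : u 5 ≠ 0 := fun h => hO ⟨h1, h3, h⟩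
          exact ⟨0, 0, (u 5)⁻¹, by rw [inv_mul_cancel₀ h5]; ring⟩
        · exact ⟨0, (u 3)⁻¹, 0, by rw [inv_mul_cancel₀ h3]; ring⟩
      · exact ⟨(u 1)⁻¹, 0, 0, by rw [inv_mul_cancel₀ h1]; ring⟩
    obtain ⟨a, ha⟩ : ∃ a : K, a = -(p0 * u 0 + p1 * u 2 + p2 * u 4) := ⟨_, rfl⟩
    obtain ⟨b, hb⟩ : ∃ b : K, b = -(r0 * u 0 + r1 * u 2 + r2 * u 4) := ⟨_, rfl⟩
    refine ⟨![p0, a * w0, p1, a * w1, p2, a * w2], ![r0, b * w0, r1, b * w1, r2, b * w2],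
      ?_, ?_, ?_⟩
    · rw [hdot]
      simp only [Matrix.cons_val]
      linear_combination a * hw + ha
    · rw [hdot]
      simp only [Matrix.cons_val]
      linear_combination b * hw + hb
    · unfold det3
      rw [b0, b1, b2, b3, b4, b5]
      simp only [Matrix.cons_val]
      have h : c * (σ (u 1) * (p1 * r2 - p2 * r1) - σ (u 3) * (p0 * r2 - p2 * r0) +
          σ (u 5) * (p0 * r1 - p1 * r0)) ≠ 0 := mul_ne_zero hc hd
      intro h'
      apply h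
      linear_combination h'

end SpreadPerm.EX.Tw
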