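import Pool.Agent.Lib.MP_e6ed9e_al.EX.TwLin67
import Pool.Agent.Lib.MP_e6ed9e_al.EX.TwGd0_67
import Pool.Agent.Lib.MP_e6ed9e_al.EX.TwGd1_67
import Pool.Agent.Lib.MP_e6ed9e_al.EX.TwGd2_67
import Pool.Agent.Lib.MP_e6ed9e_al.EX.TwGd3_67
import Pool.Agent.Lib.MP_e6ed9e_al.EX.TwStar97

/-! # Long root groups of `2E_6(q)`: the theorem -/

namespace SpreadPerm.EX.Tw

open Matrix Finset SpreadPerm.EX
open scoped Classical

noncomputable section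

variable {K : Type} [Field K]

theorem realL_good (σ : K →+* K) (hσ : ∀ t, σ (σ t) = t) (t : Fin 6 → Fin 6 → Fin 6 → K) :
    GoodU σ (realL σ t) := by
  unfold realL
  iterate 19 refine goodU_add ?_ ?_
  · exact good012 σ hσ _
  · exact good013 σ hσ _
  · exact good014 σ hσ _
  · exact good015 σ hσ _
  · exact good023 σ hσ _
  · exact good024 σ hσ _
  · exact good025 σ hσ _
  · exact good034 σ hσ _
  · exact good035 σ hσ _
  · exact good045 σ hσ _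
  · exact good123 σ hσ _
  · exact good124 σ hσ _
  · exact good125 σ hσ _
  · exact good134 σ hσ _
  · exact good135 σ hσ _
  · exact good145 σ hσ _
  · exact good234 σ hσ _
  · exact good235 σ hσ _
  · exact good245 σ hσ _
  · exact good345 σ hσ _

/-- Opposite subspaces project onto all of `K^6`. -/
theorem opp_surj {W : Submodule K (V K)} (hd : Module.finrank K W = 6) (hW : Opp W)
    (a : Fin 6 → K) : ∃ z ∈ W, z.2.2 = a := by
  let f : W →ₗ[K] (Fin 6 → K) :=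
    ((LinearMap.snd K (Matrix (Fin 6) (Fin 6) K) (Fin 6 → K)) ∘ₗ
      (LinearMap.snd K (Fin 6 → K) (Matrix (Fin 6) (Fin 6) K × (Fin 6 → K)))) ∘ₗ W.subtype
  have hf : Function.Injective f := by
    rw [← LinearMap.ker_eq_bot, LinearMap.ker_eq_bot']
    intro x hx
    exact Subtype.ext (hW x.1 x.2 hx)
  have : FiniteDimensional K W := FiniteDimensional.of_finrank_pos (by omega)
  have hs : Function.Surjective f :=
    (LinearMap.injective_iff_surjective_of_finrank_eq_finrank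
      (by rw [hd, Module.finrank_fin_fun])).1 hf
  obtain ⟨x, hx⟩ := hs a
  exact ⟨x.1, x.2, hx⟩

theorem ev_pol_p (σ : K →+* K) (p : V K) (t : K) (a : Fin 6 → K) (z : V K) :
    ev (pol σ (t • a + p.1, p.2.1, p.2.2)) z = ev (pol σ p) z + σ t * (bar σ a ⬝ᵥ z.2.2) := by
  rw [add_comm (t • a) p.1]
  exact ev_pol_shift σ p z t a

/-- The parameter of the centre is skew. -/
theorem tau_skew {σ : K →+* K} {W : Submodule K (V K)} (hW : W ∈ LR2 σ) (hO : Opp W) {p : V K}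
    (hpW : p ∈ W) (hu : p.2.2 ≠ 0) (τ : K) (hA : Abs σ (τ • p.2.2 + p.1, p.2.1, p.2.2)) :
    τ + σ τ = 0 := by
  obtain ⟨i, hi⟩ := Function.ne_iff.1 hu
  have hi' : p.2.2 i ≠ 0 := hi
  have hss : ∀ j : Fin 6, sw (sw j) = j := by decide
  obtain ⟨z, hzW, hz⟩ := opp_surj hW.1 hO (Pi.single (sw i) 1)
  obtain ⟨-, -, y, hy, hyz⟩ := hA
  have hpw := (hW.2.1 p hpW).1
  have hzw := (hW.2.1 z hzW).1
  have hpz := (hW.2.1 _ (W.add_mem hpW hzW)).1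
  have hb : bar σ p.2.2 ⬝ᵥ z.2.2 = σ (p.2.2 i) := by
    rw [hz, dotProduct_single, mul_one]
    show σ (p.2.2 (sw (sw i))) = σ (p.2.2 i)
    rw [hss]
  -- first equation
  have h1 := hyz z hzw.1
  have hev : ev (pol σ p) z = 0 := (hW.2.1 z hzW).2.2 p hpW
  have htri : tri p y z = 0 := by
    rw [tri_swap]
    exact tri_white hpw hzw hpz hy
  rw [tri_shift, htri, ev_pol_p, hev, hb, zero_add, zero_sub] at h1
  -- second equation
  have h2 := hyz (z.2.2, 0, 0) ⟨fun _ => rfl, fun _ _ => by simp⟩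
  rw [ev_pol_w] at h2
  have h3 : bar σ ((τ • p.2.2 + p.1, p.2.1, p.2.2) : V K).2.2 ⬝ᵥ z.2.2 = σ (p.2.2 i) := hb
  rw [h3, tri_rot, tri_w] at h2
  -- h2 : -(z.2.2 ⬝ᵥ (p'.2.1 *ᵥ y.2.2 + y.2.1 *ᵥ p'.2.2)) = σ (p i)
  have h2' : -(z.2.2 ⬝ᵥ (p.2.1 *ᵥ y.2.2 + y.2.1 *ᵥ p.2.2)) = σ (p.2.2 i) := h2
  -- polarization of b u = 0
  have h4 : p.2.1 *ᵥ z.2.2 + z.2.1 *ᵥ p.2.2 = 0 := by
    have h5 : (p.2.1 + z.2.1) *ᵥ (p.2.2 + z.2.2) = 0 := hpz.2.2.1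
    rw [add_mulVec, mulVec_add, mulVec_add, hpw.2.2.1, hzw.2.2.1] at h5
    rw [zero_add, add_zero] at h5
    exact h5
  -- transposition
  have halt : ∀ (b : Matrix (Fin 6) (Fin 6) K) (v v' : Fin 6 → K), Alt b →
      v ⬝ᵥ (b *ᵥ v') = -(v' ⬝ᵥ (b *ᵥ v)) := by
    intro b v v' hb
    have h6 : bᵀ = -b := by
      ext j k
      exact hb.2 k j
    rw [dotProduct_mulVec, ← mulVec_transpose, h6, neg_mulVec, neg_dotProduct, dotProduct_comm]
  have h7 : p.2.2 ⬝ᵥ (y.2.1 *ᵥ z.2.2 + z.2.1 *ᵥ y.2.2) =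
      -(z.2.2 ⬝ᵥ (p.2.1 *ᵥ y.2.2 + y.2.1 *ᵥ p.2.2)) := by
    rw [dotProduct_add, dotProduct_add, halt y.2.1 _ _ hy, halt z.2.1 p.2.2 y.2.2 hzw.1,
      halt p.2.1 z.2.2 y.2.2 hpw.1]
    have h8 : y.2.2 ⬝ᵥ (p.2.1 *ᵥ z.2.2) + y.2.2 ⬝ᵥ (z.2.1 *ᵥ p.2.2) = 0 := by
      rw [← dotProduct_add, h4, dotProduct_zero]
    linear_combination -h8
  rw [smul_dotProduct, smul_eq_mul, h7, h2'] at h1
  have h9 : σ (p.2.2 i) ≠ 0 := (map_ne_zero σ).2 hi'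
  have h10 : (τ + σ τ) * σ (p.2.2 i) = 0 := by linear_combination -h1
  exact (mul_eq_zero.1 h10).resolve_right h9

/-- A good map can be chosen to fix an absolute point. -/
theorem goodU_fix {σ : K →+* K} {n : (Fin 6 → K) →ₗ[K] Matrix (Fin 6) (Fin 6) K}
    (hn : GoodU σ n) {W : Submodule K (V K)} (hW : W ∈ LR2 σ) (hO : Opp W) {p : V K}
    (hpW : p ∈ W) (hu : p.2.2 ≠ 0) (hA : Abs σ p) (h0 : n p.2.2 = 0) :
    ∃ (κ : Matrix (Fin 6) (Fin 6) K →ₗ[K] (Fin 6 → K)) (μ : (Fin 6 → K) →ₗ[K] (Fin 6 → K)),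
    (∀ u, Alt (n u)) ∧ (∀ x, White x → White (Tr κ μ n x)) ∧
    (∀ x : V K, Alt x.2.1 → Nd (Tr κ μ n x) = Nd x) ∧
    (∀ x y : V K, Alt x.2.1 → Alt y.2.1 →
      ev (pol σ (Tr κ μ n y)) (Tr κ μ n x) = ev (pol σ y) x) ∧ Tr κ μ n p = p := by
  obtain ⟨κ, μ, h1, h2, h3, h4⟩ := hn
  have hA' := abs_Tr h1 h2 h3 h4 hA
  have hp' : Tr κ μ n p = (p.1 + κ p.2.1 + μ p.2.2, p.2.1, p.2.2) := by
    refine Prod.ext rfl (Prod.ext ?_ rfl)
    show p.2.1 + n p.2.2 = p.2.1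
    rw [h0, add_zero]
  have hw' := hA'.2.1
  rw [hp'] at hw' hA'
  obtain ⟨t, ht⟩ := white_unique p.1 _ p.2.1 p.2.2 hA.2.1 hw' hu
  rw [ht, add_comm p.1] at hA'
  have hs := tau_skew hW hO hpW hu t hA'
  have key : ∀ x : V K, Tr κ (μ + (-t) • (LinearMap.id : (Fin 6 → K) →ₗ[K] (Fin 6 → K))) n x =
      ((Tr κ μ n x).1 + (-t) • (Tr κ μ n x).2.2, (Tr κ μ n x).2.1, (Tr κ μ n x).2.2) := by
    intro x
    refine Prod.ext ?_ rfl
    show x.1 + κ x.2.1 + (μ x.2.2 + (-t) • x.2.2) = x.1 + κ x.2.1 + μ x.2.2 + (-t) • x.2.2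
    rw [add_assoc (x.1 + κ x.2.1)]
  refine ⟨κ, μ + (-t) • (LinearMap.id : (Fin 6 → K) →ₗ[K] (Fin 6 → K)), h1, fun x hx => ?_,
    fun x hx => ?_, fun x y hx hy => ?_, ?_⟩
  · rw [key]
    exact white_shift (-t) _ (h2 x hx)
  · rw [key, add_comm, Nd_shift, h3 x hx]
    have halt : (Tr κ μ n x).2.2 ⬝ᵥ ((Tr κ μ n x).2.1 *ᵥ (Tr κ μ n x).2.2) = 0 := by
      have hb := alt_Tr κ μ h1 hx
      rw [Root67.dp_apply, Root67.mv_apply, Root67.mv_apply, Root67.mv_apply, Root67.mv_apply,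
        Root67.mv_apply, Root67.mv_apply, hb.1 0, hb.1 1, hb.1 2, hb.1 3, hb.1 4, hb.1 5,
        hb.2 1 0, hb.2 2 0, hb.2 3 0, hb.2 4 0, hb.2 5 0, hb.2 2 1, hb.2 3 1, hb.2 4 1, hb.2 5 1,
        hb.2 3 2, hb.2 4 2, hb.2 5 2, hb.2 4 3, hb.2 5 3, hb.2 5 4]
      ring
    rw [smul_dotProduct, halt, smul_zero, sub_zero]
  · rw [key, key, ev_pol_shift]
    have e1 : ((Tr κ μ n x).1 + (-t) • (Tr κ μ n x).2.2, (Tr κ μ n x).2.1, (Tr κ μ n x).2.2) =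
        Tr κ μ n x + ((-t) • (Tr κ μ n x).2.2, 0, 0) := by
      refine Prod.ext rfl (Prod.ext ?_ ?_)
      · show (Tr κ μ n x).2.1 = (Tr κ μ n x).2.1 + 0
        rw [add_zero]
      · show (Tr κ μ n x).2.2 = (Tr κ μ n x).2.2 + 0
        rw [add_zero]
    have e2 : ∀ l a b : V K, ev l (a + b) = ev l a + ev l b := by
      intro l a b
      unfold ev
      show l.1 ⬝ᵥ (a.1 + b.1) + pair l.2.1 (a.2.1 + b.2.1) + l.2.2 ⬝ᵥ (a.2.2 + b.2.2) = _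
      have e3 : pair l.2.1 (a.2.1 + b.2.1) = pair l.2.1 a.2.1 + pair l.2.1 b.2.1 := by
        unfold pair
        rw [← Finset.sum_add_distrib]
        refine Finset.sum_congr rfl fun i _ => ?_
        rw [← Finset.sum_add_distrib]
        refine Finset.sum_congr rfl fun j _ => ?_
        split_ifs
        · rw [Matrix.add_apply, mul_add]
        · rw [add_zero]
      rw [dotProduct_add, dotProduct_add, e3]
      ring
    rw [e1, e2, ev_pol_w, h4 x y hx hy]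
    have e4 : (Tr κ μ n x + ((-t) • (Tr κ μ n x).2.2, 0, 0) : V K).2.2 = (Tr κ μ n x).2.2 := by
      show (Tr κ μ n x).2.2 + 0 = (Tr κ μ n x).2.2
      rw [add_zero]
    rw [e4, dotProduct_smul, smul_eq_mul, map_neg]
    linear_combination -(bar σ (Tr κ μ n y).2.2 ⬝ᵥ (Tr κ μ n x).2.2) * hs
  · rw [key, hp']
    refine Prod.ext ?_ rfl
    show p.1 + κ p.2.1 + μ p.2.2 + (-t) • p.2.2 = p.1
    rw [ht, neg_smul, add_neg_cancel_right]

end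

end SpreadPerm.EX.Tw
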