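import Pool.Agent.Lib.MP_e6ed9e_al.EX.TwExp67
import Pool.Agent.Lib.MP_e6ed9e_al.EX.StarMain67

/-! # Long root groups of `2E_6(q)`: unitary unipotent maps and absolute points -/

namespace SpreadPerm.EX.Tw

open Matrix Finset SpreadPerm.EX
open scoped Classical

noncomputable section

variable {K : Type} [Field K]

theorem ev_pol_w (σ : K →+* K) (p : V K) (a : Fin 6 → K) :
    ev (pol σ p) (a, 0, 0) = bar σ p.2.2 ⬝ᵥ a := by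
  unfold ev
  show (pol σ p).1 ⬝ᵥ a + pair (pol σ p).2.1 0 + (pol σ p).2.2 ⬝ᵥ (0 : Fin 6 → K) = _
  have h : pair (pol σ p).2.1 (0 : Matrix (Fin 6) (Fin 6) K) = 0 := by
    unfold pair
    simp
  rw [h, dotProduct_zero, add_zero, add_zero]
  rfl

theorem ev_pol_shift (σ : K →+* K) (p z : V K) (t : K) (a : Fin 6 → K) :
    ev (pol σ (p.1 + t • a, p.2.1, p.2.2)) z = ev (pol σ p) z + σ t * (bar σ a ⬝ᵥ z.2.2) := by
  unfold ev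
  show (pol σ p).1 ⬝ᵥ z.1 + pair (pol σ p).2.1 z.2.1 +
    (fun i => σ ((p.1 + t • a) (sw i))) ⬝ᵥ z.2.2 = _
  have h : (fun i => σ ((p.1 + t • a) (sw i))) = (pol σ p).2.2 + σ t • bar σ a := by
    funext i
    show σ (p.1 (sw i) + t * a (sw i)) = σ (p.1 (sw i)) + σ t * σ (a (sw i))
    rw [map_add, map_mul]
  rw [h, add_dotProduct, smul_dotProduct, smul_eq_mul]
  ring

/-- Linearity of the cubic form in the first component. -/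
theorem Nd_shift (x : V K) (a : Fin 6 → K) :
    Nd (a + x.1, x.2.1, x.2.2) = Nd x - a ⬝ᵥ (x.2.1 *ᵥ x.2.2) := by
  unfold Nd
  rw [add_dotProduct]
  ring

theorem tri_shift (p y z : V K) (a : Fin 6 → K) :
    tri (a + p.1, p.2.1, p.2.2) y z = tri p y z -
      a ⬝ᵥ (y.2.1 *ᵥ z.2.2 + z.2.1 *ᵥ y.2.2) := by
  unfold tri
  have h1 : ((a + p.1, p.2.1, p.2.2) : V K) + y + z =
      (a + (p + y + z).1, (p + y + z).2.1, (p + y + z).2.2) := by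
    refine Prod.ext ?_ rfl
    show a + p.1 + y.1 + z.1 = a + (p.1 + y.1 + z.1)
    abel
  have h2 : ((a + p.1, p.2.1, p.2.2) : V K) + y = (a + (p + y).1, (p + y).2.1, (p + y).2.2) := by
    refine Prod.ext ?_ rfl
    show a + p.1 + y.1 = a + (p.1 + y.1)
    abel
  have h3 : ((a + p.1, p.2.1, p.2.2) : V K) + z = (a + (p + z).1, (p + z).2.1, (p + z).2.2) := by
    refine Prod.ext ?_ rfl
    show a + p.1 + z.1 = a + (p.1 + z.1)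
    abel
  rw [h1, h2, h3, Nd_shift, Nd_shift, Nd_shift, Nd_shift]
  have e1 : (p + y + z).2.1 *ᵥ (p + y + z).2.2 =
      p.2.1 *ᵥ p.2.2 + p.2.1 *ᵥ y.2.2 + p.2.1 *ᵥ z.2.2 + (y.2.1 *ᵥ p.2.2 + y.2.1 *ᵥ y.2.2 +
      y.2.1 *ᵥ z.2.2) + (z.2.1 *ᵥ p.2.2 + z.2.1 *ᵥ y.2.2 + z.2.1 *ᵥ z.2.2) := by
    show (p.2.1 + y.2.1 + z.2.1) *ᵥ (p.2.2 + y.2.2 + z.2.2) = _
    rw [add_mulVec, add_mulVec, mulVec_add, mulVec_add, mulVec_add, mulVec_add, mulVec_add,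
      mulVec_add]
  have e2 : (p + y).2.1 *ᵥ (p + y).2.2 =
      p.2.1 *ᵥ p.2.2 + p.2.1 *ᵥ y.2.2 + (y.2.1 *ᵥ p.2.2 + y.2.1 *ᵥ y.2.2) := by
    show (p.2.1 + y.2.1) *ᵥ (p.2.2 + y.2.2) = _
    rw [add_mulVec, mulVec_add, mulVec_add]
  have e3 : (p + z).2.1 *ᵥ (p + z).2.2 =
      p.2.1 *ᵥ p.2.2 + p.2.1 *ᵥ z.2.2 + (z.2.1 *ᵥ p.2.2 + z.2.1 *ᵥ z.2.2) := by
    show (p.2.1 + z.2.1) *ᵥ (p.2.2 + z.2.2) = _
    rw [add_mulVec, mulVec_add, mulVec_add]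
  rw [e1, e2, e3]
  simp only [dotProduct_add]
  ring

theorem Nd_w (a : Fin 6 → K) : Nd ((a, 0, 0) : V K) = 0 := by
  unfold Nd
  show Pf (0 : Matrix (Fin 6) (Fin 6) K) - a ⬝ᵥ ((0 : Matrix (Fin 6) (Fin 6) K) *ᵥ 0) = 0
  rw [zero_mulVec, dotProduct_zero]
  simp [Pf, pf]

theorem Nd_zero : Nd (0 : V K) = 0 := Nd_w 0

theorem tri_w (a : Fin 6 → K) (y z : V K) :
    tri (a, 0, 0) y z = -(a ⬝ᵥ (y.2.1 *ᵥ z.2.2 + z.2.1 *ᵥ y.2.2)) := by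
  have h := tri_shift (0 : V K) y z a
  have h0 : tri (0 : V K) y z = 0 := by
    unfold tri
    rw [zero_add, zero_add, Nd_zero]
    ring
  have h1 : ((a + (0 : V K).1, (0 : V K).2.1, (0 : V K).2.2) : V K) = (a, 0, 0) := by
    refine Prod.ext ?_ rfl
    show a + 0 = a
    rw [add_zero]
  rw [h1, h0, zero_sub] at h
  exact h

theorem tri_swap (x y z : V K) : tri x y z = tri x z y := by
  unfold tri
  rw [add_right_comm x y z, add_comm y z]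
  ring

theorem tri_rot (x y z : V K) : tri x y z = tri z x y := by
  unfold tri
  rw [show z + x + y = x + y + z by abel, add_comm z x, add_comm y z]
  ring

/-- Transport of the trilinear form. -/
theorem tri_Tr {κ : Matrix (Fin 6) (Fin 6) K →ₗ[K] (Fin 6 → K)}
    {μ : (Fin 6 → K) →ₗ[K] (Fin 6 → K)} {n : (Fin 6 → K) →ₗ[K] Matrix (Fin 6) (Fin 6) K}
    (hN : ∀ x : V K, Alt x.2.1 → Nd (Tr κ μ n x) = Nd x) {x y z : V K} (hx : Alt x.2.1)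
    (hy : Alt y.2.1) (hz : Alt z.2.1) :
    tri (Tr κ μ n x) (Tr κ μ n y) (Tr κ μ n z) = tri x y z := by
  unfold tri
  rw [← map_add, ← map_add, ← map_add, ← map_add, hN _ (alt_add (alt_add hx hy) hz),
    hN _ (alt_add hx hy), hN _ (alt_add hy hz), hN _ (alt_add hx hz), hN _ hx, hN _ hy, hN _ hz]

/-- The inverse on vectors. -/
theorem Tr_surj (κ : Matrix (Fin 6) (Fin 6) K →ₗ[K] (Fin 6 → K))
    (μ : (Fin 6 → K) →ₗ[K] (Fin 6 → K)) {n : (Fin 6 → K) →ₗ[K] Matrix (Fin 6) (Fin 6) K}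
    (hn : ∀ u, Alt (n u)) (y : V K) (hy : Alt y.2.1) : ∃ x : V K, Alt x.2.1 ∧ Tr κ μ n x = y := by
  have h0 : Alt (y.2.1 - n y.2.2) := by
    have h := alt_add hy (alt_smul' (-1) (hn y.2.2))
    rwa [neg_one_smul, ← sub_eq_add_neg] at h
  refine ⟨(y.1 - κ (y.2.1 - n y.2.2) - μ y.2.2, y.2.1 - n y.2.2, y.2.2), h0, ?_⟩
  refine Prod.ext ?_ (Prod.ext ?_ rfl)
  · show y.1 - κ (y.2.1 - n y.2.2) - μ y.2.2 + κ (y.2.1 - n y.2.2) + μ y.2.2 = y.1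
    abel
  · show y.2.1 - n y.2.2 + n y.2.2 = y.2.1
    abel

theorem goodU_add {σ : K →+* K} {n m : (Fin 6 → K) →ₗ[K] Matrix (Fin 6) (Fin 6) K}
    (hn : GoodU σ n) (hm : GoodU σ m) : GoodU σ (n + m) := by
  obtain ⟨κ, μ, h1, h2, h3, h4⟩ := hn
  obtain ⟨κ', μ', h1', h2', h3', h4'⟩ := hm
  have key : ∀ x : V K, Tr (κ + κ') (μ + μ' + κ' ∘ₗ n) (n + m) x = Tr κ' μ' m (Tr κ μ n x) := by
    intro x
    refine Prod.ext ?_ (Prod.ext ?_ rfl)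
    · show x.1 + (κ + κ') x.2.1 + (μ + μ' + κ' ∘ₗ n) x.2.2 =
        x.1 + κ x.2.1 + μ x.2.2 + κ' (x.2.1 + n x.2.2) + μ' x.2.2
      simp only [map_add, LinearMap.add_apply, LinearMap.comp_apply]
      abel
    · show x.2.1 + (n + m) x.2.2 = x.2.1 + n x.2.2 + m x.2.2
      rw [LinearMap.add_apply, add_assoc]
  refine ⟨κ + κ', μ + μ' + κ' ∘ₗ n, fun u => ?_, fun x hx => ?_, fun x hx => ?_,
    fun x y hx hy => ?_⟩
  · rw [LinearMap.add_apply]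
    exact alt_add (h1 u) (h1' u)
  · rw [key]
    exact h2' _ (h2 x hx)
  · rw [key]
    exact (h3' _ (alt_Tr _ _ h1 hx)).trans (h3 x hx)
  · rw [key, key]
    exact (h4' _ _ (alt_Tr _ _ h1 hx) (alt_Tr _ _ h1 hy)).trans (h4 x y hx hy)

/-- Absolute points are mapped to absolute points. -/
theorem abs_Tr {σ : K →+* K} {κ : Matrix (Fin 6) (Fin 6) K →ₗ[K] (Fin 6 → K)}
    {μ : (Fin 6 → K) →ₗ[K] (Fin 6 → K)} {n : (Fin 6 → K) →ₗ[K] Matrix (Fin 6) (Fin 6) K}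
    (h1 : ∀ u, Alt (n u)) (h2 : ∀ x, White x → White (Tr κ μ n x))
    (h3 : ∀ x : V K, Alt x.2.1 → Nd (Tr κ μ n x) = Nd x)
    (h4 : ∀ x y : V K, Alt x.2.1 → Alt y.2.1 →
      ev (pol σ (Tr κ μ n y)) (Tr κ μ n x) = ev (pol σ y) x) {p : V K} (hp : Abs σ p) :
    Abs σ (Tr κ μ n p) := by
  obtain ⟨hp0, hpw, y, hy, hyz⟩ := hp
  refine ⟨fun h => hp0 (Tr_inj κ μ n (h.trans (map_zero _).symm)), h2 p hpw, Tr κ μ n y,
    alt_Tr _ _ h1 hy, fun z hz => ?_⟩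
  obtain ⟨z', hz', rfl⟩ := Tr_surj κ μ h1 z hz
  rw [tri_Tr h3 hpw.1 hy hz', h4 z' p hz' hpw.1]
  exact hyz z' hz'

/-- Subspaces are mapped to subspaces. -/
theorem lr2_Tr {σ : K →+* K} {κ : Matrix (Fin 6) (Fin 6) K →ₗ[K] (Fin 6 → K)}
    {μ : (Fin 6 → K) →ₗ[K] (Fin 6 → K)} {n : (Fin 6 → K) →ₗ[K] Matrix (Fin 6) (Fin 6) K}
    (h1 : ∀ u, Alt (n u)) (h2 : ∀ x, White x → White (Tr κ μ n x))
    (h3 : ∀ x : V K, Alt x.2.1 → Nd (Tr κ μ n x) = Nd x)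
    (h4 : ∀ x y : V K, Alt x.2.1 → Alt y.2.1 →
      ev (pol σ (Tr κ μ n y)) (Tr κ μ n x) = ev (pol σ y) x) {W : Submodule K (V K)}
    (hW : W ∈ LR2 σ) : W.map (Tr κ μ n) ∈ LR2 σ := by
  obtain ⟨hd, hw, ht⟩ := hW
  have hperp : ∀ y : V K, Perp σ (W.map (Tr κ μ n)) y → ∃ y', Perp σ W y' ∧ Tr κ μ n y' = y := by
    intro y hy
    obtain ⟨y', hy', rfl⟩ := Tr_surj κ μ h1 y hy.1
    refine ⟨y', ⟨hy', fun x hx => ?_⟩, rfl⟩
    rw [← h4 y' x hy' (hw x hx).1.1]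
    exact hy.2 _ ⟨x, hx, rfl⟩
  refine ⟨(Submodule.equivMapOfInjective (Tr κ μ n) (Tr_inj κ μ n) W).finrank_eq.symm.trans hd,
    ?_, ?_⟩
  · rintro _ ⟨x, hx, rfl⟩
    refine ⟨h2 x (hw x hx).1, alt_Tr _ _ h1 (hw x hx).1.1, ?_⟩
    rintro _ ⟨y, hy, rfl⟩
    rw [h4 x y (hw x hx).1.1 (hw y hy).1.1]
    exact (hw x hx).2.2 y hy
  · rintro _ ⟨x, hx, rfl⟩ y z hy hz
    obtain ⟨y', hy', rfl⟩ := hperp y hy
    obtain ⟨z', hz', rfl⟩ := hperp z hz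
    rw [tri_Tr h3 (hw x hx).1.1 hy'.1 hz'.1]
    exact ht x hx y' z' hy' hz'

end

end SpreadPerm.EX.Tw
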