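import Pool.Agent.Lib.MP_e6ed9e_al.EX.TwFin67

/-! # Long root groups of `2E_6(q)`: the theorem -/

namespace SpreadPerm.EX.Tw

open Matrix Finset SpreadPerm.EX
open scoped Classical

noncomputable section

variable {K : Type} [Field K] [Fintype K]

/-- The point `(0, 0, e_0)` is absolute. -/
theorem abs_p0 (σ : K →+* K) : Abs σ ((0, 0, Pi.single 0 1) : V K) := by
  have hb : (wedge (Pi.single 0 1) (Pi.single 1 1) : Matrix (Fin 6) (Fin 6) K) *ᵥ
      (Pi.single 0 1) = -Pi.single 1 1 := by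
    funext i
    rw [Root67.mv_apply]
    simp only [wedge_apply, Pi.neg_apply]
    simp
  refine ⟨fun h => single_ne 0 (congrArg (fun y : V K => y.2.2) h), white_u pf0_16 _,
    (0, wedge (Pi.single 0 1) (Pi.single 1 1), 0), wedge_alt _ _, fun z hz => ?_⟩
  obtain ⟨w, b, u⟩ := z
  have h1 : ev (pol σ ((0, 0, Pi.single 0 1) : V K)) (w, b, u) = w 1 := by
    unfold ev
    have h3 : (pol σ ((0, 0, Pi.single 0 1) : V K)).1 = Pi.single 1 1 := by
      funext j
      show σ ((Pi.single 0 1 : Fin 6 → K) (sw j)) = (Pi.single 1 1 : Fin 6 → K) j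
      fin_cases j <;> simp [sw]
    have h4 : (pol σ ((0, 0, Pi.single 0 1) : V K)).2.1 = 0 := by
      funext j k
      exact map_zero σ
    have h5 : (pol σ ((0, 0, Pi.single 0 1) : V K)).2.2 = 0 := by
      funext j
      exact map_zero σ
    rw [h3, h4, h5, single_one_dotProduct, pair_zero_left, zero_dotProduct]
    ring
  rw [h1, tri_rot]
  have h2 : ((w, b, u) : V K) = (w + ((0, b, u) : V K).1, ((0, b, u) : V K).2.1,
      ((0, b, u) : V K).2.2) := by
    refine Prod.ext ?_ rfl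
    show w = w + 0
    rw [add_zero]
  rw [h2, tri_shift]
  have h3 : tri ((0, b, u) : V K) (0, 0, Pi.single 0 1)
      (0, wedge (Pi.single 0 1) (Pi.single 1 1), 0) = 0 := by
    unfold tri
    have e1 : ((0, b, u) : V K) + (0, 0, Pi.single 0 1) +
        (0, wedge (Pi.single 0 1) (Pi.single 1 1), 0) =
        (0, b + wedge (Pi.single 0 1) (Pi.single 1 1), u + Pi.single 0 1 + 0) := by
      refine Prod.ext ?_ (Prod.ext ?_ rfl)
      · show (0 : Fin 6 → K) + 0 + 0 = 0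
        simp
      · show b + 0 + _ = b + _
        rw [add_zero]
    have e2 : ((0, b, u) : V K) + (0, 0, Pi.single 0 1) = (0, b, u + Pi.single 0 1) := by
      refine Prod.ext ?_ (Prod.ext ?_ rfl)
      · show (0 : Fin 6 → K) + 0 = 0
        simp
      · show b + 0 = b
        rw [add_zero]
    have e3 : ((0, 0, Pi.single 0 1) : V K) + (0, wedge (Pi.single 0 1) (Pi.single 1 1), 0) =
        (0, wedge (Pi.single 0 1) (Pi.single 1 1), Pi.single 0 1 + 0) := by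
      refine Prod.ext ?_ (Prod.ext ?_ rfl)
      · show (0 : Fin 6 → K) + 0 = 0
        simp
      · show (0 : Matrix (Fin 6) (Fin 6) K) + _ = _
        rw [zero_add]
    have e4 : ((0, b, u) : V K) + (0, wedge (Pi.single 0 1) (Pi.single 1 1), 0) =
        (0, b + wedge (Pi.single 0 1) (Pi.single 1 1), u + 0) := by
      refine Prod.ext ?_ rfl
      show (0 : Fin 6 → K) + 0 = 0
      simp
    rw [e1, e2, e3, e4, Nd_b, Nd_b, Nd_b, Nd_b, Nd_b, Nd_b, Nd_b]
    have h0 : Pf (0 : Matrix (Fin 6) (Fin 6) K) = 0 := by simp [Pf, pf]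
    rw [h0]
    ring
  rw [h3]
  show 0 - w ⬝ᵥ ((0 : Matrix (Fin 6) (Fin 6) K) *ᵥ (0 : Fin 6 → K) +
    (wedge (Pi.single 0 1) (Pi.single 1 1) : Matrix (Fin 6) (Fin 6) K) *ᵥ (Pi.single 0 1)) = w 1
  rw [hb, zero_mulVec, zero_add, dotProduct_neg, dotProduct_single, mul_one]
  ring

theorem W0_valC (c s : K) : ValC c (W0 : Submodule K (V K)) s ↔ s = 0 := by
  constructor
  · rintro ⟨x, hx, y, hy, -, -, h⟩
    obtain ⟨u, rfl⟩ := (mem_W0 x).1 hx
    obtain ⟨v, rfl⟩ := (mem_W0 y).1 hy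
    rw [← h]
    show c * (0 : Matrix (Fin 6) (Fin 6) K) 2 4 + (0 : Matrix (Fin 6) (Fin 6) K) 3 5 = 0
    simp
  · rintro rfl
    refine ⟨(0, 0, Pi.single 0 1), (mem_W0 _).2 ⟨_, rfl⟩, (0, 0, Pi.single 1 1),
      (mem_W0 _).2 ⟨_, rfl⟩, rfl, rfl, ?_⟩
    show c * (0 : Matrix (Fin 6) (Fin 6) K) 2 4 + (0 : Matrix (Fin 6) (Fin 6) K) 3 5 = 0
    simp

end

/-- The long root groups of `2E_6(q)`: the six-dimensional white isotropic subspaces fixed by the
unitary polarity, over the field of `q^2` elements. -/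
theorem twisted67 {K : Type} [Field K] [Finite K] {G Ω : Type} [Group G] [Fintype Ω]
    [MulAction G Ω] [MulAction.IsPretransitive G Ω] (σ : K →+* K) (hσ : ∀ t, σ (σ t) = t)
    (hσ1 : ∃ t, σ t ≠ t) (e : Ω ≃ LR2 σ)
    (hG : ∀ (g : G) (x : V K), Abs σ x → ∃ x', Abs σ x' ∧
      ∀ ω : Ω, x ∈ (e ω).1 ↔ x' ∈ (e (g • ω)).1) :
    NonSpreading G Ω := by
  have : Fintype K := Fintype.ofFinite K
  obtain ⟨t, ht⟩ := hσ1
  have hc : t - σ t ≠ 0 := sub_ne_zero.2 (Ne.symm ht)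
  have hc' : σ (t - σ t) = -(t - σ t) := by
    rw [map_sub, hσ]
    ring
  have hθ : t / (t - σ t) + σ (t / (t - σ t)) = 1 := by
    rw [map_div₀, hc']
    field_simp
    ring
  let c : K := t - σ t
  let v : Ω → ℤ := fun ω => (if Opp (e ω).1 ∧ ValC c (e ω).1 0 then 1 else 0) -
    (if Opp (e ω).1 ∧ ValC c (e ω).1 1 then 1 else 0)
  let ω₀ : Ω := e.symm ⟨W0, W0_lr2 σ⟩
  let ω₁ : Ω := e.symm ⟨W1, W1_lr2 σ⟩
  have he0 : (e ω₀).1 = W0 := by rw [e.apply_symm_apply]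
  have he1 : (e ω₁).1 = W1 := by rw [e.apply_symm_apply]
  have hne0 : (Pi.single 0 1 : Fin 6 → K) ≠ 0 := single_ne 0
  let p₀ : V K := (0, 0, Pi.single 0 1)
  have hp₀ : Abs σ p₀ := abs_p0 σ
  have hsum : ∀ p : V K, Abs σ p → ∑ ω : Ω, (if p ∈ (e ω).1 then v ω else 0) = 0 := by
    intro p hp
    have h := star_card2 star2_97 nu97 hσ hc hc' hθ e p hp
    rw [Finset.card_filter, Finset.card_filter] at h
    have h' : (∑ ω : Ω, if p ∈ (e ω).1 ∧ Opp (e ω).1 ∧ ValC c (e ω).1 0 then (1 : ℤ) else 0) =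
        ∑ ω : Ω, if p ∈ (e ω).1 ∧ Opp (e ω).1 ∧ ValC c (e ω).1 1 then (1 : ℤ) else 0 := by
      exact_mod_cast h
    have h2 : ∀ ω : Ω, (if p ∈ (e ω).1 then v ω else 0) =
        (if p ∈ (e ω).1 ∧ Opp (e ω).1 ∧ ValC c (e ω).1 0 then (1 : ℤ) else 0) -
        if p ∈ (e ω).1 ∧ Opp (e ω).1 ∧ ValC c (e ω).1 1 then (1 : ℤ) else 0 := by
      intro ω
      by_cases h3 : p ∈ (e ω).1
      · simp only [h3, true_and, if_true, v]
      · simp only [h3, false_and, if_false, sub_zero]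
    rw [Finset.sum_congr rfl fun ω _ => h2 ω, Finset.sum_sub_distrib, h', sub_self]
  have hv0 : v ω₀ = 1 := by
    show (if Opp (e ω₀).1 ∧ ValC c (e ω₀).1 0 then (1 : ℤ) else 0) -
      (if Opp (e ω₀).1 ∧ ValC c (e ω₀).1 1 then 1 else 0) = 1
    rw [he0, if_pos ⟨W0_opp, (W0_valC c 0).2 rfl⟩, if_neg, sub_zero]
    rintro ⟨-, h⟩
    exact one_ne_zero ((W0_valC c 1).1 h)
  have hp0 : p₀ ∈ (e ω₀).1 := by
    rw [he0]
    exact (mem_W0 _).2 ⟨_, rfl⟩
  have hp1 : p₀ ∉ (e ω₁).1 := by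
    rw [he1]
    intro h
    obtain ⟨w, hw⟩ := (mem_W1 _).1 h
    exact hne0 (congrArg (fun y : V K => y.2.2) hw)
  refine nonSpreading_of_vector v (fun ω => ?_) ⟨ω₀, by rw [hv0]; exact one_ne_zero⟩
    (Finset.univ.filter fun ω : Ω => p₀ ∈ (e ω).1) ?_ ?_ fun g => ?_
  · show -1 ≤ (if Opp (e ω).1 ∧ ValC c (e ω).1 0 then (1 : ℤ) else 0) -
      (if Opp (e ω).1 ∧ ValC c (e ω).1 1 then 1 else 0)
    split_ifs <;> norm_num
  · -- two subspaces in the star
    have h1 := hsum p₀ hp₀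
    by_contra hcard
    have h2 : (Finset.univ.filter fun ω : Ω => p₀ ∈ (e ω).1) = {ω₀} := by
      refine (Finset.eq_of_subset_of_card_le ?_ ?_).symm
      · rw [Finset.singleton_subset_iff, Finset.mem_filter]
        exact ⟨Finset.mem_univ _, hp0⟩
      · rw [Finset.card_singleton]
        omega
    rw [← Finset.sum_filter, h2, Finset.sum_singleton, hv0] at h1
    exact one_ne_zero h1
  · rw [← Finset.card_univ]
    refine Finset.card_lt_card ((Finset.ssubset_iff_of_subset (Finset.subset_univ _)).2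
      ⟨ω₁, Finset.mem_univ _, ?_⟩)
    rw [Finset.mem_filter]
    exact fun h => hp1 h.2
  · obtain ⟨p', hA, hp'⟩ := hG g p₀ hp₀
    refine Eq.trans ?_ (hsum p' hA)
    rw [Finset.sum_filter, ← Equiv.sum_comp (MulAction.toPerm g)
      (fun ω : Ω => if p' ∈ (e ω).1 then v ω else 0)]
    refine Finset.sum_congr rfl fun ω _ => ?_
    show (if p₀ ∈ (e ω).1 then v (g • ω) else 0) = if p' ∈ (e (g • ω)).1 then v (g • ω) else 0
    by_cases h3 : p₀ ∈ (e ω).1
    · rw [if_pos h3, if_pos ((hp' ω).1 h3)]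
    · rw [if_neg h3, if_neg fun h => h3 ((hp' ω).2 h)]

end SpreadPerm.EX.Tw
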