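import Pool.Agent.Lib.MP_e6ed9e_al.EX.Defs67
import Pool.Agent.Lib.MP_e6ed9e_al.EX.Reg77
import Pool.Agent.Lib.MP_e6ed9e_al.EX.Pf0_16
import Pool.Agent.Lib.MP_e6ed9e_al.EX.Cnt67

/-!
# Rows UU and UC: the white vectors with given last coordinate
-/

namespace SpreadPerm.EX.Uu77

open Matrix SpreadPerm.EX

noncomputable section

variable {F : Type} [Field F]

/-- The matrix of the signed four-Pfaffians. -/
def Qm (b : Matrix (Fin 6) (Fin 6) F) : Matrix (Fin 6) (Fin 6) F :=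
  !![0, pf b 2 3 4 5, -(pf b 1 3 4 5), pf b 1 2 4 5, -(pf b 1 2 3 5), pf b 1 2 3 4;
    -(pf b 2 3 4 5), 0, pf b 0 3 4 5, -(pf b 0 2 4 5), pf b 0 2 3 5, -(pf b 0 2 3 4);
    pf b 1 3 4 5, -(pf b 0 3 4 5), 0, pf b 0 1 4 5, -(pf b 0 1 3 5), pf b 0 1 3 4;
    -(pf b 1 2 4 5), pf b 0 2 4 5, -(pf b 0 1 4 5), 0, pf b 0 1 2 5, -(pf b 0 1 2 4);
    pf b 1 2 3 5, -(pf b 0 2 3 5), pf b 0 1 3 5, -(pf b 0 1 2 5), 0, pf b 0 1 2 3;
    -(pf b 1 2 3 4), pf b 0 2 3 4, -(pf b 0 1 3 4), pf b 0 1 2 4, -(pf b 0 1 2 3), 0]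

theorem Qm_self (b : Matrix (Fin 6) (Fin 6) F) (y : Fin 6 → F) : y ⬝ᵥ (Qm b *ᵥ y) = 0 := by
  simp only [Qm, mulVec, dotProduct, Fin.sum_univ_six, Matrix.of_apply, Matrix.cons_val',
    Matrix.cons_val_zero, Matrix.cons_val_one, Matrix.cons_val]
  ring

theorem expandQ (b : Matrix (Fin 6) (Fin 6) F) (y z : Fin 6 → F) :
    Pf (b + wedge y z) = Pf b + y ⬝ᵥ (Qm b *ᵥ z) := by
  rw [Pf016.expand]
  simp only [Qm, mulVec, dotProduct, Fin.sum_univ_six, Matrix.of_apply, Matrix.cons_val',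
    Matrix.cons_val_zero, Matrix.cons_val_one, Matrix.cons_val]
  ring

theorem Qm_swap (b : Matrix (Fin 6) (Fin 6) F) (y z : Fin 6 → F) :
    y ⬝ᵥ (Qm b *ᵥ z) = -(z ⬝ᵥ (Qm b *ᵥ y)) := by
  have h := Qm_self b (y + z)
  rw [mulVec_add, dotProduct_add, add_dotProduct, add_dotProduct, Qm_self, Qm_self] at h
  linear_combination h

theorem Qm_mul (b : Matrix (Fin 6) (Fin 6) F) (hb : Alt b) (y : Fin 6 → F) :
    Qm b *ᵥ (b *ᵥ y) = -(Pf b • y) := by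
  have hx : ∀ v : Fin 6 → F, ∀ k, (Qm b *ᵥ v) k = ∑ j, Qm b k j * v j := fun v k => rfl
  have k0 : (Qm b *ᵥ (b *ᵥ y)) 0 = -(Pf b * y 0) := by
    rw [hx, Fin.sum_univ_six]
    simp only [Qm, Matrix.of_apply, Matrix.cons_val',
      Matrix.cons_val_zero, Matrix.cons_val_one, Matrix.cons_val]
    linear_combination Reg77.coord0 b hb y
  have k1 : (Qm b *ᵥ (b *ᵥ y)) 1 = -(Pf b * y 1) := by
    rw [hx, Fin.sum_univ_six]
    simp only [Qm, Matrix.of_apply, Matrix.cons_val',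
      Matrix.cons_val_zero, Matrix.cons_val_one, Matrix.cons_val]
    linear_combination Reg77.coord1 b hb y
  have k2 : (Qm b *ᵥ (b *ᵥ y)) 2 = -(Pf b * y 2) := by
    rw [hx, Fin.sum_univ_six]
    simp only [Qm, Matrix.of_apply, Matrix.cons_val',
      Matrix.cons_val_zero, Matrix.cons_val_one, Matrix.cons_val]
    linear_combination Reg77.coord2 b hb y
  have k3 : (Qm b *ᵥ (b *ᵥ y)) 3 = -(Pf b * y 3) := by
    rw [hx, Fin.sum_univ_six]
    simp only [Qm, Matrix.of_apply, Matrix.cons_val',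
      Matrix.cons_val_zero, Matrix.cons_val_one, Matrix.cons_val]
    linear_combination Reg77.coord3 b hb y
  have k4 : (Qm b *ᵥ (b *ᵥ y)) 4 = -(Pf b * y 4) := by
    rw [hx, Fin.sum_univ_six]
    simp only [Qm, Matrix.of_apply, Matrix.cons_val',
      Matrix.cons_val_zero, Matrix.cons_val_one, Matrix.cons_val]
    linear_combination Reg77.coord4 b hb y
  have k5 : (Qm b *ᵥ (b *ᵥ y)) 5 = -(Pf b * y 5) := by
    rw [hx, Fin.sum_univ_six]
    simp only [Qm, Matrix.of_apply, Matrix.cons_val',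
      Matrix.cons_val_zero, Matrix.cons_val_one, Matrix.cons_val]
    linear_combination Reg77.coord5 b hb y
  have key : ∀ i, (Qm b *ᵥ (b *ᵥ y)) i = -(Pf b * y i) := by
    intro i
    fin_cases i
    · exact k0
    · exact k1
    · exact k2
    · exact k3
    · exact k4
    · exact k5
  funext i
  rw [key i]
  rfl

/-- The Pfaffian vanishes when there is a kernel. -/
theorem pf_zero (b : Matrix (Fin 6) (Fin 6) F) (hb : Alt b) (u : Fin 6 → F) (hu : u ≠ 0)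
    (h : b *ᵥ u = 0) : Pf b = 0 := by
  by_contra hP
  exact hu (Reg77.ker_zero b hb hP u h)

theorem alt_add {b c : Matrix (Fin 6) (Fin 6) F} (hb : Alt b) (hc : Alt c) : Alt (b + c) := by
  refine ⟨fun i => ?_, fun i j => ?_⟩
  · rw [Matrix.add_apply, hb.1, hc.1, add_zero]
  · rw [Matrix.add_apply, Matrix.add_apply, hb.2 i j, hc.2 i j]
    ring

/-- The signed four-Pfaffians vanish on the orthogonal space of the kernel vector. -/
theorem perp (b : Matrix (Fin 6) (Fin 6) F) (hb : Alt b) (u : Fin 6 → F) (hu : u ≠ 0)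
    (h : b *ᵥ u = 0) (y z : Fin 6 → F) (hy : y ⬝ᵥ u = 0) (hz : z ⬝ᵥ u = 0) :
    y ⬝ᵥ (Qm b *ᵥ z) = 0 := by
  have h1 : Pf (b + wedge y z) = 0 := by
    apply pf_zero (b + wedge y z) (alt_add hb (wedge_alt y z)) u hu
    rw [add_mulVec, h, zero_add]
    funext i
    rw [wedge_mulVec, hy, hz]
    simp
  rw [expandQ, pf_zero b hb u hu h, zero_add] at h1
  exact h1

/-- The fibre lemma. -/
theorem fibre (b : Matrix (Fin 6) (Fin 6) F) (hb : Alt b) (u y0 : Fin 6 → F)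
    (h0 : y0 ⬝ᵥ u = 1) (h : b *ᵥ u = 0) (y z : Fin 6 → F) :
    y ⬝ᵥ (Qm b *ᵥ z) = (y ⬝ᵥ (Qm b *ᵥ y0)) * (z ⬝ᵥ u) - (y ⬝ᵥ u) * (z ⬝ᵥ (Qm b *ᵥ y0)) := by
  have hu : u ≠ 0 := by
    rintro rfl
    simp at h0
  have h1 := perp b hb u hu h (y - (y ⬝ᵥ u) • y0) (z - (z ⬝ᵥ u) • y0)
    (by rw [sub_dotProduct, smul_dotProduct, h0]; simp)
    (by rw [sub_dotProduct, smul_dotProduct, h0]; simp)
  rw [mulVec_sub, mulVec_smul, dotProduct_sub, sub_dotProduct, sub_dotProduct, dotProduct_smul,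
    dotProduct_smul, smul_dotProduct, smul_dotProduct, Qm_self, Qm_swap b y0 z] at h1
  simp only [smul_eq_mul] at h1
  linear_combination h1

theorem kill (b : Matrix (Fin 6) (Fin 6) F) (hb : Alt b) (u y0 : Fin 6 → F)
    (hu : u ≠ 0) (h : b *ᵥ u = 0) : b *ᵥ (Qm b *ᵥ y0) = 0 := by
  funext i
  have h1 : (Pi.single i 1 : Fin 6 → F) ⬝ᵥ (b *ᵥ (Qm b *ᵥ y0)) = 0 := by
    rw [Reg77.dot_swap b hb, Qm_swap, Qm_mul b hb, pf_zero b hb u hu h]
    simp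
  rw [single_dotProduct, one_mul] at h1
  exact h1

/-- White vectors through the matrix of the signed four-Pfaffians. -/
theorem white_iff (w u : Fin 6 → F) (b : Matrix (Fin 6) (Fin 6) F) :
    White (w, b, u) ↔ Alt b ∧ b *ᵥ w = 0 ∧ b *ᵥ u = 0 ∧
      ∀ y z : Fin 6 → F, y ⬝ᵥ (Qm b *ᵥ z) = (y ⬝ᵥ w) * (z ⬝ᵥ u) - (y ⬝ᵥ u) * (z ⬝ᵥ w) := by
  unfold White
  simp only [expandQ, add_right_inj]

/-- The white vectors with last coordinate `u` such that the middle coordinate satisfies `P`. -/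
def eqv (u y0 : Fin 6 → F) (h0 : y0 ⬝ᵥ u = 1) (P : Matrix (Fin 6) (Fin 6) F → Prop) :
    {x : (Fin 6 → F) × Matrix (Fin 6) (Fin 6) F // White (x.1, x.2, u) ∧ P x.2} ≃
      {b : Matrix (Fin 6) (Fin 6) F // (Alt b ∧ b *ᵥ u = 0) ∧ P b} × F where
  toFun x := (⟨x.1.2, ⟨x.2.1.1, x.2.1.2.2.1⟩, x.2.2⟩, y0 ⬝ᵥ x.1.1)
  invFun p := ⟨(Qm p.1.1 *ᵥ y0 + p.2 • u, p.1.1), by
    obtain ⟨⟨b, ⟨hb, hbu⟩, hP⟩, t⟩ := p
    have hu : u ≠ 0 := by
      rintro rfl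
      simp at h0
    refine ⟨(white_iff _ _ _).2 ⟨hb, ?_, hbu, fun y z => ?_⟩, hP⟩
    · show b *ᵥ (Qm b *ᵥ y0 + t • u) = 0
      rw [mulVec_add, mulVec_smul, hbu, kill b hb u y0 hu hbu]
      simp
    · show y ⬝ᵥ (Qm b *ᵥ z) = (y ⬝ᵥ (Qm b *ᵥ y0 + t • u)) * (z ⬝ᵥ u) -
        (y ⬝ᵥ u) * (z ⬝ᵥ (Qm b *ᵥ y0 + t • u))
      rw [fibre b hb u y0 h0 hbu y z, dotProduct_add, dotProduct_add, dotProduct_smul,
        dotProduct_smul]
      simp only [smul_eq_mul]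
      ring⟩
  left_inv x := by
    obtain ⟨⟨w, b⟩, hw, hP⟩ := x
    have hw' := ((white_iff _ _ _).1 hw).2.2.2
    apply Subtype.ext
    refine Prod.ext (funext fun i => ?_) rfl
    have h1 := hw' (Pi.single i 1) y0
    rw [single_dotProduct, single_dotProduct, single_dotProduct, h0] at h1
    show (Qm b *ᵥ y0) i + (y0 ⬝ᵥ w) * u i = w i
    linear_combination h1
  right_inv p := by
    obtain ⟨⟨b, ⟨hb, hbu⟩, hP⟩, t⟩ := p
    refine Prod.ext rfl ?_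
    show y0 ⬝ᵥ (Qm b *ᵥ y0 + t • u) = t
    rw [dotProduct_add, Qm_self, dotProduct_smul, h0]
    simp

theorem card_fibre (u : Fin 6 → F) (hu : u ≠ 0) (P : Matrix (Fin 6) (Fin 6) F → Prop) :
    Nat.card {x : (Fin 6 → F) × Matrix (Fin 6) (Fin 6) F // White (x.1, x.2, u) ∧ P x.2} =
      Nat.card {b : Matrix (Fin 6) (Fin 6) F // (Alt b ∧ b *ᵥ u = 0) ∧ P b} * Nat.card F := by
  obtain ⟨k, hk⟩ : ∃ k, u k ≠ 0 := by
    by_contra h
    push Not at h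
    exact hu (funext h)
  have h0 : (Pi.single k (u k)⁻¹ : Fin 6 → F) ⬝ᵥ u = 1 := by
    rw [single_dotProduct, inv_mul_cancel₀ hk]
  rw [Nat.card_congr (eqv u _ h0 P), Nat.card_prod]

end

end SpreadPerm.EX.Uu77
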